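import Mathlib

/-!
# Logarithmic asymptotics (project RE)
-/

set_option autoImplicit false

open Real Set Filter Topology MeasureTheory
open Complex (I)

namespace Pool.Agent.D0H32.RE

/-- the angle of `1 + i z` -/
noncomputable def ang (z : ℝ) : ℝ := (1 + z * I : ℂ).arg

theorem slit (z : ℝ) : (1 + z * I : ℂ) ∈ Complex.slitPlane := by
  rw [Complex.mem_slitPlane_iff]; left; simp

theorem continuous_ang : Continuous ang := by
  rw [continuous_iff_continuousAt]
  intro z
  have h1 : ContinuousAt (fun z : ℝ => (1 + z * I : ℂ)) z := by fun_prop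
  exact (Complex.continuousAt_arg (slit z)).comp (f := fun z : ℝ => (1 + z * I : ℂ)) h1

theorem ang_neg (z : ℝ) : ang (-z) = -ang z := by
  rw [ang, ang]
  have h1 : (1 + ((-z : ℝ) : ℂ) * I : ℂ) = (starRingEnd ℂ) (1 + z * I) := by
    simp only [map_add, map_one, map_mul, Complex.conj_ofReal, Complex.conj_I]
    push_cast; ring
  rw [h1, Complex.arg_conj, if_neg]
  exact (Complex.mem_slitPlane_iff_arg.1 (slit z)).1

theorem ang_tendsto : Tendsto ang atTop (𝓝 (π / 2)) := by
  have h1 : Tendsto (fun z : ℝ => ((z⁻¹ : ℝ) : ℂ) + I) atTop (𝓝 (((0:ℝ) : ℂ) + I)) :=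
    ((Complex.continuous_ofReal.tendsto 0).comp tendsto_inv_atTop_zero).add tendsto_const_nhds
  have h2 : ContinuousAt Complex.arg (((0:ℝ) : ℂ) + I) := by
    apply Complex.continuousAt_arg
    rw [Complex.mem_slitPlane_iff]; right; simp
  have h3 := h2.tendsto.comp h1
  have h4 : (((0:ℝ) : ℂ) + I).arg = π / 2 := by
    rw [Complex.ofReal_zero, zero_add, Complex.arg_I]
  rw [h4] at h3
  refine h3.congr' ?_
  filter_upwards [eventually_gt_atTop 0] with z hz
  have e : (1 + z * I : ℂ) = (z : ℂ) * (((z⁻¹ : ℝ) : ℂ) + I) := by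
    have : (z : ℂ) ≠ 0 := by exact_mod_cast hz.ne'
    push_cast
    field_simp
  simp only [Function.comp, ang]
  rw [e, Complex.arg_real_mul _ hz]

/-- the logarithmically divergent integral -/
noncomputable def Phi (W : ℝ → ℝ) (L : ℝ) : ℝ := ∫ z in (-L)..L, W (ang z) / ‖(1 + z * I : ℂ)‖

theorem norm_pos' (z : ℝ) : 0 < ‖(1 + z * I : ℂ)‖ := norm_pos_iff.2 (Complex.slitPlane_ne_zero (slit z))

theorem norm_neg' (z : ℝ) : ‖(1 + ((-z : ℝ) : ℂ) * I : ℂ)‖ = ‖(1 + z * I : ℂ)‖ := by
  have h1 : (1 + ((-z : ℝ) : ℂ) * I : ℂ) = (starRingEnd ℂ) (1 + z * I) := by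
    simp only [map_add, map_one, map_mul, Complex.conj_ofReal, Complex.conj_I]
    push_cast; ring
  rw [h1, RCLike.norm_conj]

theorem Phi_cont {W : ℝ → ℝ} (hW : Continuous W) :
    Continuous fun z : ℝ => W (ang z) / ‖(1 + z * I : ℂ)‖ := by
  apply (hW.comp continuous_ang).div
  · fun_prop
  · exact fun z => (norm_pos' z).ne'

theorem Phi_symm {W : ℝ → ℝ} (hW : Continuous W) (L : ℝ) :
    Phi W L = ∫ z in (0:ℝ)..L, (W (ang z) + W (-ang z)) / ‖(1 + z * I : ℂ)‖ := by
  have hc := Phi_cont hW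
  rw [Phi, ← intervalIntegral.integral_add_adjacent_intervals (b := 0)
    (hc.intervalIntegrable _ _) (hc.intervalIntegrable _ _)]
  have h1 : ∫ z in (-L)..0, W (ang z) / ‖(1 + z * I : ℂ)‖ =
      ∫ z in (0:ℝ)..L, W (-ang z) / ‖(1 + z * I : ℂ)‖ := by
    have h2 := intervalIntegral.integral_comp_neg (a := 0) (b := L)
      (fun z : ℝ => W (ang z) / ‖(1 + z * I : ℂ)‖)
    rw [neg_zero] at h2
    rw [← h2]
    simp only [ang_neg, norm_neg']
  rw [h1, ← intervalIntegral.integral_add]
  · congr 1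
    funext z
    ring
  · apply Continuous.intervalIntegrable
    apply (hW.comp continuous_ang.neg).div
    · fun_prop
    · exact fun z => (norm_pos' z).ne'
  · exact hc.intervalIntegrable _ _

theorem Phi_nonneg {W : ℝ → ℝ} (h0 : ∀ t, 0 ≤ W t) {L : ℝ} (hL : 0 ≤ L) : 0 ≤ Phi W L := by
  apply intervalIntegral.integral_nonneg (by linarith)
  intro z _
  exact div_nonneg (h0 _) (norm_nonneg _)

theorem asym {q : ℝ} (hq : 0 < q) {WA WB : ℝ → ℝ} (cA : Continuous WA) (cB : Continuous WB)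
    (nA : ∀ t, 0 ≤ WA t) (nB : ∀ t, 0 ≤ WB t) {lam M : ℝ} (hlam : 0 ≤ lam) (hM : 0 ≤ M)
    (hyp : ∀ L, 1 / 2 < L → (Phi WA L) ^ (1 / q) ≤ lam * (Phi WB L) ^ (1 / q) + M) :
    WA (π / 2) + WA (-(π / 2)) ≤ lam ^ q * (WB (π / 2) + WB (-(π / 2))) := by
  by_contra hcon
  push Not at hcon
  obtain ⟨β, hβ⟩ : ∃ β : ℝ, β = WB (π / 2) + WB (-(π / 2)) := ⟨_, rfl⟩
  obtain ⟨a0, ha0⟩ : ∃ a0 : ℝ, a0 = WA (π / 2) + WA (-(π / 2)) := ⟨_, rfl⟩
  rw [← hβ, ← ha0] at hcon
  have hβ0 : 0 ≤ β := by rw [hβ]; exact add_nonneg (nB _) (nB _)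
  obtain ⟨η, hη⟩ : ∃ η : ℝ, η = a0 - lam ^ q * β := ⟨_, rfl⟩
  have hη0 : 0 < η := by rw [hη]; linarith
  obtain ⟨m, hm⟩ : ∃ m : ℝ, m = lam ^ q + η / (2 * (β + 1)) := ⟨_, rfl⟩
  have hlq : 0 ≤ lam ^ q := Real.rpow_nonneg hlam _
  have hm1 : lam ^ q < m := by
    rw [hm]
    have : 0 < η / (2 * (β + 1)) := by positivity
    linarith
  have hm0 : 0 < m := lt_of_le_of_lt hlq hm1
  have hmβ : m * β ≤ a0 - η / 2 := by
    rw [hm]
    have h1 : η / (2 * (β + 1)) * β ≤ η / 2 := by
      rw [div_mul_eq_mul_div, div_le_div_iff₀ (by positivity) (by norm_num)]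
      nlinarith
    have h2 : a0 - η / 2 = lam ^ q * β + η / 2 := by rw [hη]; ring
    rw [h2]; linarith
  -- the difference function
  let D : ℝ → ℝ := fun z => (WA (ang z) + WA (-ang z)) - m * (WB (ang z) + WB (-ang z))
  have hDc : Continuous D := by
    have c1 := continuous_ang
    exact ((cA.comp c1).add (cA.comp c1.neg)).sub
      (continuous_const.mul ((cB.comp c1).add (cB.comp c1.neg)))
  have hDlim : Tendsto D atTop (𝓝 (a0 - m * β)) := by
    have t1 := ang_tendsto
    have t2 := ang_tendsto.neg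
    have u1 := (cA.tendsto (π / 2)).comp t1
    have u2 := (cA.tendsto (-(π / 2))).comp t2
    have u3 := (cB.tendsto (π / 2)).comp t1
    have u4 := (cB.tendsto (-(π / 2))).comp t2
    rw [ha0, hβ]
    exact (u1.add u2).sub ((u3.add u4).const_mul m)
  have hev : ∀ᶠ z in atTop, η / 4 < D z := hDlim.eventually_const_lt (by linarith)
  obtain ⟨Z, hZ⟩ := (hev.and (eventually_gt_atTop 0)).exists_forall_of_atTop
  have hZ0 : 0 < Z := (hZ Z le_rfl).2
  -- the lower bound
  have hΨ : ∀ L, Phi WA L - m * Phi WB L = ∫ z in (0:ℝ)..L, D z / ‖(1 + z * I : ℂ)‖ := by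
    intro L
    rw [Phi_symm cA, Phi_symm cB, ← intervalIntegral.integral_const_mul,
      ← intervalIntegral.integral_sub]
    · congr 1
      funext z
      simp only [D]
      ring
    · apply Continuous.intervalIntegrable
      apply ((cA.comp continuous_ang).add (cA.comp continuous_ang.neg)).div
      · fun_prop
      · exact fun z => (norm_pos' z).ne'
    · apply Continuous.intervalIntegrable
      apply continuous_const.mul
      apply ((cB.comp continuous_ang).add (cB.comp continuous_ang.neg)).div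
      · fun_prop
      · exact fun z => (norm_pos' z).ne'
  have hDic : Continuous fun z : ℝ => D z / ‖(1 + z * I : ℂ)‖ := by
    apply hDc.div
    · fun_prop
    · exact fun z => (norm_pos' z).ne'
  obtain ⟨c0, hc0⟩ : ∃ c0 : ℝ, c0 = ∫ z in (0:ℝ)..Z, D z / ‖(1 + z * I : ℂ)‖ := ⟨_, rfl⟩
  have hlow : ∀ L, Z ≤ L → c0 + η / 4 * (Real.log (1 + L) - Real.log (1 + Z)) ≤
      Phi WA L - m * Phi WB L := by
    intro L hL
    rw [hΨ, ← intervalIntegral.integral_add_adjacent_intervals (b := Z)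
      (hDic.intervalIntegrable _ _) (hDic.intervalIntegrable _ _), ← hc0]
    apply add_le_add le_rfl
    have h1 : ∫ z in Z..L, η / 4 * (1 / (1 + z)) = η / 4 * (Real.log (1 + L) - Real.log (1 + Z)) := by
      rw [intervalIntegral.integral_const_mul]
      congr 1
      apply intervalIntegral.integral_eq_sub_of_hasDerivAt
      · intro z hz
        rw [uIcc_of_le hL] at hz
        have hz0 : 0 < 1 + z := by linarith [hz.1]
        have h2 : HasDerivAt (fun z : ℝ => 1 + z) 1 z := by
          simpa using (hasDerivAt_id z).const_add 1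
        exact h2.log hz0.ne'
      · apply ContinuousOn.intervalIntegrable
        intro z hz
        rw [uIcc_of_le hL] at hz
        have hz0 : 0 < 1 + z := by linarith [hz.1]
        exact (continuousAt_const.div (by fun_prop) hz0.ne').continuousWithinAt
    rw [← h1]
    apply intervalIntegral.integral_mono_on hL
    · apply ContinuousOn.intervalIntegrable
      intro z hz
      rw [uIcc_of_le hL] at hz
      have hz0 : 0 < 1 + z := by linarith [hz.1]
      exact (continuousAt_const.mul (continuousAt_const.div (by fun_prop) hz0.ne')).continuousWithinAt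
    · exact hDic.intervalIntegrable _ _
    · intro z hz
      have hz0 : 0 < 1 + z := by linarith [hz.1]
      have h2 := (hZ z hz.1).1
      have h3 : ‖(1 + z * I : ℂ)‖ ≤ 1 + z := by
        refine le_trans (norm_add_le _ _) ?_
        rw [norm_one, norm_mul, Complex.norm_I, mul_one, Complex.norm_real, Real.norm_eq_abs,
          abs_of_pos (by linarith [hz.1])]
      rw [mul_one_div, div_le_div_iff₀ hz0 (norm_pos' z)]
      have h4 := norm_pos' z
      nlinarith
  -- the upper bound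
  have hlm : lam < m ^ (1 / q) := by
    have h1 : (lam ^ q) ^ (1 / q) < m ^ (1 / q) := Real.rpow_lt_rpow hlq hm1 (by positivity)
    rwa [← Real.rpow_mul hlam, mul_one_div_cancel hq.ne', Real.rpow_one] at h1
  obtain ⟨X0, hX0⟩ : ∃ X0 : ℝ, X0 = M / (m ^ (1 / q) - lam) := ⟨_, rfl⟩
  have hX00 : 0 ≤ X0 := by rw [hX0]; exact div_nonneg hM (by linarith)
  have hup : ∀ X, 0 ≤ X → (lam * X + M) ^ q ≤ m * X ^ q + (lam * X0 + M) ^ q := by
    intro X hX
    rcases le_total X X0 with h | h
    · have h1 : (lam * X + M) ^ q ≤ (lam * X0 + M) ^ q := by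
        apply Real.rpow_le_rpow (by positivity) _ hq.le
        nlinarith
      have h2 : 0 ≤ m * X ^ q := by positivity
      linarith
    · have h1 : lam * X + M ≤ m ^ (1 / q) * X := by
        rw [hX0, div_le_iff₀ (by linarith)] at h
        linarith
      have h2 : (lam * X + M) ^ q ≤ (m ^ (1 / q) * X) ^ q :=
        Real.rpow_le_rpow (by positivity) h1 hq.le
      rw [Real.mul_rpow (by positivity) hX, ← Real.rpow_mul hm0.le, one_div_mul_cancel hq.ne',
        Real.rpow_one] at h2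
      have h3 : 0 ≤ (lam * X0 + M) ^ q := by positivity
      linarith
  have hΨup : ∀ L, 1 / 2 < L → Phi WA L - m * Phi WB L ≤ (lam * X0 + M) ^ q := by
    intro L hL
    have hA := Phi_nonneg nA (show 0 ≤ L by linarith)
    have hB := Phi_nonneg nB (show 0 ≤ L by linarith)
    have h1 := hyp L hL
    have h2 : Phi WA L = ((Phi WA L) ^ (1 / q)) ^ q := by
      rw [← Real.rpow_mul hA, one_div_mul_cancel hq.ne', Real.rpow_one]
    have h3 : ((Phi WB L) ^ (1 / q)) ^ q = Phi WB L := by
      rw [← Real.rpow_mul hB, one_div_mul_cancel hq.ne', Real.rpow_one]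
    have h4 : ((Phi WA L) ^ (1 / q)) ^ q ≤ (lam * (Phi WB L) ^ (1 / q) + M) ^ q :=
      Real.rpow_le_rpow (by positivity) h1 hq.le
    have h5 := hup _ (Real.rpow_nonneg hB (1 / q))
    rw [h3] at h5
    rw [← h2] at h4
    linarith
  -- contradiction
  have hlog : Tendsto (fun L : ℝ => Real.log (1 + L)) atTop atTop :=
    Real.tendsto_log_atTop.comp (tendsto_atTop_add_const_left _ _ tendsto_id)
  obtain ⟨L, hL1, hL2⟩ := ((hlog.eventually_gt_atTop
    (Real.log (1 + Z) + 4 / η * ((lam * X0 + M) ^ q - c0 + 1))).and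
    (eventually_gt_atTop (max Z (1 / 2)))).exists
  have h1 := hlow L (le_trans (le_max_left _ _) hL2.le)
  have h2 := hΨup L (lt_of_le_of_lt (le_max_right _ _) hL2)
  have h3 : η / 4 * (4 / η * ((lam * X0 + M) ^ q - c0 + 1)) = (lam * X0 + M) ^ q - c0 + 1 := by
    field_simp
  have h4 : η / 4 * (4 / η * ((lam * X0 + M) ^ q - c0 + 1)) <
      η / 4 * (Real.log (1 + L) - Real.log (1 + Z)) :=
    mul_lt_mul_of_pos_left (by linarith) (by positivity)
  linarith

end Pool.Agent.D0H32.RE
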