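import Pool.Agent.D0H32.RE.Sub

/-!
# The subharmonic inequality, boundary form (project RE)
-/

set_option autoImplicit false

open Real Set Filter Topology MeasureTheory
open Complex (I)

namespace Pool.Agent.D0H32.RE

/-- values on the imaginary axis -/
noncomputable def rho (s : Finset ℝ) (c : ℝ → ℝ) (t : ℝ) : ℝ := ∑ b ∈ s, c b * (1 / (Real.exp t + b))

noncomputable def rho1 (s : Finset ℝ) (c : ℝ → ℝ) (t : ℝ) : ℝ :=
  ∑ b ∈ s, c b * (-Real.exp t / (Real.exp t + b) ^ 2)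

theorem hasDerivAt_rho {s : Finset ℝ} {c : ℝ → ℝ} (hs : ∀ b ∈ s, 0 < b) (t : ℝ) :
    HasDerivAt (rho s c) (rho1 s c t) t := by
  have h := HasDerivAt.fun_sum (u := s) (A := fun b t => c b * (1 / (Real.exp t + b))) (x := t)
    (A' := fun b => c b * (-Real.exp t / (Real.exp t + b) ^ 2))
    (fun b hb => by
      have h0 := hs b hb
      have hne : Real.exp t + b ≠ 0 := by positivity
      have h1 := ((hasDerivAt_const t (1:ℝ)).div ((Real.hasDerivAt_exp t).add_const b) hne).const_mul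
        (c b)
      refine h1.congr_deriv ?_
      field_simp
      ring)
  exact h

theorem exp_top (t : ℝ) : Complex.exp (t + (π / 2 : ℝ) * I) = I * (Real.exp t : ℝ) := by
  rw [Complex.exp_add, Complex.exp_mul_I, ← Complex.ofReal_cos, ← Complex.ofReal_sin,
    Real.cos_pi_div_two, Real.sin_pi_div_two, ← Complex.ofReal_exp]
  push_cast
  ring

theorem F0_top {s : Finset ℝ} {c : ℝ → ℝ} (hs : ∀ b ∈ s, 0 < b) (t : ℝ) :
    F0 s c (t + (π / 2 : ℝ) * I) = (rho s c t : ℝ) := by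
  rw [F0, rho, exp_top]
  push_cast
  apply Finset.sum_congr rfl
  intro b hb
  have h0 := hs b hb
  have hne : (Complex.exp t + (b:ℂ)) ≠ 0 := by
    have : Complex.exp t + (b:ℂ) = ((Real.exp t + b : ℝ) : ℂ) := by push_cast; rfl
    rw [this]
    exact_mod_cast (by positivity : Real.exp t + b ≠ 0)
  have : I * Complex.exp t + I * (b:ℂ) = I * (Complex.exp t + b) := by ring
  rw [this]
  field_simp [Complex.I_ne_zero]

theorem F1_top {s : Finset ℝ} {c : ℝ → ℝ} (hs : ∀ b ∈ s, 0 < b) (t : ℝ) :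
    F1 s c (t + (π / 2 : ℝ) * I) = (rho1 s c t : ℝ) := by
  rw [F1, rho1, exp_top]
  push_cast
  apply Finset.sum_congr rfl
  intro b hb
  have h0 := hs b hb
  have hne : (Complex.exp t + (b:ℂ)) ≠ 0 := by
    have : Complex.exp t + (b:ℂ) = ((Real.exp t + b : ℝ) : ℂ) := by push_cast; rfl
    rw [this]
    exact_mod_cast (by positivity : Real.exp t + b ≠ 0)
  have : I * Complex.exp t + I * (b:ℂ) = I * (Complex.exp t + b) := by ring
  rw [this]
  have hI : I ^ 2 = -1 := Complex.I_sq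
  rw [mul_pow, hI]
  have h2 : I * (I * Complex.exp t) = -Complex.exp t := by
    rw [← mul_assoc, ← sq, hI]; ring
  rw [h2]
  field_simp

theorem mem_strip (t : ℝ) {σ : ℝ} (hσ : σ ∈ Icc 0 (π / 2)) : ((t : ℂ) + σ * I) ∈ strip := by
  constructor <;> simp [hσ.1, hσ.2]

theorem mem_strip0 (t : ℝ) : ((t : ℂ)) ∈ strip := by
  constructor
  · simp
  · simp; positivity

theorem arg_real_cases (x : ℝ) : (x : ℂ).arg = 0 ∨ (x : ℂ).arg = π := by
  rcases le_or_gt 0 x with h | h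
  · left; exact Complex.arg_ofReal_of_nonneg h
  · right; exact Complex.arg_ofReal_of_neg h

/-- the boundary form for a `C²` angular function -/
theorem sub_ineq {p B : ℝ} {φ φ1 φ2 : ℝ → ℝ} {s : Finset ℝ} {c : ℝ → ℝ} (hp : 2 < p)
    (hφ : ∀ θ, HasDerivAt φ (φ1 θ) θ)
    (hφ1 : ∀ θ, HasDerivAt φ1 (φ2 θ) θ) (per0 : ∀ θ, φ (θ + π) = φ θ)
    (per1 : ∀ θ, φ1 (θ + π) = φ1 θ)
    (B0 : ∀ θ, |φ θ| ≤ B) (B1 : ∀ θ, |φ1 θ| ≤ B) (B2 : ∀ θ, |φ2 θ| ≤ B)
    (hpos : ∀ θ, 0 ≤ φ2 θ + p ^ 2 * φ θ)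
    (hs : ∀ b ∈ s, 0 < b) :
    φ1 0 / p * ∫ t, |rho s c t| ^ p * Real.exp t ≤
      ∫ t : ℝ, ‖F0 s c t‖ ^ p * φ (F0 s c t).arg * Real.exp t := by
  have hK := KK_nonneg s c hs
  have hB0 : 0 ≤ B := le_trans (abs_nonneg _) (B0 0)
  have hp0 : 0 < p := by linarith
  obtain ⟨g, hg⟩ : ∃ g : ℝ → ℝ, g = fun t =>
    (p + 5) * (p + 1) * B * (KK s c / (1 + Real.exp t)) ^ p * Real.exp t := ⟨_, rfl⟩
  have hgi : Integrable g := by rw [hg]; exact integrable_g (by linarith) _ hK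
  have hcurve : ∀ (σ t : ℝ), HasDerivAt (fun t : ℝ => (t : ℂ) + σ * I) 1 t := fun σ t =>
    (Complex.ofRealCLM.hasDerivAt (x := t)).add_const _ |>.congr_deriv (by simp)
  have hcurve' : ∀ (σ t : ℝ), HasDerivAt (fun σ : ℝ => (t : ℂ) + σ * I) I σ := fun σ t =>
    (((Complex.ofRealCLM.hasDerivAt (x := σ)).mul_const I).const_add (t:ℂ)).congr_deriv (by simp)
  have hre : ∀ t σ : ℝ, ((t : ℂ) + σ * I).re = t := by intro t σ; simp
  have hd : ∀ σ ∈ Icc 0 (π / 2), ∀ t : ℝ, HasDerivAt (fun t : ℝ => VV p φ φ1 s c ((t : ℂ) + σ * I))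
      (VD p φ φ1 φ2 s c 1 ((t : ℂ) + σ * I)) t := fun σ hσ t =>
    hasDerivAt_VV hp hφ hφ1 per0 per1 B0 B1 hs (hcurve σ t) (mem_strip t hσ)
  have hd' : ∀ σ ∈ Icc 0 (π / 2), ∀ t : ℝ, HasDerivAt (fun σ : ℝ => VV p φ φ1 s c ((t : ℂ) + σ * I))
      (VD p φ φ1 φ2 s c I ((t : ℂ) + σ * I)) σ := fun σ hσ t =>
    hasDerivAt_VV hp hφ hφ1 per0 per1 B0 B1 hs (hcurve' σ t) (mem_strip t hσ)
  have hbV : ∀ σ ∈ Icc 0 (π / 2), ∀ t : ℝ, ‖VV p φ φ1 s c ((t : ℂ) + σ * I)‖ ≤ g t := by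
    intro σ hσ t
    have h1 := norm_VV_le (c := c) hp.le B0 B1 hs (mem_strip t hσ)
    rw [hre] at h1
    refine le_trans h1 ?_
    simp only [hg]
    have h2 : 0 ≤ (p + 4) * (p + 1) * (B * (KK s c / (1 + Real.exp t)) ^ p * Real.exp t) := by
      positivity
    nlinarith
  have hbD : ∀ d : ℂ, ‖d‖ ≤ 1 → ∀ σ ∈ Icc 0 (π / 2), ∀ t : ℝ,
      ‖VD p φ φ1 φ2 s c d ((t : ℂ) + σ * I)‖ ≤ g t := by
    intro d hd σ hσ t
    have h1 := norm_VD_le (c := c) hp.le B0 B1 B2 hs (mem_strip t hσ) hd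
    rw [hre] at h1
    rw [hg]
    exact h1
  have hsub : ∀ σ ∈ Ioo (0:ℝ) (π / 2), σ ∈ Icc (0:ℝ) (π / 2) := fun σ hσ => Ioo_subset_Icc_self hσ
  have hG := green (V := fun t σ => VV p φ φ1 s c ((t : ℂ) + σ * I))
    (Vt := fun t σ => VD p φ φ1 φ2 s c 1 ((t : ℂ) + σ * I))
    (Vs := fun t σ => VD p φ φ1 φ2 s c I ((t : ℂ) + σ * I)) hgi
    (fun σ hσ => continuous_iff_continuousAt.2 fun t => (hd σ hσ t).continuousAt)
    (fun t σ hσ => (hd' σ hσ t).continuousAt.continuousWithinAt)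
    (fun σ hσ t => hd σ (hsub σ hσ) t) (fun σ hσ t => hd' σ (hsub σ hσ) t)
    hbV (fun σ hσ t => hbD 1 (by simp) σ (hsub σ hσ) t)
    (fun σ hσ t => hbD I (by simp) σ (hsub σ hσ) t)
    (fun σ hσ t => VD_pos hpos (mem_strip t (hsub σ hσ)))
  -- integrability of the field on the two edges
  have hVi : ∀ σ ∈ Icc 0 (π / 2), Integrable fun t : ℝ => VV p φ φ1 s c ((t : ℂ) + σ * I) :=
    fun σ hσ => Integrable.mono' hgi
      (continuous_iff_continuousAt.2 fun t => (hd σ hσ t).continuousAt).aestronglyMeasurable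
      (Filter.Eventually.of_forall (hbV σ hσ))
  have hπ : (0:ℝ) ≤ π / 2 := by positivity
  have hi0 := hVi 0 ⟨le_rfl, hπ⟩
  have hi1 := hVi (π / 2) ⟨hπ, le_rfl⟩
  have hr0 := integral_re hi0
  have hr1 := integral_re hi1
  simp only [RCLike.re_to_complex] at hr0 hr1
  rw [← hr0, ← hr1] at hG
  have hr0i : Integrable fun t : ℝ => (VV p φ φ1 s c ((t : ℂ) + (0:ℝ) * I)).re := hi0.re
  have hr1i : Integrable fun t : ℝ => (VV p φ φ1 s c ((t : ℂ) + (π / 2 : ℝ) * I)).re := hi1.re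
  -- bottom edge
  have hF0t : ∀ t : ℝ, HasDerivAt (fun t : ℝ => F0 s c t) (1 * F1 s c t) t := fun t =>
    hasDerivAt_F0 hs (ω := fun t : ℝ => (t : ℂ))
      ((Complex.ofRealCLM.hasDerivAt (x := t)).congr_deriv (by simp)) (mem_strip0 t)
  have hbot : ∀ t : ℝ, HasDerivAt (fun t : ℝ => ‖F0 s c t‖ ^ p * φ (F0 s c t).arg)
      ((Y p 1 (Ps p φ φ1) (F0 s c t) * F1 s c t).re) t := by
    intro t
    have hper : ∀ θ, ((φ (θ + 2 * π) : ℝ) : ℂ) = (φ θ : ℝ) := by
      intro θ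
      have e : θ + 2 * π = θ + π + π := by ring
      rw [e, per0, per0]
    have h1 := hasDerivAt_Y (p := p) (m := 0) (Φ := fun θ => ((φ θ : ℝ) : ℂ))
      (Φ' := fun θ => ((φ1 θ : ℝ) : ℂ)) (by push_cast; linarith) hper
      (fun θ => (hφ θ).ofReal_comp) (B := B)
      (fun θ => by rw [Complex.norm_real]; exact B0 θ) (hF0t t)
    have h2 := Complex.reCLM.hasFDerivAt.comp_hasDerivAt t h1
    have h3 : (fun t : ℝ => ‖F0 s c t‖ ^ p * φ (F0 s c t).arg) =
        (fun t : ℝ => Complex.reCLM (Y p 0 (fun θ => ((φ θ : ℝ) : ℂ)) (F0 s c t))) := by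
      funext t
      simp only [Y, pow_zero, div_one, Complex.reCLM_apply]
      rw [← Complex.ofReal_mul, Complex.ofReal_re]
    rw [h3]
    refine h2.congr_deriv ?_
    simp only [Complex.reCLM_apply, Y, Ps, pow_one, pow_zero, div_one, one_mul]
    obtain ⟨l, hl⟩ : ∃ l : ℂ, l = F1 s c t / F0 s c t := ⟨_, rfl⟩
    have e1 : ((‖F0 s c ↑t‖ ^ p : ℝ) : ℂ) * (((p * φ (F0 s c ↑t).arg : ℝ) : ℂ) -
        I * (φ1 (F0 s c ↑t).arg : ℝ)) / F0 s c ↑t * F1 s c ↑t =
        ((‖F0 s c ↑t‖ ^ p : ℝ) : ℂ) * ((((p * φ (F0 s c ↑t).arg : ℝ) : ℂ) -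
        I * (φ1 (F0 s c ↑t).arg : ℝ)) * l) := by rw [hl]; ring
    rw [e1, ← hl, Complex.re_ofReal_mul, Complex.re_ofReal_mul]
    congr 1
    simp only [Complex.add_re, Complex.sub_re, Complex.mul_re, Complex.ofReal_re,
      Complex.ofReal_im, Complex.I_re, Complex.I_im, Complex.sub_im, Complex.mul_im,
      Nat.cast_zero, zero_mul, sub_zero]
    ring
  have hbotV : ∀ t : ℝ, (VV p φ φ1 s c ((t : ℂ) + (0:ℝ) * I)).re =
      (Y p 1 (Ps p φ φ1) (F0 s c t) * F1 s c t).re * Real.exp t := by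
    intro t
    have e1 : ((t : ℂ) + (0:ℝ) * I) = t := by simp
    rw [e1, VV, ← Complex.ofReal_exp, mul_comm _ ((Real.exp t : ℝ) : ℂ), Complex.re_ofReal_mul,
      mul_comm]
  have hbotc : Continuous fun t : ℝ => ‖F0 s c t‖ ^ p * φ (F0 s c t).arg :=
    continuous_iff_continuousAt.2 fun t => (hbot t).continuousAt
  have hbotb : ∀ t : ℝ, ‖‖F0 s c t‖ ^ p * φ (F0 s c t).arg * Real.exp t‖ ≤ g t := by
    intro t
    rw [norm_mul, norm_mul, Real.norm_eq_abs, Real.norm_eq_abs, Real.norm_eq_abs,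
      abs_of_pos (Real.exp_pos t), abs_of_nonneg (Real.rpow_nonneg (norm_nonneg _) p)]
    have h1 := norm_F0_le (c := c) hs (mem_strip0 t)
    rw [Complex.ofReal_re] at h1
    have h2 : ‖F0 s c t‖ ^ p ≤ (KK s c / (1 + Real.exp t)) ^ p :=
      Real.rpow_le_rpow (norm_nonneg _) h1 hp0.le
    have h3 := mul_le_mul h2 (B0 (F0 s c t).arg) (abs_nonneg _) (by positivity)
    have h4 := mul_le_mul_of_nonneg_right h3 (Real.exp_pos t).le
    refine le_trans h4 ?_
    simp only [hg]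
    have h5 : 0 ≤ ((p + 5) * (p + 1) - 1) * (B * (KK s c / (1 + Real.exp t)) ^ p * Real.exp t) := by
      apply mul_nonneg _ (by positivity)
      nlinarith
    nlinarith
  have hboti : Integrable fun t : ℝ => ‖F0 s c t‖ ^ p * φ (F0 s c t).arg * Real.exp t :=
    Integrable.mono' hgi (hbotc.mul Real.continuous_exp).aestronglyMeasurable
      (Filter.Eventually.of_forall hbotb)
  have hbot0 : ∫ t : ℝ, ((VV p φ φ1 s c ((t : ℂ) + (0:ℝ) * I)).re +
      ‖F0 s c t‖ ^ p * φ (F0 s c t).arg * Real.exp t) = 0 := by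
    refine integral_eq_zero_of_hasDerivAt_of_integrable
      (f := fun t : ℝ => ‖F0 s c t‖ ^ p * φ (F0 s c t).arg * Real.exp t) (fun t => ?_)
      (hr0i.add hboti) hboti
    rw [hbotV]
    exact (hbot t).mul (Real.hasDerivAt_exp t)
  rw [integral_add hr0i hboti] at hbot0
  -- top edge
  have htop : ∀ t : ℝ, HasDerivAt (fun t : ℝ => |rho s c t| ^ p)
      (p * |rho s c t| ^ (p - 2) * rho s c t * rho1 s c t) t := fun t =>
    (hasDerivAt_abs_rpow (rho s c t) (by linarith)).comp t (hasDerivAt_rho hs t)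
  have htopV : ∀ t : ℝ, (VV p φ φ1 s c ((t : ℂ) + (π / 2 : ℝ) * I)).re =
      φ1 0 / p * (p * |rho s c t| ^ (p - 2) * rho s c t * rho1 s c t * Real.exp t) := by
    intro t
    rw [VV, F0_top hs, F1_top hs, exp_top]
    have hPs : Ps p φ φ1 ((rho s c t : ℝ) : ℂ).arg = Ps p φ φ1 0 := by
      rcases arg_real_cases (rho s c t) with h | h
      · rw [h]
      · rw [h]
        have h1 := per0 0
        have h2 := per1 0
        rw [zero_add] at h1 h2
        rw [Ps, Ps, h1, h2]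
    rw [Y, hPs, pow_one, Complex.norm_real, Real.norm_eq_abs, Ps]
    by_cases h0 : rho s c t = 0
    · rw [h0]
      simp [Real.zero_rpow hp0.ne']
    · have h1 : |rho s c t| ^ (p - 2) * rho s c t = |rho s c t| ^ p / rho s c t := by
        rw [eq_div_iff h0, mul_assoc, ← sq, ← sq_abs, ← Real.rpow_natCast,
          ← Real.rpow_add (abs_pos.2 h0)]
        congr 1
        norm_num
      have h2 : φ1 0 / p * (p * |rho s c t| ^ (p - 2) * rho s c t * rho1 s c t * Real.exp t) =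
          φ1 0 * (|rho s c t| ^ p / rho s c t * rho1 s c t * Real.exp t) := by
        rw [← h1]
        field_simp
      rw [h2]
      have h3 : ((|rho s c t| ^ p : ℝ) : ℂ) * (((p * φ 0 : ℝ) : ℂ) - I * (φ1 0 : ℝ)) /
          ((rho s c t : ℝ) : ℂ) * ((rho1 s c t : ℝ) : ℂ) * (I * (Real.exp t : ℝ)) =
          ((|rho s c t| ^ p / rho s c t * rho1 s c t * Real.exp t : ℝ) : ℂ) *
            (I * (p * φ 0 : ℝ) + (φ1 0 : ℝ)) := by
        push_cast
        linear_combination (-(((|rho s c t| ^ p : ℝ) : ℂ)) * (φ1 0 : ℝ) / ((rho s c t : ℝ) : ℂ) *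
          ((rho1 s c t : ℝ) : ℂ) * Complex.exp t) * Complex.I_sq
      rw [h3, Complex.re_ofReal_mul]
      simp only [Complex.add_re, Complex.mul_re, Complex.I_re, Complex.I_im, Complex.ofReal_re,
        Complex.ofReal_im]
      ring
  have hrhob : ∀ t : ℝ, |rho s c t| ≤ KK s c / (1 + Real.exp t) := by
    intro t
    have h1 := norm_F0_le (c := c) hs (mem_strip t (show π / 2 ∈ Icc 0 (π / 2) from ⟨hπ, le_rfl⟩))
    rw [hre, F0_top hs, Complex.norm_real] at h1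
    exact h1
  have htopb : ∀ t : ℝ, ‖φ1 0 / p * (|rho s c t| ^ p * Real.exp t)‖ ≤
      |φ1 0 / p| * (KK s c / (1 + Real.exp t)) ^ p * Real.exp t := by
    intro t
    rw [norm_mul, norm_mul, Real.norm_eq_abs, Real.norm_eq_abs, Real.norm_eq_abs,
      abs_of_pos (Real.exp_pos t), abs_of_nonneg (Real.rpow_nonneg (abs_nonneg _) p), mul_assoc]
    have h2 : |rho s c t| ^ p ≤ (KK s c / (1 + Real.exp t)) ^ p :=
      Real.rpow_le_rpow (abs_nonneg _) (hrhob t) hp0.le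
    apply mul_le_mul_of_nonneg_left _ (abs_nonneg _)
    exact mul_le_mul_of_nonneg_right h2 (Real.exp_pos t).le
  have htopc : Continuous fun t : ℝ => |rho s c t| ^ p :=
    continuous_iff_continuousAt.2 fun t => (htop t).continuousAt
  have htopi : Integrable fun t : ℝ => φ1 0 / p * (|rho s c t| ^ p * Real.exp t) :=
    Integrable.mono' (integrable_g (p := p) (by linarith) |φ1 0 / p| hK)
      (continuous_const.mul (htopc.mul Real.continuous_exp)).aestronglyMeasurable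
      (Filter.Eventually.of_forall htopb)
  have htop0 : ∫ t : ℝ, ((VV p φ φ1 s c ((t : ℂ) + (π / 2 : ℝ) * I)).re +
      φ1 0 / p * (|rho s c t| ^ p * Real.exp t)) = 0 := by
    refine integral_eq_zero_of_hasDerivAt_of_integrable
      (f := fun t : ℝ => φ1 0 / p * (|rho s c t| ^ p * Real.exp t)) (fun t => ?_)
      (hr1i.add htopi) htopi
    rw [htopV]
    refine (((htop t).mul (Real.hasDerivAt_exp t)).const_mul (φ1 0 / p)).congr_deriv ?_
    ring
  rw [integral_add hr1i htopi, integral_const_mul] at htop0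
  linarith

end Pool.Agent.D0H32.RE
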