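import Pool.Agent.D0H32.RE.Green

/-!
# The rational class in logarithmic coordinates (project RE)
-/

set_option autoImplicit false

open Real Set Filter Topology MeasureTheory
open Complex (I)

namespace Pool.Agent.D0H32.RE

noncomputable def F0 (s : Finset ℝ) (c : ℝ → ℝ) (ω : ℂ) : ℂ :=
  ∑ b ∈ s, (c b : ℂ) * (I / (Complex.exp ω + I * b))

noncomputable def F1 (s : Finset ℝ) (c : ℝ → ℝ) (ω : ℂ) : ℂ :=
  ∑ b ∈ s, (c b : ℂ) * (-(I * Complex.exp ω) / (Complex.exp ω + I * b) ^ 2)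

noncomputable def F2 (s : Finset ℝ) (c : ℝ → ℝ) (ω : ℂ) : ℂ :=
  ∑ b ∈ s, (c b : ℂ) * (-(I * Complex.exp ω * (I * b - Complex.exp ω)) /
    (Complex.exp ω + I * b) ^ 3)

/-- the closed strip -/
def strip : Set ℂ := {ω | 0 ≤ ω.im ∧ ω.im ≤ π / 2}

theorem normSq_den {ω : ℂ} {b : ℝ} (hb : 0 < b) (hω : ω ∈ strip) :
    Real.exp ω.re ^ 2 + b ^ 2 ≤ ‖Complex.exp ω + I * b‖ ^ 2 := by
  rw [← Complex.normSq_eq_norm_sq, Complex.normSq_apply]
  simp only [Complex.add_re, Complex.add_im, Complex.mul_re, Complex.mul_im, Complex.I_re,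
    Complex.I_im, Complex.ofReal_re, Complex.ofReal_im, Complex.exp_re, Complex.exp_im]
  have h1 : 0 ≤ Real.sin ω.im := Real.sin_nonneg_of_nonneg_of_le_pi hω.1 (by
    have := hω.2
    linarith [pi_pos])
  have h2 := Real.sin_sq_add_cos_sq ω.im
  have h3 : 0 ≤ Real.exp ω.re * b * Real.sin ω.im := by positivity
  nlinarith [Real.exp_pos ω.re]

theorem den_ge {ω : ℂ} {b : ℝ} (hb : 0 < b) (hω : ω ∈ strip) :
    Real.exp ω.re ≤ ‖Complex.exp ω + I * b‖ := by
  have h := normSq_den hb hω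
  apply le_of_sq_le_sq _ (norm_nonneg _)
  nlinarith

theorem den_ge' {ω : ℂ} {b : ℝ} (hb : 0 < b) (hω : ω ∈ strip) :
    (Real.exp ω.re + b) / 2 ≤ ‖Complex.exp ω + I * b‖ := by
  have h := normSq_den hb hω
  apply le_of_sq_le_sq _ (norm_nonneg _)
  nlinarith [sq_nonneg (Real.exp ω.re - b), Real.exp_pos ω.re]

theorem den_ge'' {ω : ℂ} {b : ℝ} (hb : 0 < b) (hω : ω ∈ strip) :
    min 1 b * (1 + Real.exp ω.re) / 2 ≤ ‖Complex.exp ω + I * b‖ := by
  refine le_trans ?_ (den_ge' hb hω)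
  have h1 : min 1 b ≤ 1 := min_le_left _ _
  have h2 : min 1 b ≤ b := min_le_right _ _
  nlinarith [Real.exp_pos ω.re]

theorem den_ne {ω : ℂ} {b : ℝ} (hb : 0 < b) (hω : ω ∈ strip) : Complex.exp ω + I * b ≠ 0 := by
  intro h
  have := den_ge hb hω
  rw [h, norm_zero] at this
  linarith [Real.exp_pos ω.re]

noncomputable def KK (s : Finset ℝ) (c : ℝ → ℝ) : ℝ := ∑ b ∈ s, |c b| * (4 / min 1 b)

theorem KK_nonneg (s : Finset ℝ) (c : ℝ → ℝ) (hs : ∀ b ∈ s, 0 < b) : 0 ≤ KK s c := by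
  apply Finset.sum_nonneg
  intro b hb
  have := hs b hb
  positivity

theorem inv_den_le {ω : ℂ} {b : ℝ} (hb : 0 < b) (hω : ω ∈ strip) :
    1 / ‖Complex.exp ω + I * b‖ ≤ 2 / min 1 b / (1 + Real.exp ω.re) := by
  have h := den_ge'' hb hω
  have h1 : 0 < min 1 b := lt_min one_pos hb
  have h2 : 0 < min 1 b * (1 + Real.exp ω.re) / 2 := by positivity
  calc 1 / ‖Complex.exp ω + I * b‖ ≤ 1 / (min 1 b * (1 + Real.exp ω.re) / 2) :=
        one_div_le_one_div_of_le h2 h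
    _ = _ := by field_simp

theorem sum_bound {s : Finset ℝ} {c : ℝ → ℝ} {ω : ℂ} {f : ℝ → ℂ}
    (hf : ∀ b ∈ s, ‖f b‖ ≤ 4 / min 1 b / (1 + Real.exp ω.re)) :
    ‖∑ b ∈ s, (c b : ℂ) * f b‖ ≤ KK s c / (1 + Real.exp ω.re) := by
  refine le_trans (norm_sum_le _ _) ?_
  rw [KK, Finset.sum_div]
  apply Finset.sum_le_sum
  intro b hb
  rw [norm_mul, Complex.norm_real, Real.norm_eq_abs, mul_div_assoc]
  exact mul_le_mul_of_nonneg_left (hf b hb) (abs_nonneg _)

theorem norm_F0_le {s : Finset ℝ} {c : ℝ → ℝ} (hs : ∀ b ∈ s, 0 < b) {ω : ℂ} (hω : ω ∈ strip) :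
    ‖F0 s c ω‖ ≤ KK s c / (1 + Real.exp ω.re) := by
  apply sum_bound
  intro b hb
  have h0 := hs b hb
  rw [norm_div, Complex.norm_I]
  refine le_trans (inv_den_le h0 hω) ?_
  have h1 : 0 < min 1 b := lt_min one_pos h0
  gcongr
  norm_num

theorem norm_F1_le {s : Finset ℝ} {c : ℝ → ℝ} (hs : ∀ b ∈ s, 0 < b) {ω : ℂ} (hω : ω ∈ strip) :
    ‖F1 s c ω‖ ≤ KK s c / (1 + Real.exp ω.re) := by
  apply sum_bound
  intro b hb
  have h0 := hs b hb
  have h1 : 0 < min 1 b := lt_min one_pos h0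
  have hd : 0 < ‖Complex.exp ω + I * b‖ := norm_pos_iff.2 (den_ne h0 hω)
  rw [norm_div, norm_neg, norm_mul, Complex.norm_I, one_mul, Complex.norm_exp, norm_pow]
  have h2 : Real.exp ω.re / ‖Complex.exp ω + I * b‖ ^ 2 ≤ 1 / ‖Complex.exp ω + I * b‖ := by
    rw [div_le_div_iff₀ (by positivity) hd]
    nlinarith [den_ge h0 hω]
  refine le_trans h2 (le_trans (inv_den_le h0 hω) ?_)
  gcongr
  norm_num

theorem norm_F2_le {s : Finset ℝ} {c : ℝ → ℝ} (hs : ∀ b ∈ s, 0 < b) {ω : ℂ} (hω : ω ∈ strip) :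
    ‖F2 s c ω‖ ≤ KK s c / (1 + Real.exp ω.re) := by
  apply sum_bound
  intro b hb
  have h0 := hs b hb
  have h1 : 0 < min 1 b := lt_min one_pos h0
  have hd : 0 < ‖Complex.exp ω + I * b‖ := norm_pos_iff.2 (den_ne h0 hω)
  rw [norm_div, norm_neg, norm_mul, norm_mul, Complex.norm_I, one_mul, Complex.norm_exp, norm_pow]
  have h3 : ‖I * b - Complex.exp ω‖ ≤ 2 * ‖Complex.exp ω + I * b‖ := by
    refine le_trans (norm_sub_le _ _) ?_
    rw [norm_mul, Complex.norm_I, one_mul, Complex.norm_real, Complex.norm_exp, Real.norm_eq_abs,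
      abs_of_pos h0]
    linarith [den_ge' h0 hω]
  have h2 : Real.exp ω.re * ‖I * b - Complex.exp ω‖ / ‖Complex.exp ω + I * b‖ ^ 3 ≤
      2 * (1 / ‖Complex.exp ω + I * b‖) := by
    rw [mul_one_div, div_le_div_iff₀ (by positivity) hd]
    have h4 := den_ge h0 hω
    have h5 : Real.exp ω.re * ‖I * b - Complex.exp ω‖ ≤
        ‖Complex.exp ω + I * b‖ * (2 * ‖Complex.exp ω + I * b‖) :=
      mul_le_mul h4 h3 (norm_nonneg _) hd.le
    calc Real.exp ω.re * ‖I * b - Complex.exp ω‖ * ‖Complex.exp ω + I * b‖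
        ≤ ‖Complex.exp ω + I * b‖ * (2 * ‖Complex.exp ω + I * b‖) * ‖Complex.exp ω + I * b‖ :=
          mul_le_mul_of_nonneg_right h5 hd.le
      _ = _ := by ring
  refine le_trans h2 (le_trans (mul_le_mul_of_nonneg_left (inv_den_le h0 hω) (by norm_num)) ?_)
  apply le_of_eq
  ring

theorem hasDerivAt_F0 {s : Finset ℝ} {c : ℝ → ℝ} (hs : ∀ b ∈ s, 0 < b) {ω : ℝ → ℂ} {d : ℂ} {u : ℝ}
    (hω : HasDerivAt ω d u) (hu : ω u ∈ strip) :
    HasDerivAt (fun v => F0 s c (ω v)) (d * F1 s c (ω u)) u := by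
  have h := HasDerivAt.fun_sum (u := s) (A := fun b v => (c b : ℂ) *
    (I / (Complex.exp (ω v) + I * b))) (x := u)
    (A' := fun b => (c b : ℂ) * (d * (-(I * Complex.exp (ω u)) / (Complex.exp (ω u) + I * b) ^ 2)))
    (fun b hb => by
      have hne := den_ne (hs b hb) hu
      have h1 := ((hasDerivAt_const u I).div (hω.cexp.add_const (I * (b:ℂ))) hne).const_mul (c b : ℂ)
      refine h1.congr_deriv ?_
      field_simp
      ring)
  refine h.congr_deriv ?_
  rw [F1, Finset.mul_sum]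
  apply Finset.sum_congr rfl
  intro b _
  ring

theorem hasDerivAt_F1 {s : Finset ℝ} {c : ℝ → ℝ} (hs : ∀ b ∈ s, 0 < b) {ω : ℝ → ℂ} {d : ℂ} {u : ℝ}
    (hω : HasDerivAt ω d u) (hu : ω u ∈ strip) :
    HasDerivAt (fun v => F1 s c (ω v)) (d * F2 s c (ω u)) u := by
  have h := HasDerivAt.fun_sum (u := s) (A := fun b v => (c b : ℂ) *
    (-(I * Complex.exp (ω v)) / (Complex.exp (ω v) + I * b) ^ 2)) (x := u)
    (A' := fun b => (c b : ℂ) * (d * (-(I * Complex.exp (ω u) * (I * b - Complex.exp (ω u))) /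
      (Complex.exp (ω u) + I * b) ^ 3)))
    (fun b hb => by
      have hne := den_ne (hs b hb) hu
      have h1 := (((hω.cexp.const_mul I).neg).div ((hω.cexp.add_const (I * (b:ℂ))).pow 2)
        (pow_ne_zero 2 hne)).const_mul (c b : ℂ)
      refine h1.congr_deriv ?_
      simp only [Pi.pow_apply, Pi.neg_apply]
      field_simp
      push_cast
      ring)
  refine h.congr_deriv ?_
  rw [F2, Finset.mul_sum]
  apply Finset.sum_congr rfl
  intro b _
  ring

/-- the change of variables `x = exp t` -/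
theorem integral_exp {E : Type*} [NormedAddCommGroup E] [NormedSpace ℝ E] (H : ℝ → E) :
    ∫ x in Ioi (0:ℝ), H x = ∫ t, Real.exp t • H (Real.exp t) := by
  have h1 : Real.exp '' univ = Ioi 0 := by rw [image_univ, Real.range_exp]
  rw [← h1, integral_image_eq_integral_abs_deriv_smul MeasurableSet.univ
    (fun x _ => (Real.hasDerivAt_exp x).hasDerivWithinAt) Real.exp_injective.injOn]
  rw [setIntegral_univ]
  congr 1
  funext t
  rw [abs_of_pos (Real.exp_pos t)]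

theorem integrable_exp_iff {E : Type*} [NormedAddCommGroup E] [NormedSpace ℝ E] (H : ℝ → E) :
    IntegrableOn H (Ioi 0) ↔ Integrable fun t => Real.exp t • H (Real.exp t) := by
  have h1 : Real.exp '' univ = Ioi 0 := by rw [image_univ, Real.range_exp]
  rw [← h1, integrableOn_image_iff_integrableOn_abs_deriv_smul MeasurableSet.univ
    (fun x _ => (Real.hasDerivAt_exp x).hasDerivWithinAt) Real.exp_injective.injOn,
    integrableOn_univ]
  have : (fun x => |Real.exp x| • H (Real.exp x)) = fun t => Real.exp t • H (Real.exp t) := by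
    funext t; rw [abs_of_pos (Real.exp_pos t)]
  rw [this]

theorem integrable_g {p : ℝ} (hp : 1 < p) (C : ℝ) {K : ℝ} (hK : 0 ≤ K) :
    Integrable fun t : ℝ => C * (K / (1 + Real.exp t)) ^ p * Real.exp t := by
  have h1 : IntegrableOn (fun x : ℝ => (x + 1) ^ (-p)) (Ioi 0) :=
    integrableOn_add_rpow_Ioi_of_lt (by linarith) (by norm_num)
  rw [integrable_exp_iff] at h1
  have h2 := h1.const_mul (C * K ^ p)
  refine h2.congr (Filter.Eventually.of_forall fun t => ?_)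
  have h3 : (0:ℝ) < 1 + Real.exp t := by positivity
  simp only [smul_eq_mul]
  rw [Real.div_rpow hK h3.le, Real.rpow_neg (by positivity), add_comm (Real.exp t) 1]
  ring

end Pool.Agent.D0H32.RE
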