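import Pool.Agent.D0H32.RE.ClsTwo

/-!
# Class inequalities for complex coefficients (project RE)
-/

set_option autoImplicit false

open Real Set Filter Topology MeasureTheory
open Complex (I)

namespace Pool.Agent.D0H32.RE

/-- the circle average constant -/
noncomputable def kap (p : ℝ) : ℝ := ∫ α in (0:ℝ)..(2 * π), |cos α| ^ p

theorem continuous_cosp {p : ℝ} (hp : 0 < p) (θ : ℝ) : Continuous fun α : ℝ => |cos (α + θ)| ^ p :=
  (continuous_abs.comp (continuous_cos.comp (continuous_add_const θ))).rpow_const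
    (fun _ => Or.inr hp.le)

theorem kap_pos {p : ℝ} (hp : 0 < p) : 0 < kap p := by
  have hc : Continuous fun α : ℝ => |cos α| ^ p := by
    simpa using continuous_cosp hp 0
  have h1 : 0 < ∫ α in (0:ℝ)..1, |cos α| ^ p := by
    apply intervalIntegral.intervalIntegral_pos_of_pos_on (hc.intervalIntegrable _ _) _ one_pos
    intro x hx
    have : 0 < cos x := cos_pos_of_mem_Ioo ⟨by linarith [hx.1, pi_pos], by
      have := pi_gt_three
      linarith [hx.2]⟩
    positivity
  have h2 : 0 ≤ ∫ α in (1:ℝ)..(2 * π), |cos α| ^ p := by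
    apply intervalIntegral.integral_nonneg (by linarith [pi_gt_three])
    intro x _
    positivity
  rw [kap, ← intervalIntegral.integral_add_adjacent_intervals (hc.intervalIntegrable 0 1)
    (hc.intervalIntegrable 1 _)]
  linarith

theorem re_rot (α : ℝ) (z : ℂ) : (Complex.exp (α * I) * z).re = ‖z‖ * cos (α + z.arg) := by
  have h1 : (Complex.exp (α * I) * z).re = cos α * z.re - sin α * z.im := by
    rw [Complex.mul_re, Complex.exp_ofReal_mul_I_re, Complex.exp_ofReal_mul_I_im]
  have h2 := Complex.norm_mul_cos_arg z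
  have h3 := Complex.norm_mul_sin_arg z
  rw [h1, cos_add]
  linear_combination (-cos α) * h2 + sin α * h3

theorem avg_point {p : ℝ} (z : ℂ) :
    ∫ α in (0:ℝ)..(2 * π), |(Complex.exp (α * I) * z).re| ^ p = kap p * ‖z‖ ^ p := by
  have h1 : ∀ α : ℝ, |(Complex.exp (α * I) * z).re| ^ p = ‖z‖ ^ p * |cos (α + z.arg)| ^ p := by
    intro α
    rw [re_rot, abs_mul, abs_of_nonneg (norm_nonneg z), Real.mul_rpow (norm_nonneg _) (abs_nonneg _)]
  simp only [h1]
  rw [intervalIntegral.integral_const_mul, mul_comm]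
  congr 1
  have h2 := intervalIntegral.integral_comp_add_right (a := 0) (b := 2 * π)
    (fun α => |cos α| ^ p) z.arg
  rw [h2, kap]
  have hper : Function.Periodic (fun α => |cos α| ^ p) (2 * π) := by
    intro α
    simp only [cos_add_two_pi]
  have h3 := hper.intervalIntegral_add_eq z.arg 0
  rw [zero_add] at h3
  rw [zero_add, add_comm (2 * π)]
  exact h3

theorem rot_integrable {p : ℝ} (hp : 0 < p) {z : ℝ → ℂ} (hz : Continuous z)
    (hi : IntegrableOn (fun x => ‖z x‖ ^ p) (Ioi 0)) :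
    Integrable (Function.uncurry fun (α x : ℝ) => |(Complex.exp (α * I) * z x).re| ^ p)
      ((volume.restrict (Ioc 0 (2 * π))).prod (volume.restrict (Ioi 0))) := by
  have h1 := Integrable.comp_snd hi (volume.restrict (Ioc (0:ℝ) (2 * π)))
  refine Integrable.mono' h1 ?_ (Filter.Eventually.of_forall fun w => ?_)
  · have hc : Continuous fun w : ℝ × ℝ => |(Complex.exp (w.1 * I) * z w.2).re| ^ p := by
      have h2 : Continuous fun w : ℝ × ℝ => (Complex.exp (w.1 * I) * z w.2).re :=
        Complex.continuous_re.comp ((Complex.continuous_exp.comp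
          ((Complex.continuous_ofReal.comp continuous_fst).mul continuous_const)).mul
          (hz.comp continuous_snd))
      exact h2.abs.rpow_const (fun _ => Or.inr hp.le)
    exact hc.aestronglyMeasurable
  · simp only [Function.uncurry]
    rw [Real.norm_eq_abs, abs_of_nonneg (Real.rpow_nonneg (abs_nonneg _) _)]
    apply Real.rpow_le_rpow (abs_nonneg _) _ hp.le
    refine le_trans (Complex.abs_re_le_norm _) ?_
    rw [norm_mul, Complex.norm_exp_ofReal_mul_I, one_mul]

theorem avg_int {p : ℝ} (hp : 0 < p) {z : ℝ → ℂ} (hz : Continuous z)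
    (hi : IntegrableOn (fun x => ‖z x‖ ^ p) (Ioi 0)) :
    kap p * ∫ x in Ioi (0:ℝ), ‖z x‖ ^ p =
      ∫ α in (0:ℝ)..(2 * π), ∫ x in Ioi (0:ℝ), |(Complex.exp (α * I) * z x).re| ^ p := by
  have hπ : (0:ℝ) ≤ 2 * π := by positivity
  rw [intervalIntegral.integral_of_le hπ, integral_integral_swap (rot_integrable hp hz hi),
    ← integral_const_mul]
  congr 1
  funext x
  rw [← avg_point, intervalIntegral.integral_of_le hπ]

noncomputable def UU (s : Finset ℝ) (c : ℝ → ℂ) (x : ℝ) : ℂ :=
  ∑ b ∈ s, c b * ((b / (x ^ 2 + b ^ 2) : ℝ) : ℂ)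

noncomputable def WW (s : Finset ℝ) (c : ℝ → ℂ) (x : ℝ) : ℂ :=
  ∑ b ∈ s, c b * ((x / (x ^ 2 + b ^ 2) : ℝ) : ℂ)

theorem re_UU (s : Finset ℝ) (c : ℝ → ℂ) (κ : ℂ) (x : ℝ) :
    (κ * UU s c x).re = uu s (fun b => (κ * c b).re) x := by
  rw [UU, uu, Finset.mul_sum, Complex.re_sum]
  apply Finset.sum_congr rfl
  intro b _
  rw [← mul_assoc, Complex.re_mul_ofReal]

theorem re_WW (s : Finset ℝ) (c : ℝ → ℂ) (κ : ℂ) (x : ℝ) :
    (κ * WW s c x).re = vv s (fun b => (κ * c b).re) x := by
  rw [WW, vv, Finset.mul_sum, Complex.re_sum]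
  apply Finset.sum_congr rfl
  intro b _
  rw [← mul_assoc, Complex.re_mul_ofReal]

theorem continuous_UU {s : Finset ℝ} {c : ℝ → ℂ} (hs : ∀ b ∈ s, 0 < b) : Continuous (UU s c) := by
  unfold UU
  apply continuous_finsetSum
  intro b hb
  have h0 := hs b hb
  exact continuous_const.mul (Complex.continuous_ofReal.comp
    (continuous_const.div (by fun_prop) (fun x => by positivity)))

theorem continuous_WW {s : Finset ℝ} {c : ℝ → ℂ} (hs : ∀ b ∈ s, 0 < b) : Continuous (WW s c) := by
  unfold WW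
  apply continuous_finsetSum
  intro b hb
  have h0 := hs b hb
  exact continuous_const.mul (Complex.continuous_ofReal.comp
    (continuous_id.div (by fun_prop) (fun x => by positivity)))

theorem norm_UU_le {s : Finset ℝ} {c : ℝ → ℂ} (hs : ∀ b ∈ s, 0 < b) {x : ℝ} (hx : 0 < x) :
    ‖UU s c x‖ ≤ KK s (fun b => ‖c b‖) / (1 + x) := by
  rw [UU, KK, Finset.sum_div]
  refine le_trans (norm_sum_le _ _) (Finset.sum_le_sum fun b hb => ?_)
  have h0 := hs b hb
  rw [norm_mul, Complex.norm_real, abs_norm, mul_div_assoc]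
  apply mul_le_mul_of_nonneg_left _ (norm_nonneg _)
  have h1 := uu_le (s := {b}) (c := fun _ => 1) (fun b' hb' => by
    rw [Finset.mem_singleton] at hb'; rw [hb']; exact h0) hx
  simp only [uu, KK, Finset.sum_singleton, one_mul, abs_one] at h1
  exact h1

theorem norm_WW_le {s : Finset ℝ} {c : ℝ → ℂ} (hs : ∀ b ∈ s, 0 < b) {x : ℝ} (hx : 0 < x) :
    ‖WW s c x‖ ≤ KK s (fun b => ‖c b‖) / (1 + x) := by
  rw [WW, KK, Finset.sum_div]
  refine le_trans (norm_sum_le _ _) (Finset.sum_le_sum fun b hb => ?_)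
  have h0 := hs b hb
  rw [norm_mul, Complex.norm_real, abs_norm, mul_div_assoc]
  apply mul_le_mul_of_nonneg_left _ (norm_nonneg _)
  have h1 := vv_le (s := {b}) (c := fun _ => 1) (fun b' hb' => by
    rw [Finset.mem_singleton] at hb'; rw [hb']; exact h0) hx
  simp only [vv, KK, Finset.sum_singleton, one_mul, abs_one] at h1
  exact h1

theorem integrable_of_bound {p K : ℝ} (hp : 1 < p) (hK : 0 ≤ K) {z : ℝ → ℂ} (hz : Continuous z)
    (hb : ∀ x, 0 < x → ‖z x‖ ≤ K / (1 + x)) : IntegrableOn (fun x => ‖z x‖ ^ p) (Ioi 0) := by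
  have h1 : IntegrableOn (fun x : ℝ => (x + 1) ^ (-p)) (Ioi 0) :=
    integrableOn_add_rpow_Ioi_of_lt (by linarith) (by norm_num)
  have h2 := h1.const_mul (K ^ p)
  refine Integrable.mono' h2 (hz.norm.rpow_const (fun _ => Or.inr (by linarith))).aestronglyMeasurable ?_
  filter_upwards [ae_restrict_mem measurableSet_Ioi] with x hx
  have hx0 : 0 < x := hx
  rw [Real.norm_eq_abs, abs_of_nonneg (Real.rpow_nonneg (norm_nonneg _) _)]
  refine le_trans (Real.rpow_le_rpow (norm_nonneg _) (hb x hx0) (by linarith)) (le_of_eq ?_)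
  rw [Real.div_rpow hK (by linarith), Real.rpow_neg (by linarith), add_comm 1 x]
  rfl

/-- class inequalities for complex coefficients, `p ≥ 2` -/
theorem cls_cpx {p C : ℝ} {s : Finset ℝ} {c : ℝ → ℂ} (hp : 2 ≤ p)
    (hC : IsGreatest (range (R p)) C) (hs : ∀ b ∈ s, 0 < b) :
    (∫ x in Ioi (0:ℝ), ‖UU s c x - WW s c x‖ ^ p ≤ C * ∫ x in Ioi (0:ℝ), ‖UU s c x‖ ^ p) ∧
    (∫ x in Ioi (0:ℝ), ‖UU s c x - WW s c x‖ ^ p ≤ C * ∫ x in Ioi (0:ℝ), ‖WW s c x‖ ^ p) := by
  have hp0 : 0 < p := by linarith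
  have hk := kap_pos hp0
  have hK : 0 ≤ KK s (fun b => ‖c b‖) := KK_nonneg _ _ hs
  have cU := continuous_UU (c := c) hs
  have cW := continuous_WW (c := c) hs
  have iU := integrable_of_bound (p := p) (by linarith) hK cU (fun x hx => norm_UU_le hs hx)
  have iW := integrable_of_bound (p := p) (by linarith) hK cW (fun x hx => norm_WW_le hs hx)
  have iD := integrable_of_bound (p := p) (z := fun x => UU s c x - WW s c x)
    (K := 2 * KK s (fun b => ‖c b‖)) (by linarith) (by positivity) (cU.sub cW) (fun x hx => by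
      refine le_trans (norm_sub_le _ _) ?_
      have := norm_UU_le (c := c) hs hx
      have := norm_WW_le (c := c) hs hx
      rw [mul_div_assoc]; linarith)
  have hπ : (0:ℝ) ≤ 2 * π := by positivity
  have real : ∀ α : ℝ,
      (∫ x in Ioi (0:ℝ), |(Complex.exp (α * I) * (UU s c x - WW s c x)).re| ^ p ≤
        C * ∫ x in Ioi (0:ℝ), |(Complex.exp (α * I) * UU s c x).re| ^ p) ∧
      (∫ x in Ioi (0:ℝ), |(Complex.exp (α * I) * (UU s c x - WW s c x)).re| ^ p ≤
        C * ∫ x in Ioi (0:ℝ), |(Complex.exp (α * I) * WW s c x).re| ^ p) := by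
    intro α
    have h := cls_real (c := fun b => (Complex.exp (α * I) * c b).re) hp hC hs
    simp only [mul_sub, Complex.sub_re, re_UU, re_WW]
    exact h
  have jU := (rot_integrable hp0 cU iU).integral_prod_left
  have jW := (rot_integrable hp0 cW iW).integral_prod_left
  have jD := (rot_integrable hp0 (cU.sub cW) iD).integral_prod_left
  simp only [Function.uncurry] at jU jW jD
  constructor
  · have h1 : kap p * ∫ x in Ioi (0:ℝ), ‖UU s c x - WW s c x‖ ^ p ≤
        kap p * (C * ∫ x in Ioi (0:ℝ), ‖UU s c x‖ ^ p) := by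
      rw [mul_left_comm, avg_int hp0 cU iU, avg_int (z := fun x => UU s c x - WW s c x) hp0
        (cU.sub cW) iD, intervalIntegral.integral_of_le hπ, intervalIntegral.integral_of_le hπ,
        ← integral_const_mul]
      exact integral_mono jD (jU.const_mul C) (fun α => (real α).1)
    exact le_of_mul_le_mul_left h1 hk
  · have h1 : kap p * ∫ x in Ioi (0:ℝ), ‖UU s c x - WW s c x‖ ^ p ≤
        kap p * (C * ∫ x in Ioi (0:ℝ), ‖WW s c x‖ ^ p) := by
      rw [mul_left_comm, avg_int hp0 cW iW, avg_int (z := fun x => UU s c x - WW s c x) hp0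
        (cU.sub cW) iD, intervalIntegral.integral_of_le hπ, intervalIntegral.integral_of_le hπ,
        ← integral_const_mul]
      exact integral_mono jD (jW.const_mul C) (fun α => (real α).2)
    exact le_of_mul_le_mul_left h1 hk

end Pool.Agent.D0H32.RE
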