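import Pool.Agent.D0H32.RE.Bdry

/-!
# The subharmonic inequality for `C¹` angular functions (project RE)
-/

set_option autoImplicit false

open Real Set Filter Topology MeasureTheory
open Complex (I)

namespace Pool.Agent.D0H32.RE

theorem periodic_bounded {f : ℝ → ℝ} (hf : Continuous f) (hper : ∀ θ, f (θ + π) = f θ) :
    ∃ B, 0 ≤ B ∧ ∀ θ, |f θ| ≤ B := by
  obtain ⟨x, -, hx⟩ := isCompact_Icc.exists_isMaxOn (s := Icc 0 π) ⟨0, by simp [pi_pos.le]⟩
    (continuous_abs.comp hf).continuousOn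
  refine ⟨|f x|, abs_nonneg _, fun y => ?_⟩
  have hper' : Function.Periodic f π := hper
  obtain ⟨z, hz, hyz⟩ := hper'.exists_mem_Ico₀ pi_pos y
  rw [hyz]
  exact hx ⟨hz.1, hz.2.le⟩

theorem continuous_F0 {s : Finset ℝ} {c : ℝ → ℝ} (hs : ∀ b ∈ s, 0 < b) :
    Continuous fun t : ℝ => F0 s c t := continuous_iff_continuousAt.2 fun t =>
  (hasDerivAt_F0 (d := 1) hs (ω := fun t : ℝ => (t : ℂ))
    ((Complex.ofRealCLM.hasDerivAt (x := t)).congr_deriv (by simp)) (mem_strip0 t)).continuousAt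

theorem sub_ineq' {p : ℝ} {φ φ1 : ℝ → ℝ} {s : Finset ℝ} {c : ℝ → ℝ} (hp : 2 < p)
    (hφ : ∀ θ, HasDerivAt φ (φ1 θ) θ) (hc1 : Continuous φ1) (per0 : ∀ θ, φ (θ + π) = φ θ)
    (hP3 : ∀ a b, a ≤ b → 0 ≤ φ1 b - φ1 a + p ^ 2 * ∫ t in a..b, φ t)
    (hs : ∀ b ∈ s, 0 < b) :
    φ1 0 / p * ∫ t, |rho s c t| ^ p * Real.exp t ≤
      ∫ t : ℝ, ‖F0 s c t‖ ^ p * φ (F0 s c t).arg * Real.exp t := by
  have hφc : Continuous φ := continuous_iff_continuousAt.2 fun t => (hφ t).continuousAt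
  have per1 : ∀ θ, φ1 (θ + π) = φ1 θ := by
    intro θ
    have h1 : HasDerivAt (fun t => φ (t + π)) (φ1 (θ + π)) θ := (hφ (θ + π)).comp_add_const θ π
    have h2 : (fun t => φ (t + π)) = φ := funext per0
    rw [h2] at h1
    exact h1.unique (hφ θ)
  obtain ⟨B0, hB00, hB0⟩ := periodic_bounded hφc per0
  obtain ⟨B1, hB10, hB1⟩ := periodic_bounded hc1 per1
  have hint : ∀ x y : ℝ, IntervalIntegrable φ volume x y := fun x y => hφc.intervalIntegrable x y
  let Φ : ℝ → ℝ := fun θ => ∫ t in (0:ℝ)..θ, φ t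
  have hΦ : ∀ θ, HasDerivAt Φ (φ θ) θ := fun θ =>
    intervalIntegral.integral_hasDerivAt_right (hint 0 θ) (hφc.stronglyMeasurableAtFilter _ _)
      hφc.continuousAt
  have hΦsub : ∀ x y, Φ y - Φ x = ∫ t in x..y, φ t := fun x y =>
    intervalIntegral.integral_interval_sub_left (hint 0 y) (hint 0 x)
  let e : ℕ → ℝ := fun n => 1 / ((n : ℝ) + 1)
  have he0 : ∀ n, 0 < e n := fun n => by positivity
  let ψ : ℕ → ℝ → ℝ := fun n θ => (e n)⁻¹ * (Φ (θ + e n) - Φ θ)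
  let ψ1 : ℕ → ℝ → ℝ := fun n θ => (e n)⁻¹ * (φ (θ + e n) - φ θ)
  let ψ2 : ℕ → ℝ → ℝ := fun n θ => (e n)⁻¹ * (φ1 (θ + e n) - φ1 θ)
  have hψ : ∀ n θ, HasDerivAt (ψ n) (ψ1 n θ) θ := fun n θ =>
    (((hΦ (θ + e n)).comp_add_const θ (e n)).sub (hΦ θ)).const_mul _
  have hψ1 : ∀ n θ, HasDerivAt (ψ1 n) (ψ2 n θ) θ := fun n θ =>
    (((hφ (θ + e n)).comp_add_const θ (e n)).sub (hφ θ)).const_mul _
  have hψper : ∀ n θ, ψ n (θ + π) = ψ n θ := by
    intro n θ
    simp only [ψ]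
    rw [hΦsub, hΦsub]
    have h1 : θ + π + e n = θ + e n + π := by ring
    rw [h1, ← intervalIntegral.integral_comp_add_right]
    simp only [per0]
  have hψ1per : ∀ n θ, ψ1 n (θ + π) = ψ1 n θ := by
    intro n θ
    simp only [ψ1]
    have h1 : θ + π + e n = θ + e n + π := by ring
    rw [h1, per0, per0]
  have hψb : ∀ n θ, |ψ n θ| ≤ B0 := by
    intro n θ
    simp only [ψ]
    rw [hΦsub, abs_mul, abs_of_pos (inv_pos.2 (he0 n))]
    have h1 : ‖∫ t in θ..(θ + e n), φ t‖ ≤ B0 * |θ + e n - θ| :=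
      intervalIntegral.norm_integral_le_of_norm_le_const (fun t _ => hB0 t)
    rw [Real.norm_eq_abs, add_sub_cancel_left, abs_of_pos (he0 n)] at h1
    calc (e n)⁻¹ * |∫ t in θ..(θ + e n), φ t| ≤ (e n)⁻¹ * (B0 * e n) :=
          mul_le_mul_of_nonneg_left h1 (inv_pos.2 (he0 n)).le
      _ = B0 := by
        have := (he0 n).ne'
        field_simp
  have hψ1b : ∀ n θ, |ψ1 n θ| ≤ (e n)⁻¹ * (B0 + B0) := by
    intro n θ
    simp only [ψ1]
    rw [abs_mul, abs_of_pos (inv_pos.2 (he0 n))]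
    exact mul_le_mul_of_nonneg_left (le_trans (abs_sub _ _) (add_le_add (hB0 _) (hB0 _)))
      (inv_pos.2 (he0 n)).le
  have hψ2b : ∀ n θ, |ψ2 n θ| ≤ (e n)⁻¹ * (B1 + B1) := by
    intro n θ
    simp only [ψ2]
    rw [abs_mul, abs_of_pos (inv_pos.2 (he0 n))]
    exact mul_le_mul_of_nonneg_left (le_trans (abs_sub _ _) (add_le_add (hB1 _) (hB1 _)))
      (inv_pos.2 (he0 n)).le
  have hψpos : ∀ n θ, 0 ≤ ψ2 n θ + p ^ 2 * ψ n θ := by
    intro n θ
    simp only [ψ, ψ2]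
    rw [hΦsub]
    have h1 := hP3 θ (θ + e n) (by linarith [he0 n])
    have h2 := mul_nonneg (inv_pos.2 (he0 n)).le h1
    linarith
  -- the inequality for each `n`
  have hn : ∀ n, ψ1 n 0 / p * ∫ t, |rho s c t| ^ p * Real.exp t ≤
      ∫ t : ℝ, ‖F0 s c t‖ ^ p * ψ n (F0 s c t).arg * Real.exp t := by
    intro n
    have hi : 0 < (e n)⁻¹ := inv_pos.2 (he0 n)
    refine sub_ineq (B := B0 + (e n)⁻¹ * (B0 + B0) + (e n)⁻¹ * (B1 + B1)) hp (hψ n) (hψ1 n)
      (hψper n) (hψ1per n) (fun θ => ?_) (fun θ => ?_) (fun θ => ?_) (hψpos n) hs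
    · have := hψb n θ
      have h2 : 0 ≤ (e n)⁻¹ * (B0 + B0) := by positivity
      have h3 : 0 ≤ (e n)⁻¹ * (B1 + B1) := by positivity
      linarith
    · have := hψ1b n θ
      have h3 : 0 ≤ (e n)⁻¹ * (B1 + B1) := by positivity
      linarith
    · have := hψ2b n θ
      have h2 : 0 ≤ (e n)⁻¹ * (B0 + B0) := by positivity
      linarith
  -- limits
  have he : Tendsto e atTop (𝓝[≠] 0) := by
    rw [tendsto_nhdsWithin_iff]
    exact ⟨tendsto_one_div_add_atTop_nhds_zero_nat, Filter.Eventually.of_forall fun n => (he0 n).ne'⟩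
  have hlim0 : ∀ θ, Tendsto (fun n => ψ n θ) atTop (𝓝 (φ θ)) := fun θ =>
    (hΦ θ).tendsto_slope_zero.comp he
  have hlim1 : Tendsto (fun n => ψ1 n 0) atTop (𝓝 (φ1 0)) := (hφ 0).tendsto_slope_zero.comp he
  have hK := KK_nonneg s c hs
  have hR : Tendsto (fun n => ∫ t : ℝ, ‖F0 s c t‖ ^ p * ψ n (F0 s c t).arg * Real.exp t) atTop
      (𝓝 (∫ t : ℝ, ‖F0 s c t‖ ^ p * φ (F0 s c t).arg * Real.exp t)) := by
    have hF0c : Continuous fun t : ℝ => F0 s c t := continuous_F0 hs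
    apply tendsto_integral_of_dominated_convergence
      (fun t => B0 * (KK s c / (1 + Real.exp t)) ^ p * Real.exp t)
    · intro n
      have hc' : Continuous (ψ n) := continuous_iff_continuousAt.2 fun t => (hψ n t).continuousAt
      apply Measurable.aestronglyMeasurable
      refine ((hF0c.measurable.norm.pow_const p).mul
        (hc'.measurable.comp (Complex.measurable_arg.comp hF0c.measurable))).mul
        Real.continuous_exp.measurable
    · exact integrable_g (by linarith) _ hK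
    · intro n
      refine Filter.Eventually.of_forall fun t => ?_
      rw [norm_mul, norm_mul, Real.norm_eq_abs, Real.norm_eq_abs, Real.norm_eq_abs,
        abs_of_pos (Real.exp_pos t), abs_of_nonneg (Real.rpow_nonneg (norm_nonneg _) p)]
      have h1 := norm_F0_le (c := c) hs (mem_strip0 t)
      rw [Complex.ofReal_re] at h1
      have h2 : ‖F0 s c t‖ ^ p ≤ (KK s c / (1 + Real.exp t)) ^ p :=
        Real.rpow_le_rpow (norm_nonneg _) h1 (by linarith)
      have h3 := mul_le_mul h2 (hψb n (F0 s c t).arg) (abs_nonneg _) (by positivity)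
      have h4 := mul_le_mul_of_nonneg_right h3 (Real.exp_pos t).le
      linarith
    · exact Filter.Eventually.of_forall fun t => ((hlim0 _).const_mul _).mul_const _
  exact le_of_tendsto_of_tendsto' ((hlim1.div_const p).mul_const _) hR hn

/-- real part on the positive axis -/
noncomputable def uu (s : Finset ℝ) (c : ℝ → ℝ) (x : ℝ) : ℝ := ∑ b ∈ s, c b * (b / (x ^ 2 + b ^ 2))

noncomputable def vv (s : Finset ℝ) (c : ℝ → ℝ) (x : ℝ) : ℝ := ∑ b ∈ s, c b * (x / (x ^ 2 + b ^ 2))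

theorem F0_real {s : Finset ℝ} {c : ℝ → ℝ} (hs : ∀ b ∈ s, 0 < b) (t : ℝ) :
    F0 s c t = (uu s c (Real.exp t) : ℂ) + (vv s c (Real.exp t) : ℂ) * I := by
  rw [F0, uu, vv]
  push_cast
  rw [Finset.sum_mul, ← Finset.sum_add_distrib]
  apply Finset.sum_congr rfl
  intro b hb
  have h0 := hs b hb
  have hne := den_ne h0 (mem_strip0 t)
  have hne2 : (Complex.exp t ^ 2 + (b:ℂ) ^ 2) ≠ 0 := by
    have : Complex.exp t ^ 2 + (b:ℂ) ^ 2 = ((Real.exp t ^ 2 + b ^ 2 : ℝ) : ℂ) := by push_cast; rfl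
    rw [this]
    exact_mod_cast (by positivity : Real.exp t ^ 2 + b ^ 2 ≠ 0)
  have hI : I ^ 2 = -1 := Complex.I_sq
  field_simp
  linear_combination (-(Complex.exp t * b * (c b : ℂ))) * hI

theorem pt_ineq {p C a b : ℝ} {φ : ℝ → ℝ}
    (hle : ∀ θ, φ θ ≤ C * |a * Real.cos θ + b * Real.sin θ| ^ p -
      |Real.cos θ - Real.sin θ| ^ p) (u v : ℝ) :
    ‖((u : ℂ) + (v : ℂ) * I)‖ ^ p * φ ((u : ℂ) + (v : ℂ) * I).arg ≤
      C * |a * u + b * v| ^ p - |u - v| ^ p := by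
  obtain ⟨w, hw⟩ : ∃ w : ℂ, w = (u : ℂ) + (v : ℂ) * I := ⟨_, rfl⟩
  have hu : u = ‖w‖ * Real.cos w.arg := by
    rw [Complex.norm_mul_cos_arg, hw]; simp
  have hv : v = ‖w‖ * Real.sin w.arg := by
    rw [Complex.norm_mul_sin_arg, hw]; simp
  rw [← hw]
  have h1 := hle w.arg
  have h2 : C * |a * u + b * v| ^ p - |u - v| ^ p = ‖w‖ ^ p *
      (C * |a * Real.cos w.arg + b * Real.sin w.arg| ^ p -
      |Real.cos w.arg - Real.sin w.arg| ^ p) := by
    have e1 : u - v = ‖w‖ * (Real.cos w.arg - Real.sin w.arg) := by linarith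
    have e2 : a * u + b * v = ‖w‖ * (a * Real.cos w.arg + b * Real.sin w.arg) := by
      linear_combination a * hu + b * hv
    rw [e1, e2]
    rw [abs_mul, abs_mul, abs_of_nonneg (norm_nonneg w), Real.mul_rpow (norm_nonneg _) (abs_nonneg _),
      Real.mul_rpow (norm_nonneg _) (abs_nonneg _)]
    ring
  rw [h2]
  exact mul_le_mul_of_nonneg_left h1 (Real.rpow_nonneg (norm_nonneg _) _)

end Pool.Agent.D0H32.RE
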