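import Pool.Agent.D0H32.RE.Phi
import Pool.Agent.D0H32.RE.Smooth

/-!
# Class inequalities for real coefficients (project RE)
-/

set_option autoImplicit false

open Real Set Filter Topology MeasureTheory
open Complex (I)

namespace Pool.Agent.D0H32.RE

theorem uu_le {s : Finset ℝ} {c : ℝ → ℝ} (hs : ∀ b ∈ s, 0 < b) {x : ℝ} (hx : 0 < x) :
    |uu s c x| ≤ KK s c / (1 + x) := by
  have h1 := norm_F0_le (c := c) hs (mem_strip0 (Real.log x))
  rw [F0_real hs, Complex.ofReal_re, Real.exp_log hx] at h1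
  refine le_trans ?_ h1
  have h2 := Complex.abs_re_le_norm ((uu s c x : ℂ) + (vv s c x : ℂ) * I)
  simpa using h2

theorem vv_le {s : Finset ℝ} {c : ℝ → ℝ} (hs : ∀ b ∈ s, 0 < b) {x : ℝ} (hx : 0 < x) :
    |vv s c x| ≤ KK s c / (1 + x) := by
  have h1 := norm_F0_le (c := c) hs (mem_strip0 (Real.log x))
  rw [F0_real hs, Complex.ofReal_re, Real.exp_log hx] at h1
  refine le_trans ?_ h1
  have h2 := Complex.abs_im_le_norm ((uu s c x : ℂ) + (vv s c x : ℂ) * I)
  simpa using h2

theorem continuous_uu {s : Finset ℝ} {c : ℝ → ℝ} (hs : ∀ b ∈ s, 0 < b) : Continuous (uu s c) := by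
  unfold uu
  apply continuous_finsetSum
  intro b hb
  have h0 := hs b hb
  exact continuous_const.mul (continuous_const.div (by fun_prop) (fun x => by positivity))

theorem continuous_vv {s : Finset ℝ} {c : ℝ → ℝ} (hs : ∀ b ∈ s, 0 < b) : Continuous (vv s c) := by
  unfold vv
  apply continuous_finsetSum
  intro b hb
  have h0 := hs b hb
  exact continuous_const.mul (continuous_id.div (by fun_prop) (fun x => by positivity))

theorem integrable_comb {p : ℝ} (hp : 1 < p) {s : Finset ℝ} {c : ℝ → ℝ} (hs : ∀ b ∈ s, 0 < b)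
    (a b : ℝ) : IntegrableOn (fun x => |a * uu s c x + b * vv s c x| ^ p) (Ioi 0) := by
  have hK := KK_nonneg s c hs
  have h1 : IntegrableOn (fun x : ℝ => (x + 1) ^ (-p)) (Ioi 0) :=
    integrableOn_add_rpow_Ioi_of_lt (by linarith) (by norm_num)
  have h2 := h1.const_mul (((|a| + |b|) * KK s c) ^ p)
  refine Integrable.mono' h2 ?_ ?_
  · have hc : Continuous fun x => |a * uu s c x + b * vv s c x| ^ p :=
      (((continuous_const.mul (continuous_uu hs)).add
        (continuous_const.mul (continuous_vv hs))).abs).rpow_const (fun _ => Or.inr (by linarith))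
    exact hc.aestronglyMeasurable
  · filter_upwards [ae_restrict_mem measurableSet_Ioi] with x hx
    have hx0 : 0 < x := hx
    rw [Real.norm_eq_abs, abs_of_nonneg (Real.rpow_nonneg (abs_nonneg _) _)]
    have e1 : |a * uu s c x + b * vv s c x| ≤ (|a| + |b|) * KK s c / (x + 1) := by
      refine le_trans (abs_add_le _ _) ?_
      rw [abs_mul, abs_mul]
      have h3 := mul_le_mul_of_nonneg_left (uu_le (c := c) hs hx0) (abs_nonneg a)
      have h4 := mul_le_mul_of_nonneg_left (vv_le (c := c) hs hx0) (abs_nonneg b)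
      calc _ ≤ |a| * (KK s c / (1 + x)) + |b| * (KK s c / (1 + x)) := add_le_add h3 h4
        _ = _ := by rw [add_comm x 1]; ring
    refine le_trans (Real.rpow_le_rpow (abs_nonneg _) e1 (by linarith)) (le_of_eq ?_)
    rw [Real.div_rpow (by positivity) (by linarith), Real.rpow_neg (by linarith)]
    rfl

/-- from the boundary inequality to the class inequality -/
theorem cls_of_phi {p C a b : ℝ} {φ φ1 : ℝ → ℝ} {s : Finset ℝ} {c : ℝ → ℝ} (hp : 2 < p)
    (hφ : ∀ θ, HasDerivAt φ (φ1 θ) θ) (hc1 : Continuous φ1) (per0 : ∀ θ, φ (θ + π) = φ θ)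
    (hP3 : ∀ a b, a ≤ b → 0 ≤ φ1 b - φ1 a + p ^ 2 * ∫ t in a..b, φ t)
    (hle : ∀ θ, φ θ ≤ C * |a * Real.cos θ + b * Real.sin θ| ^ p -
      |Real.cos θ - Real.sin θ| ^ p) (h0 : 0 ≤ φ1 0)
    (hs : ∀ b ∈ s, 0 < b) :
    ∫ x in Ioi (0:ℝ), |uu s c x - vv s c x| ^ p ≤
      C * ∫ x in Ioi (0:ℝ), |a * uu s c x + b * vv s c x| ^ p := by
  have hp0 : 0 < p := by linarith
  have h1 := sub_ineq' (c := c) hp hφ hc1 per0 hP3 hs
  have hK := KK_nonneg s c hs
  have h2 : 0 ≤ φ1 0 / p * ∫ t, |rho s c t| ^ p * Real.exp t := by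
    apply mul_nonneg (div_nonneg h0 hp0.le)
    exact integral_nonneg fun t => by positivity
  have hi1 := integrable_comb (p := p) (by linarith) (c := c) hs a b
  have hi2 : IntegrableOn (fun x => |uu s c x - vv s c x| ^ p) (Ioi 0) := by
    have := integrable_comb (p := p) (by linarith) (c := c) hs 1 (-1)
    refine this.congr (Filter.Eventually.of_forall fun x => ?_)
    simp only
    congr 2
    ring
  have hi3 : IntegrableOn (fun x => C * |a * uu s c x + b * vv s c x| ^ p -
      |uu s c x - vv s c x| ^ p) (Ioi 0) := (hi1.const_mul C).sub hi2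
  have h3 : ∫ x in Ioi (0:ℝ), (C * |a * uu s c x + b * vv s c x| ^ p - |uu s c x - vv s c x| ^ p) =
      C * (∫ x in Ioi (0:ℝ), |a * uu s c x + b * vv s c x| ^ p) -
        ∫ x in Ioi (0:ℝ), |uu s c x - vv s c x| ^ p := by
    rw [integral_sub (hi1.const_mul C) hi2, integral_const_mul]
  have hi3' := (integrable_exp_iff _).1 hi3
  have h4 : ∫ t : ℝ, ‖F0 s c t‖ ^ p * φ (F0 s c t).arg * Real.exp t ≤
      ∫ x in Ioi (0:ℝ), (C * |a * uu s c x + b * vv s c x| ^ p - |uu s c x - vv s c x| ^ p) := by
    rw [integral_exp]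
    obtain ⟨B0, hB00, hB0⟩ := periodic_bounded
      (continuous_iff_continuousAt.2 fun t => (hφ t).continuousAt) per0
    have hφc : Continuous φ := continuous_iff_continuousAt.2 fun t => (hφ t).continuousAt
    apply integral_mono
    · refine Integrable.mono' (integrable_g (p := p) (by linarith) B0 hK)
        (Measurable.aestronglyMeasurable ?_) (Filter.Eventually.of_forall fun t => ?_)
      · have hF := continuous_F0 (c := c) hs
        exact ((hF.measurable.norm.pow_const p).mul
          (hφc.measurable.comp (Complex.measurable_arg.comp hF.measurable))).mul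
          Real.continuous_exp.measurable
      · rw [norm_mul, norm_mul, Real.norm_eq_abs, Real.norm_eq_abs, Real.norm_eq_abs,
          abs_of_pos (Real.exp_pos t), abs_of_nonneg (Real.rpow_nonneg (norm_nonneg _) p)]
        have h1 := norm_F0_le (c := c) hs (mem_strip0 t)
        rw [Complex.ofReal_re] at h1
        have h2 : ‖F0 s c t‖ ^ p ≤ (KK s c / (1 + Real.exp t)) ^ p :=
          Real.rpow_le_rpow (norm_nonneg _) h1 (by linarith)
        have h3 := mul_le_mul h2 (hB0 (F0 s c t).arg) (abs_nonneg _) (by positivity)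
        have h4 := mul_le_mul_of_nonneg_right h3 (Real.exp_pos t).le
        linarith
    · exact hi3'
    · intro t
      simp only [smul_eq_mul]
      rw [mul_comm]
      apply mul_le_mul_of_nonneg_left _ (Real.exp_pos t).le
      rw [F0_real hs]
      exact pt_ineq hle _ _
  linarith

/-- class inequalities for real coefficients, `p > 2` -/
theorem cls_real_gt {p C : ℝ} {s : Finset ℝ} {c : ℝ → ℝ} (hp : 2 < p)
    (hC : IsGreatest (range (R p)) C) (hs : ∀ b ∈ s, 0 < b) :
    (∫ x in Ioi (0:ℝ), |uu s c x - vv s c x| ^ p ≤ C * ∫ x in Ioi (0:ℝ), |uu s c x| ^ p) ∧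
    (∫ x in Ioi (0:ℝ), |uu s c x - vv s c x| ^ p ≤ C * ∫ x in Ioi (0:ℝ), |vv s c x| ^ p) := by
  obtain ⟨C', hC', hC0, φ, φ1, hφ, hφ1c, hper, hP3, hle, h0, h1⟩ := exists_phi p hp
  have hCC : C' = C := hC'.unique hC
  rw [hCC] at hle
  constructor
  · have := cls_of_phi (a := 1) (b := 0) (C := C) (c := c) hp hφ hφ1c hper hP3
      (fun θ => by simpa using hle θ) h0 hs
    simpa using this
  · have := cls_of_phi (a := 0) (b := 1) (C := C) (c := c) (φ := fun θ => φ (π / 2 - θ))
      (φ1 := fun θ => -φ1 (π / 2 - θ)) hp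
      (fun θ => ((hφ (π / 2 - θ)).comp_const_sub (π / 2) θ))
      (hφ1c.comp (by fun_prop)).neg
      (fun θ => by
        show φ (π / 2 - (θ + π)) = φ (π / 2 - θ)
        have : π / 2 - (θ + π) + π = π / 2 - θ := by ring
        rw [← this, hper])
      (fun a b hab => by
        have h2 := hP3 (π / 2 - b) (π / 2 - a) (by linarith)
        rw [intervalIntegral.integral_comp_sub_left (fun t => φ t) (π / 2)]
        linarith)
      (fun θ => by
        have h2 := hle (π / 2 - θ)
        rw [Real.cos_pi_div_two_sub, Real.sin_pi_div_two_sub, abs_sub_comm] at h2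
        simpa using h2)
      (by simp only [sub_zero]; linarith) hs
    simpa using this

end Pool.Agent.D0H32.RE
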