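import Pool.Agent.D0H32.RE.ClsReal

/-!
# Class inequalities for real coefficients, `p = 2` and `p ≥ 2` (project RE)
-/

set_option autoImplicit false

open Real Set Filter Topology MeasureTheory
open Complex (I)

namespace Pool.Agent.D0H32.RE

theorem R_two (x : ℝ) : R 2 x = 2 := by
  rw [R_eq]
  have h1 : DD 2 = 2 := by rw [DD]; norm_num
  have h2 : ∀ y, K 2 y = 1 := by
    intro y
    rw [K, k, k, Real.cos_add_pi_div_two]
    have e1 : |cos y| ^ (2:ℝ) = cos y ^ 2 := by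
      rw [show (2:ℝ) = ((2:ℕ):ℝ) by norm_num, Real.rpow_natCast, sq_abs]
    have e2 : |-sin y| ^ (2:ℝ) = sin y ^ 2 := by
      rw [show (2:ℝ) = ((2:ℕ):ℝ) by norm_num, Real.rpow_natCast, sq_abs, neg_sq]
    rw [e1, e2, Real.cos_sq_add_sin_sq]
  rw [h1, h2, h2]
  norm_num

theorem contour {s : Finset ℝ} {c : ℝ → ℝ} (hs : ∀ b ∈ s, 0 < b) :
    ∫ t : ℝ, F0 s c t ^ 2 * (Real.exp t : ℝ) =
      I * (∫ t : ℝ, rho s c t ^ 2 * Real.exp t : ℝ) := by
  have hK := KK_nonneg s c hs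
  have hπ : (0:ℝ) ≤ π / 2 := by positivity
  obtain ⟨g, hg⟩ : ∃ g : ℝ → ℝ, g = fun t =>
    3 * (KK s c / (1 + Real.exp t)) ^ (2:ℝ) * Real.exp t := ⟨_, rfl⟩
  have hgi : Integrable g := by rw [hg]; exact integrable_g (by norm_num) _ hK
  have hg' : ∀ t, g t = 3 * (KK s c / (1 + Real.exp t)) ^ 2 * Real.exp t := by
    intro t
    rw [hg]
    simp only [show (2:ℝ) = ((2:ℕ):ℝ) by norm_num, Real.rpow_natCast]
  have hcurve : ∀ (σ t : ℝ), HasDerivAt (fun t : ℝ => (t : ℂ) + σ * I) 1 t := fun σ t =>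
    (Complex.ofRealCLM.hasDerivAt (x := t)).add_const _ |>.congr_deriv (by simp)
  have hcurve' : ∀ (σ t : ℝ), HasDerivAt (fun σ : ℝ => (t : ℂ) + σ * I) I σ := fun σ t =>
    (((Complex.ofRealCLM.hasDerivAt (x := σ)).mul_const I).const_add (t:ℂ)).congr_deriv (by simp)
  have hre : ∀ t σ : ℝ, ((t : ℂ) + σ * I).re = t := by intro t σ; simp
  let W : ℂ → ℂ := fun ω => F0 s c ω ^ 2 * Complex.exp ω
  let W' : ℂ → ℂ := fun ω => (2 * F0 s c ω * F1 s c ω + F0 s c ω ^ 2) * Complex.exp ω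
  have hW : ∀ {ω : ℝ → ℂ} {d : ℂ} {u : ℝ}, HasDerivAt ω d u → ω u ∈ strip →
      HasDerivAt (fun v => W (ω v)) (d * W' (ω u)) u := by
    intro ω d u hω hu
    have h0 := hasDerivAt_F0 (c := c) hs hω hu
    refine ((h0.pow 2).mul hω.cexp).congr_deriv ?_
    simp only [W', Pi.pow_apply]
    push_cast
    ring
  have hbW : ∀ ω ∈ strip, ‖W ω‖ ≤ (KK s c / (1 + Real.exp ω.re)) ^ 2 * Real.exp ω.re := by
    intro ω hω
    simp only [W]
    rw [norm_mul, norm_pow, Complex.norm_exp]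
    have := norm_F0_le (c := c) hs hω
    gcongr
  have hbW' : ∀ ω ∈ strip, ‖W' ω‖ ≤ 3 * (KK s c / (1 + Real.exp ω.re)) ^ 2 * Real.exp ω.re := by
    intro ω hω
    simp only [W']
    rw [norm_mul, Complex.norm_exp]
    have h0 := norm_F0_le (c := c) hs hω
    have h1 := norm_F1_le (c := c) hs hω
    apply mul_le_mul_of_nonneg_right _ (Real.exp_pos _).le
    refine le_trans (norm_add_le _ _) ?_
    rw [norm_mul, norm_mul, norm_pow, Complex.norm_ofNat]
    have e1 : ‖F0 s c ω‖ * ‖F1 s c ω‖ ≤ (KK s c / (1 + Real.exp ω.re)) ^ 2 := by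
      rw [sq]; exact mul_le_mul h0 h1 (norm_nonneg _) (by positivity)
    have e2 : ‖F0 s c ω‖ ^ 2 ≤ (KK s c / (1 + Real.exp ω.re)) ^ 2 := by gcongr
    nlinarith
  have key : ∀ κ : ℂ, ‖κ‖ ≤ 1 → (κ * ∫ t : ℝ, F0 s c t ^ 2 * (Real.exp t : ℝ)).re ≤
      (κ * (I * (∫ t : ℝ, rho s c t ^ 2 * Real.exp t : ℝ))).re := by
    intro κ hκ
    have hsub : ∀ σ ∈ Ioo (0:ℝ) (π / 2), σ ∈ Icc (0:ℝ) (π / 2) := fun σ hσ => Ioo_subset_Icc_self hσ
    have hb0 : ∀ σ ∈ Icc 0 (π / 2), ∀ t : ℝ, ‖κ * W ((t : ℂ) + σ * I)‖ ≤ g t := by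
      intro σ hσ t
      rw [norm_mul, hg']
      have h1 := hbW _ (mem_strip t hσ)
      rw [hre] at h1
      have h2 := mul_le_mul hκ h1 (norm_nonneg _) zero_le_one
      have h3 : 0 ≤ (KK s c / (1 + Real.exp t)) ^ 2 * Real.exp t := by positivity
      nlinarith
    have hb1 : ∀ d : ℂ, ‖d‖ ≤ 1 → ∀ σ ∈ Icc 0 (π / 2), ∀ t : ℝ,
        ‖κ * (d * W' ((t : ℂ) + σ * I))‖ ≤ g t := by
      intro d hd σ hσ t
      rw [norm_mul, norm_mul, hg']
      have h1 := hbW' _ (mem_strip t hσ)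
      rw [hre] at h1
      have h2 := mul_le_mul hd h1 (norm_nonneg _) zero_le_one
      have h3 := mul_le_mul hκ h2 (by positivity) zero_le_one
      linarith
    have hd0 : ∀ σ ∈ Icc 0 (π / 2), ∀ t : ℝ, HasDerivAt (fun t : ℝ => κ * W ((t : ℂ) + σ * I))
        (κ * (1 * W' ((t : ℂ) + σ * I))) t := fun σ hσ t =>
      (hW (hcurve σ t) (mem_strip t hσ)).const_mul κ
    have hd1 : ∀ σ ∈ Icc 0 (π / 2), ∀ t : ℝ, HasDerivAt (fun σ : ℝ => κ * W ((t : ℂ) + σ * I))
        (κ * (I * W' ((t : ℂ) + σ * I))) σ := fun σ hσ t =>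
      (hW (hcurve' σ t) (mem_strip t hσ)).const_mul κ
    have hG := green (V := fun t σ => κ * W ((t : ℂ) + σ * I))
      (Vt := fun t σ => κ * (1 * W' ((t : ℂ) + σ * I)))
      (Vs := fun t σ => κ * (I * W' ((t : ℂ) + σ * I))) hgi
      (fun σ hσ => continuous_iff_continuousAt.2 fun t => (hd0 σ hσ t).continuousAt)
      (fun t σ hσ => (hd1 σ hσ t).continuousAt.continuousWithinAt)
      (fun σ hσ t => hd0 σ (hsub σ hσ) t) (fun σ hσ t => hd1 σ (hsub σ hσ) t)
      hb0 (fun σ hσ t => hb1 1 (by simp) σ (hsub σ hσ) t)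
      (fun σ hσ t => hb1 I (by simp) σ (hsub σ hσ) t)
      (fun σ hσ t => by
        have : κ * (I * W' ((t : ℂ) + σ * I)) - I * (κ * (1 * W' ((t : ℂ) + σ * I))) = 0 := by ring
        rw [this, Complex.zero_re])
    have e1 : (fun t : ℝ => κ * W ((t : ℂ) + (0:ℝ) * I)) =
        fun t : ℝ => κ * (F0 s c t ^ 2 * (Real.exp t : ℝ)) := by
      funext t
      have : (t : ℂ) + (0:ℝ) * I = t := by simp
      rw [this, Complex.ofReal_exp]
    have e2 : (fun t : ℝ => κ * W ((t : ℂ) + (π / 2 : ℝ) * I)) =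
        fun t : ℝ => κ * (I * ((rho s c t ^ 2 * Real.exp t : ℝ) : ℂ)) := by
      funext t
      simp only [W]
      rw [F0_top hs, exp_top]
      push_cast
      ring
    rw [e1, e2] at hG
    rw [integral_const_mul, integral_const_mul, integral_const_mul, integral_complex_ofReal] at hG
    exact hG
  apply Complex.ext
  · have h1 := key 1 (by simp)
    have h2 := key (-1) (by simp)
    rw [one_mul, one_mul] at h1
    rw [neg_one_mul, neg_one_mul, Complex.neg_re, Complex.neg_re] at h2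
    linarith
  · have h1 := key I (by simp)
    have h2 := key (-I) (by simp)
    rw [Complex.I_mul_re, Complex.I_mul_re] at h1
    rw [neg_mul, neg_mul, Complex.neg_re, Complex.neg_re, Complex.I_mul_re, Complex.I_mul_re] at h2
    linarith

theorem rpow_two (y : ℝ) : |y| ^ (2:ℝ) = y ^ 2 := by
  rw [show (2:ℝ) = ((2:ℕ):ℝ) by norm_num, Real.rpow_natCast, sq_abs]

theorem integrable_sq {s : Finset ℝ} {c : ℝ → ℝ} (hs : ∀ b ∈ s, 0 < b) (a b : ℝ) :
    IntegrableOn (fun x => (a * uu s c x + b * vv s c x) ^ 2) (Ioi 0) := by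
  have := integrable_comb (p := 2) (by norm_num) (c := c) hs a b
  simpa only [rpow_two] using this

theorem cls_real_two {s : Finset ℝ} {c : ℝ → ℝ} (hs : ∀ b ∈ s, 0 < b) :
    (∫ x in Ioi (0:ℝ), (uu s c x - vv s c x) ^ 2 ≤ 2 * ∫ x in Ioi (0:ℝ), (uu s c x) ^ 2) ∧
    (∫ x in Ioi (0:ℝ), (uu s c x - vv s c x) ^ 2 ≤ 2 * ∫ x in Ioi (0:ℝ), (vv s c x) ^ 2) := by
  have hu : IntegrableOn (fun x => (uu s c x) ^ 2) (Ioi 0) := by
    simpa using integrable_sq (c := c) hs 1 0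
  have hv : IntegrableOn (fun x => (vv s c x) ^ 2) (Ioi 0) := by
    simpa using integrable_sq (c := c) hs 0 1
  have huv : IntegrableOn (fun x => (uu s c x - vv s c x) ^ 2) (Ioi 0) := by
    refine (integrable_sq (c := c) hs 1 (-1)).congr (Filter.Eventually.of_forall fun x => ?_)
    simp only
    ring
  have hm : IntegrableOn (fun x => 2 * (uu s c x * vv s c x)) (Ioi 0) := by
    refine ((hu.add hv).sub huv).congr (Filter.Eventually.of_forall fun x => ?_)
    simp only [Pi.sub_apply, Pi.add_apply]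
    ring
  have h := contour (c := c) hs
  have hF : ∀ t : ℝ, F0 s c t ^ 2 * (Real.exp t : ℝ) =
      ((Real.exp t • ((uu s c (Real.exp t)) ^ 2 - (vv s c (Real.exp t)) ^ 2) : ℝ) : ℂ) +
      ((Real.exp t • (2 * (uu s c (Real.exp t) * vv s c (Real.exp t))) : ℝ) : ℂ) * I := by
    intro t
    rw [F0_real hs]
    simp only [smul_eq_mul]
    push_cast
    linear_combination ((vv s c (Real.exp t) : ℂ) ^ 2 * Complex.exp t) * Complex.I_sq
  have hI1 := (integrable_exp_iff _).1 (hu.sub hv)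
  have hI2 := (integrable_exp_iff _).1 hm
  have hint : ∫ t : ℝ, F0 s c t ^ 2 * (Real.exp t : ℝ) =
      ((∫ x in Ioi (0:ℝ), ((uu s c x) ^ 2 - (vv s c x) ^ 2) : ℝ) : ℂ) +
      ((∫ x in Ioi (0:ℝ), (2 * (uu s c x * vv s c x)) : ℝ) : ℂ) * I := by
    rw [integral_exp, integral_exp, ← integral_complex_ofReal, ← integral_complex_ofReal,
      ← integral_mul_const, ← integral_add]
    · apply integral_congr_ae
      exact Filter.Eventually.of_forall hF
    · exact hI1.ofReal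
    · exact hI2.ofReal.mul_const I
  rw [hint] at h
  have hre := congrArg Complex.re h
  have him := congrArg Complex.im h
  simp only [Complex.add_re, Complex.ofReal_re, Complex.mul_re, Complex.I_re, mul_zero,
    Complex.ofReal_im, Complex.I_im, mul_one, sub_self, add_zero, zero_mul, Complex.add_im,
    Complex.mul_im, zero_add, one_mul] at hre him
  have hρ : 0 ≤ ∫ t : ℝ, rho s c t ^ 2 * Real.exp t := integral_nonneg fun t => by positivity
  rw [← him] at hρ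
  have e1 : ∫ x in Ioi (0:ℝ), ((uu s c x) ^ 2 - (vv s c x) ^ 2) =
      (∫ x in Ioi (0:ℝ), (uu s c x) ^ 2) - ∫ x in Ioi (0:ℝ), (vv s c x) ^ 2 :=
    integral_sub hu hv
  have e2 : ∫ x in Ioi (0:ℝ), (uu s c x - vv s c x) ^ 2 =
      (∫ x in Ioi (0:ℝ), (uu s c x) ^ 2) + (∫ x in Ioi (0:ℝ), (vv s c x) ^ 2) -
        ∫ x in Ioi (0:ℝ), (2 * (uu s c x * vv s c x)) := by
    have huv' : IntegrableOn (fun x => (uu s c x) ^ 2 + (vv s c x) ^ 2) (Ioi 0) := hu.add hv
    rw [← integral_add hu hv, ← integral_sub huv' hm]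
    apply integral_congr_ae
    refine Filter.Eventually.of_forall fun x => ?_
    simp only
    ring
  constructor <;> linarith

/-- class inequalities for real coefficients, `p ≥ 2` -/
theorem cls_real {p C : ℝ} {s : Finset ℝ} {c : ℝ → ℝ} (hp : 2 ≤ p)
    (hC : IsGreatest (range (R p)) C) (hs : ∀ b ∈ s, 0 < b) :
    (∫ x in Ioi (0:ℝ), |uu s c x - vv s c x| ^ p ≤ C * ∫ x in Ioi (0:ℝ), |uu s c x| ^ p) ∧
    (∫ x in Ioi (0:ℝ), |uu s c x - vv s c x| ^ p ≤ C * ∫ x in Ioi (0:ℝ), |vv s c x| ^ p) := by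
  rcases eq_or_lt_of_le hp with h | h
  · rw [← h] at hC ⊢
    obtain ⟨x, hx⟩ := hC.1
    rw [R_two] at hx
    simp only [rpow_two]
    rw [← hx]
    exact cls_real_two hs
  · exact cls_real_gt h hC hs

end Pool.Agent.D0H32.RE
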