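import Pool.Agent.D0H32.RE.Point

/-!
# The touching data (project RE)
-/

set_option autoImplicit false

open Real Set Filter Topology

namespace Pool.Agent.D0H32.RE

theorem sin_mul_pos {p x : ℝ} (hp : 0 < p) (h1 : 0 < x) (h2 : x < π / p) : 0 < sin (p * x) := by
  apply sin_pos_of_pos_of_lt_pi (by positivity)
  rw [lt_div_iff₀ hp] at h2
  linarith

theorem sin_mul_neg {p x : ℝ} (hp : 0 < p) (h1 : x < 0) (h2 : -(π / p) < x) :
    sin (p * x) < 0 := by
  have := sin_mul_pos hp (x := -x) (by linarith) (by linarith)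
  rw [mul_neg, sin_neg] at this
  linarith

/-- the touching data at a maximum of `R p` -/
theorem exists_data (p : ℝ) (hp : 2 < p) : ∃ c x0 α β : ℝ, IsGreatest (range (R p)) c ∧
    DD p ≤ c ∧ x0 < α ∧ α < π / 2 ∧ π / 2 < β ∧ β < x0 + π / p ∧ β - α ≤ π / 2 ∧
    (∀ θ ∈ Ioo α β, mu p c θ < 0) ∧ (∀ θ ∈ Ioo β (α + π), 0 < mu p c θ) ∧
    G p c x0 + G p c (x0 + π / p) = 0 ∧ G1 p c x0 + G1 p c (x0 + π / p) = 0 := by
  obtain ⟨xs, hxs⟩ := exists_max p (by linarith)
  obtain ⟨c, hc⟩ : ∃ c : ℝ, c = R p xs := ⟨_, rfl⟩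
  have hcle : ∀ y, R p y ≤ c := by rw [hc]; exact hxs
  have hDc : DD p ≤ c := DD_le_max p c (by linarith) hcle
  have hD := DD_pos p
  have he1 : 1 ≤ (c / DD p) ^ (2 / (p - 2)) := by
    apply Real.one_le_rpow
    · rw [one_le_div hD]; exact hDc
    · apply div_nonneg <;> linarith
  obtain ⟨α, β, h1, h2, h3, h4, h5⟩ := arcs _ he1
  have hmuneg : ∀ θ ∈ Ioo α β, mu p c θ < 0 := fun θ hθ => (mu_sign p c hp hDc θ).2 (h4 θ hθ)
  have hmupos : ∀ θ ∈ Ioo β (α + π), 0 < mu p c θ :=
    fun θ hθ => (mu_sign p c hp hDc θ).1 (h5 θ hθ)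
  -- the sum function
  have hsum : ∀ y, 0 ≤ G p c y + G p c (y + π / p) := by
    intro y
    have h := hcle y
    rw [R_eq, div_le_iff₀ (K_pos p y (by linarith))] at h
    have e1 : y + π / 4 + π / p = y + π / p + π / 4 := by ring
    simp only [K, G] at h ⊢
    rw [e1] at h
    linarith
  have hsum0 : G p c xs + G p c (xs + π / p) = 0 := by
    have h : R p xs = c := hc.symm
    rw [R_eq, div_eq_iff (K_pos p xs (by linarith)).ne'] at h
    have e1 : xs + π / 4 + π / p = xs + π / p + π / 4 := by ring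
    simp only [K, G] at h ⊢
    rw [e1] at h
    linarith
  have hsum1 : G1 p c xs + G1 p c (xs + π / p) = 0 := by
    have hd : HasDerivAt (fun y => G p c y + G p c (y + π / p))
        (G1 p c xs + G1 p c (xs + π / p)) xs :=
      (hasDerivAt_G p c (by linarith) xs).add
        ((hasDerivAt_G p c (by linarith) (xs + π / p)).comp_add_const xs (π / p))
    have hm : IsLocalMin (fun y => G p c y + G p c (y + π / p)) xs := by
      apply Filter.Eventually.of_forall
      intro y
      show G p c xs + G p c (xs + π / p) ≤ G p c y + G p c (y + π / p)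
      rw [hsum0]
      exact hsum y
    exact hm.hasDerivAt_eq_zero hd
  have hP0 : 0 < π / p := by positivity
  have hP1 : π / p < π / 2 := by
    apply div_lt_div_of_pos_left pi_pos (by norm_num) hp
  -- all integer translates of xs
  have hGint : ∀ (n : ℤ) (y : ℝ), G p c (y + n * π) = G p c y := fun n y =>
    (show Function.Periodic (G p c) π from G_add_pi p c).int_mul n y
  have hG1int : ∀ (n : ℤ) (y : ℝ), G1 p c (y + n * π) = G1 p c y := fun n y =>
    (show Function.Periodic (G1 p c) π from G1_add_pi p c).int_mul n y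
  have htr : ∀ n : ℤ, G p c (xs + n * π) + G p c (xs + n * π + π / p) = 0 ∧
      G1 p c (xs + n * π) + G1 p c (xs + n * π + π / p) = 0 := by
    intro n
    have e1 : xs + n * π + π / p = xs + π / p + n * π := by ring
    rw [e1, hGint, hGint, hG1int, hG1int]
    exact ⟨hsum0, hsum1⟩
  -- choose the translate in `[α - π / p, α - π / p + π)`
  obtain ⟨n, hn⟩ : ∃ n : ℤ, xs + n * π ∈ Ico (β - π) (β - π + π) := by
    have := existsUnique_add_zsmul_mem_Ico pi_pos xs (β - π)
    obtain ⟨n, hn, -⟩ := this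
    exact ⟨n, by simpa using hn⟩
  obtain ⟨x0, hx0⟩ : ∃ x0 : ℝ, x0 = xs + n * π := ⟨_, rfl⟩
  obtain ⟨hs0, hs1⟩ := htr n
  rw [← hx0] at hs0 hs1 hn
  have hn2 : x0 < β := by have := hn.2; linarith
  have hn1 : β - π ≤ x0 := hn.1
  -- the touching function
  obtain ⟨x1, hx1⟩ : ∃ x1 : ℝ, x1 = x0 + π / p := ⟨_, rfl⟩
  have hpne : p ≠ 0 := by linarith
  have hp0 : 0 < p := by linarith
  let h : ℝ → ℝ := fun θ => G p c x0 * cos (p * (θ - x0)) + G1 p c x0 / p * sin (p * (θ - x0))
  let h' : ℝ → ℝ := fun θ => -(p * G p c x0 * sin (p * (θ - x0))) + G1 p c x0 * cos (p * (θ - x0))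
  have hh : ∀ θ, HasDerivAt h (h' θ) θ := by
    intro θ
    have e0 : HasDerivAt (fun t => p * (t - x0)) p θ := by
      simpa using ((hasDerivAt_id θ).sub_const x0).const_mul p
    have e1 := (e0.cos.const_mul (G p c x0)).add (e0.sin.const_mul (G1 p c x0 / p))
    refine e1.congr_deriv ?_
    simp only [h']
    field_simp
  have hh' : ∀ θ, HasDerivAt h' (-(p ^ 2 * h θ)) θ := by
    intro θ
    have e0 : HasDerivAt (fun t => p * (t - x0)) p θ := by
      simpa using ((hasDerivAt_id θ).sub_const x0).const_mul p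
    have e1 := ((e0.sin.const_mul (p * G p c x0)).neg).add (e0.cos.const_mul (G1 p c x0))
    refine e1.congr_deriv ?_
    simp only [h]
    field_simp
    ring
  let δ : ℝ → ℝ := fun θ => G p c θ - h θ
  let δ1 : ℝ → ℝ := fun θ => G1 p c θ - h' θ
  have hδ : ∀ θ, HasDerivAt δ (δ1 θ) θ := fun θ => (hasDerivAt_G p c (by linarith) θ).sub (hh θ)
  have hδ1 : ∀ θ, HasDerivAt δ1 (mu p c θ - p ^ 2 * δ θ) θ := by
    intro θ
    refine ((hasDerivAt_G1 p c hp θ).sub (hh' θ)).congr_deriv ?_
    simp only [δ]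
    ring
  have hpx1 : p * (x1 - x0) = π := by rw [hx1]; field_simp; ring
  have z0 : δ x0 = 0 := by simp [δ, h]
  have z0' : δ1 x0 = 0 := by simp [δ1, h']
  have z1 : δ x1 = 0 := by
    simp only [δ, h, hpx1, cos_pi, sin_pi]
    rw [← hx1] at hs0
    linarith
  have z1' : δ1 x1 = 0 := by
    simp only [δ1, h', hpx1, cos_pi, sin_pi]
    rw [← hx1] at hs1
    linarith
  have hx01 : x0 < x1 := by rw [hx1]; linarith
  -- the main tool: no sign-definite product
  have key : ∀ (A τ m : ℝ), x0 ≤ m → m ≤ x1 →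
      (∀ t ∈ Ioo x0 m, 0 < A * sin (p * (t - τ)) * mu p c t) →
      (∀ t ∈ Ioo m x1, 0 < A * sin (p * (t - τ)) * mu p c t) → False := by
    intro A τ m hm0 hm1 ha hb
    have e0 : A * (sin (p * (x0 - τ)) * δ1 x0 - p * cos (p * (x0 - τ)) * δ x0) = 0 := by
      rw [z0, z0']; ring
    have e1 : A * (sin (p * (x1 - τ)) * δ1 x1 - p * cos (p * (x1 - τ)) * δ x1) = 0 := by
      rw [z1, z1']; ring
    rcases lt_or_eq_of_le hm0 with h0 | h0
    · have w1 := wr_lt h0 hδ hδ1 ha
      rcases lt_or_eq_of_le hm1 with h1 | h1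
      · have w2 := wr_lt h1 hδ hδ1 hb
        linarith
      · rw [h1, e0, e1] at w1
        exact lt_irrefl _ w1
    · rw [← h0] at hb
      have w2 := wr_lt hx01 hδ hδ1 hb
      rw [e0, e1] at w2
      exact lt_irrefl _ w2
  -- mu is positive on `(β - π, α)`
  have hmupos' : ∀ θ ∈ Ioo (β - π) α, 0 < mu p c θ := by
    intro θ hθ
    rw [← mu_add_pi]
    exact hmupos _ ⟨by linarith [hθ.1], by linarith [hθ.2]⟩
  have hαx1 : α < x1 := by
    by_contra hcon
    push Not at hcon
    refine key 1 x0 x1 hx01.le le_rfl ?_ ?_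
    · intro t ht
      rw [one_mul]
      exact mul_pos (sin_mul_pos hp0 (by linarith [ht.1]) (by linarith [ht.2]))
        (hmupos' t ⟨by linarith [ht.1], by linarith [ht.2]⟩)
    · intro t ht; exact absurd (ht.1.trans ht.2) (lt_irrefl _)
  have hx0α : x0 < α := by
    by_contra hcon
    push Not at hcon
    rcases le_or_gt x1 β with hb | hb
    · refine key (-1) x0 x1 hx01.le le_rfl ?_ ?_
      · intro t ht
        have a1 := sin_mul_pos hp0 (x := t - x0) (by linarith [ht.1]) (by linarith [ht.2])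
        have a2 := hmuneg t ⟨by linarith [ht.1], by linarith [ht.2]⟩
        nlinarith [mul_pos a1 (neg_pos.2 a2)]
      · intro t ht; exact absurd (ht.1.trans ht.2) (lt_irrefl _)
    · refine key 1 β β hn2.le hb.le ?_ ?_
      · intro t ht
        have a1 := sin_mul_neg hp0 (x := t - β) (by linarith [ht.2]) (by linarith [ht.1])
        have a2 := hmuneg t ⟨by linarith [ht.1], by linarith [ht.2]⟩
        nlinarith [mul_pos (neg_pos.2 a1) (neg_pos.2 a2)]
      · intro t ht
        have a1 := sin_mul_pos hp0 (x := t - β) (by linarith [ht.1]) (by linarith [ht.2])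
        have a2 := hmupos t ⟨by linarith [ht.1], by linarith [ht.2]⟩
        nlinarith [mul_pos a1 a2]
  have hβx1 : β < x1 := by
    by_contra hcon
    push Not at hcon
    refine key (-1) α α hx0α.le hαx1.le ?_ ?_
    · intro t ht
      have a1 := sin_mul_neg hp0 (x := t - α) (by linarith [ht.2]) (by linarith [ht.1])
      have a2 := hmupos' t ⟨by linarith [ht.1], by linarith [ht.2]⟩
      nlinarith [mul_pos (neg_pos.2 a1) a2]
    · intro t ht
      have a1 := sin_mul_pos hp0 (x := t - α) (by linarith [ht.1]) (by linarith [ht.2])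
      have a2 := hmuneg t ⟨by linarith [ht.1], by linarith [ht.2]⟩
      nlinarith [mul_pos a1 (neg_pos.2 a2)]
  refine ⟨c, x0, α, β, ⟨⟨xs, hc.symm⟩, ?_⟩, hDc, hx0α, h1, h2, ?_, h3, hmuneg, hmupos, hs0, hs1⟩
  · rintro _ ⟨y, rfl⟩
    exact hcle y
  · rw [← hx1]; exact hβx1

end Pool.Agent.D0H32.RE
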