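import Mathlib

/-!
# Weighted uniform approximation by Cauchy kernels (project RE)
-/

set_option autoImplicit false

open Real Set Filter Topology MeasureTheory

namespace Pool.Agent.D0H32.RE

/-- positive parameters -/
abbrev PP := {b : ℝ // 0 < b}

theorem den_pos (b : PP) {τ : ℝ} (h0 : 0 ≤ τ) (h1 : τ ≤ 1) : 0 < (1 - τ) + b.1 ^ 2 * τ := by
  have hb : 0 < b.1 ^ 2 := pow_pos b.2 2
  rcases eq_or_lt_of_le h0 with h | h
  · rw [← h]; norm_num
  · have : 0 < b.1 ^ 2 * τ := mul_pos hb h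
    linarith

/-- the generating functions on `[0,1]` -/
noncomputable def gen (b : PP) : C(Icc (0:ℝ) 1, ℝ) :=
  ⟨fun τ => 1 / ((1 - τ.1) + b.1 ^ 2 * τ.1), by
    apply Continuous.div continuous_const (by fun_prop)
    intro τ
    exact (den_pos b τ.2.1 τ.2.2).ne'⟩

/-- the coordinate -/
def coord : C(Icc (0:ℝ) 1, ℝ) := ⟨fun τ => τ.1, continuous_subtype_val⟩

noncomputable def AA : Submodule ℝ C(Icc (0:ℝ) 1, ℝ) :=
  (Submodule.span ℝ (range gen)).topologicalClosure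

theorem gen_mem (b : PP) : gen b ∈ AA :=
  Submodule.le_topologicalClosure _ (Submodule.subset_span ⟨b, rfl⟩)

theorem one_mem : (1 : C(Icc (0:ℝ) 1, ℝ)) ∈ AA := by
  have h : gen ⟨1, one_pos⟩ = 1 := by
    ext τ
    simp [gen]
  rw [← h]
  exact gen_mem _

theorem coord_gen_mem_ne (b : PP) (hb : b.1 ^ 2 ≠ 1) : coord * gen b ∈ AA := by
  have h : coord * gen b = (1 / (b.1 ^ 2 - 1)) • (1 - gen b) := by
    ext τ
    have h1 := (den_pos b τ.2.1 τ.2.2).ne'
    have h2 : b.1 ^ 2 - 1 ≠ 0 := sub_ne_zero.2 hb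
    simp only [coord, gen, ContinuousMap.mul_apply, ContinuousMap.coe_mk, ContinuousMap.smul_apply,
      ContinuousMap.sub_apply, ContinuousMap.one_apply, smul_eq_mul]
    obtain ⟨D, hD⟩ : ∃ D : ℝ, D = 1 - τ.1 + b.1 ^ 2 * τ.1 := ⟨_, rfl⟩
    rw [← hD] at h1 ⊢
    field_simp
    rw [hD]
    ring
  rw [h]
  exact AA.smul_mem _ (AA.sub_mem one_mem (gen_mem b))

theorem isClosed_AA : IsClosed (AA : Set C(Icc (0:ℝ) 1, ℝ)) :=
  Submodule.isClosed_topologicalClosure _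

theorem coord_mem : coord ∈ AA := by
  have hcl : coord ∈ closure (AA : Set C(Icc (0:ℝ) 1, ℝ)) := by
    rw [Metric.mem_closure_iff]
    intro ε hε
    obtain ⟨η, hη⟩ : ∃ η : ℝ, η = min ε 1 / 2 := ⟨_, rfl⟩
    have hη0 : 0 < η := by rw [hη]; positivity
    have hη1 : η ≤ 1 / 2 := by
      rw [hη]; linarith [min_le_right ε 1]
    have hηε : η < ε := by
      have h1 : min ε 1 ≤ ε := min_le_left _ _
      have h2 : 0 < min ε 1 := lt_min hε one_pos
      rw [hη]; linarith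
    let b : PP := ⟨√(1 + η), Real.sqrt_pos.2 (by linarith)⟩
    have hb2 : b.1 ^ 2 = 1 + η := Real.sq_sqrt (by linarith)
    refine ⟨coord * gen b, coord_gen_mem_ne b (by rw [hb2]; linarith), ?_⟩
    refine lt_of_le_of_lt ?_ hηε
    rw [ContinuousMap.dist_le hη0.le]
    intro τ
    simp only [coord, gen, ContinuousMap.mul_apply, ContinuousMap.coe_mk]
    rw [hb2, Real.dist_eq]
    have h0 := τ.2.1
    have h1 := τ.2.2
    have h2 : 0 < 1 - τ.1 + (1 + η) * τ.1 := by nlinarith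
    have h3 : τ.1 - τ.1 * (1 / (1 - τ.1 + (1 + η) * τ.1)) =
        η * τ.1 ^ 2 / (1 - τ.1 + (1 + η) * τ.1) := by
      obtain ⟨D, hD⟩ : ∃ D : ℝ, D = 1 - τ.1 + (1 + η) * τ.1 := ⟨_, rfl⟩
      rw [← hD] at h2 ⊢
      field_simp
      rw [hD]
      ring
    rw [h3, abs_of_nonneg (by positivity), div_le_iff₀ h2]
    nlinarith [mul_nonneg hη0.le h0, sq_nonneg τ.1]
  rwa [isClosed_AA.closure_eq] at hcl

theorem coord_gen_mem (b : PP) : coord * gen b ∈ AA := by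
  by_cases hb : b.1 ^ 2 = 1
  · have h : gen b = 1 := by
      ext τ
      simp [gen, hb]
    rw [h, mul_one]
    exact coord_mem
  · exact coord_gen_mem_ne b hb

theorem coord_mul_mem {f : C(Icc (0:ℝ) 1, ℝ)} (hf : f ∈ AA) : coord * f ∈ AA := by
  let M : C(Icc (0:ℝ) 1, ℝ) →L[ℝ] C(Icc (0:ℝ) 1, ℝ) := ContinuousLinearMap.mul ℝ _ coord
  have h1 : Submodule.span ℝ (range gen) ≤ AA.comap (M : C(Icc (0:ℝ) 1, ℝ) →ₗ[ℝ] C(Icc (0:ℝ) 1, ℝ)) := by
    rw [Submodule.span_le]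
    rintro _ ⟨b, rfl⟩
    exact coord_gen_mem b
  have h2 : IsClosed ((AA.comap (M : C(Icc (0:ℝ) 1, ℝ) →ₗ[ℝ] C(Icc (0:ℝ) 1, ℝ)) :
      Submodule ℝ C(Icc (0:ℝ) 1, ℝ)) : Set C(Icc (0:ℝ) 1, ℝ)) :=
    isClosed_AA.preimage M.continuous
  exact Submodule.topologicalClosure_minimal _ h1 h2 hf

theorem coord_pow_mem (n : ℕ) : coord ^ n ∈ AA := by
  induction n with
  | zero => rw [pow_zero]; exact one_mem
  | succ n ih => rw [pow_succ']; exact coord_mul_mem ih

theorem poly_mem (q : Polynomial ℝ) : q.toContinuousMapOn (Icc (0:ℝ) 1) ∈ AA := by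
  induction q using Polynomial.induction_on with
  | C a =>
    have : (Polynomial.C a).toContinuousMapOn (Icc (0:ℝ) 1) = a • (1 : C(Icc (0:ℝ) 1, ℝ)) := by
      ext τ; simp
    rw [this]
    exact AA.smul_mem _ one_mem
  | add f g hf hg =>
    have : (f + g).toContinuousMapOn (Icc (0:ℝ) 1) =
        f.toContinuousMapOn (Icc (0:ℝ) 1) + g.toContinuousMapOn (Icc (0:ℝ) 1) := by
      ext τ; simp
    rw [this]
    exact AA.add_mem hf hg
  | monomial n a _ =>
    have : (Polynomial.C a * Polynomial.X ^ (n + 1)).toContinuousMapOn (Icc (0:ℝ) 1) =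
        a • (coord ^ (n + 1)) := by
      ext τ; simp [coord]
    rw [this]
    exact AA.smul_mem _ (coord_pow_mem _)

theorem AA_top (f : C(Icc (0:ℝ) 1, ℝ)) : f ∈ AA := by
  have hcl : f ∈ closure (AA : Set C(Icc (0:ℝ) 1, ℝ)) := by
    rw [Metric.mem_closure_iff]
    intro ε hε
    obtain ⟨q, hq⟩ := exists_polynomial_near_continuousMap 0 1 f ε hε
    refine ⟨_, poly_mem q, ?_⟩
    rw [dist_comm, dist_eq_norm]
    exact hq
  rwa [isClosed_AA.closure_eq] at hcl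

/-- uniform approximation on `[0,1]` -/
theorem approx01 (f : C(Icc (0:ℝ) 1, ℝ)) {ε : ℝ} (hε : 0 < ε) :
    ∃ l : PP →₀ ℝ, ∀ τ : Icc (0:ℝ) 1,
      |f τ - l.sum (fun b a => a * (1 / ((1 - τ.1) + b.1 ^ 2 * τ.1)))| ≤ ε := by
  have h1 : f ∈ closure ((Submodule.span ℝ (range gen) : Submodule ℝ C(Icc (0:ℝ) 1, ℝ)) :
      Set C(Icc (0:ℝ) 1, ℝ)) := AA_top f
  rw [Metric.mem_closure_iff] at h1
  obtain ⟨g, hg, hd⟩ := h1 ε hε
  obtain ⟨l, hl⟩ := Finsupp.mem_span_range_iff_exists_finsupp.1 hg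
  refine ⟨l, fun τ => ?_⟩
  have h2 : g τ = l.sum (fun b a => a * (1 / ((1 - τ.1) + b.1 ^ 2 * τ.1))) := by
    rw [← hl, Finsupp.sum, ContinuousMap.sum_apply]
    rfl
  rw [← h2, ← Real.dist_eq]
  exact ((ContinuousMap.dist_lt_iff hε).1 hd τ).le

/-- weighted uniform approximation of compactly supported functions on the half line -/
theorem approxW {ψ : ℝ → ℝ} (hψ : Continuous ψ) (hsupp : HasCompactSupport ψ) {ε : ℝ}
    (hε : 0 < ε) : ∃ l : PP →₀ ℝ, ∀ x : ℝ, 0 ≤ x →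
      |ψ x - l.sum (fun b a => a * (1 / (x ^ 2 + b.1 ^ 2)))| ≤ ε * (1 / (1 + x ^ 2)) := by
  obtain ⟨M, hM⟩ : ∃ M : ℝ, ∀ x, M < |x| → ψ x = 0 := by
    obtain ⟨M, hM⟩ := hsupp.isCompact.isBounded.subset_closedBall 0
    refine ⟨M, fun x hx => ?_⟩
    by_contra hne
    have h1 : x ∈ tsupport ψ := subset_tsupport ψ hne
    have h2 := hM h1
    rw [Metric.mem_closedBall, dist_zero_right, Real.norm_eq_abs] at h2
    linarith
  let ρ : ℝ → ℝ := fun τ => ψ (√(1 / τ - 1)) / τ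
  have hρ : ContinuousOn ρ (Icc 0 1) := by
    intro τ hτ
    rcases eq_or_lt_of_le hτ.1 with h | h
    · -- at zero
      have h0 : ρ τ = 0 := by simp only [ρ]; rw [← h, div_zero]
      have hnear : ∀ᶠ t in 𝓝[Icc 0 1] τ, ρ t = 0 := by
        have h1 : Iio (1 / (M ^ 2 + 2)) ∈ 𝓝 τ := Iio_mem_nhds (by rw [← h]; positivity)
        filter_upwards [nhdsWithin_le_nhds h1, self_mem_nhdsWithin] with t ht1 ht2
        simp only [ρ]
        rcases eq_or_lt_of_le ht2.1 with h3 | h3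
        · rw [← h3, div_zero]
        · have h4 : t < 1 / (M ^ 2 + 2) := ht1
          rw [lt_div_iff₀ (by positivity)] at h4
          have h5 : M ^ 2 + 1 < 1 / t - 1 := by
            rw [lt_sub_iff_add_lt, lt_div_iff₀ h3]; linarith
          rw [hM, zero_div]
          rw [abs_of_nonneg (Real.sqrt_nonneg _)]
          apply Real.lt_sqrt_of_sq_lt
          linarith
      have : Tendsto ρ (𝓝[Icc 0 1] τ) (𝓝 (ρ τ)) := by
        rw [h0]
        exact tendsto_const_nhds.congr' (hnear.mono fun _ h => h.symm)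
      exact this
    · apply ContinuousAt.continuousWithinAt
      have h1 : ContinuousAt (fun τ : ℝ => 1 / τ - 1) τ :=
        (continuousAt_const.div continuousAt_id h.ne').sub continuousAt_const
      have h2 : ContinuousAt (fun τ : ℝ => ψ (√(1 / τ - 1))) τ :=
        hψ.continuousAt.comp (Real.continuous_sqrt.continuousAt.comp h1)
      exact h2.div continuousAt_id h.ne'
  obtain ⟨l, hl⟩ := approx01 ⟨fun τ => ρ τ.1, continuousOn_iff_continuous_domRestrict.1 hρ⟩ hε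
  refine ⟨l, fun x hx => ?_⟩
  have hx2 : 0 < 1 + x ^ 2 := by positivity
  have hτ : 1 / (1 + x ^ 2) ∈ Icc (0:ℝ) 1 :=
    ⟨by positivity, by rw [div_le_one hx2]; nlinarith⟩
  have h1 := hl ⟨1 / (1 + x ^ 2), hτ⟩
  simp only [ContinuousMap.coe_mk, ρ] at h1
  have h2 : √(1 / (1 / (1 + x ^ 2)) - 1) = x := by
    rw [one_div_one_div, add_sub_cancel_left, Real.sqrt_sq hx]
  rw [h2] at h1
  have h3 : ψ x - l.sum (fun b a => a * (1 / (x ^ 2 + b.1 ^ 2))) =
      (1 / (1 + x ^ 2)) * (ψ x / (1 / (1 + x ^ 2)) -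
        l.sum (fun b a => a * (1 / ((1 - 1 / (1 + x ^ 2)) + b.1 ^ 2 * (1 / (1 + x ^ 2)))))) := by
    rw [mul_sub, Finsupp.mul_sum]
    congr 1
    · field_simp
    · apply Finsupp.sum_congr
      intro b _
      have hb := b.2
      have h5 : 0 < x ^ 2 + b.1 ^ 2 := by positivity
      have h6 : (1 - 1 / (1 + x ^ 2)) + b.1 ^ 2 * (1 / (1 + x ^ 2)) =
          (x ^ 2 + b.1 ^ 2) * (1 / (1 + x ^ 2)) := by
        field_simp
        ring
      rw [h6]
      field_simp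
  rw [h3, abs_mul, abs_of_pos (by positivity : 0 < 1 / (1 + x ^ 2)), mul_comm]
  exact mul_le_mul_of_nonneg_right h1 (by positivity)

/-- complex version -/
theorem approxWC {ψ : ℝ → ℂ} (hψ : Continuous ψ) (hsupp : HasCompactSupport ψ) {ε : ℝ}
    (hε : 0 < ε) : ∃ l : PP →₀ ℂ, ∀ x : ℝ, 0 ≤ x →
      ‖ψ x - l.sum (fun b a => a * ((1 / (x ^ 2 + b.1 ^ 2) : ℝ) : ℂ))‖ ≤ ε * (1 / (1 + x ^ 2)) := by
  obtain ⟨l1, h1⟩ := approxW (ψ := fun x => (ψ x).re) (Complex.continuous_re.comp hψ)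
    (hsupp.comp_left (g := Complex.re) rfl) (half_pos hε)
  obtain ⟨l2, h2⟩ := approxW (ψ := fun x => (ψ x).im) (Complex.continuous_im.comp hψ)
    (hsupp.comp_left (g := Complex.im) rfl) (half_pos hε)
  refine ⟨l1.mapRange (fun a : ℝ => (a : ℂ)) (by simp) +
    l2.mapRange (fun a : ℝ => Complex.I * (a : ℂ)) (by simp), fun x hx => ?_⟩
  have e1 : (l1.mapRange (fun a : ℝ => (a : ℂ)) (by simp) +
    l2.mapRange (fun a : ℝ => Complex.I * (a : ℂ)) (by simp)).sum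
      (fun b a => a * ((1 / (x ^ 2 + b.1 ^ 2) : ℝ) : ℂ)) =
      ((l1.sum (fun b a => a * (1 / (x ^ 2 + b.1 ^ 2))) : ℝ) : ℂ) +
      Complex.I * ((l2.sum (fun b a => a * (1 / (x ^ 2 + b.1 ^ 2))) : ℝ) : ℂ) := by
    rw [Finsupp.sum_add_index' (by simp) (by intros; ring), Finsupp.sum_mapRange_index (by simp),
      Finsupp.sum_mapRange_index (by simp)]
    simp only [Finsupp.sum]
    push_cast
    rw [Finset.mul_sum]
    congr 1
    apply Finset.sum_congr rfl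
    intro b _
    ring
  rw [e1]
  have e2 : ψ x - (((l1.sum (fun b a => a * (1 / (x ^ 2 + b.1 ^ 2))) : ℝ) : ℂ) +
      Complex.I * ((l2.sum (fun b a => a * (1 / (x ^ 2 + b.1 ^ 2))) : ℝ) : ℂ)) =
      (((ψ x).re - l1.sum (fun b a => a * (1 / (x ^ 2 + b.1 ^ 2))) : ℝ) : ℂ) +
      Complex.I * (((ψ x).im - l2.sum (fun b a => a * (1 / (x ^ 2 + b.1 ^ 2))) : ℝ) : ℂ) := by
    nth_rewrite 1 [← Complex.re_add_im (ψ x)]
    push_cast
    ring
  rw [e2]
  refine le_trans (norm_add_le _ _) ?_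
  rw [norm_mul, Complex.norm_I, one_mul, Complex.norm_real, Complex.norm_real, Real.norm_eq_abs,
    Real.norm_eq_abs]
  have := h1 x hx
  have := h2 x hx
  linarith

end Pool.Agent.D0H32.RE
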