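import Pool.Agent.D0H32.RE.Gram

/-!
# Density and totality of exponentials (project RE)
-/

set_option autoImplicit false

open Real Set Filter Topology MeasureTheory

namespace Pool.Agent.D0H32.RE

theorem approxE_real {ψ : ℝ → ℝ} (hψ : Continuous ψ) (hsupp : HasCompactSupport ψ) {ε : ℝ}
    (hε : 0 < ε) : ∃ q : Polynomial ℝ, ∀ x : ℝ, 0 ≤ x →
      |ψ x - Real.exp (-x) * q.eval (Real.exp (-x))| ≤ ε * Real.exp (-x) := by
  obtain ⟨M, hM⟩ : ∃ M : ℝ, ∀ x, M < |x| → ψ x = 0 := by
    obtain ⟨M, hM⟩ := hsupp.isCompact.isBounded.subset_closedBall 0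
    refine ⟨M, fun x hx => ?_⟩
    by_contra hne
    have h1 : x ∈ tsupport ψ := subset_tsupport ψ hne
    have h2 := hM h1
    rw [Metric.mem_closedBall, dist_zero_right, Real.norm_eq_abs] at h2
    linarith
  let ρ : ℝ → ℝ := fun y => ψ (-Real.log y) / y
  have hρ : ContinuousOn ρ (Icc 0 1) := by
    intro y hy
    rcases eq_or_lt_of_le hy.1 with h | h
    · have h0 : ρ y = 0 := by simp only [ρ]; rw [← h, div_zero]
      have hnear : ∀ᶠ t in 𝓝[Icc 0 1] y, ρ t = 0 := by
        have h1 : Iio (Real.exp (-(|M| + 1))) ∈ 𝓝 y := Iio_mem_nhds (by rw [← h]; positivity)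
        filter_upwards [nhdsWithin_le_nhds h1, self_mem_nhdsWithin] with t ht1 ht2
        simp only [ρ]
        rcases eq_or_lt_of_le ht2.1 with h3 | h3
        · rw [← h3, div_zero]
        · have h4 : t < Real.exp (-(|M| + 1)) := ht1
          have h5 : Real.log t < -(|M| + 1) := by
            rwa [Real.log_lt_iff_lt_exp h3]
          rw [hM, zero_div]
          have h6 : |M| + 1 < -Real.log t := by linarith
          have h7 : M < |M| + 1 := by linarith [le_abs_self M]
          exact lt_of_lt_of_le (h7.trans h6) (le_abs_self _)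
      have : Tendsto ρ (𝓝[Icc 0 1] y) (𝓝 (ρ y)) := by
        rw [h0]
        exact tendsto_const_nhds.congr' (hnear.mono fun _ h => h.symm)
      exact this
    · apply ContinuousAt.continuousWithinAt
      have h2 : ContinuousAt (fun y : ℝ => ψ (-Real.log y)) y :=
        hψ.continuousAt.comp (Real.continuousAt_log h.ne').neg
      exact h2.div continuousAt_id h.ne'
  obtain ⟨q, hq⟩ := exists_polynomial_near_of_continuousOn 0 1 ρ hρ ε hε
  refine ⟨q, fun x hx => ?_⟩
  have hy : Real.exp (-x) ∈ Icc (0:ℝ) 1 := ⟨(Real.exp_pos _).le, Real.exp_le_one_iff.2 (by linarith)⟩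
  have h1 := hq _ hy
  simp only [ρ] at h1
  rw [Real.log_exp, neg_neg] at h1
  have h2 : ψ x - Real.exp (-x) * q.eval (Real.exp (-x)) =
      -(Real.exp (-x) * (q.eval (Real.exp (-x)) - ψ x / Real.exp (-x))) := by
    have := (Real.exp_pos (-x)).ne'
    field_simp
    ring
  rw [h2, abs_neg, abs_mul, abs_of_pos (Real.exp_pos _), mul_comm]
  exact mul_le_mul_of_nonneg_right h1.le (Real.exp_pos _).le

/-- exponential polynomial from a polynomial -/
theorem poly_ex (q : Polynomial ℂ) : ∃ l : PP →₀ ℂ, ∀ x : ℝ,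
    l.sum (fun b a => a * ex b x) = (Real.exp (-x) : ℝ) * q.eval ((Real.exp (-x) : ℝ) : ℂ) := by
  induction q using Polynomial.induction_on with
  | C a =>
    refine ⟨Finsupp.single ⟨1, one_pos⟩ a, fun x => ?_⟩
    rw [Finsupp.sum_single_index (by simp), ex, Polynomial.eval_C, one_mul, mul_comm]
  | add f g hf hg =>
    obtain ⟨l1, h1⟩ := hf
    obtain ⟨l2, h2⟩ := hg
    refine ⟨l1 + l2, fun x => ?_⟩
    rw [Finsupp.sum_add_index' (by simp) (by intros; ring), h1, h2, Polynomial.eval_add]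
    ring
  | monomial n a _ =>
    refine ⟨Finsupp.single ⟨(n:ℝ) + 2, by positivity⟩ a, fun x => ?_⟩
    rw [Finsupp.sum_single_index (by simp), ex, Polynomial.eval_mul, Polynomial.eval_C,
      Polynomial.eval_pow, Polynomial.eval_X]
    have : Real.exp (-((((n:ℝ) + 2)) * x)) = Real.exp (-x) * Real.exp (-x) ^ (n + 1) := by
      rw [← Real.exp_nat_mul, ← Real.exp_add]
      congr 1
      push_cast
      ring
    simp only [this]
    push_cast
    ring

theorem approxE {ψ : ℝ → ℂ} (hψ : Continuous ψ) (hsupp : HasCompactSupport ψ) {ε : ℝ}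
    (hε : 0 < ε) : ∃ l : PP →₀ ℂ, ∀ x : ℝ, 0 ≤ x →
      ‖ψ x - l.sum (fun b a => a * ex b x)‖ ≤ ε * Real.exp (-x) := by
  obtain ⟨q1, h1⟩ := approxE_real (ψ := fun x => (ψ x).re) (Complex.continuous_re.comp hψ)
    (hsupp.comp_left (g := Complex.re) rfl) (half_pos hε)
  obtain ⟨q2, h2⟩ := approxE_real (ψ := fun x => (ψ x).im) (Complex.continuous_im.comp hψ)
    (hsupp.comp_left (g := Complex.im) rfl) (half_pos hε)
  obtain ⟨l, hl'⟩ := poly_ex (q1.map Complex.ofRealHom + Polynomial.C Complex.I * q2.map Complex.ofRealHom)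
  refine ⟨l, fun x hx => ?_⟩
  rw [hl']
  have e : ψ x - (Real.exp (-x) : ℝ) * (q1.map Complex.ofRealHom +
      Polynomial.C Complex.I * q2.map Complex.ofRealHom).eval ((Real.exp (-x) : ℝ) : ℂ) =
      (((ψ x).re - Real.exp (-x) * q1.eval (Real.exp (-x)) : ℝ) : ℂ) +
      Complex.I * (((ψ x).im - Real.exp (-x) * q2.eval (Real.exp (-x)) : ℝ) : ℂ) := by
    have e1 : ∀ (q : Polynomial ℝ) (y : ℝ), (q.map Complex.ofRealHom).eval (y : ℂ) =
        ((q.eval y : ℝ) : ℂ) := by
      intro q y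
      have := Polynomial.eval_map_apply (f := Complex.ofRealHom) (p := q) y
      simpa using this
    rw [Polynomial.eval_add, Polynomial.eval_mul, Polynomial.eval_C, e1, e1]
    nth_rewrite 1 [← Complex.re_add_im (ψ x)]
    push_cast
    ring
  rw [e]
  refine le_trans (norm_add_le _ _) ?_
  rw [norm_mul, Complex.norm_I, one_mul, Complex.norm_real, Complex.norm_real, Real.norm_eq_abs,
    Real.norm_eq_abs]
  have := h1 x hx
  have := h2 x hx
  linarith

theorem integrable_exp_neg {b : ℝ} (hb : 0 < b) : Integrable (fun t : ℝ => Real.exp (-(b * t))) hl := by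
  have := integrableOn_exp_mul_Ioi (a := -b) (by linarith) 0
  refine this.congr (Filter.Eventually.of_forall fun x => ?_)
  simp only
  congr 1
  ring

theorem integrable_ex (b : PP) : Integrable (ex b) hl := by
  unfold ex
  exact (integrable_exp_neg b.2).ofReal

theorem memLp_ex (b : PP) : MemLp (ex b) 2 hl := by
  rw [memLp_two_iff_integrable_sq_norm (continuous_ex b).aestronglyMeasurable]
  have hb := b.2
  refine (integrable_exp_neg (b := 2 * b.1) (by positivity)).congr
    (Filter.Eventually.of_forall fun x => ?_)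
  simp only [ex]
  rw [Complex.norm_real, Real.norm_eq_abs, abs_of_pos (Real.exp_pos _), ← Real.exp_nat_mul]
  congr 1
  push_cast
  ring

/-- linear combinations in `L²` -/
noncomputable def lin2 {v : PP → ℝ → ℂ} (hv : ∀ b, MemLp (v b) 2 hl) : (PP →₀ ℂ) →ₗ[ℂ] Lp ℂ 2 hl :=
  Finsupp.linearCombination ℂ (fun b => (hv b).toLp (v b))

theorem lin2_coe {v : PP → ℝ → ℂ} (hv : ∀ b, MemLp (v b) 2 hl) (l : PP →₀ ℂ) :
    lin2 hv l =ᵐ[hl] fun x => l.sum (fun b a => a * v b x) := by
  induction l using Finsupp.induction_linear with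
  | zero =>
    rw [map_zero]
    filter_upwards [Lp.coeFn_zero ℂ 2 hl] with x hx
    rw [hx]; simp
  | add f g hf hg =>
    rw [map_add]
    filter_upwards [Lp.coeFn_add (lin2 hv f) (lin2 hv g), hf, hg] with x hx h1 h2
    rw [hx, Pi.add_apply, h1, h2, Finsupp.sum_add_index' (by simp) (by intros; ring)]
  | single b a =>
    have : lin2 hv (Finsupp.single b a) = a • (hv b).toLp (v b) := by
      simp [lin2]
    rw [this]
    filter_upwards [Lp.coeFn_smul a ((hv b).toLp (v b)), (hv b).coeFn_toLp] with x hx h1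
    rw [hx, Pi.smul_apply, h1, smul_eq_mul, Finsupp.sum_single_index (by simp)]

theorem dense_ex : DenseRange (lin2 memLp_ex) := by
  intro g
  rw [Metric.mem_closure_iff]
  intro ε hε
  have hε2 : ENNReal.ofReal (ε / 2) ≠ 0 := by simp [hε]
  obtain ⟨ψ, hsupp, hψe, hψc, hψm⟩ := (Lp.memLp g).exists_hasCompactSupport_eLpNorm_sub_le
    (by norm_num) hε2
  obtain ⟨S, hS⟩ : ∃ S : ℝ, S = ‖(memLp_ex ⟨1, one_pos⟩).toLp (ex ⟨1, one_pos⟩)‖ := ⟨_, rfl⟩
  have hS0 : 0 ≤ S := by rw [hS]; exact norm_nonneg _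
  obtain ⟨l, hl'⟩ := approxE hψc hsupp (show 0 < ε / (2 * (S + 1)) by positivity)
  refine ⟨lin2 memLp_ex l, ⟨l, rfl⟩, ?_⟩
  have h1 : dist g (hψm.toLp ψ) ≤ ε / 2 := by
    rw [Lp.dist_def]
    have h2 : eLpNorm (⇑g - ⇑(hψm.toLp ψ)) 2 hl ≤ ENNReal.ofReal (ε / 2) := by
      refine le_trans (le_of_eq ?_) hψe
      apply eLpNorm_congr_ae
      filter_upwards [hψm.coeFn_toLp] with x hx
      simp [hx]
    exact ENNReal.toReal_le_of_le_ofReal (by positivity) h2
  have h3 : dist (hψm.toLp ψ) (lin2 memLp_ex l) ≤ ε / (2 * (S + 1)) * S := by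
    rw [dist_eq_norm]
    refine le_trans (Lp.norm_le_mul_norm_of_ae_le_mul (c := ε / (2 * (S + 1)))
      (g := (memLp_ex ⟨1, one_pos⟩).toLp (ex ⟨1, one_pos⟩)) ?_) (le_of_eq (by rw [← hS]))
    filter_upwards [Lp.coeFn_sub (hψm.toLp ψ) (lin2 memLp_ex l), hψm.coeFn_toLp,
      lin2_coe memLp_ex l, (memLp_ex ⟨1, one_pos⟩).coeFn_toLp,
      ae_restrict_mem measurableSet_Ioi] with x h1 h2 h3 h4 hx
    have hx0 : 0 < x := hx
    rw [h1, Pi.sub_apply, h2, h3, h4]
    refine le_trans (hl' x hx0.le) (le_of_eq ?_)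
    rw [ex, Complex.norm_real, Real.norm_eq_abs, abs_of_pos (Real.exp_pos _), one_mul]
  have h4 : ε / (2 * (S + 1)) * S < ε / 2 := by
    rw [div_mul_eq_mul_div, div_lt_div_iff₀ (by positivity) (by norm_num)]
    nlinarith
  calc dist g (lin2 memLp_ex l) ≤ dist g (hψm.toLp ψ) + dist (hψm.toLp ψ) (lin2 memLp_ex l) :=
        dist_triangle _ _ _
    _ < ε / 2 + ε / 2 := by linarith
    _ = ε := by ring

/-- totality of exponentials -/
theorem total3 {G : ℝ → ℂ} (hint : ∀ b : PP, Integrable (fun x => G x * ex b x) hl)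
    (h : ∀ b : PP, ∫ x, G x * ex b x ∂hl = 0) : ∀ᵐ x ∂hl, G x = 0 := by
  have hxs : Integrable (fun x : ℝ => G x * ((Real.exp (-x) : ℝ) : ℂ)) hl := by
    refine (hint ⟨1, one_pos⟩).congr (Filter.Eventually.of_forall fun x => ?_)
    simp only [ex, one_mul]
  have hzero : ∀ l : PP →₀ ℂ, ∫ x, G x * l.sum (fun b a => a * ex b x) ∂hl = 0 := by
    intro l
    have h1 : ∀ x, G x * l.sum (fun b a => a * ex b x) = ∑ b ∈ l.support, l b * (G x * ex b x) := by
      intro x
      rw [Finsupp.sum, Finset.mul_sum]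
      apply Finset.sum_congr rfl
      intro b _
      ring
    simp only [h1]
    rw [integral_finsetSum]
    · apply Finset.sum_eq_zero
      intro b _
      rw [integral_const_mul, h b, mul_zero]
    · intro b _
      exact (hint b).const_mul _
  have hloc : LocallyIntegrable G hl := by
    rw [locallyIntegrable_iff]
    intro K hK
    have h2 := hxs.integrableOn (s := K) |>.continuousOn_mul
      (g := fun x : ℝ => ((Real.exp x : ℝ) : ℂ))
      (Complex.continuous_ofReal.comp Real.continuous_exp).continuousOn hK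
    refine h2.congr_fun_ae (Filter.Eventually.of_forall fun x => ?_)
    have h3 : ((Real.exp x : ℝ) : ℂ) * ((Real.exp (-x) : ℝ) : ℂ) = 1 := by
      rw [← Complex.ofReal_mul, ← Real.exp_add, add_neg_cancel, Real.exp_zero, Complex.ofReal_one]
    simp only
    linear_combination (G x) * h3
  apply ae_eq_zero_of_integral_contDiff_smul_eq_zero hloc
  intro ψ hψ hψs
  have hψi : Integrable (fun x : ℝ => ψ x • G x) hl :=
    hloc.integrable_smul_left_of_hasCompactSupport hψ.continuous hψs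
  by_contra hne
  obtain ⟨N, hN⟩ : ∃ N : ℝ, N = ∫ x, ‖G x * ((Real.exp (-x) : ℝ) : ℂ)‖ ∂hl := ⟨_, rfl⟩
  have hN0 : 0 ≤ N := by rw [hN]; exact integral_nonneg fun x => norm_nonneg _
  obtain ⟨ε, hε⟩ : ∃ ε : ℝ, ε = ‖∫ x, ψ x • G x ∂hl‖ / (2 * (N + 1)) := ⟨_, rfl⟩
  have hε0 : 0 < ε := by
    rw [hε]
    have := norm_pos_iff.2 hne
    positivity
  obtain ⟨l, hl'⟩ := approxE (ψ := fun x => (ψ x : ℂ))
    (Complex.continuous_ofReal.comp hψ.continuous)
    (hψs.comp_left (g := fun x : ℝ => (x:ℂ)) rfl) hε0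
  have hli : Integrable (fun x => G x * l.sum (fun b a => a * ex b x)) hl := by
    have h1 : ∀ x, G x * l.sum (fun b a => a * ex b x) =
        ∑ b ∈ l.support, l b * (G x * ex b x) := by
      intro x
      rw [Finsupp.sum, Finset.mul_sum]
      apply Finset.sum_congr rfl
      intro b _
      ring
    simp only [h1]
    exact integrable_finsetSum _ fun b _ => (hint b).const_mul _
  have h1 : ∫ x, ψ x • G x ∂hl =
      ∫ x, (ψ x • G x - G x * l.sum (fun b a => a * ex b x)) ∂hl := by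
    rw [integral_sub hψi hli, hzero, sub_zero]
  have h2 : ‖∫ x, ψ x • G x ∂hl‖ ≤ ε * N := by
    rw [h1, hN, ← integral_const_mul]
    apply norm_integral_le_of_norm_le (hxs.norm.const_mul ε)
    filter_upwards [ae_restrict_mem measurableSet_Ioi] with x hx
    have hx0 : 0 < x := hx
    have e : ψ x • G x - G x * l.sum (fun b a => a * ex b x)
        = G x * ((ψ x : ℂ) - l.sum (fun b a => a * ex b x)) := by
      rw [Complex.real_smul]; ring
    rw [e, norm_mul, norm_mul (G x)]
    have h3 := hl' x hx0.le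
    have h4 : ‖((Real.exp (-x) : ℝ) : ℂ)‖ = Real.exp (-x) := by
      rw [Complex.norm_real, Real.norm_eq_abs, abs_of_pos (Real.exp_pos _)]
    rw [h4]
    calc ‖G x‖ * ‖(ψ x : ℂ) - l.sum (fun b a => a * ex b x)‖
        ≤ ‖G x‖ * (ε * Real.exp (-x)) := mul_le_mul_of_nonneg_left h3 (norm_nonneg _)
      _ = _ := by ring
  have h3 : ‖∫ x, ψ x • G x ∂hl‖ = ε * (2 * (N + 1)) := by
    rw [hε]; field_simp
  rw [h3] at h2
  nlinarith

end Pool.Agent.D0H32.RE
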