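import Pool.Agent.D0H32.RE.Pw

/-!
# The Gamma integral with complex rate (project RE)
-/

set_option autoImplicit false

open Real Set Filter Topology MeasureTheory
open Complex (I)

namespace Pool.Agent.D0H32.RE

theorem int_pow_exp {s ε : ℝ} (hs : -1 < s) (hε : 0 < ε) :
    IntegrableOn (fun t : ℝ => t ^ s * Real.exp (-(ε * t))) (Ioi 0) := by
  have h := integrableOn_rpow_mul_exp_neg_mul_rpow (p := 1) hs one_pos hε
  refine h.congr_fun (fun t _ => ?_) measurableSet_Ioi
  simp only [Real.rpow_one]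
  congr 2
  ring

/-- the integrand -/
noncomputable def gi (s : ℝ) (r : ℂ) (t : ℝ) : ℂ := ((t ^ s : ℝ) : ℂ) * Complex.exp (-(r * t))

theorem norm_gi {s : ℝ} {r : ℂ} {t : ℝ} (ht : 0 < t) : ‖gi s r t‖ = t ^ s * Real.exp (-(r.re * t)) := by
  rw [gi, norm_mul, Complex.norm_real, Real.norm_eq_abs, abs_of_pos (Real.rpow_pos_of_pos ht _),
    Complex.norm_exp]
  congr 2
  simp

theorem meas_gi (s : ℝ) (r : ℂ) : Measurable (gi s r) := by
  unfold gi
  fun_prop

theorem int_gi {s : ℝ} {r : ℂ} (hs : -1 < s) (hr : 0 < r.re) : IntegrableOn (gi s r) (Ioi 0) := by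
  refine Integrable.mono' (int_pow_exp hs hr) (meas_gi s r).aestronglyMeasurable ?_
  filter_upwards [ae_restrict_mem measurableSet_Ioi] with t ht
  rw [norm_gi ht]

/-- integration by parts -/
theorem parts_gi {s : ℝ} {r : ℂ} (hs : 0 < s) (hr : 0 < r.re) :
    r * ∫ t in Ioi (0:ℝ), gi s r t = s * ∫ t in Ioi (0:ℝ), gi (s - 1) r t := by
  have h1 : ∫ t in Ioi (0:ℝ), (s * gi (s - 1) r t - r * gi s r t) = 0 - gi s r 0 := by
    apply integral_Ioi_of_hasDerivAt_of_tendsto
    · -- continuity at zero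
      apply ContinuousAt.continuousWithinAt
      apply ContinuousAt.mul
      · exact Complex.continuous_ofReal.continuousAt.comp
          (Real.continuousAt_rpow_const 0 s (Or.inr hs.le))
      · fun_prop
    · intro t ht
      have ht0 : 0 < t := ht
      have e1 : HasDerivAt (fun t : ℝ => ((t ^ s : ℝ) : ℂ)) ((s * t ^ (s - 1) : ℝ) : ℂ) t :=
        (Real.hasDerivAt_rpow_const (Or.inl ht0.ne')).ofReal_comp
      have e2 : HasDerivAt (fun t : ℝ => -(r * (t : ℂ))) (-r) t :=
        (((Complex.ofRealCLM.hasDerivAt (x := t)).const_mul r).neg).congr_deriv (by simp)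
      refine (e1.mul e2.cexp).congr_deriv ?_
      simp only [gi]
      push_cast
      ring
    · exact ((int_gi (by linarith) hr).const_mul (s:ℂ)).sub ((int_gi (by linarith) hr).const_mul r)
    · -- decay
      rw [tendsto_zero_iff_norm_tendsto_zero]
      have h2 : Tendsto (fun t : ℝ => t ^ s * Real.exp (-r.re * t)) atTop (𝓝 0) :=
        tendsto_rpow_mul_exp_neg_mul_atTop_nhds_zero s r.re hr
      refine h2.congr' ?_
      filter_upwards [eventually_gt_atTop 0] with t ht
      rw [norm_gi ht, neg_mul]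
  have h0 : gi s r 0 = 0 := by simp [gi, Real.zero_rpow hs.ne']
  rw [h0, sub_zero, integral_sub ((int_gi (by linarith) hr).const_mul _)
    ((int_gi (by linarith) hr).const_mul _), integral_const_mul, integral_const_mul] at h1
  exact (sub_eq_zero.1 h1).symm

theorem gam {s ε : ℝ} (y : ℝ) (hs : 0 < s) (hε : 0 < ε) :
    ∫ t in Ioi (0:ℝ), gi (s - 1) ((ε : ℂ) - y * I) t = (Real.Gamma s : ℂ) * pw s ((ε : ℂ) - y * I) := by
  let r : ℝ → ℂ := fun θ => (ε : ℂ) - (y * θ : ℝ) * I
  have hrre : ∀ θ, (r θ).re = ε := by intro θ; simp [r]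
  have hrre' : ∀ θ, 0 < (r θ).re := by intro θ; rw [hrre]; exact hε
  have hr0 : ∀ θ, r θ ≠ 0 := by
    intro θ h
    have := hrre' θ
    rw [h] at this
    simp at this
  have hrd : ∀ θ, HasDerivAt r (-(y * I)) θ := by
    intro θ
    have e0 : HasDerivAt (fun θ : ℝ => y * θ) y θ := by
      simpa using (hasDerivAt_id θ).const_mul y
    have e1 : HasDerivAt (fun θ : ℝ => ((y * θ : ℝ) : ℂ)) (y : ℂ) θ := e0.ofReal_comp
    exact ((e1.mul_const I).const_sub (ε : ℂ))
  let J : ℝ → ℂ := fun θ => ∫ t in Ioi (0:ℝ), gi (s - 1) (r θ) t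
  have hJ : ∀ θ, HasDerivAt J (∫ t in Ioi (0:ℝ), (y * I) * gi s (r θ) t) θ := by
    intro θ
    have h := (hasDerivAt_integral_of_dominated_loc_of_deriv_le (μ := volume.restrict (Ioi (0:ℝ)))
      (F := fun θ t => gi (s - 1) (r θ) t) (F' := fun θ t => (y * I) * gi s (r θ) t) (x₀ := θ)
      (s := univ) (bound := fun t => |y| * (t ^ s * Real.exp (-(ε * t)))) univ_mem
      (Filter.Eventually.of_forall fun θ => (meas_gi _ _).aestronglyMeasurable)
      (int_gi (by linarith) (hrre' θ))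
      (((meas_gi _ _).const_mul _).aestronglyMeasurable)
      (by
        filter_upwards [ae_restrict_mem measurableSet_Ioi] with t ht θ _
        rw [norm_mul, norm_mul, Complex.norm_I, mul_one, Complex.norm_real, Real.norm_eq_abs,
          norm_gi ht, hrre])
      ((int_pow_exp (by linarith) hε).const_mul _)
      (by
        filter_upwards [ae_restrict_mem measurableSet_Ioi] with t ht θ _
        have ht0 : 0 < t := ht
        have e2 : HasDerivAt (fun θ : ℝ => -(r θ * (t : ℂ))) (-(-(y * I) * t)) θ :=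
          ((hrd θ).mul_const (t:ℂ)).neg
        have e3 := e2.cexp.const_mul (((t ^ (s - 1) : ℝ)) : ℂ)
        refine e3.congr_deriv ?_
        have e4 : t ^ s = t ^ (s - 1) * t := by
          rw [← Real.rpow_add_one ht0.ne']; congr 1; ring
        simp only [gi]
        rw [e4]
        push_cast
        ring)).2
    exact h
  have hJ' : ∀ θ, HasDerivAt J ((y * I) * (s / r θ) * J θ) θ := by
    intro θ
    refine (hJ θ).congr_deriv ?_
    rw [integral_const_mul]
    have h := parts_gi hs (hrre' θ)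
    have h1 : ∫ t in Ioi (0:ℝ), gi s (r θ) t = s / r θ * J θ := by
      rw [div_mul_eq_mul_div, eq_div_iff (hr0 θ), mul_comm]
      exact h
    rw [h1]; ring
  have hP : ∀ θ, HasDerivAt (fun θ => J θ * (r θ) ^ (s:ℂ)) 0 θ := by
    intro θ
    have e1 : HasDerivAt (fun z : ℂ => z ^ (s:ℂ)) ((s:ℂ) * (r θ) ^ ((s:ℂ) - 1)) (r θ) := by
      have := (hasDerivAt_id (r θ)).cpow_const (c := (s:ℂ)) (Or.inl (hrre' θ))
      simpa using this
    have e2 := e1.comp_of_eq θ (hrd θ) rfl
    refine ((hJ' θ).mul e2).congr_deriv ?_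
    have e3 : (r θ) ^ ((s:ℂ) - 1) = (r θ) ^ (s:ℂ) / r θ := by
      rw [Complex.cpow_sub _ _ (hr0 θ), Complex.cpow_one]
    rw [e3]
    simp only [Function.comp]
    ring
  have hconst : J 1 * (r 1) ^ (s:ℂ) = J 0 * (r 0) ^ (s:ℂ) :=
    is_const_of_deriv_eq_zero (f := fun θ => J θ * (r θ) ^ (s:ℂ))
    (fun θ => (hP θ).differentiableAt) (fun θ => (hP θ).deriv) 1 0
  have h0 : J 0 * (r 0) ^ (s:ℂ) = (Real.Gamma s : ℂ) := by
    have e1 : r 0 = (ε : ℂ) := by simp [r]
    have e2 : J 0 = (1 / ε : ℂ) ^ (s:ℂ) * Complex.Gamma s := by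
      have := Complex.integral_cpow_mul_exp_neg_mul_Ioi (a := (s:ℂ)) (r := ε) (by simpa using hs) hε
      rw [← this]
      apply setIntegral_congr_fun measurableSet_Ioi
      intro t ht
      have ht0 : 0 < t := ht
      simp only [gi, e1]
      rw [Complex.ofReal_cpow ht0.le]
      push_cast
      rfl
    have hεc : (ε:ℂ) ≠ 0 := by exact_mod_cast hε.ne'
    rw [e1, e2, one_div, Complex.inv_cpow, Complex.Gamma_ofReal]
    · have : (ε:ℂ) ^ (s:ℂ) ≠ 0 := by
        rw [Ne, Complex.cpow_eq_zero_iff]; tauto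
      field_simp
    · rw [Complex.arg_ofReal_of_nonneg hε.le]; exact pi_pos.ne
  rw [h0] at hconst
  have e1 : r 1 = (ε : ℂ) - y * I := by simp [r]
  have hne : (r 1) ^ (s:ℂ) ≠ 0 := by
    rw [Ne, Complex.cpow_eq_zero_iff]
    intro h
    exact hr0 1 h.1
  rw [← e1, pw_eq (hrre' 1), Complex.cpow_neg]
  show J 1 = _
  rw [← div_eq_mul_inv, eq_div_iff hne]
  exact hconst

end Pool.Agent.D0H32.RE
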