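import Mathlib

/-!
# Elementary facts on `L^p` pairings (project RE)
-/

set_option autoImplicit false

open Real Set Filter Topology MeasureTheory

namespace Pool.Agent.D0H32.RE

/-- Lebesgue measure on the half line -/
noncomputable abbrev hl : Measure ℝ := volume.restrict (Ioi (0:ℝ))

section

variable {p q : ℝ} {μ : Measure ℝ}

theorem lp_norm_rpow [Fact (1 ≤ ENNReal.ofReal p)] (hp : 0 < p) (f : Lp ℂ (ENNReal.ofReal p) μ) :
    ‖f‖ ^ p = ∫ x, ‖f x‖ ^ p ∂μ := by
  have h1 : ENNReal.ofReal p ≠ 0 := by simp [hp]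
  rw [Lp.norm_def, (Lp.memLp f).eLpNorm_eq_integral_rpow_norm h1 ENNReal.ofReal_ne_top,
    ENNReal.toReal_ofReal hp.le, ENNReal.toReal_ofReal (by positivity),
    ← Real.rpow_mul (integral_nonneg fun x => by positivity), inv_mul_cancel₀ hp.ne', Real.rpow_one]

theorem lp_norm_rpow' [Fact (1 ≤ ENNReal.ofReal p)] (hp : 0 < p) (f : Lp ℂ (ENNReal.ofReal p) μ)
    {g : ℝ → ℂ} (h : f =ᵐ[μ] g) : ‖f‖ ^ p = ∫ x, ‖g x‖ ^ p ∂μ := by
  rw [lp_norm_rpow hp]
  apply integral_congr_ae
  filter_upwards [h] with x hx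
  rw [hx]

theorem pair_integrable (hpq : p.HolderConjugate q) {f g : ℝ → ℂ}
    (hf : MemLp f (ENNReal.ofReal p) μ) (hg : MemLp g (ENNReal.ofReal q) μ) :
    Integrable (fun x => f x * g x) μ := by
  have := hpq.ennrealOfReal
  exact hf.integrable_mul hg

theorem pair_bound [Fact (1 ≤ ENNReal.ofReal p)] [Fact (1 ≤ ENNReal.ofReal q)]
    (hpq : p.HolderConjugate q) (f : Lp ℂ (ENNReal.ofReal p) μ) (g : Lp ℂ (ENNReal.ofReal q) μ) :
    ‖∫ x, f x * g x ∂μ‖ ≤ ‖f‖ * ‖g‖ := by
  have h1 := integral_mul_norm_le_Lp_mul_Lq (μ := μ) (f := f) (g := g) hpq (Lp.memLp f) (Lp.memLp g)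
  rw [← lp_norm_rpow hpq.pos, ← lp_norm_rpow hpq.symm.pos, ← Real.rpow_mul (norm_nonneg _),
    ← Real.rpow_mul (norm_nonneg _), mul_one_div_cancel hpq.pos.ne',
    mul_one_div_cancel hpq.symm.pos.ne', Real.rpow_one, Real.rpow_one] at h1
  refine le_trans (norm_integral_le_integral_norm _) (le_trans (le_of_eq ?_) h1)
  congr 1
  funext x
  rw [norm_mul]

/-- the pairing functional -/
noncomputable def pairL [Fact (1 ≤ ENNReal.ofReal p)] [Fact (1 ≤ ENNReal.ofReal q)]
    (hpq : p.HolderConjugate q) (g : Lp ℂ (ENNReal.ofReal q) μ) :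
    Lp ℂ (ENNReal.ofReal p) μ →L[ℂ] ℂ :=
  LinearMap.mkContinuous
    { toFun := fun f => ∫ x, f x * g x ∂μ
      map_add' := fun f f' => by
        rw [← integral_add (pair_integrable hpq (Lp.memLp f) (Lp.memLp g))
          (pair_integrable hpq (Lp.memLp f') (Lp.memLp g))]
        apply integral_congr_ae
        filter_upwards [Lp.coeFn_add f f'] with x hx
        rw [hx, Pi.add_apply, add_mul]
      map_smul' := fun c f => by
        rw [RingHom.id_apply, smul_eq_mul, ← integral_const_mul]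
        apply integral_congr_ae
        filter_upwards [Lp.coeFn_smul c f] with x hx
        rw [hx, Pi.smul_apply, smul_eq_mul, mul_assoc] }
    ‖g‖ (fun f => by
      rw [mul_comm]
      exact pair_bound hpq f g)

theorem pairL_apply [Fact (1 ≤ ENNReal.ofReal p)] [Fact (1 ≤ ENNReal.ofReal q)]
    (hpq : p.HolderConjugate q) (g : Lp ℂ (ENNReal.ofReal q) μ) (f : Lp ℂ (ENNReal.ofReal p) μ) :
    pairL hpq g f = ∫ x, f x * g x ∂μ := rfl

/-- `L^p`–`L^q` norming -/
theorem norming [Fact (1 ≤ ENNReal.ofReal p)] [Fact (1 ≤ ENNReal.ofReal q)]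
    (hpq : p.HolderConjugate q) (g : Lp ℂ (ENNReal.ofReal q) μ) {A : ℝ} (hA : 0 ≤ A) {E : Type*}
    {e : E → Lp ℂ (ENNReal.ofReal p) μ} (he : DenseRange e)
    (h : ∀ l, ‖pairL hpq g (e l)‖ ≤ A * ‖e l‖) : ‖g‖ ≤ A := by
  have hall : ∀ f, ‖pairL hpq g f‖ ≤ A * ‖f‖ := by
    intro f
    refine he.induction_on f (isClosed_le (by fun_prop) (by fun_prop)) h
  have hq0 := hpq.symm.pos
  have hp0 := hpq.pos
  have hq1 := hpq.symm.lt
  by_cases hg0 : ‖g‖ = 0
  · rw [hg0]; exact hA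
  · have hg1 : 0 < ‖g‖ := lt_of_le_of_ne (norm_nonneg _) (Ne.symm hg0)
    have hpe : ENNReal.ofReal p ≠ 0 := by simp [hp0]
    have hqe : ENNReal.ofReal q ≠ 0 := by simp [hq0]
    let f0 : ℝ → ℂ := fun x => (starRingEnd ℂ) (g x) * ((‖g x‖ ^ (q - 2) : ℝ) : ℂ)
    have hnorm : ∀ x, ‖f0 x‖ = ‖g x‖ ^ (q - 1) := by
      intro x
      simp only [f0]
      rw [norm_mul, RCLike.norm_conj, Complex.norm_real, Real.norm_eq_abs,
        abs_of_nonneg (Real.rpow_nonneg (norm_nonneg _) _)]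
      by_cases hx : ‖g x‖ = 0
      · rw [hx, zero_mul, Real.zero_rpow (by linarith)]
      · rw [mul_comm, ← Real.rpow_add_one hx]
        congr 1; ring
    have hpow : ∀ x, ‖f0 x‖ ^ p = ‖g x‖ ^ q := by
      intro x
      rw [hnorm, ← Real.rpow_mul (norm_nonneg _)]
      congr 1
      exact hpq.symm.sub_one_mul_conj
    have hgi : Integrable (fun x => ‖g x‖ ^ q) μ := by
      have := (Lp.memLp g).integrable_norm_rpow hqe ENNReal.ofReal_ne_top
      rwa [ENNReal.toReal_ofReal hq0.le] at this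
    have hmeas : AEStronglyMeasurable f0 μ := by
      have h1 : AEStronglyMeasurable (fun x => (starRingEnd ℂ) (g x)) μ :=
        Complex.continuous_conj.comp_aestronglyMeasurable (Lp.aestronglyMeasurable g)
      have h2 : AEStronglyMeasurable (fun x => ((‖g x‖ ^ (q - 2) : ℝ) : ℂ)) μ := by
        apply AEMeasurable.aestronglyMeasurable
        exact Complex.measurable_ofReal.comp_aemeasurable
          ((Lp.aestronglyMeasurable g).norm.aemeasurable.pow_const (q - 2))
      exact h1.mul h2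
    have hmem : MemLp f0 (ENNReal.ofReal p) μ := by
      rw [← integrable_norm_rpow_iff hmeas hpe ENNReal.ofReal_ne_top, ENNReal.toReal_ofReal hp0.le]
      simpa only [hpow] using hgi
    have h1 := hall (hmem.toLp f0)
    have h2 : pairL hpq g (hmem.toLp f0) = ((‖g‖ ^ q : ℝ) : ℂ) := by
      rw [pairL_apply, lp_norm_rpow hq0, ← integral_complex_ofReal]
      apply integral_congr_ae
      filter_upwards [hmem.coeFn_toLp] with x hx
      rw [hx]
      simp only [f0]
      have h3 : (starRingEnd ℂ) (g x) * ((‖g x‖ ^ (q - 2) : ℝ) : ℂ) * g x =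
          (((starRingEnd ℂ) (g x)) * g x) * ((‖g x‖ ^ (q - 2) : ℝ) : ℂ) := by ring
      rw [h3, Complex.conj_mul', ← Complex.ofReal_pow, ← Complex.ofReal_mul]
      congr 1
      by_cases hx0 : ‖g x‖ = 0
      · rw [hx0, Real.zero_rpow hq0.ne']; simp
      · rw [← Real.rpow_natCast, ← Real.rpow_add (lt_of_le_of_ne (norm_nonneg _) (Ne.symm hx0))]
        congr 1; push_cast; ring
    have h3 : ‖hmem.toLp f0‖ ^ p = ‖g‖ ^ q := by
      rw [lp_norm_rpow' hp0 _ hmem.coeFn_toLp, lp_norm_rpow hq0]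
      simp only [hpow]
    have h4 : ‖hmem.toLp f0‖ = ‖g‖ ^ (q - 1) := by
      have h5 : ‖hmem.toLp f0‖ = (‖hmem.toLp f0‖ ^ p) ^ (1 / p) := by
        rw [← Real.rpow_mul (norm_nonneg _), mul_one_div_cancel hp0.ne', Real.rpow_one]
      rw [h5, h3, ← Real.rpow_mul (norm_nonneg _)]
      congr 1
      have := hpq.symm.sub_one_mul_conj
      field_simp
      linarith
    rw [h2, h4, Complex.norm_real, Real.norm_eq_abs,
      abs_of_nonneg (Real.rpow_nonneg (norm_nonneg _) _)] at h1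
    have h5 : ‖g‖ ^ q = ‖g‖ * ‖g‖ ^ (q - 1) := by
      rw [mul_comm, ← Real.rpow_add_one hg1.ne']
      congr 1; ring
    rw [h5] at h1
    exact le_of_mul_le_mul_right h1 (Real.rpow_pos_of_pos hg1 _)

end

end Pool.Agent.D0H32.RE
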