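import Pool.Agent.D0H32.RE.ClsCpx
import Pool.Agent.D0H32.RE.Dense
import Pool.Agent.D0H32.RE.Lpb

/-!
# Generators in `L^p` (project RE)
-/

set_option autoImplicit false

open Real Set Filter Topology MeasureTheory

namespace Pool.Agent.D0H32.RE

/-- `b / (x² + b²)` -/
noncomputable def e1 (b : PP) (x : ℝ) : ℂ := ((b.1 / (x ^ 2 + b.1 ^ 2) : ℝ) : ℂ)

/-- `x / (x² + b²)` -/
noncomputable def e2 (b : PP) (x : ℝ) : ℂ := ((x / (x ^ 2 + b.1 ^ 2) : ℝ) : ℂ)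

theorem den_pos' (b : PP) (x : ℝ) : 0 < x ^ 2 + b.1 ^ 2 := by
  have := b.2
  positivity

theorem continuous_e1 (b : PP) : Continuous (e1 b) :=
  Complex.continuous_ofReal.comp (continuous_const.div (by fun_prop) (fun x => (den_pos' b x).ne'))

theorem continuous_e2 (b : PP) : Continuous (e2 b) :=
  Complex.continuous_ofReal.comp (continuous_id.div (by fun_prop) (fun x => (den_pos' b x).ne'))

theorem norm_e1_le (b : PP) {x : ℝ} (hx : 0 < x) : ‖e1 b x‖ ≤ 4 / min 1 b.1 / (1 + x) := by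
  have h := norm_UU_le (s := {b.1}) (c := fun _ => 1) (fun b' hb' => by
    rw [Finset.mem_singleton] at hb'; rw [hb']; exact b.2) hx
  simp only [UU, KK, Finset.sum_singleton, one_mul, norm_one, abs_one] at h
  exact h

theorem norm_e2_le (b : PP) {x : ℝ} (hx : 0 < x) : ‖e2 b x‖ ≤ 4 / min 1 b.1 / (1 + x) := by
  have h := norm_WW_le (s := {b.1}) (c := fun _ => 1) (fun b' hb' => by
    rw [Finset.mem_singleton] at hb'; rw [hb']; exact b.2) hx
  simp only [WW, KK, Finset.sum_singleton, one_mul, norm_one, abs_one] at h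
  exact h

theorem memLp_of_bound {p K : ℝ} (hp : 1 < p) (hK : 0 ≤ K) {z : ℝ → ℂ} (hz : Continuous z)
    (hb : ∀ x, 0 < x → ‖z x‖ ≤ K / (1 + x)) : MemLp z (ENNReal.ofReal p) hl := by
  have h1 : ENNReal.ofReal p ≠ 0 := by simp; linarith
  rw [← integrable_norm_rpow_iff hz.aestronglyMeasurable h1 ENNReal.ofReal_ne_top,
    ENNReal.toReal_ofReal (by linarith)]
  exact integrable_of_bound hp hK hz hb

theorem memLp_e1 {p : ℝ} (hp : 1 < p) (b : PP) : MemLp (e1 b) (ENNReal.ofReal p) hl :=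
  memLp_of_bound hp (by have := b.2; positivity) (continuous_e1 b) (fun _ hx => norm_e1_le b hx)

theorem memLp_e2 {p : ℝ} (hp : 1 < p) (b : PP) : MemLp (e2 b) (ENNReal.ofReal p) hl :=
  memLp_of_bound hp (by have := b.2; positivity) (continuous_e2 b) (fun _ hx => norm_e2_le b hx)

section

variable (p : ℝ)

/-- linear combinations of given functions in `L^p` -/
noncomputable def lin {p : ℝ} {v : PP → ℝ → ℂ}
    (hv : ∀ b, MemLp (v b) (ENNReal.ofReal p) hl) : (PP →₀ ℂ) →ₗ[ℂ] Lp ℂ (ENNReal.ofReal p) hl :=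
  Finsupp.linearCombination ℂ (fun b => (hv b).toLp (v b))

theorem lin_coe {p : ℝ} {v : PP → ℝ → ℂ}
    (hv : ∀ b, MemLp (v b) (ENNReal.ofReal p) hl) (l : PP →₀ ℂ) :
    lin hv l =ᵐ[hl] fun x => l.sum (fun b a => a * v b x) := by
  induction l using Finsupp.induction_linear with
  | zero =>
    rw [map_zero]
    filter_upwards [Lp.coeFn_zero ℂ (ENNReal.ofReal p) hl] with x hx
    rw [hx]; simp
  | add f g hf hg =>
    rw [map_add]
    filter_upwards [Lp.coeFn_add (lin hv f) (lin hv g), hf, hg] with x hx h1 h2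
    rw [hx, Pi.add_apply, h1, h2, Finsupp.sum_add_index' (by simp) (by intros; ring)]
  | single b a =>
    have : lin hv (Finsupp.single b a) = a • (hv b).toLp (v b) := by
      simp [lin]
    rw [this]
    filter_upwards [Lp.coeFn_smul a ((hv b).toLp (v b)), (hv b).coeFn_toLp] with x hx h1
    rw [hx, Pi.smul_apply, h1, smul_eq_mul, Finsupp.sum_single_index (by simp)]

end

/-- class 1 combinations -/
noncomputable def E1 {p : ℝ} (hp : 1 < p) : (PP →₀ ℂ) →ₗ[ℂ] Lp ℂ (ENNReal.ofReal p) hl :=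
  lin (memLp_e1 hp)

/-- class 2 combinations -/
noncomputable def E2 {p : ℝ} (hp : 1 < p) : (PP →₀ ℂ) →ₗ[ℂ] Lp ℂ (ENNReal.ofReal p) hl :=
  lin (memLp_e2 hp)

noncomputable def Sl (l : PP →₀ ℂ) : Finset ℝ := l.support.map ⟨Subtype.val, Subtype.val_injective⟩

open Classical in
noncomputable def Cl (l : PP →₀ ℂ) (b : ℝ) : ℂ := if h : 0 < b then l ⟨b, h⟩ else 0

theorem Sl_pos (l : PP →₀ ℂ) : ∀ b ∈ Sl l, 0 < b := by
  intro b hb
  rw [Sl, Finset.mem_map] at hb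
  obtain ⟨b', -, rfl⟩ := hb
  exact b'.2

theorem sum_e1 (l : PP →₀ ℂ) (x : ℝ) : l.sum (fun b a => a * e1 b x) = UU (Sl l) (Cl l) x := by
  rw [UU, Sl, Finset.sum_map, Finsupp.sum]
  apply Finset.sum_congr rfl
  intro b _
  simp only [Function.Embedding.coeFn_mk, Cl, b.2, dif_pos, e1]

theorem sum_e2 (l : PP →₀ ℂ) (x : ℝ) : l.sum (fun b a => a * e2 b x) = WW (Sl l) (Cl l) x := by
  rw [WW, Sl, Finset.sum_map, Finsupp.sum]
  apply Finset.sum_congr rfl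
  intro b _
  simp only [Function.Embedding.coeFn_mk, Cl, b.2, dif_pos, e2]

theorem E1_coe {p : ℝ} (hp : 1 < p) (l : PP →₀ ℂ) :
    E1 hp l =ᵐ[hl] fun x => UU (Sl l) (Cl l) x := by
  filter_upwards [lin_coe (memLp_e1 hp) l] with x hx
  rw [← sum_e1]; exact hx

theorem E2_coe {p : ℝ} (hp : 1 < p) (l : PP →₀ ℂ) :
    E2 hp l =ᵐ[hl] fun x => WW (Sl l) (Cl l) x := by
  filter_upwards [lin_coe (memLp_e2 hp) l] with x hx
  rw [← sum_e2]; exact hx

theorem rpow_norm_le {p C : ℝ} (hp : 0 < p) {a b : ℝ} (ha : 0 ≤ a) (hb : 0 ≤ b) (hC : 0 ≤ C)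
    (h : a ^ p ≤ C * b ^ p) : a ≤ C ^ (1 / p) * b := by
  have h1 : (a ^ p) ^ (1 / p) ≤ (C * b ^ p) ^ (1 / p) :=
    Real.rpow_le_rpow (Real.rpow_nonneg ha _) h (by positivity)
  rw [Real.mul_rpow hC (Real.rpow_nonneg hb _), ← Real.rpow_mul ha, ← Real.rpow_mul hb,
    mul_one_div_cancel hp.ne', Real.rpow_one, Real.rpow_one] at h1
  exact h1

/-- class inequality in `L^p`, `p ≥ 2` -/
theorem cls_Lp {p C : ℝ} [Fact (1 ≤ ENNReal.ofReal p)] (hp : 1 < p) (hp2 : 2 ≤ p)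
    (hC : IsGreatest (range (R p)) C) (hC0 : 0 ≤ C) (l : PP →₀ ℂ) :
    ‖E1 hp l - E2 hp l‖ ≤ C ^ (1 / p) * ‖E1 hp l‖ ∧
    ‖E1 hp l - E2 hp l‖ ≤ C ^ (1 / p) * ‖E2 hp l‖ := by
  have hp0 : 0 < p := by linarith
  have h := cls_cpx (c := Cl l) hp2 hC (Sl_pos l)
  have h1 := lp_norm_rpow' hp0 _ (E1_coe hp l)
  have h2 := lp_norm_rpow' hp0 _ (E2_coe hp l)
  have h3 : (E1 hp l - E2 hp l : Lp ℂ (ENNReal.ofReal p) hl) =ᵐ[hl]
      fun x => UU (Sl l) (Cl l) x - WW (Sl l) (Cl l) x := by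
    filter_upwards [Lp.coeFn_sub (E1 hp l) (E2 hp l), E1_coe hp l, E2_coe hp l] with x hx a1 a2
    rw [hx, Pi.sub_apply, a1, a2]
  have h4 := lp_norm_rpow' hp0 _ h3
  rw [← h1, ← h2, ← h4] at h
  exact ⟨rpow_norm_le hp0 (norm_nonneg _) (norm_nonneg _) hC0 h.1,
    rpow_norm_le hp0 (norm_nonneg _) (norm_nonneg _) hC0 h.2⟩

end Pool.Agent.D0H32.RE
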