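import Pool.Agent.D0H32.RE.Gen

/-!
# Gram integrals (project RE)
-/

set_option autoImplicit false

open Real Set Filter Topology MeasureTheory

namespace Pool.Agent.D0H32.RE

theorem hasDerivAt_at (a : PP) (x : ℝ) :
    HasDerivAt (fun x : ℝ => arctan (x / a.1)) (a.1 / (x ^ 2 + a.1 ^ 2)) x := by
  have ha := a.2
  have h1 : HasDerivAt (fun x : ℝ => x / a.1) (1 / a.1) x := (hasDerivAt_id x).div_const _
  refine h1.arctan.congr_deriv ?_
  field_simp
  ring

theorem tendsto_at (a : PP) : Tendsto (fun x : ℝ => arctan (x / a.1)) atTop (𝓝 (π / 2)) :=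
  (tendsto_arctan_atTop.mono_right nhdsWithin_le_nhds).comp (tendsto_id.atTop_div_const a.2)

theorem tendsto_rat (a : PP) : Tendsto (fun x : ℝ => x / (x ^ 2 + a.1 ^ 2)) atTop (𝓝 0) := by
  refine tendsto_of_tendsto_of_tendsto_of_le_of_le' tendsto_const_nhds tendsto_inv_atTop_zero ?_ ?_
  · filter_upwards [eventually_gt_atTop 0] with x hx
    have := den_pos' a x
    positivity
  · filter_upwards [eventually_gt_atTop 0] with x hx
    have := den_pos' a x
    rw [div_le_iff₀ this, ← div_eq_inv_mul, le_div_iff₀ hx]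
    nlinarith [sq_nonneg a.1]

theorem gram1_real (a b : PP) : ∫ x in Ioi (0:ℝ), (a.1 / (x ^ 2 + a.1 ^ 2)) * (b.1 / (x ^ 2 + b.1 ^ 2)) =
    π / (2 * (a.1 + b.1)) := by
  have ha := a.2
  have hb := b.2
  have hpos : ∀ x ∈ Ioi (0:ℝ), 0 ≤ (a.1 / (x ^ 2 + a.1 ^ 2)) * (b.1 / (x ^ 2 + b.1 ^ 2)) := by
    intro x _
    have := den_pos' a x
    have := den_pos' b x
    positivity
  by_cases hab : a.1 = b.1
  · have hab' : a = b := Subtype.ext hab
    subst hab'
    have hd : ∀ x ∈ Ici (0:ℝ), HasDerivAt (fun x : ℝ => (1 / 2) * (x / (x ^ 2 + a.1 ^ 2) +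
        (1 / a.1) * arctan (x / a.1))) ((a.1 / (x ^ 2 + a.1 ^ 2)) * (a.1 / (x ^ 2 + a.1 ^ 2))) x := by
      intro x _
      have hd := den_pos' a x
      have h1 : HasDerivAt (fun x : ℝ => x / (x ^ 2 + a.1 ^ 2))
          ((1 * (x ^ 2 + a.1 ^ 2) - x * (2 * x)) / (x ^ 2 + a.1 ^ 2) ^ 2) x := by
        have h2 : HasDerivAt (fun x : ℝ => x ^ 2 + a.1 ^ 2) (2 * x) x := by
          simpa using (hasDerivAt_pow 2 x).add_const (a.1 ^ 2)
        exact (hasDerivAt_id x).div h2 hd.ne'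
      refine ((h1.add ((hasDerivAt_at a x).const_mul (1 / a.1))).const_mul (1 / 2)).congr_deriv ?_
      field_simp
      ring
    have ht : Tendsto (fun x : ℝ => (1 / 2) * (x / (x ^ 2 + a.1 ^ 2) +
        (1 / a.1) * arctan (x / a.1))) atTop (𝓝 ((1 / 2) * (0 + (1 / a.1) * (π / 2)))) :=
      ((tendsto_rat a).add ((tendsto_at a).const_mul _)).const_mul _
    rw [integral_Ioi_of_hasDerivAt_of_nonneg' hd hpos ht]
    simp only [zero_div, arctan_zero, mul_zero, add_zero, sub_zero, zero_add]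
    field_simp
    ring
  · have hne : b.1 ^ 2 - a.1 ^ 2 ≠ 0 := by
      intro h
      have : (b.1 - a.1) * (b.1 + a.1) = 0 := by linarith
      rcases mul_eq_zero.1 this with h | h
      · exact hab (by linarith)
      · linarith
    have hd : ∀ x ∈ Ici (0:ℝ), HasDerivAt (fun x : ℝ => (1 / (b.1 ^ 2 - a.1 ^ 2)) *
        (b.1 * arctan (x / a.1) - a.1 * arctan (x / b.1)))
        ((a.1 / (x ^ 2 + a.1 ^ 2)) * (b.1 / (x ^ 2 + b.1 ^ 2))) x := by
      intro x _
      have hd := den_pos' a x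
      have hd' := den_pos' b x
      refine ((((hasDerivAt_at a x).const_mul b.1).sub
        ((hasDerivAt_at b x).const_mul a.1)).const_mul _).congr_deriv ?_
      field_simp
      ring
    have ht : Tendsto (fun x : ℝ => (1 / (b.1 ^ 2 - a.1 ^ 2)) *
        (b.1 * arctan (x / a.1) - a.1 * arctan (x / b.1))) atTop
        (𝓝 ((1 / (b.1 ^ 2 - a.1 ^ 2)) * (b.1 * (π / 2) - a.1 * (π / 2)))) :=
      (((tendsto_at a).const_mul _).sub ((tendsto_at b).const_mul _)).const_mul _
    rw [integral_Ioi_of_hasDerivAt_of_nonneg' hd hpos ht]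
    simp only [zero_div, arctan_zero, mul_zero, sub_zero]
    have hab2 : a.1 + b.1 ≠ 0 := by positivity
    field_simp
    ring

theorem gram2_real (a b : PP) : ∫ x in Ioi (0:ℝ), (x / (x ^ 2 + a.1 ^ 2)) * (x / (x ^ 2 + b.1 ^ 2)) =
    π / (2 * (a.1 + b.1)) := by
  have ha := a.2
  have hb := b.2
  have hpos : ∀ x ∈ Ioi (0:ℝ), 0 ≤ (x / (x ^ 2 + a.1 ^ 2)) * (x / (x ^ 2 + b.1 ^ 2)) := by
    intro x hx
    have hx : 0 < x := hx
    have := den_pos' a x
    have := den_pos' b x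
    positivity
  by_cases hab : a.1 = b.1
  · have hab' : a = b := Subtype.ext hab
    subst hab'
    have hd : ∀ x ∈ Ici (0:ℝ), HasDerivAt (fun x : ℝ => (1 / 2) * (-(x / (x ^ 2 + a.1 ^ 2)) +
        (1 / a.1) * arctan (x / a.1))) ((x / (x ^ 2 + a.1 ^ 2)) * (x / (x ^ 2 + a.1 ^ 2))) x := by
      intro x _
      have hd := den_pos' a x
      have h1 : HasDerivAt (fun x : ℝ => x / (x ^ 2 + a.1 ^ 2))
          ((1 * (x ^ 2 + a.1 ^ 2) - x * (2 * x)) / (x ^ 2 + a.1 ^ 2) ^ 2) x := by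
        have h2 : HasDerivAt (fun x : ℝ => x ^ 2 + a.1 ^ 2) (2 * x) x := by
          simpa using (hasDerivAt_pow 2 x).add_const (a.1 ^ 2)
        exact (hasDerivAt_id x).div h2 hd.ne'
      refine ((h1.neg.add ((hasDerivAt_at a x).const_mul (1 / a.1))).const_mul (1 / 2)).congr_deriv ?_
      field_simp
      ring
    have ht : Tendsto (fun x : ℝ => (1 / 2) * (-(x / (x ^ 2 + a.1 ^ 2)) +
        (1 / a.1) * arctan (x / a.1))) atTop (𝓝 ((1 / 2) * (-0 + (1 / a.1) * (π / 2)))) :=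
      ((tendsto_rat a).neg.add ((tendsto_at a).const_mul _)).const_mul _
    rw [integral_Ioi_of_hasDerivAt_of_nonneg' hd hpos ht]
    simp only [zero_div, arctan_zero, mul_zero, sub_zero, zero_add, neg_zero]
    field_simp
    ring
  · have hne : a.1 ^ 2 - b.1 ^ 2 ≠ 0 := by
      intro h
      have : (a.1 - b.1) * (b.1 + a.1) = 0 := by linarith
      rcases mul_eq_zero.1 this with h | h
      · exact hab (by linarith)
      · linarith
    have hd : ∀ x ∈ Ici (0:ℝ), HasDerivAt (fun x : ℝ => (1 / (a.1 ^ 2 - b.1 ^ 2)) *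
        (a.1 * arctan (x / a.1) - b.1 * arctan (x / b.1)))
        ((x / (x ^ 2 + a.1 ^ 2)) * (x / (x ^ 2 + b.1 ^ 2))) x := by
      intro x _
      have hd := den_pos' a x
      have hd' := den_pos' b x
      refine ((((hasDerivAt_at a x).const_mul a.1).sub
        ((hasDerivAt_at b x).const_mul b.1)).const_mul _).congr_deriv ?_
      field_simp
      ring
    have ht : Tendsto (fun x : ℝ => (1 / (a.1 ^ 2 - b.1 ^ 2)) *
        (a.1 * arctan (x / a.1) - b.1 * arctan (x / b.1))) atTop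
        (𝓝 ((1 / (a.1 ^ 2 - b.1 ^ 2)) * (a.1 * (π / 2) - b.1 * (π / 2)))) :=
      (((tendsto_at a).const_mul _).sub ((tendsto_at b).const_mul _)).const_mul _
    rw [integral_Ioi_of_hasDerivAt_of_nonneg' hd hpos ht]
    simp only [zero_div, arctan_zero, mul_zero, sub_zero]
    have hab2 : a.1 + b.1 ≠ 0 := by positivity
    field_simp
    ring

theorem gram1 (a b : PP) : ∫ x, e1 a x * e1 b x ∂hl = ((π / (2 * (a.1 + b.1)) : ℝ) : ℂ) := by
  rw [← gram1_real, ← integral_complex_ofReal]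
  congr 1
  funext x
  simp only [e1]
  push_cast
  rfl

theorem gram2 (a b : PP) : ∫ x, e2 a x * e2 b x ∂hl = ((π / (2 * (a.1 + b.1)) : ℝ) : ℂ) := by
  rw [← gram2_real, ← integral_complex_ofReal]
  congr 1
  funext x
  simp only [e2]
  push_cast
  rfl

/-- exponentials -/
noncomputable def ex (b : PP) (t : ℝ) : ℂ := ((Real.exp (-(b.1 * t)) : ℝ) : ℂ)

theorem continuous_ex (b : PP) : Continuous (ex b) := by
  unfold ex
  fun_prop

theorem gramE (a b : PP) : ∫ t, ex a t * ex b t ∂hl = ((1 / (a.1 + b.1) : ℝ) : ℂ) := by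
  have ha := a.2
  have hb := b.2
  have h1 := integral_exp_mul_Ioi (a := -(a.1 + b.1)) (by linarith) 0
  rw [mul_zero, Real.exp_zero] at h1
  have h2 : -1 / -(a.1 + b.1) = 1 / (a.1 + b.1) := by rw [neg_div_neg_eq]
  rw [← h2, ← h1, ← integral_complex_ofReal]
  congr 1
  funext x
  simp only [ex]
  rw [← Complex.ofReal_mul, ← Real.exp_add]
  congr 2
  ring

theorem integrable_ex_cexp (b : PP) (x : ℝ) :
    Integrable (fun t : ℝ => Complex.exp ((-(b.1:ℂ) + x * Complex.I) * t)) hl :=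
  integrableOn_exp_mul_complex_Ioi (by simpa using b.2) 0

theorem laplace (b : PP) (x : ℝ) :
    ∫ t, Complex.exp ((-(b.1:ℂ) + x * Complex.I) * t) ∂hl = e1 b x + Complex.I * e2 b x := by
  have h := integral_exp_mul_complex_Ioi (a := -(b.1:ℂ) + x * Complex.I) (by simpa using b.2) 0
  rw [h, Complex.ofReal_zero, mul_zero, Complex.exp_zero, e1, e2]
  have hd := den_pos' b x
  have h1 : (-(b.1:ℂ) + x * Complex.I) ≠ 0 := by
    intro h0
    have := congrArg Complex.re h0
    simp at this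
    exact b.2.ne' this
  have h2 : ((x:ℂ) ^ 2 + (b.1:ℂ) ^ 2) ≠ 0 := by exact_mod_cast hd.ne'
  push_cast
  rw [div_eq_iff h1, mul_div_assoc', ← add_div, div_mul_eq_mul_div, eq_div_iff h2]
  linear_combination (-(x:ℂ) ^ 2) * Complex.I_sq

end Pool.Agent.D0H32.RE
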