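import Mathlib

/-!
# A Green-type monotonicity lemma in a strip and a chain rule (project RE)
-/

set_option autoImplicit false

open Real Set Filter Topology MeasureTheory

namespace Pool.Agent.D0H32.RE

/-- monotonicity of the integrals along horizontal lines of a strip -/
theorem green {V Vt Vs : ℝ → ℝ → ℂ} {g : ℝ → ℝ} (hg : Integrable g)
    (hVc : ∀ σ ∈ Icc 0 (π / 2), Continuous fun t => V t σ)
    (hVcs : ∀ t, ContinuousOn (fun σ => V t σ) (Icc 0 (π / 2)))
    (ht : ∀ σ ∈ Ioo 0 (π / 2), ∀ t, HasDerivAt (fun t => V t σ) (Vt t σ) t)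
    (hs : ∀ σ ∈ Ioo 0 (π / 2), ∀ t, HasDerivAt (fun σ => V t σ) (Vs t σ) σ)
    (b0 : ∀ σ ∈ Icc 0 (π / 2), ∀ t, ‖V t σ‖ ≤ g t)
    (b1 : ∀ σ ∈ Ioo 0 (π / 2), ∀ t, ‖Vt t σ‖ ≤ g t)
    (b2 : ∀ σ ∈ Ioo 0 (π / 2), ∀ t, ‖Vs t σ‖ ≤ g t)
    (hpos : ∀ σ ∈ Ioo 0 (π / 2), ∀ t, 0 ≤ (Vs t σ - Complex.I * Vt t σ).re) :
    (∫ t, V t 0).re ≤ (∫ t, V t (π / 2)).re := by
  have hπ : (0:ℝ) < π / 2 := by positivity
  have hint : ∀ σ ∈ Icc 0 (π / 2), Integrable fun t => V t σ := fun σ hσ =>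
    Integrable.mono' hg (hVc σ hσ).aestronglyMeasurable (Filter.Eventually.of_forall (b0 σ hσ))
  have hMc : ContinuousOn (fun σ => (∫ t, V t σ).re) (Icc 0 (π / 2)) := by
    apply Complex.continuous_re.comp_continuousOn
    exact continuousOn_of_dominated (fun σ hσ => (hVc σ hσ).aestronglyMeasurable)
      (fun σ hσ => Filter.Eventually.of_forall (b0 σ hσ)) hg
      (Filter.Eventually.of_forall hVcs)
  have hsub : ∀ σ ∈ Ioo (0:ℝ) (π / 2), σ ∈ Icc (0:ℝ) (π / 2) := fun σ hσ => Ioo_subset_Icc_self hσ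
  have hVtm : ∀ σ ∈ Ioo 0 (π / 2), AEStronglyMeasurable (fun t => Vt t σ) := by
    intro σ hσ
    have : (fun t => Vt t σ) = deriv (fun t => V t σ) := by
      funext t; exact ((ht σ hσ t).deriv).symm
    rw [this]
    exact (measurable_deriv _).aestronglyMeasurable
  have hVti : ∀ σ ∈ Ioo 0 (π / 2), Integrable fun t => Vt t σ := fun σ hσ =>
    Integrable.mono' hg (hVtm σ hσ) (Filter.Eventually.of_forall (b1 σ hσ))
  have hVsm : ∀ σ ∈ Ioo 0 (π / 2), AEStronglyMeasurable (fun t => Vs t σ) := by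
    intro σ hσ
    let u : ℕ → ℝ := fun n => (π / 2 - σ) * (1 / ((n : ℝ) + 1 + 1))
    have hu0 : ∀ n, 0 < u n := fun n => mul_pos (by linarith [hσ.2]) (by positivity)
    have hu1 : ∀ n, u n < π / 2 - σ := by
      intro n
      have h1 : 1 / ((n : ℝ) + 1 + 1) < 1 := by
        rw [div_lt_one (by positivity)]
        have : (0:ℝ) ≤ n := Nat.cast_nonneg n
        linarith
      have h2 : 0 < π / 2 - σ := by linarith [hσ.2]
      calc u n = (π / 2 - σ) * (1 / ((n : ℝ) + 1 + 1)) := rfl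
        _ < (π / 2 - σ) * 1 := mul_lt_mul_of_pos_left h1 h2
        _ = π / 2 - σ := mul_one _
    have hu : Tendsto u atTop (𝓝[≠] 0) := by
      rw [tendsto_nhdsWithin_iff]
      refine ⟨?_, Filter.Eventually.of_forall fun n => (hu0 n).ne'⟩
      have h1 : Tendsto (fun n : ℕ => 1 / ((n : ℝ) + 1 + 1)) atTop (𝓝 0) := by
        have := (tendsto_one_div_add_atTop_nhds_zero_nat (𝕜 := ℝ)).comp (tendsto_add_atTop_nat 1)
        refine this.congr (fun n => ?_)
        simp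
      have h2 := h1.const_mul (π / 2 - σ)
      rw [mul_zero] at h2
      exact h2
    refine aestronglyMeasurable_of_tendsto_ae (f := fun n t => (u n)⁻¹ • (V t (σ + u n) - V t σ))
      atTop (fun n => ?_) (Filter.Eventually.of_forall fun t => ?_)
    · have c1 : Continuous fun t => V t (σ + u n) :=
        hVc _ ⟨by linarith [hσ.1, hu0 n], by linarith [hu1 n]⟩
      have c2 : Continuous fun t => V t σ := hVc _ (hsub σ hσ)
      exact ((c1.sub c2).const_smul ((u n)⁻¹)).aestronglyMeasurable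
    · exact (hs σ hσ t).tendsto_slope_zero.comp hu
  have hMd : ∀ σ ∈ Ioo 0 (π / 2),
      HasDerivAt (fun σ => (∫ t, V t σ).re) (∫ t, Vs t σ).re σ := by
    intro σ hσ
    have h1 := (hasDerivAt_integral_of_dominated_loc_of_deriv_le (μ := volume)
      (F := fun σ t => V t σ) (F' := fun σ t => Vs t σ) (x₀ := σ) (s := Ioo 0 (π / 2))
      (bound := g) (Ioo_mem_nhds hσ.1 hσ.2)
      (by filter_upwards [Ioo_mem_nhds hσ.1 hσ.2] with τ hτ
          exact (hVc τ (hsub τ hτ)).aestronglyMeasurable)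
      (hint σ (hsub σ hσ)) (hVsm σ hσ)
      (Filter.Eventually.of_forall fun t τ hτ => b2 τ hτ t) hg
      (Filter.Eventually.of_forall fun t τ hτ => hs τ hτ t)).2
    exact (Complex.reCLM.hasFDerivAt.comp_hasDerivAt σ h1)
  have hMn : ∀ σ ∈ Ioo 0 (π / 2), 0 ≤ (∫ t, Vs t σ).re := by
    intro σ hσ
    have h0 : ∫ t, Vt t σ = 0 :=
      integral_eq_zero_of_hasDerivAt_of_integrable (ht σ hσ) (hVti σ hσ) (hint σ (hsub σ hσ))
    have hVsi : Integrable fun t => Vs t σ :=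
      Integrable.mono' hg (hVsm σ hσ) (Filter.Eventually.of_forall (b2 σ hσ))
    have h1 : ∫ t, Vs t σ = ∫ t, (Vs t σ - Complex.I * Vt t σ) := by
      rw [integral_sub hVsi ((hVti σ hσ).const_mul _), integral_const_mul, h0]
      simp
    rw [h1]
    have h2 : Integrable fun t => (Vs t σ - Complex.I * Vt t σ) :=
      hVsi.sub ((hVti σ hσ).const_mul _)
    have h3 := integral_re h2
    simp only [RCLike.re_to_complex] at h3
    rw [← h3]
    exact integral_nonneg (hpos σ hσ)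
  have hmono : MonotoneOn (fun σ => (∫ t, V t σ).re) (Icc 0 (π / 2)) := by
    apply monotoneOn_of_deriv_nonneg (convex_Icc _ _) hMc
    · rw [interior_Icc]
      exact fun σ hσ => (hMd σ hσ).differentiableAt.differentiableWithinAt
    · rw [interior_Icc]
      intro σ hσ
      rw [(hMd σ hσ).deriv]
      exact hMn σ hσ
  exact hmono (left_mem_Icc.2 hπ.le) (right_mem_Icc.2 hπ.le) hπ.le

/-- `|w|^p Φ(arg w) / w^m` -/
noncomputable def Y (p : ℝ) (m : ℕ) (Φ : ℝ → ℂ) (w : ℂ) : ℂ :=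
  ((‖w‖ ^ p : ℝ) : ℂ) * Φ w.arg / w ^ m

theorem Y_zero (p : ℝ) (hp : 0 < p) (m : ℕ) (Φ : ℝ → ℂ) : Y p m Φ 0 = 0 := by
  simp [Y, Real.zero_rpow hp.ne']

theorem Y_exp (p : ℝ) (m : ℕ) (Φ : ℝ → ℂ) (hΦ : ∀ θ, Φ (θ + 2 * π) = Φ θ) (ζ : ℂ) :
    Y p m Φ (Complex.exp ζ) = Complex.exp (((p * ζ.re : ℝ) : ℂ) - m * ζ) * Φ ζ.im := by
  obtain ⟨n, hn⟩ := Complex.log_exp_exists ζ
  have h1 : (Complex.exp ζ).arg = ζ.im + n * (2 * π) := by
    rw [← Complex.log_im, hn]
    simp [Complex.add_im, Complex.mul_im]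
  have hper : Function.Periodic Φ (2 * π) := hΦ
  have h2 : Φ (ζ.im + n * (2 * π)) = Φ ζ.im := hper.int_mul n ζ.im
  rw [Y, h1, h2, Complex.norm_exp, ← Real.exp_mul, Complex.exp_sub, Complex.ofReal_exp,
    mul_comm ζ.re p, ← Complex.exp_nat_mul]
  ring

theorem norm_Y_le (p : ℝ) (m : ℕ) (Φ : ℝ → ℂ) {B : ℝ} (hB : ∀ θ, ‖Φ θ‖ ≤ B) {w : ℂ} (hw : w ≠ 0) :
    ‖Y p m Φ w‖ ≤ B * ‖w‖ ^ (p - m) := by
  have hw0 : 0 < ‖w‖ := norm_pos_iff.2 hw
  rw [Y, norm_div, norm_mul, norm_pow, Complex.norm_real, Real.norm_eq_abs,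
    abs_of_nonneg (Real.rpow_nonneg hw0.le _), Real.rpow_sub hw0, Real.rpow_natCast]
  rw [div_le_iff₀ (by positivity)]
  have h1 := hB w.arg
  have h2 : B * (‖w‖ ^ p / ‖w‖ ^ m) * ‖w‖ ^ m = B * ‖w‖ ^ p := by
    field_simp
  rw [h2, mul_comm]
  exact mul_le_mul_of_nonneg_right h1 (Real.rpow_nonneg hw0.le _)

/-- chain rule for `Y` along a curve -/
theorem hasDerivAt_Y {p : ℝ} {m : ℕ} {Φ Φ' : ℝ → ℂ} (hpm : (m : ℝ) + 1 < p)
    (hΦ : ∀ θ, Φ (θ + 2 * π) = Φ θ) (hd : ∀ θ, HasDerivAt Φ (Φ' θ) θ) {B : ℝ}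
    (hB : ∀ θ, ‖Φ θ‖ ≤ B) {A : ℝ → ℂ} {A' : ℂ} {s : ℝ} (hA : HasDerivAt A A' s) :
    HasDerivAt (fun u => Y p m Φ (A u))
      (Y p m (fun θ => Φ θ * (((p * (A' / A s).re : ℝ) : ℂ) - m * (A' / A s)) +
        Φ' θ * ((A' / A s).im : ℂ)) (A s)) s := by
  have hp0 : 0 < p := by
    have : (0:ℝ) ≤ m := Nat.cast_nonneg m
    linarith
  by_cases h0 : A s = 0
  · rw [h0, Y_zero p hp0]
    have hB0 : 0 ≤ B := le_trans (norm_nonneg _) (hB 0)
    -- bound
    have hbd : ∀ u, ‖Y p m Φ (A u)‖ ≤ (B * ‖A u‖ ^ (p - m - 1)) * ‖A u‖ := by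
      intro u
      by_cases hu : A u = 0
      · rw [hu, Y_zero p hp0]
        simp
      · refine le_trans (norm_Y_le p m Φ hB hu) (le_of_eq ?_)
        rw [mul_assoc, ← Real.rpow_add_one (norm_ne_zero_iff.2 hu)]
        congr 2
        ring
    rw [hasDerivAt_iff_isLittleO]
    simp only [smul_zero, sub_zero, h0, Y_zero p hp0]
    have h1 : (fun u => A u) =O[𝓝 s] fun u => u - s := by
      have := hA.isBigO_sub
      simpa [h0] using this
    have h2 : Tendsto (fun u => B * ‖A u‖ ^ (p - m - 1)) (𝓝 s) (𝓝 0) := by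
      have h3 : Tendsto (fun u => ‖A u‖) (𝓝 s) (𝓝 0) := by
        have := hA.continuousAt.norm.tendsto
        rwa [h0, norm_zero] at this
      have h4 : Tendsto (fun u => ‖A u‖ ^ (p - m - 1)) (𝓝 s) (𝓝 (0 ^ (p - m - 1))) :=
        h3.rpow_const (Or.inr (by linarith))
      rw [Real.zero_rpow (by linarith)] at h4
      simpa using h4.const_mul B
    have h5 : (fun u => B * ‖A u‖ ^ (p - m - 1)) =o[𝓝 s] fun _ => (1:ℝ) :=
      (Asymptotics.isLittleO_one_iff ℝ).2 h2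
    have h6 := h5.mul_isBigO h1.norm_left
    refine Asymptotics.IsBigO.trans_isLittleO (g := fun u => B * ‖A u‖ ^ (p - m - 1) * ‖A u‖) ?_ ?_
    · apply Asymptotics.IsBigO.of_bound 1
      apply Filter.Eventually.of_forall
      intro u
      rw [one_mul, Real.norm_of_nonneg (by positivity)]
      exact hbd u
    · simpa using h6
  · -- local logarithm
    let L : ℝ → ℂ := fun u => Complex.log (A s) + Complex.log (A u / A s)
    have hdiv : HasDerivAt (fun u => A u / A s) (A' / A s) s := hA.div_const _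
    have hone : A s / A s = 1 := div_self h0
    have hL : HasDerivAt L (A' / A s) s := by
      have h1 := (hdiv.clog_real (by rw [hone]; exact Complex.one_mem_slitPlane)).const_add
        (Complex.log (A s))
      rw [hone, div_one] at h1
      exact h1
    have hLs : L s = Complex.log (A s) := by simp [L, hone]
    have hne : ∀ᶠ u in 𝓝 s, A u ≠ 0 := hA.continuousAt.eventually_ne h0
    have hexp : ∀ᶠ u in 𝓝 s, A u = Complex.exp (L u) := by
      filter_upwards [hne] with u hu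
      simp only [L]
      rw [Complex.exp_add, Complex.exp_log h0, Complex.exp_log (div_ne_zero hu h0)]
      field_simp
    have hLre : HasDerivAt (fun u => (L u).re) (A' / A s).re s :=
      Complex.reCLM.hasFDerivAt.comp_hasDerivAt s hL
    have hLim : HasDerivAt (fun u => (L u).im) (A' / A s).im s :=
      Complex.imCLM.hasFDerivAt.comp_hasDerivAt s hL
    have h1 : HasDerivAt (fun u => ((p * (L u).re : ℝ) : ℂ)) ((p * (A' / A s).re : ℝ) : ℂ) s :=
      (hLre.const_mul p).ofReal_comp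
    have h2 : HasDerivAt (fun u => ((p * (L u).re : ℝ) : ℂ) - m * L u)
        (((p * (A' / A s).re : ℝ) : ℂ) - m * (A' / A s)) s := h1.sub (hL.const_mul _)
    have h3 := h2.cexp
    have h4 : HasDerivAt (fun u => Φ (L u).im) ((A' / A s).im • Φ' (L s).im) s :=
      (hd (L s).im).scomp s hLim
    have h5 := h3.mul h4
    have h6 : HasDerivAt (fun u => Y p m Φ (A u))
        (Complex.exp (((p * (L s).re : ℝ) : ℂ) - m * L s) *
          (((p * (A' / A s).re : ℝ) : ℂ) - m * (A' / A s)) * Φ (L s).im +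
          Complex.exp (((p * (L s).re : ℝ) : ℂ) - m * L s) * ((A' / A s).im • Φ' (L s).im)) s := by
      refine h5.congr_of_eventuallyEq ?_
      filter_upwards [hexp] with u hu
      rw [hu, Y_exp p m Φ hΦ]
      rfl
    refine h6.congr_deriv ?_
    -- evaluate
    have hE : Complex.exp (((p * (L s).re : ℝ) : ℂ) - m * L s) =
        ((‖A s‖ ^ p : ℝ) : ℂ) / (A s) ^ m := by
      rw [hLs, Complex.exp_sub, Complex.exp_nat_mul, Complex.exp_log h0, ← Complex.ofReal_exp,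
        Complex.log_re, Real.rpow_def_of_pos (norm_pos_iff.2 h0), mul_comm p]
    rw [hE, hLs, Complex.log_im, Y, Complex.real_smul]
    ring

end Pool.Agent.D0H32.RE
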