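import Pool.Agent.D0H32.RE.Pw
import Pool.Agent.D0H32.RE.Gen

/-!
# `L^q` norms of the near extremals (project RE)
-/

set_option autoImplicit false

open Real Set Filter Topology MeasureTheory
open Complex (I)

namespace Pool.Agent.D0H32.RE

/-- real-linear functional `a Re z + b Im z`, complex valued -/
noncomputable def fab (a b : ℝ) (z : ℂ) : ℂ := ((a * z.re + b * z.im : ℝ) : ℂ)

theorem fab_add (a b : ℝ) (z w : ℂ) : fab a b (z + w) = fab a b z + fab a b w := by
  simp only [fab, Complex.add_re, Complex.add_im]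
  push_cast
  ring

theorem norm_fab_le (a b : ℝ) (z : ℂ) : ‖fab a b z‖ ≤ (|a| + |b|) * ‖z‖ := by
  rw [fab, Complex.norm_real, Real.norm_eq_abs]
  refine le_trans (abs_add_le _ _) ?_
  rw [abs_mul, abs_mul]
  have h1 := Complex.abs_re_le_norm z
  have h2 := Complex.abs_im_le_norm z
  have h3 := abs_nonneg a
  have h4 := abs_nonneg b
  nlinarith

theorem continuous_fab (a b : ℝ) : Continuous (fab a b) := by
  unfold fab
  fun_prop

theorem memLp_of_bound' {p K : ℝ} (hp : 1 < p) (hK : 0 ≤ K) {z : ℝ → ℂ}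
    (hz : AEStronglyMeasurable z hl)
    (hb : ∀ x, 0 < x → ‖z x‖ ≤ K / (1 + x)) : MemLp z (ENNReal.ofReal p) hl := by
  have h1 : ENNReal.ofReal p ≠ 0 := by simp; linarith
  rw [← integrable_norm_rpow_iff hz h1 ENNReal.ofReal_ne_top,
    ENNReal.toReal_ofReal (by linarith)]
  have h1 : IntegrableOn (fun x : ℝ => (x + 1) ^ (-p)) (Ioi 0) :=
    integrableOn_add_rpow_Ioi_of_lt (by linarith) (by norm_num)
  have h2 := h1.const_mul (K ^ p)
  refine Integrable.mono' h2 (hz.norm.aemeasurable.pow_const p).aestronglyMeasurable ?_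
  filter_upwards [ae_restrict_mem measurableSet_Ioi] with x hx
  have hx0 : 0 < x := hx
  rw [Real.norm_eq_abs, abs_of_nonneg (Real.rpow_nonneg (norm_nonneg _) _)]
  refine le_trans (Real.rpow_le_rpow (norm_nonneg _) (hb x hx0) (by linarith)) (le_of_eq ?_)
  rw [Real.div_rpow hK (by linarith), Real.rpow_neg (by linarith), add_comm 1 x]
  rfl

theorem meas_nh0 (s α ε : ℝ) : Measurable (nh0 s α ε) := by
  unfold nh0 pw
  fun_prop

theorem meas_nf (s α ε : ℝ) : Measurable (nf s α ε) := by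
  unfold nf pw
  fun_prop

theorem meas_nh (s α ε : ℝ) : Measurable (nh s α ε) := by
  unfold nh
  apply Measurable.ite
  · exact measurableSet_le (by fun_prop) measurable_const
  · exact (meas_nh0 s α ε).comp (by fun_prop)
  · exact measurable_const

theorem meas_nk (s α ε : ℝ) : Measurable (nk s α ε) := (meas_nf s α ε).sub (meas_nh s α ε)

theorem norm_nh_le {s α ε x : ℝ} (hs0 : 0 < s) (hε : 0 < ε) (hx : 0 < x) :
    ‖nh s α ε x‖ ≤ ((1 / ε) ^ s * 3) / (1 + x) := by
  rw [nh]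
  split_ifs with h
  · rw [abs_le] at h
    rw [nh0, norm_mul, norm_exp_I, one_mul, norm_pw]
    have h1 : ε ≤ ‖((ε : ℂ) - (x - 1 : ℝ) * I)‖ := by
      have := Complex.abs_re_le_norm ((ε : ℂ) - (x - 1 : ℝ) * I)
      simp only [Complex.sub_re, Complex.ofReal_re, Complex.mul_re, Complex.I_re, mul_zero,
        Complex.ofReal_im, Complex.I_im, mul_one, sub_self, sub_zero] at this
      exact le_trans (le_abs_self _) this
    have h2 : (1 / ‖((ε : ℂ) - (x - 1 : ℝ) * I)‖) ^ s ≤ (1 / ε) ^ s := by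
      apply Real.rpow_le_rpow (by positivity) _ hs0.le
      exact one_div_le_one_div_of_le hε h1
    refine le_trans h2 ?_
    rw [le_div_iff₀ (by linarith)]
    apply mul_le_mul_of_nonneg_left _ (by positivity)
    linarith [h.2]
  · rw [norm_zero]; positivity

/-- the weight -/
noncomputable def WW' (q s α a b ϑ : ℝ) : ℝ := |a * Real.cos (α + s * ϑ) + b * Real.sin (α + s * ϑ)| ^ q

theorem continuous_WW' {q : ℝ} (hq : 0 < q) (s α a b : ℝ) : Continuous (WW' q s α a b) := by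
  unfold WW'
  have h1 : Continuous fun ϑ : ℝ => |a * Real.cos (α + s * ϑ) + b * Real.sin (α + s * ϑ)| := by
    fun_prop
  exact h1.rpow_const (fun _ => Or.inr hq.le)

theorem WW'_nonneg (q s α a b ϑ : ℝ) : 0 ≤ WW' q s α a b ϑ := Real.rpow_nonneg (abs_nonneg _) _

/-- the norm of the singular part -/
theorem int_nh {q s α ε a b : ℝ} (hq : 0 < q) (hs : s * q = 1) (hε : 0 < ε) :
    ∫ x, ‖fab a b (nh s α ε x)‖ ^ q ∂hl = Phi (WW' q s α a b) (1 / (2 * ε)) := by
  have h1 : ∀ x, ‖fab a b (nh s α ε x)‖ ^ q =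
      (Icc (1 / 2 : ℝ) (3 / 2)).indicator (fun x => ‖fab a b (nh0 s α ε (x - 1))‖ ^ q) x := by
    intro x
    by_cases hx : x ∈ Icc (1 / 2 : ℝ) (3 / 2)
    · rw [indicator_of_mem hx, nh, if_pos]
      rw [abs_le]; constructor <;> linarith [hx.1, hx.2]
    · rw [indicator_of_notMem hx, nh, if_neg]
      · simp [fab, Real.zero_rpow hq.ne']
      · intro h
        rw [abs_le] at h
        exact hx ⟨by linarith [h.1], by linarith [h.2]⟩
  simp only [h1]
  rw [setIntegral_indicator measurableSet_Icc]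
  have h2 : Ioi (0:ℝ) ∩ Icc (1 / 2) (3 / 2) = Icc (1 / 2) (3 / 2) := by
    apply inter_eq_right.2
    intro x hx
    have := hx.1
    show 0 < x
    linarith
  rw [h2, integral_Icc_eq_integral_Ioc, ← intervalIntegral.integral_of_le (by norm_num),
    intervalIntegral.integral_comp_sub_right (fun y => ‖fab a b (nh0 s α ε y)‖ ^ q) 1, Phi]
  have h3 := intervalIntegral.integral_comp_mul_left (a := -(1 / (2 * ε))) (b := 1 / (2 * ε))
    (fun y => ‖fab a b (nh0 s α ε y)‖ ^ q) hε.ne'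
  have h4 : ε * -(1 / (2 * ε)) = 1 / 2 - 1 := by field_simp; ring
  have h5 : ε * (1 / (2 * ε)) = 3 / 2 - 1 := by field_simp; ring
  rw [h4, h5, smul_eq_mul] at h3
  have h6 : ∫ y in (1 / 2 - 1 : ℝ)..(3 / 2 - 1), ‖fab a b (nh0 s α ε y)‖ ^ q =
      ε * ∫ z in (-(1 / (2 * ε)))..(1 / (2 * ε)), ‖fab a b (nh0 s α ε (ε * z))‖ ^ q := by
    rw [h3]; field_simp
  rw [h6, ← intervalIntegral.integral_const_mul]
  congr 1
  funext z
  have hz := norm_pos' z
  obtain ⟨n, hn⟩ : ∃ n : ℝ, n = ‖(1 + z * I : ℂ)‖ := ⟨_, rfl⟩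
  rw [nh0_scaled hε, ← hn]
  rw [← hn] at hz
  have h7 : fab a b ((((1 / (ε * n)) ^ s : ℝ) : ℂ) *
      Complex.exp (((α + s * ang z : ℝ) : ℂ) * I)) =
      (((1 / (ε * n)) ^ s * (a * Real.cos (α + s * ang z) + b * Real.sin (α + s * ang z)) : ℝ) : ℂ) := by
    rw [fab, Complex.re_ofReal_mul, Complex.im_ofReal_mul, Complex.exp_ofReal_mul_I_re,
      Complex.exp_ofReal_mul_I_im]
    congr 1
    ring
  rw [h7, Complex.norm_real, Real.norm_eq_abs, abs_mul, Real.mul_rpow (abs_nonneg _) (abs_nonneg _),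
    abs_of_nonneg (by positivity), ← Real.rpow_mul (by positivity), hs, Real.rpow_one, WW']
  field_simp

/-- conclusion: comparison at the limit angles -/
theorem near {q lam a b : ℝ} [Fact (1 ≤ ENNReal.ofReal q)] (hq : 1 < q) (hlam : 0 ≤ lam)
    (H : ∀ α ε : ℝ, 0 < ε → ε < 1 → ∀ FA FB : Lp ℂ (ENNReal.ofReal q) hl,
      FA =ᵐ[hl] (fun x => fab 1 (-1) (nf (1 / q) α ε x)) →
      FB =ᵐ[hl] (fun x => fab a b (nf (1 / q) α ε x)) → ‖FA‖ ≤ lam * ‖FB‖) (x : ℝ) :
    |Real.cos x - Real.sin x| ^ q + |Real.cos (x + π / q) - Real.sin (x + π / q)| ^ q ≤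
      lam ^ q * (|a * Real.cos x + b * Real.sin x| ^ q +
        |a * Real.cos (x + π / q) + b * Real.sin (x + π / q)| ^ q) := by
  have hq0 : 0 < q := by linarith
  obtain ⟨s, hs⟩ : ∃ s : ℝ, s = 1 / q := ⟨_, rfl⟩
  have hs0 : 0 < s := by rw [hs]; positivity
  have hs1 : s ≤ 1 := by rw [hs, div_le_one hq0]; exact hq.le
  have hsq : s * q = 1 := by rw [hs]; field_simp
  rw [← hs] at H
  obtain ⟨α, hα⟩ : ∃ α : ℝ, α = x + π / (2 * q) := ⟨_, rfl⟩
  -- the reference function
  have hone : MemLp (fun x : ℝ => ((12 / (1 + |x|) : ℝ) : ℂ)) (ENNReal.ofReal q) hl := by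
    apply memLp_of_bound hq (by norm_num : (0:ℝ) ≤ 12)
    · exact Complex.continuous_ofReal.comp (continuous_const.div (by fun_prop)
        (fun x => by positivity))
    · intro x hx
      rw [Complex.norm_real, Real.norm_eq_abs, abs_of_pos (by positivity), abs_of_pos hx]
  obtain ⟨M0, hM0⟩ : ∃ M0 : ℝ, M0 = ‖hone.toLp _‖ := ⟨_, rfl⟩
  have hM00 : 0 ≤ M0 := by rw [hM0]; exact norm_nonneg _
  have key : ∀ a b : ℝ, ∀ ε : ℝ, 0 < ε → ε < 1 →
      ∃ FA : Lp ℂ (ENNReal.ofReal q) hl, FA =ᵐ[hl] (fun x => fab a b (nf s α ε x)) ∧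
        (Phi (WW' q s α a b) (1 / (2 * ε))) ^ (1 / q) ≤ ‖FA‖ + (|a| + |b|) * M0 ∧
        ‖FA‖ ≤ (Phi (WW' q s α a b) (1 / (2 * ε))) ^ (1 / q) + (|a| + |b|) * M0 := by
    intro a b ε hε hε1
    have hab : 0 ≤ |a| + |b| := by positivity
    have m1 : MemLp (fun x => fab a b (nh s α ε x)) (ENNReal.ofReal q) hl := by
      apply memLp_of_bound' hq (K := (|a| + |b|) * ((1 / ε) ^ s * 3)) (by positivity)
      · exact ((continuous_fab a b).measurable.comp (meas_nh s α ε)).aestronglyMeasurable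
      · intro x hx
        refine le_trans (norm_fab_le a b _) ?_
        rw [mul_div_assoc]
        exact mul_le_mul_of_nonneg_left (norm_nh_le hs0 hε hx) hab
    have m2 : MemLp (fun x => fab a b (nk s α ε x)) (ENNReal.ofReal q) hl := by
      apply memLp_of_bound' hq (K := (|a| + |b|) * 12) (by positivity)
      · exact ((continuous_fab a b).measurable.comp (meas_nk s α ε)).aestronglyMeasurable
      · intro x hx
        refine le_trans (norm_fab_le a b _) ?_
        rw [mul_div_assoc]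
        exact mul_le_mul_of_nonneg_left (norm_nk_le hs0 hs1 hε hε1 hx) hab
    have n1 : ‖m1.toLp _‖ = (Phi (WW' q s α a b) (1 / (2 * ε))) ^ (1 / q) := by
      have h1 := lp_norm_rpow' hq0 _ m1.coeFn_toLp
      rw [int_nh hq0 hsq hε] at h1
      rw [← h1, ← Real.rpow_mul (norm_nonneg _), mul_one_div_cancel hq0.ne', Real.rpow_one]
    have n2 : ‖m2.toLp _‖ ≤ (|a| + |b|) * M0 := by
      rw [hM0]
      apply Lp.norm_le_mul_norm_of_ae_le_mul
      filter_upwards [m2.coeFn_toLp, hone.coeFn_toLp, ae_restrict_mem measurableSet_Ioi] with x h1 h2 hx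
      have hx0 : 0 < x := hx
      rw [h1, h2, Complex.norm_real, Real.norm_eq_abs, abs_of_pos (by positivity : 0 < 12 / (1 + |x|)),
        abs_of_pos hx0]
      refine le_trans (norm_fab_le a b _) ?_
      exact mul_le_mul_of_nonneg_left (norm_nk_le hs0 hs1 hε hε1 hx0) hab
    refine ⟨m1.toLp _ + m2.toLp _, ?_, ?_, ?_⟩
    · filter_upwards [Lp.coeFn_add (m1.toLp _) (m2.toLp _), m1.coeFn_toLp, m2.coeFn_toLp] with x h1 h2 h3
      rw [h1, Pi.add_apply, h2, h3, ← fab_add, nk]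
      congr 1
      ring
    · have h1 : m1.toLp _ = (m1.toLp _ + m2.toLp _) - m2.toLp _ := by abel
      rw [← n1]
      calc ‖m1.toLp _‖ = ‖(m1.toLp _ + m2.toLp _) - m2.toLp _‖ := by rw [← h1]
        _ ≤ ‖m1.toLp _ + m2.toLp _‖ + ‖m2.toLp _‖ := norm_sub_le _ _
        _ ≤ _ := by linarith
    · rw [← n1]
      exact le_trans (norm_add_le _ _) (by linarith)
  have hasy := asym hq0 (continuous_WW' hq0 s α 1 (-1)) (continuous_WW' hq0 s α a b)
    (WW'_nonneg q s α 1 (-1)) (WW'_nonneg q s α a b) hlam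
    (M := 2 * M0 + lam * ((|a| + |b|) * M0)) (by positivity) (by
      intro L hL
      obtain ⟨ε, hε⟩ : ∃ ε : ℝ, ε = 1 / (2 * L) := ⟨_, rfl⟩
      have hL0 : 0 < L := by linarith
      have hε0 : 0 < ε := by rw [hε]; positivity
      have hε1 : ε < 1 := by rw [hε, div_lt_one (by positivity)]; linarith
      have hLε : 1 / (2 * ε) = L := by rw [hε]; field_simp
      obtain ⟨FA, hFA, hA1, -⟩ := key 1 (-1) ε hε0 hε1
      obtain ⟨FB, hFB, -, hB2⟩ := key a b ε hε0 hε1
      rw [hLε] at hA1 hB2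
      have h1 := H α ε hε0 hε1 FA FB hFA hFB
      have h2 : (|(1:ℝ)| + |(-1:ℝ)|) = 2 := by norm_num
      rw [h2] at hA1
      have h3 := mul_le_mul_of_nonneg_left hB2 hlam
      linarith)
  have e1 : α + s * (π / 2) = x + π / q := by
    rw [hα, hs]; field_simp; ring
  have e2 : α + s * (-(π / 2)) = x := by
    rw [hα, hs]; field_simp; ring
  simp only [WW', e1, e2, one_mul, neg_mul] at hasy
  have e3 : ∀ y z : ℝ, y + -z = y - z := fun y z => by ring
  simp only [e3] at hasy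
  linarith

end Pool.Agent.D0H32.RE
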