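import Pool.Agent.D0H32.RE.ExpD

/-!
# The cosine and sine transforms on `L²` (project RE)
-/

set_option autoImplicit false

open Real Set Filter Topology MeasureTheory
open scoped InnerProductSpace

namespace Pool.Agent.D0H32.RE

/-- data of an even or odd kernel -/
structure Ker where
  ker : ℝ → ℝ
  v : PP → ℝ → ℂ
  hkc : Continuous ker
  hk1 : ∀ x, |ker x| ≤ 1
  hvm : ∀ b, MemLp (v b) 2 hl
  hvr : ∀ b x, (starRingEnd ℂ) (v b x) = v b x
  hvg : ∀ a b, ∫ x, v a x * v b x ∂hl = ((π / (2 * (a.1 + b.1)) : ℝ) : ℂ)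
  hvk : ∀ b x, v b x = ∫ t, (ker (x * t) : ℂ) * ex b t ∂hl

namespace Ker

variable (K : Ker)

/-- the pointwise transform -/
noncomputable def pt (u : ℝ → ℂ) (x : ℝ) : ℂ := ∫ t, (K.ker (x * t) : ℂ) * u t ∂hl

theorem pt_bound {u : ℝ → ℂ} (hu : Integrable u hl) (x : ℝ) : ‖K.pt u x‖ ≤ ∫ t, ‖u t‖ ∂hl := by
  refine norm_integral_le_of_norm_le hu.norm (Filter.Eventually.of_forall fun t => ?_)
  rw [norm_mul, Complex.norm_real, Real.norm_eq_abs]
  calc |K.ker (x * t)| * ‖u t‖ ≤ 1 * ‖u t‖ := mul_le_mul_of_nonneg_right (K.hk1 _) (norm_nonneg _)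
    _ = ‖u t‖ := one_mul _

theorem pt_continuous {u : ℝ → ℂ} (hu : Integrable u hl) : Continuous (K.pt u) := by
  apply continuous_of_dominated (bound := fun t => ‖u t‖)
  · intro x
    apply AEStronglyMeasurable.mul _ hu.aestronglyMeasurable
    exact (Complex.continuous_ofReal.comp
      (K.hkc.comp (continuous_const.mul continuous_id))).aestronglyMeasurable
  · intro x
    refine Filter.Eventually.of_forall fun t => ?_
    rw [norm_mul, Complex.norm_real, Real.norm_eq_abs]
    calc |K.ker (x * t)| * ‖u t‖ ≤ 1 * ‖u t‖ := mul_le_mul_of_nonneg_right (K.hk1 _) (norm_nonneg _)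
      _ = ‖u t‖ := one_mul _
  · exact hu.norm
  · refine Filter.Eventually.of_forall fun t => ?_
    exact (Complex.continuous_ofReal.comp (K.hkc.comp (continuous_id.mul continuous_const))).mul
      continuous_const

theorem pt_ex_integrable {u : ℝ → ℂ} (hu : Integrable u hl) (b : PP) :
    Integrable (fun x => K.pt u x * ex b x) hl := by
  refine (integrable_ex b).bdd_mul (c := ∫ t, ‖u t‖ ∂hl) ?_ ?_
  · exact (K.pt_continuous hu).aestronglyMeasurable
  · exact Filter.Eventually.of_forall fun x => K.pt_bound hu x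

/-- Fubini -/
theorem fub {u : ℝ → ℂ} (hu : Integrable u hl) (b : PP) :
    ∫ x, K.pt u x * ex b x ∂hl = ∫ t, u t * K.v b t ∂hl := by
  have hprod : Integrable (fun z : ℝ × ℝ => ex b z.1 * u z.2) (hl.prod hl) :=
    (integrable_ex b).mul_prod hu
  have h1 : Integrable (Function.uncurry fun x t : ℝ =>
      (K.ker (x * t) : ℂ) * u t * ex b x) (hl.prod hl) := by
    have h2 := hprod.bdd_mul (c := 1) (f := fun z : ℝ × ℝ => (K.ker (z.1 * z.2) : ℂ))
      (Complex.continuous_ofReal.comp (K.hkc.comp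
        (continuous_fst.mul continuous_snd))).aestronglyMeasurable
      (Filter.Eventually.of_forall fun z => by
        rw [Complex.norm_real]; exact K.hk1 _)
    refine h2.congr (Filter.Eventually.of_forall fun z => ?_)
    simp only [Function.uncurry]
    ring
  have h3 : ∫ x, K.pt u x * ex b x ∂hl =
      ∫ x, ∫ t, (K.ker (x * t) : ℂ) * u t * ex b x ∂hl ∂hl := by
    congr 1
    funext x
    rw [pt, integral_mul_const]
  rw [h3, integral_integral_swap h1]
  congr 1
  funext t
  rw [K.hvk, ← integral_const_mul]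
  congr 1
  funext x
  rw [mul_comm t x]
  ring

/-- the constant -/
noncomputable def κ : ℝ := √(2 / π)

theorem κ_sq : κ * κ = 2 / π := Real.mul_self_sqrt (by positivity)

theorem κ_pos : 0 < κ := Real.sqrt_pos.2 (by positivity)

/-- inner product of linear combinations -/
theorem inner_lin2 {v w : PP → ℝ → ℂ} (hv : ∀ b, MemLp (v b) 2 hl) (hw : ∀ b, MemLp (w b) 2 hl)
    (hr : ∀ b x, (starRingEnd ℂ) (v b x) = v b x) (l m : PP →₀ ℂ) :
    ⟪lin2 hv l, lin2 hw m⟫_ℂ = l.sum fun a c => m.sum fun b d =>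
      (starRingEnd ℂ) c * d * ∫ x, v a x * w b x ∂hl := by
  have h1 : lin2 hv l = l.sum fun b a => a • (hv b).toLp (v b) := Finsupp.linearCombination_apply _ _
  have h2 : lin2 hw m = m.sum fun b a => a • (hw b).toLp (w b) := Finsupp.linearCombination_apply _ _
  rw [h1, h2, Finsupp.sum, Finsupp.sum, sum_inner, Finsupp.sum]
  apply Finset.sum_congr rfl
  intro a _
  rw [inner_sum, Finsupp.sum]
  apply Finset.sum_congr rfl
  intro b _
  rw [inner_smul_left, inner_smul_right, L2.inner_def, ← mul_assoc]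
  congr 1
  apply integral_congr_ae
  filter_upwards [(hv a).coeFn_toLp, (hw b).coeFn_toLp] with x e1 e2
  rw [e1, e2, RCLike.inner_apply, hr, mul_comm]

theorem ex_real (b : PP) (x : ℝ) : (starRingEnd ℂ) (ex b x) = ex b x := by
  rw [ex, Complex.conj_ofReal]

/-- the image combinations -/
noncomputable def img : (PP →₀ ℂ) →ₗ[ℂ] Lp ℂ 2 hl := (κ : ℂ) • lin2 K.hvm

theorem img_apply (l : PP →₀ ℂ) : K.img l = (κ : ℂ) • lin2 K.hvm l := rfl

theorem inner_img (l m : PP →₀ ℂ) :
    ⟪K.img l, K.img m⟫_ℂ = ⟪lin2 memLp_ex l, lin2 memLp_ex m⟫_ℂ := by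
  rw [img_apply, img_apply, inner_smul_left, inner_smul_right, inner_lin2 K.hvm K.hvm K.hvr,
    inner_lin2 memLp_ex memLp_ex ex_real, Complex.conj_ofReal, ← mul_assoc, Finsupp.mul_sum]
  apply Finsupp.sum_congr
  intro a _
  rw [Finsupp.mul_sum]
  apply Finsupp.sum_congr
  intro b _
  rw [K.hvg, gramE]
  have h1 : (κ : ℂ) * κ = ((2 / π : ℝ) : ℂ) := by rw [← κ_sq]; push_cast; ring
  rw [h1]
  have h2 : ((2 / π : ℝ) : ℂ) * ((π / (2 * (a.1 + b.1)) : ℝ) : ℂ) = ((1 / (a.1 + b.1) : ℝ) : ℂ) := by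
    rw [← Complex.ofReal_mul]
    congr 1
    have := a.2
    have := b.2
    field_simp
  rw [← h2]
  ring

theorem inner_img_ex (l m : PP →₀ ℂ) :
    ⟪K.img l, lin2 memLp_ex m⟫_ℂ = ⟪lin2 memLp_ex l, K.img m⟫_ℂ := by
  rw [img_apply, img_apply, inner_smul_left, inner_smul_right, inner_lin2 K.hvm memLp_ex K.hvr,
    inner_lin2 memLp_ex K.hvm ex_real, Complex.conj_ofReal]
  congr 1
  apply Finsupp.sum_congr
  intro a _
  apply Finsupp.sum_congr
  intro b _
  congr 1
  have h := K.fub (integrable_ex a) b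
  rw [← h]
  congr 1
  funext x
  rw [pt, ← K.hvk]

theorem norm_img (l : PP →₀ ℂ) : ‖K.img l‖ = ‖lin2 memLp_ex l‖ := by
  have h := K.inner_img l l
  rw [inner_self_eq_norm_sq_to_K, inner_self_eq_norm_sq_to_K] at h
  have h2 : ‖K.img l‖ ^ 2 = ‖lin2 memLp_ex l‖ ^ 2 := by exact_mod_cast h
  exact (pow_left_inj₀ (norm_nonneg _) (norm_nonneg _) (by norm_num)).1 h2

/-- the `L²` transform -/
noncomputable def F : Lp ℂ 2 hl →L[ℂ] Lp ℂ 2 hl := K.img.extendOfNorm (lin2 memLp_ex)

theorem F_ex (l : PP →₀ ℂ) : K.F (lin2 memLp_ex l) = K.img l :=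
  LinearMap.extendOfNorm_eq dense_ex ⟨1, fun l => by rw [one_mul, K.norm_img]⟩ l

theorem F_inner (f g : Lp ℂ 2 hl) : ⟪K.F f, K.F g⟫_ℂ = ⟪f, g⟫_ℂ := by
  refine dense_ex.induction_on f (isClosed_eq (by fun_prop) (by fun_prop)) (fun l => ?_)
  refine dense_ex.induction_on g (isClosed_eq (by fun_prop) (by fun_prop)) (fun m => ?_)
  rw [F_ex, F_ex, K.inner_img]

theorem F_symm (f g : Lp ℂ 2 hl) : ⟪K.F f, g⟫_ℂ = ⟪f, K.F g⟫_ℂ := by
  refine dense_ex.induction_on f (isClosed_eq (by fun_prop) (by fun_prop)) (fun l => ?_)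
  refine dense_ex.induction_on g (isClosed_eq (by fun_prop) (by fun_prop)) (fun m => ?_)
  rw [F_ex, F_ex, K.inner_img_ex]

theorem F_F (f : Lp ℂ 2 hl) : K.F (K.F f) = f := by
  apply ext_inner_left ℂ
  intro g
  rw [← K.F_symm, K.F_inner]

/-- the integral formula on `L¹ ∩ L²` -/
theorem F_formula (u : Lp ℂ 2 hl) (hu : Integrable u hl) :
    K.F u =ᵐ[hl] fun x => (κ : ℂ) * K.pt u x := by
  have hmem : ∀ (f : Lp ℂ 2 hl) (b : PP), Integrable (fun x => f x * ex b x) hl := fun f b =>
    (Lp.memLp f).integrable_mul (memLp_ex b)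
  have h1 : ∀ᵐ x ∂hl, K.F u x - (κ : ℂ) * K.pt u x = 0 := by
    have hi2 : ∀ b : PP, Integrable (fun x => (κ : ℂ) * K.pt u x * ex b x) hl := by
      intro b
      have := (K.pt_ex_integrable hu b).const_mul (κ : ℂ)
      refine this.congr (Filter.Eventually.of_forall fun x => ?_)
      simp only; ring
    apply total3
    · intro b
      refine ((hmem (K.F u) b).sub (hi2 b)).congr (Filter.Eventually.of_forall fun x => ?_)
      simp only [Pi.sub_apply]; ring
    · intro b
      have h2 : ∫ x, (K.F u x - (κ : ℂ) * K.pt u x) * ex b x ∂hl =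
          ∫ x, K.F u x * ex b x ∂hl - ∫ x, (κ : ℂ) * K.pt u x * ex b x ∂hl := by
        rw [← integral_sub (hmem (K.F u) b) (hi2 b)]
        congr 1
        funext x; ring
      have h3 : ∫ x, K.F u x * ex b x ∂hl = ⟪lin2 memLp_ex (Finsupp.single b 1), K.F u⟫_ℂ := by
        rw [L2.inner_def]
        apply integral_congr_ae
        filter_upwards [lin2_coe memLp_ex (Finsupp.single b 1)] with x hx
        rw [hx, Finsupp.sum_single_index (by simp), one_mul, RCLike.inner_apply, ex_real]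
      have h4 : ⟪lin2 memLp_ex (Finsupp.single b 1), K.F u⟫_ℂ =
          (κ : ℂ) * ∫ t, u t * K.v b t ∂hl := by
        rw [← K.F_symm, K.F_ex, img_apply, inner_smul_left, Complex.conj_ofReal, L2.inner_def]
        congr 1
        apply integral_congr_ae
        filter_upwards [lin2_coe K.hvm (Finsupp.single b 1)] with x hx
        rw [hx, Finsupp.sum_single_index (by simp), one_mul, RCLike.inner_apply, K.hvr]
      have h5 : ∫ x, (κ : ℂ) * K.pt u x * ex b x ∂hl = (κ : ℂ) * ∫ t, u t * K.v b t ∂hl := by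
        rw [← K.fub hu b, ← integral_const_mul]
        congr 1
        funext x; ring
      rw [h2, h3, h4, h5, sub_self]
  filter_upwards [h1] with x hx
  exact sub_eq_zero.1 hx

/-- uniqueness -/
theorem F_unique (A : Lp ℂ 2 hl →L[ℂ] Lp ℂ 2 hl)
    (hA : ∀ u : Lp ℂ 2 hl, Integrable u hl → A u =ᵐ[hl] fun x => (κ : ℂ) * K.pt u x) :
    A = K.F := by
  ext1 f
  refine dense_ex.induction_on f (isClosed_eq (by fun_prop) (by fun_prop)) (fun l => ?_)
  have hint : Integrable (lin2 memLp_ex l) hl := by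
    have h1 : Integrable (fun x => l.sum (fun b a => a * ex b x)) hl := by
      simp only [Finsupp.sum]
      exact integrable_finsetSum _ fun b _ => (integrable_ex b).const_mul _
    exact h1.congr (lin2_coe memLp_ex l).symm
  apply Lp.ext
  exact (hA _ hint).trans (K.F_formula _ hint).symm

end Ker

theorem e1_real (b : PP) (x : ℝ) : (starRingEnd ℂ) (e1 b x) = e1 b x := by
  rw [e1, Complex.conj_ofReal]

theorem e2_real (b : PP) (x : ℝ) : (starRingEnd ℂ) (e2 b x) = e2 b x := by
  rw [e2, Complex.conj_ofReal]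

theorem memLp2_e1 (b : PP) : MemLp (e1 b) 2 hl := by
  have := memLp_e1 (p := 2) (by norm_num) b
  rwa [ENNReal.ofReal_ofNat] at this

theorem memLp2_e2 (b : PP) : MemLp (e2 b) 2 hl := by
  have := memLp_e2 (p := 2) (by norm_num) b
  rwa [ENNReal.ofReal_ofNat] at this

theorem cexp_split (b : PP) (x t : ℝ) : Complex.exp ((-(b.1:ℂ) + x * Complex.I) * t) =
    (Real.cos (x * t) : ℂ) * ex b t + Complex.I * ((Real.sin (x * t) : ℂ) * ex b t) := by
  have h1 : (-(b.1:ℂ) + x * Complex.I) * t = ((-(b.1 * t) : ℝ) : ℂ) + ((x * t : ℝ) : ℂ) * Complex.I := by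
    push_cast; ring
  rw [h1, Complex.exp_add, ex, Complex.exp_mul_I, Complex.ofReal_cos, Complex.ofReal_sin,
    ← Complex.ofReal_exp]
  ring

theorem int_cos (b : PP) (x : ℝ) : Integrable (fun t => (Real.cos (x * t) : ℂ) * ex b t) hl :=
  (integrable_ex b).bdd_mul (c := 1) (Complex.continuous_ofReal.comp
    (Real.continuous_cos.comp (by fun_prop))).aestronglyMeasurable
    (Filter.Eventually.of_forall fun t => by
      rw [Complex.norm_real]; exact Real.abs_cos_le_one _)

theorem int_sin (b : PP) (x : ℝ) : Integrable (fun t => (Real.sin (x * t) : ℂ) * ex b t) hl :=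
  (integrable_ex b).bdd_mul (c := 1) (Complex.continuous_ofReal.comp
    (Real.continuous_sin.comp (by fun_prop))).aestronglyMeasurable
    (Filter.Eventually.of_forall fun t => by
      rw [Complex.norm_real]; exact Real.abs_sin_le_one _)

theorem laplace_both (b : PP) (x : ℝ) :
    e1 b x = ∫ t, (Real.cos (x * t) : ℂ) * ex b t ∂hl ∧
    e2 b x = ∫ t, (Real.sin (x * t) : ℂ) * ex b t ∂hl := by
  have h := laplace b x
  simp only [cexp_split] at h
  rw [integral_add (int_cos b x) ((int_sin b x).const_mul _), integral_const_mul] at h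
  have hc : ∫ t, (Real.cos (x * t) : ℂ) * ex b t ∂hl =
      ((∫ t, Real.cos (x * t) * Real.exp (-(b.1 * t)) ∂hl : ℝ) : ℂ) := by
    rw [← integral_complex_ofReal]
    congr 1
    funext t
    rw [ex]; push_cast; rfl
  have hs : ∫ t, (Real.sin (x * t) : ℂ) * ex b t ∂hl =
      ((∫ t, Real.sin (x * t) * Real.exp (-(b.1 * t)) ∂hl : ℝ) : ℂ) := by
    rw [← integral_complex_ofReal]
    congr 1
    funext t
    rw [ex]; push_cast; rfl
  rw [hc, hs] at h ⊢
  rw [e1, e2] at h ⊢
  have hre := congrArg Complex.re h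
  have him := congrArg Complex.im h
  simp only [Complex.add_re, Complex.ofReal_re, Complex.mul_re, Complex.I_re, zero_mul,
    Complex.ofReal_im, Complex.I_im, mul_zero, sub_zero, add_zero, Complex.add_im,
    Complex.mul_im, zero_add, one_mul] at hre him
  exact ⟨by rw [hre], by rw [him]⟩

/-- cosine kernel -/
noncomputable def Kc : Ker where
  ker := Real.cos
  v := e1
  hkc := Real.continuous_cos
  hk1 := Real.abs_cos_le_one
  hvm := memLp2_e1
  hvr := e1_real
  hvg := gram1
  hvk := fun b x => (laplace_both b x).1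

/-- sine kernel -/
noncomputable def Ks : Ker where
  ker := Real.sin
  v := e2
  hkc := Real.continuous_sin
  hk1 := Real.abs_sin_le_one
  hvm := memLp2_e2
  hvr := e2_real
  hvg := gram2
  hvk := fun b x => (laplace_both b x).2

end Pool.Agent.D0H32.RE
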