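import Pool.Agent.D0H32.RE.Gam
import Pool.Agent.D0H32.RE.Trans

/-!
# Transforms of the explicit functions (project RE)
-/

set_option autoImplicit false

open Real Set Filter Topology MeasureTheory
open Complex (I)

namespace Pool.Agent.D0H32.RE

noncomputable def vr (s α ε t : ℝ) : ℝ :=
  t ^ (s - 1) * Real.cos (t - α) * (Real.exp (-(ε * t)) - Real.exp (-t))

noncomputable def vf (s α ε t : ℝ) : ℂ := (vr s α ε t : ℂ)

theorem meas_vf (s α ε : ℝ) : Measurable (vf s α ε) := by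
  unfold vf vr
  fun_prop

theorem norm_vf_le {s α ε t : ℝ} (hs0 : 0 < s) (hs1 : s ≤ 1) (hε : 0 < ε) (hε1 : ε < 1)
    (ht : 0 < t) : ‖vf s α ε t‖ ≤ Real.exp (-(ε * t)) := by
  rw [vf, Complex.norm_real, vr, Real.norm_eq_abs, abs_mul, abs_mul]
  have h1 : |Real.cos (t - α)| ≤ 1 := Real.abs_cos_le_one _
  have h2 : |t ^ (s - 1)| = t ^ (s - 1) := abs_of_pos (Real.rpow_pos_of_pos ht _)
  have h3 : 0 ≤ Real.exp (-(ε * t)) - Real.exp (-t) := by
    rw [sub_nonneg]
    apply Real.exp_le_exp.2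
    nlinarith
  rw [h2, abs_of_nonneg h3]
  have h4 : Real.exp (-(ε * t)) - Real.exp (-t) ≤ min 1 t * Real.exp (-(ε * t)) := by
    have e1 : Real.exp (-t) = Real.exp (-(ε * t)) * Real.exp (-((1 - ε) * t)) := by
      rw [← Real.exp_add]; congr 1; ring
    have e2 : 1 - (1 - ε) * t ≤ Real.exp (-((1 - ε) * t)) := by
      have := Real.add_one_le_exp (-((1 - ε) * t))
      linarith
    have e3 : 0 ≤ Real.exp (-((1 - ε) * t)) := (Real.exp_pos _).le
    have e4 : 1 - Real.exp (-((1 - ε) * t)) ≤ min 1 t := by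
      apply le_min
      · linarith
      · nlinarith
    rw [e1]
    have e5 := (Real.exp_pos (-(ε * t))).le
    nlinarith
  have h5 : t ^ (s - 1) * min 1 t ≤ 1 := by
    rcases le_total t 1 with h | h
    · rw [min_eq_right h, ← Real.rpow_add_one ht.ne']
      apply Real.rpow_le_one ht.le h
      linarith
    · rw [min_eq_left h, mul_one]
      exact Real.rpow_le_one_of_one_le_of_nonpos h (by linarith)
  have h6 : 0 < t ^ (s - 1) := Real.rpow_pos_of_pos ht _
  have h7 := Real.exp_pos (-(ε * t))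
  calc t ^ (s - 1) * |Real.cos (t - α)| * (Real.exp (-(ε * t)) - Real.exp (-t))
      ≤ t ^ (s - 1) * 1 * (min 1 t * Real.exp (-(ε * t))) := by
        gcongr
    _ = (t ^ (s - 1) * min 1 t) * Real.exp (-(ε * t)) := by ring
    _ ≤ 1 * Real.exp (-(ε * t)) := mul_le_mul_of_nonneg_right h5 h7.le
    _ = _ := one_mul _

theorem integrable_vf {s α ε : ℝ} (hs0 : 0 < s) (hs1 : s ≤ 1) (hε : 0 < ε) (hε1 : ε < 1) :
    Integrable (vf s α ε) hl := by
  refine Integrable.mono' (integrable_exp_neg hε) (meas_vf s α ε).aestronglyMeasurable ?_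
  filter_upwards [ae_restrict_mem measurableSet_Ioi] with t ht
  exact norm_vf_le hs0 hs1 hε hε1 ht

theorem memLp_vf {s α ε : ℝ} (hs0 : 0 < s) (hs1 : s ≤ 1) (hε : 0 < ε) (hε1 : ε < 1) :
    MemLp (vf s α ε) 2 hl := by
  refine (memLp_ex ⟨ε, hε⟩).mono (meas_vf s α ε).aestronglyMeasurable ?_
  filter_upwards [ae_restrict_mem measurableSet_Ioi] with t ht
  refine le_trans (norm_vf_le hs0 hs1 hε hε1 ht) ?_
  rw [ex, Complex.norm_real, Real.norm_eq_abs, abs_of_pos (Real.exp_pos _)]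

theorem vf_point {s α ε x t : ℝ} :
    Complex.exp ((x * t : ℝ) * I) * vf s α ε t = 1 / 2 *
      (Complex.exp (α * I) * (gi (s - 1) ((ε : ℂ) - (x - 1 : ℝ) * I) t -
        gi (s - 1) (((1:ℝ) : ℂ) - (x - 1 : ℝ) * I) t) +
      Complex.exp (-(α * I)) * (gi (s - 1) ((ε : ℂ) - (x + 1 : ℝ) * I) t -
        gi (s - 1) (((1:ℝ) : ℂ) - (x + 1 : ℝ) * I) t)) := by
  have hcos : ((Real.cos (t - α) : ℝ) : ℂ) =
      (Complex.exp ((t - α : ℝ) * I) + Complex.exp (-((t - α : ℝ) * I))) / 2 := by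
    rw [Complex.ofReal_cos, Complex.cos, neg_mul]
  have e1 : ∀ (δ y : ℝ), Complex.exp (-(((δ : ℂ) - y * I) * t)) =
      ((Real.exp (-(δ * t)) : ℝ) : ℂ) * Complex.exp ((y * t : ℝ) * I) := by
    intro δ y
    rw [Complex.ofReal_exp, ← Complex.exp_add]
    congr 1; push_cast; ring
  have e2 : Complex.exp (α * I) * Complex.exp (((x - 1) * t : ℝ) * I) =
      Complex.exp ((x * t : ℝ) * I) * Complex.exp (-((t - α : ℝ) * I)) := by
    rw [← Complex.exp_add, ← Complex.exp_add]; congr 1; push_cast; ring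
  have e3 : Complex.exp (-(α * I)) * Complex.exp (((x + 1) * t : ℝ) * I) =
      Complex.exp ((x * t : ℝ) * I) * Complex.exp ((t - α : ℝ) * I) := by
    rw [← Complex.exp_add, ← Complex.exp_add]; congr 1; push_cast; ring
  simp only [gi, e1]
  have hv : vf s α ε t = ((t ^ (s - 1) : ℝ) : ℂ) * ((Real.cos (t - α) : ℝ) : ℂ) *
      (((Real.exp (-(ε * t)) : ℝ) : ℂ) - ((Real.exp (-(1 * t)) : ℝ) : ℂ)) := by
    rw [vf, vr, one_mul]; push_cast; ring
  rw [hv, hcos]
  linear_combination (-(1 / 2) * ((t ^ (s - 1) : ℝ) : ℂ) *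
    (((Real.exp (-(ε * t)) : ℝ) : ℂ) - ((Real.exp (-(1 * t)) : ℝ) : ℂ))) * (e2 + e3)

theorem vf_fourier {s α ε : ℝ} (x : ℝ) (hs0 : 0 < s) (hε : 0 < ε) :
    ∫ t, Complex.exp ((x * t : ℝ) * I) * vf s α ε t ∂hl =
      ((Real.Gamma s / 2 : ℝ) : ℂ) * nf s α ε x := by
  simp only [vf_point]
  have i1 : ∀ δ y : ℝ, 0 < δ → Integrable (gi (s - 1) ((δ : ℂ) - y * I)) hl := fun δ y hδ =>
    int_gi (by linarith) (by simpa using hδ)
  rw [integral_const_mul, integral_add, integral_const_mul, integral_const_mul,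
    integral_sub (i1 _ _ hε) (i1 _ _ one_pos), integral_sub (i1 _ _ hε) (i1 _ _ one_pos),
    gam _ hs0 hε, gam _ hs0 one_pos, gam _ hs0 hε, gam _ hs0 one_pos]
  · rw [nf, Complex.ofReal_one]
    push_cast
    ring
  · exact ((i1 _ _ hε).sub (i1 _ _ one_pos)).const_mul _
  · exact ((i1 _ _ hε).sub (i1 _ _ one_pos)).const_mul _

theorem vf_transforms {s α ε : ℝ} (x : ℝ) (hs0 : 0 < s) (hs1 : s ≤ 1) (hε : 0 < ε) (hε1 : ε < 1) :
    Kc.pt (vf s α ε) x = ((Real.Gamma s / 2 * (nf s α ε x).re : ℝ) : ℂ) ∧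
    Ks.pt (vf s α ε) x = ((Real.Gamma s / 2 * (nf s α ε x).im : ℝ) : ℂ) := by
  have h := vf_fourier (α := α) x hs0 hε
  have hv := integrable_vf (α := α) hs0 hs1 hε hε1
  have ic : Integrable (fun t => (Real.cos (x * t) : ℂ) * vf s α ε t) hl :=
    hv.bdd_mul (c := 1) (Complex.continuous_ofReal.comp
      (Real.continuous_cos.comp (by fun_prop))).aestronglyMeasurable
      (Filter.Eventually.of_forall fun t => by
        rw [Complex.norm_real]; exact Real.abs_cos_le_one _)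
  have is : Integrable (fun t => (Real.sin (x * t) : ℂ) * vf s α ε t) hl :=
    hv.bdd_mul (c := 1) (Complex.continuous_ofReal.comp
      (Real.continuous_sin.comp (by fun_prop))).aestronglyMeasurable
      (Filter.Eventually.of_forall fun t => by
        rw [Complex.norm_real]; exact Real.abs_sin_le_one _)
  have hsplit : ∀ t : ℝ, Complex.exp ((x * t : ℝ) * I) * vf s α ε t =
      (Real.cos (x * t) : ℂ) * vf s α ε t + I * ((Real.sin (x * t) : ℂ) * vf s α ε t) := by
    intro t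
    rw [Complex.exp_mul_I, ← Complex.ofReal_cos, ← Complex.ofReal_sin]
    ring
  simp only [hsplit] at h
  rw [integral_add ic (is.const_mul _), integral_const_mul] at h
  have hc : Kc.pt (vf s α ε) x = ((∫ t, Real.cos (x * t) * vr s α ε t ∂hl : ℝ) : ℂ) := by
    rw [Ker.pt, ← integral_complex_ofReal]
    congr 1
    funext t
    rw [vf, Complex.ofReal_mul]; rfl
  have hs : Ks.pt (vf s α ε) x = ((∫ t, Real.sin (x * t) * vr s α ε t ∂hl : ℝ) : ℂ) := by
    rw [Ker.pt, ← integral_complex_ofReal]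
    congr 1
    funext t
    rw [vf, Complex.ofReal_mul]; rfl
  have h' : Kc.pt (vf s α ε) x + I * Ks.pt (vf s α ε) x =
      ((Real.Gamma s / 2 : ℝ) : ℂ) * nf s α ε x := h
  rw [hc, hs] at h' ⊢
  have hre := congrArg Complex.re h'
  have him := congrArg Complex.im h'
  rw [Complex.re_ofReal_mul] at hre
  rw [Complex.im_ofReal_mul] at him
  simp only [Complex.add_re, Complex.ofReal_re, Complex.mul_re, Complex.I_re, zero_mul,
    Complex.ofReal_im, Complex.I_im, mul_zero, sub_zero, add_zero, Complex.add_im,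
    Complex.mul_im, zero_add, one_mul] at hre him
  exact ⟨by rw [hre], by rw [him]⟩

end Pool.Agent.D0H32.RE
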