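import Pool.Agent.D0H32.RE.Tp
import Pool.Agent.D0H32.RE.Vf
import Pool.Agent.D0H32.RE.Near

/-!
# Assembly: the norm of `I - Π` (project RE)
-/

set_option autoImplicit false

open Real Set Filter Topology MeasureTheory
open Complex (I)
open scoped InnerProductSpace

namespace Pool.Agent.D0H32.RE

open Ker (κ κ_pos)

/-- the re-expansion operator on `L²` -/
noncomputable def Pi2 : Lp ℂ 2 hl →L[ℂ] Lp ℂ 2 hl := Ks.F.comp Kc.F

theorem Pi2_apply (g : Lp ℂ 2 hl) : Pi2 g = Ks.F (Kc.F g) := rfl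

theorem F_img (K : Ker) (l : PP →₀ ℂ) : K.F (K.img l) = lin2 memLp_ex l := by
  rw [← K.F_ex, K.F_F]

theorem F_lin (K : Ker) (l : PP →₀ ℂ) : (κ : ℂ) • K.F (lin2 K.hvm l) = lin2 memLp_ex l := by
  rw [← F_img K, Ker.img_apply, map_smul]

theorem κ_ne : (κ : ℂ) ≠ 0 := by exact_mod_cast κ_pos.ne'

/-- `Π* (x/(x²+b²)) = b/(x²+b²)` -/
theorem Pi2_star (l : PP →₀ ℂ) : Kc.F (Ks.F (lin2 Ks.hvm l)) = lin2 Kc.hvm l := by
  have h1 := F_lin Ks l
  have h2 : (κ : ℂ) • Kc.F (Ks.F (lin2 Ks.hvm l)) = (κ : ℂ) • lin2 Kc.hvm l := by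
    rw [← map_smul, h1, Ker.F_ex, Ker.img_apply]
  exact smul_right_injective _ κ_ne h2

theorem memLp2_mul_int (f : Lp ℂ 2 hl) {v : ℝ → ℂ} (hv : MemLp v 2 hl) :
    Integrable (fun x => f x * v x) hl := (Lp.memLp f).integrable_mul hv

theorem inner_single (v : PP → ℝ → ℂ) (hv : ∀ b, MemLp (v b) 2 hl)
    (hr : ∀ b x, (starRingEnd ℂ) (v b x) = v b x) (b : PP) (f : Lp ℂ 2 hl) :
    ⟪lin2 hv (Finsupp.single b 1), f⟫_ℂ = ∫ x, f x * v b x ∂hl := by
  rw [L2.inner_def]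
  apply integral_congr_ae
  filter_upwards [lin2_coe hv (Finsupp.single b 1)] with x hx
  rw [hx, Finsupp.sum_single_index (by simp), one_mul, RCLike.inner_apply, hr]

theorem Pi2_pair (g : Lp ℂ 2 hl) (b : PP) :
    ∫ x, Pi2 g x * e2 b x ∂hl = ∫ x, g x * e1 b x ∂hl := by
  have h1 : ∫ x, Pi2 g x * e2 b x ∂hl = ⟪lin2 Ks.hvm (Finsupp.single b 1), Pi2 g⟫_ℂ :=
    (inner_single e2 memLp2_e2 e2_real b (Pi2 g)).symm
  have h2 : ∫ x, g x * e1 b x ∂hl = ⟪lin2 Kc.hvm (Finsupp.single b 1), g⟫_ℂ :=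
    (inner_single e1 memLp2_e1 e1_real b g).symm
  rw [h1, h2, Pi2_apply, ← Ker.F_symm, ← Ker.F_symm, Pi2_star]

/-- consistency of `T` on `L^p` and `Π` on `L²` -/
theorem T_Pi {p : ℝ} [Fact (1 ≤ ENNReal.ofReal p)] (hp : 1 < p)
    (f : Lp ℂ (ENNReal.ofReal p) hl) (g : Lp ℂ 2 hl) (h : f =ᵐ[hl] g) :
    T hp f =ᵐ[hl] Pi2 g := by
  have h1 : ∀ᵐ x ∂hl, T hp f x - Pi2 g x = 0 := by
    apply total2
    · have := (pair_e2_integrable hp (T hp f) ⟨1, one_pos⟩).sub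
        (memLp2_mul_int (Pi2 g) (memLp2_e2 ⟨1, one_pos⟩))
      refine this.congr (Filter.Eventually.of_forall fun x => ?_)
      simp only [Pi.sub_apply]
      ring
    · intro b
      have h2 : ∫ x, (T hp f x - Pi2 g x) * e2 b x ∂hl =
          ∫ x, T hp f x * e2 b x ∂hl - ∫ x, Pi2 g x * e2 b x ∂hl := by
        rw [← integral_sub (pair_e2_integrable hp (T hp f) b)
          (memLp2_mul_int (Pi2 g) (memLp2_e2 b))]
        congr 1
        funext x
        ring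
      rw [h2, T_pair', Pi2_pair, sub_eq_zero]
      apply integral_congr_ae
      filter_upwards [h] with x hx
      rw [hx]
  filter_upwards [h1] with x hx
  exact sub_eq_zero.1 hx

theorem T_unique {p : ℝ} [Fact (1 ≤ ENNReal.ofReal p)] (hp : 1 < p)
    (T' : Lp ℂ (ENNReal.ofReal p) hl →L[ℂ] Lp ℂ (ENNReal.ofReal p) hl)
    (hT : ∀ (f : Lp ℂ (ENNReal.ofReal p) hl) (g : Lp ℂ 2 hl), f =ᵐ[hl] g → T' f =ᵐ[hl] Pi2 g) :
    T' = T hp := by
  ext1 f
  refine (dense_E1 hp).induction_on f (isClosed_eq (by fun_prop) (by fun_prop)) (fun l => ?_)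
  have h1 : E1 hp l =ᵐ[hl] lin2 memLp2_e1 l := (lin_coe (memLp_e1 hp) l).trans (lin2_coe memLp2_e1 l).symm
  apply Lp.ext
  exact (hT _ _ h1).trans (T_Pi hp _ _ h1).symm

section lower

variable {s α ε : ℝ}

/-- the constant `κ Γ(s) / 2` -/
noncomputable def gam0 (s : ℝ) : ℝ := κ * (Real.Gamma s / 2)

theorem gam0_pos (hs0 : 0 < s) : 0 < gam0 s :=
  mul_pos κ_pos (div_pos (Real.Gamma_pos_of_pos hs0) two_pos)

/-- the test function in `L²` -/
noncomputable def vL (hs0 : 0 < s) (hs1 : s ≤ 1) (hε : 0 < ε) (hε1 : ε < 1) (α : ℝ) : Lp ℂ 2 hl :=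
  (memLp_vf (α := α) hs0 hs1 hε hε1).toLp _

theorem vL_cos (hs0 : 0 < s) (hs1 : s ≤ 1) (hε : 0 < ε) (hε1 : ε < 1) (α : ℝ) :
    Kc.F (vL hs0 hs1 hε hε1 α) =ᵐ[hl] fun x => (gam0 s : ℂ) * fab 1 0 (nf s α ε x) := by
  have hco := (memLp_vf (α := α) hs0 hs1 hε hε1).coeFn_toLp
  have hint : Integrable (vL hs0 hs1 hε hε1 α) hl :=
    (integrable_vf (α := α) hs0 hs1 hε hε1).congr hco.symm
  have h1 := Kc.F_formula (vL hs0 hs1 hε hε1 α) hint
  filter_upwards [h1] with x hx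
  have h2 : Kc.pt (vL hs0 hs1 hε hε1 α) x = Kc.pt (vf s α ε) x := by
    rw [Ker.pt, Ker.pt]
    apply integral_congr_ae
    filter_upwards [hco] with t ht
    rw [vL, ht]
  rw [hx, h2, (vf_transforms x hs0 hs1 hε hε1).1, gam0, fab]
  push_cast
  ring

theorem vL_sin (hs0 : 0 < s) (hs1 : s ≤ 1) (hε : 0 < ε) (hε1 : ε < 1) (α : ℝ) :
    Ks.F (vL hs0 hs1 hε hε1 α) =ᵐ[hl] fun x => (gam0 s : ℂ) * fab 0 1 (nf s α ε x) := by
  have hco := (memLp_vf (α := α) hs0 hs1 hε hε1).coeFn_toLp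
  have hint : Integrable (vL hs0 hs1 hε hε1 α) hl :=
    (integrable_vf (α := α) hs0 hs1 hε hε1).congr hco.symm
  have h1 := Ks.F_formula (vL hs0 hs1 hε hε1 α) hint
  filter_upwards [h1] with x hx
  have h2 : Ks.pt (vL hs0 hs1 hε hε1 α) x = Ks.pt (vf s α ε) x := by
    rw [Ker.pt, Ker.pt]
    apply integral_congr_ae
    filter_upwards [hco] with t ht
    rw [vL, ht]
  rw [hx, h2, (vf_transforms x hs0 hs1 hε hε1).2, gam0, fab]
  push_cast
  ring

theorem vL_Pi (hs0 : 0 < s) (hs1 : s ≤ 1) (hε : 0 < ε) (hε1 : ε < 1) (α : ℝ) :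
    Pi2 (Kc.F (vL hs0 hs1 hε hε1 α)) = Ks.F (vL hs0 hs1 hε hε1 α) := by
  rw [Pi2_apply, Ker.F_F]

/-- the pairing identity for the near extremals -/
theorem nf_pair (hs0 : 0 < s) (hs1 : s ≤ 1) (hε : 0 < ε) (hε1 : ε < 1) (α : ℝ) (b : PP) :
    ∫ x, fab 0 1 (nf s α ε x) * e2 b x ∂hl = ∫ x, fab 1 0 (nf s α ε x) * e1 b x ∂hl := by
  have h := Pi2_pair (Kc.F (vL hs0 hs1 hε hε1 α)) b
  rw [vL_Pi] at h
  have h1 : ∫ x, Ks.F (vL hs0 hs1 hε hε1 α) x * e2 b x ∂hl =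
      (gam0 s : ℂ) * ∫ x, fab 0 1 (nf s α ε x) * e2 b x ∂hl := by
    rw [← integral_const_mul]
    apply integral_congr_ae
    filter_upwards [vL_sin hs0 hs1 hε hε1 α] with x hx
    rw [hx]; ring
  have h2 : ∫ x, Kc.F (vL hs0 hs1 hε hε1 α) x * e1 b x ∂hl =
      (gam0 s : ℂ) * ∫ x, fab 1 0 (nf s α ε x) * e1 b x ∂hl := by
    rw [← integral_const_mul]
    apply integral_congr_ae
    filter_upwards [vL_cos hs0 hs1 hε hε1 α] with x hx
    rw [hx]; ring
  rw [h1, h2] at h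
  have hne : (gam0 s : ℂ) ≠ 0 := by exact_mod_cast (gam0_pos hs0).ne'
  exact mul_left_cancel₀ hne h

/-- `T` on the near extremals -/
theorem T_nf {p : ℝ} [Fact (1 ≤ ENNReal.ofReal p)] (hp : 1 < p)
    (hs0 : 0 < s) (hs1 : s ≤ 1) (hε : 0 < ε) (hε1 : ε < 1) (α : ℝ)
    (FB : Lp ℂ (ENNReal.ofReal p) hl) (hFB : FB =ᵐ[hl] fun x => fab 1 0 (nf s α ε x)) :
    T hp FB =ᵐ[hl] fun x => fab 0 1 (nf s α ε x) := by
  have h1 : ((gam0 s : ℂ) • FB : Lp ℂ (ENNReal.ofReal p) hl) =ᵐ[hl]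
      Kc.F (vL hs0 hs1 hε hε1 α) := by
    filter_upwards [Lp.coeFn_smul (gam0 s : ℂ) FB, hFB, vL_cos hs0 hs1 hε hε1 α] with x e1 e2 e3
    rw [e1, Pi.smul_apply, e2, e3, smul_eq_mul]
  have h2 := T_Pi hp _ _ h1
  rw [vL_Pi, map_smul] at h2
  have hne : (gam0 s : ℂ) ≠ 0 := by exact_mod_cast (gam0_pos hs0).ne'
  filter_upwards [h2, Lp.coeFn_smul (gam0 s : ℂ) (T hp FB), vL_sin hs0 hs1 hε hε1 α] with x e1 e2 e3
  rw [e2, Pi.smul_apply, e3, smul_eq_mul] at e1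
  exact mul_left_cancel₀ hne e1

end lower

theorem fab_sub (z : ℂ) : fab 1 0 z - fab 0 1 z = fab 1 (-1) z := by
  simp only [fab]
  push_cast
  ring

/-- the lower bound, `p ≥ 2` -/
theorem lower_ge {p : ℝ} [Fact (1 ≤ ENNReal.ofReal p)] (hp : 1 < p) (x : ℝ) :
    |Real.cos x - Real.sin x| ^ p + |Real.cos (x + π / p) - Real.sin (x + π / p)| ^ p ≤
      ‖(1 : Lp ℂ (ENNReal.ofReal p) hl →L[ℂ] Lp ℂ (ENNReal.ofReal p) hl) - T hp‖ ^ p *
        (|Real.cos x| ^ p + |Real.cos (x + π / p)| ^ p) := by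
  have hp0 : 0 < p := by linarith
  have h := near (a := 1) (b := 0) (lam := ‖(1 : Lp ℂ (ENNReal.ofReal p) hl →L[ℂ]
    Lp ℂ (ENNReal.ofReal p) hl) - T hp‖) hp (norm_nonneg _) (by
      intro α ε hε hε1 FA FB hFA hFB
      have hs0 : 0 < 1 / p := by positivity
      have hs1 : 1 / p ≤ 1 := by rw [div_le_one hp0]; exact hp.le
      have h1 := T_nf hp hs0 hs1 hε hε1 α FB hFB
      have h2 : FA = ((1 : Lp ℂ (ENNReal.ofReal p) hl →L[ℂ]
          Lp ℂ (ENNReal.ofReal p) hl) - T hp) FB := by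
        rw [_root_.sub_apply, one_apply_eq_self]
        apply Lp.ext
        filter_upwards [hFA, hFB, h1, Lp.coeFn_sub FB (T hp FB)] with x e1 e2 e3 e4
        rw [e1, e4, Pi.sub_apply, e2, e3, fab_sub]
      rw [h2]
      exact ContinuousLinearMap.le_opNorm _ _) x
  simpa using h

/-- the lower bound, dual case -/
theorem lower_dual {p q : ℝ} [Fact (1 ≤ ENNReal.ofReal p)] [Fact (1 ≤ ENNReal.ofReal q)]
    (hpq : p.HolderConjugate q) (x : ℝ) :
    |Real.cos x - Real.sin x| ^ q + |Real.cos (x + π / q) - Real.sin (x + π / q)| ^ q ≤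
      ‖(1 : Lp ℂ (ENNReal.ofReal p) hl →L[ℂ] Lp ℂ (ENNReal.ofReal p) hl) - T hpq.lt‖ ^ q *
        (|Real.sin x| ^ q + |Real.sin (x + π / q)| ^ q) := by
  have hq := hpq.symm.lt
  have hq0 : 0 < q := by linarith
  have h := near (a := 0) (b := 1) (lam := ‖(1 : Lp ℂ (ENNReal.ofReal p) hl →L[ℂ]
    Lp ℂ (ENNReal.ofReal p) hl) - T hpq.lt‖) hq (norm_nonneg _) (by
      intro α ε hε hε1 FA FB hFA hFB
      have hs0 : 0 < 1 / q := by positivity
      have hs1 : 1 / q ≤ 1 := by rw [div_le_one hq0]; exact hq.le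
      -- the sum is the cosine part
      have hGA : (FA + FB : Lp ℂ (ENNReal.ofReal q) hl) =ᵐ[hl]
          fun x => fab 1 0 (nf (1 / q) α ε x) := by
        filter_upwards [Lp.coeFn_add FA FB, hFA, hFB] with x e1 e2 e3
        rw [e1, Pi.add_apply, e2, e3, ← fab_sub]
        ring
      have hgen : ∀ b : PP, pairL hpq FB (gen2 hpq.lt b) = pairL hpq (FA + FB) (gen1 hpq.lt b) := by
        intro b
        rw [pairL_apply, pairL_apply]
        have g1 : ∫ x, gen2 hpq.lt b x * FB x ∂hl =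
            ∫ x, fab 0 1 (nf (1 / q) α ε x) * e2 b x ∂hl := by
          apply integral_congr_ae
          filter_upwards [(memLp_e2 hpq.lt b).coeFn_toLp, hFB] with x u1 u2
          rw [gen2, u1, u2, mul_comm]
        have g2 : ∫ x, gen1 hpq.lt b x * (FA + FB : Lp ℂ (ENNReal.ofReal q) hl) x ∂hl =
            ∫ x, fab 1 0 (nf (1 / q) α ε x) * e1 b x ∂hl := by
          apply integral_congr_ae
          filter_upwards [(memLp_e1 hpq.lt b).coeFn_toLp, hGA] with x u1 u2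
          rw [gen1, u1, u2, mul_comm]
        rw [g1, g2, nf_pair hs0 hs1 hε hε1]
      have hEE : ∀ l : PP →₀ ℂ, pairL hpq FB (E2 hpq.lt l) = pairL hpq (FA + FB) (E1 hpq.lt l) := by
        intro l
        rw [E1_apply, E2_apply, map_finsuppSum, map_finsuppSum]
        apply Finsupp.sum_congr
        intro b _
        rw [map_smul, map_smul, hgen]
      refine norming hpq FA (by positivity) (dense_E1 hpq.lt) (fun l => ?_)
      have h1 : pairL hpq FA (E1 hpq.lt l) =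
          -pairL hpq FB (((1 : Lp ℂ (ENNReal.ofReal p) hl →L[ℂ]
            Lp ℂ (ENNReal.ofReal p) hl) - T hpq.lt) (E1 hpq.lt l)) := by
        rw [_root_.sub_apply, one_apply_eq_self, T_E1, map_sub, hEE,
          pairL_symm hpq (E1 hpq.lt l) FA, pairL_symm hpq (E1 hpq.lt l) FB,
          pairL_symm hpq (E1 hpq.lt l) (FA + FB), map_add]
        ring
      rw [h1, norm_neg, pairL_apply]
      refine le_trans (pair_bound hpq _ _) ?_
      have h2 := ContinuousLinearMap.le_opNorm ((1 : Lp ℂ (ENNReal.ofReal p) hl →L[ℂ]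
        Lp ℂ (ENNReal.ofReal p) hl) - T hpq.lt) (E1 hpq.lt l)
      calc _ ≤ (‖(1 : Lp ℂ (ENNReal.ofReal p) hl →L[ℂ]
            Lp ℂ (ENNReal.ofReal p) hl) - T hpq.lt‖ * ‖E1 hpq.lt l‖) * ‖FB‖ :=
            mul_le_mul_of_nonneg_right h2 (norm_nonneg _)
        _ = _ := by ring) x
  simpa using h

/-- the norm of `I - T` -/
theorem norm_main {p : ℝ} [Fact (1 ≤ ENNReal.ofReal p)] (hp : 1 < p) :
    IsGreatest (range (R (max p (p / (p - 1)))))
      (‖(1 : Lp ℂ (ENNReal.ofReal p) hl →L[ℂ] Lp ℂ (ENNReal.ofReal p) hl) - T hp‖ ^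
        (max p (p / (p - 1)))) := by
  obtain ⟨C, hC, hC0⟩ := exists_const p hp
  have hp1 : 0 < p - 1 := by linarith
  obtain ⟨q, hq⟩ : ∃ q : ℝ, q = max p (p / (p - 1)) := ⟨_, rfl⟩
  have hq1 : 1 < q := by rw [hq]; exact lt_of_lt_of_le hp (le_max_left _ _)
  have hq0 : 0 < q := by linarith
  obtain ⟨N, hN⟩ : ∃ N : ℝ, N = ‖(1 : Lp ℂ (ENNReal.ofReal p) hl →L[ℂ]
    Lp ℂ (ENNReal.ofReal p) hl) - T hp‖ := ⟨_, rfl⟩
  have hN0 : 0 ≤ N := by rw [hN]; exact norm_nonneg _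
  have hup : N ^ q ≤ C := by
    have h1 : N ≤ C ^ (1 / q) := by
      rw [hN]
      apply ContinuousLinearMap.opNorm_le_bound _ (by positivity)
      intro f
      rw [_root_.sub_apply, one_apply_eq_self, hq]
      exact T_norm hp hC hC0.le f
    have h2 := Real.rpow_le_rpow hN0 h1 hq0.le
    rwa [← Real.rpow_mul hC0.le, one_div_mul_cancel hq0.ne', Real.rpow_one] at h2
  have hlow : C ≤ N ^ q := by
    obtain ⟨x, hx⟩ := hC.1
    rw [← hq] at hx
    have hKp := K_pos q x hq1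
    have hR : C * (|Real.cos x| ^ q + |Real.cos (x + π / q)| ^ q) =
        |Real.cos x - Real.sin x| ^ q + |Real.cos (x + π / q) - Real.sin (x + π / q)| ^ q := by
      have : |Real.cos x| ^ q + |Real.cos (x + π / q)| ^ q ≠ 0 := hKp.ne'
      rw [← hx, R, div_mul_cancel₀ _ this]
    have hKp' : 0 < |Real.cos x| ^ q + |Real.cos (x + π / q)| ^ q := hKp
    rcases le_or_gt 2 p with h2 | h2
    · have hqp : q = p := by
        rw [hq]
        apply max_eq_left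
        rw [div_le_iff₀ hp1]
        nlinarith
      have h3 := lower_ge hp x
      rw [← hN, ← hqp] at h3
      rw [← hR] at h3
      exact le_of_mul_le_mul_right h3 hKp'
    · have hqq : q = p / (p - 1) := by
        rw [hq]
        apply max_eq_right
        rw [le_div_iff₀ hp1]
        nlinarith
      have hpq : p.HolderConjugate q := by
        rw [hqq]; exact Real.HolderConjugate.conjExponent hp
      have : Fact (1 ≤ ENNReal.ofReal q) := ⟨by
        rw [ENNReal.one_le_ofReal]; linarith⟩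
      have h3 := lower_dual hpq (π / 2 - x - π / q)
      rw [← hN] at h3
      have e1 : π / 2 - x - π / q + π / q = π / 2 - x := by ring
      have e2 : π / 2 - x - π / q = π / 2 - (x + π / q) := by ring
      rw [e1, e2, Real.cos_pi_div_two_sub, Real.sin_pi_div_two_sub, Real.cos_pi_div_two_sub,
        Real.sin_pi_div_two_sub, abs_sub_comm (Real.sin (x + π / q)),
        abs_sub_comm (Real.sin x)] at h3
      have h4 : C * (|Real.cos x| ^ q + |Real.cos (x + π / q)| ^ q) ≤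
          N ^ q * (|Real.cos x| ^ q + |Real.cos (x + π / q)| ^ q) := by
        rw [hR]; linarith
      exact le_of_mul_le_mul_right h4 hKp'
  rw [← hq, ← hN, le_antisymm hup hlow, hq]
  exact hC

end Pool.Agent.D0H32.RE
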