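import Pool.Agent.D0H32.RE.Data

/-!
# The trigonometrically convex minorant (project RE)
-/

set_option autoImplicit false

open Real Set Filter Topology

namespace Pool.Agent.D0H32.RE

theorem hasDerivAt_zero_of_abs_le {f g : ℝ → ℝ} {x : ℝ} (hg : HasDerivAt g 0 x) (hgx : g x = 0)
    (hle : ∀ y, |f y| ≤ |g y|) : HasDerivAt f 0 x := by
  have hfx : f x = 0 := by
    have := hle x
    rw [hgx, abs_zero] at this
    exact abs_eq_zero.1 (le_antisymm this (abs_nonneg _))
  rw [hasDerivAt_iff_isLittleO] at hg ⊢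
  refine Asymptotics.IsBigO.trans_isLittleO ?_ hg
  apply Asymptotics.IsBigO.of_bound 1
  apply Filter.Eventually.of_forall
  intro y
  simp only [smul_zero, sub_zero, hfx, hgx, Real.norm_eq_abs, one_mul]
  exact hle y

/-- gluing at a first-order touching pair -/
theorem glue {δ δ1 : ℝ → ℝ} {x0 x1 : ℝ} (hδ : ∀ t, HasDerivAt δ (δ1 t) t)
    (z0 : δ x0 = 0) (z0' : δ1 x0 = 0) (z1 : δ x1 = 0) (z1' : δ1 x1 = 0) (t : ℝ) :
    HasDerivAt (fun y => if x0 < y ∧ y < x1 then δ y else 0)
      (if x0 < t ∧ t < x1 then δ1 t else 0) t := by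
  have hle : ∀ y, |(if x0 < y ∧ y < x1 then δ y else 0)| ≤ |δ y| := by
    intro y; split_ifs
    · exact le_rfl
    · rw [abs_zero]; exact abs_nonneg _
  rcases lt_trichotomy t x0 with h | h | h
  · rw [if_neg (fun hh => absurd (hh.1.trans h) (lt_irrefl _))]
    apply (hasDerivAt_const t (0:ℝ)).congr_of_eventuallyEq
    filter_upwards [Iio_mem_nhds h] with y hy
    rw [if_neg (fun hh => absurd (hh.1.trans hy) (lt_irrefl _))]
  · subst h
    rw [if_neg (fun hh => absurd hh.1 (lt_irrefl _))]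
    refine hasDerivAt_zero_of_abs_le ?_ z0 hle
    have := hδ t
    rwa [z0'] at this
  · rcases lt_trichotomy t x1 with h' | h' | h'
    · rw [if_pos ⟨h, h'⟩]
      apply (hδ t).congr_of_eventuallyEq
      filter_upwards [Ioo_mem_nhds h h'] with y hy
      rw [if_pos ⟨hy.1, hy.2⟩]
    · subst h'
      rw [if_neg (fun hh => absurd hh.2 (lt_irrefl _))]
      refine hasDerivAt_zero_of_abs_le ?_ z1 hle
      have := hδ t
      rwa [z1'] at this
    · rw [if_neg (fun hh => absurd (hh.2.trans h') (lt_irrefl _))]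
      apply (hasDerivAt_const t (0:ℝ)).congr_of_eventuallyEq
      filter_upwards [Ioi_mem_nhds h'] with y hy
      rw [if_neg (fun hh => absurd (hh.2.trans hy) (lt_irrefl _))]

/-- continuity of the glued derivative -/
theorem glue_cont {δ1 : ℝ → ℝ} {x0 x1 : ℝ} (hδ1 : Continuous δ1)
    (z0' : δ1 x0 = 0) (z1' : δ1 x1 = 0) (t : ℝ) :
    ContinuousAt (fun y => if x0 < y ∧ y < x1 then δ1 y else 0) t := by
  have hle : ∀ y, |(if x0 < y ∧ y < x1 then δ1 y else 0)| ≤ |δ1 y| := by
    intro y; split_ifs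
    · exact le_rfl
    · rw [abs_zero]; exact abs_nonneg _
  have hz : ∀ s, δ1 s = 0 → ContinuousAt (fun y => if x0 < y ∧ y < x1 then δ1 y else 0) s := by
    intro s hs
    have h1 : (if x0 < s ∧ s < x1 then δ1 s else 0) = 0 := by split_ifs <;> simp [hs]
    rw [ContinuousAt, h1]
    apply squeeze_zero_norm hle
    have := (continuous_abs.comp hδ1).tendsto s
    simp only [Function.comp, hs, abs_zero] at this
    exact this
  rcases lt_trichotomy t x0 with h | h | h
  · apply (continuousAt_const (y := (0:ℝ))).congr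
    filter_upwards [Iio_mem_nhds h] with y hy
    rw [if_neg (fun hh => absurd (hh.1.trans hy) (lt_irrefl _))]
  · exact hz t (h ▸ z0')
  · rcases lt_trichotomy t x1 with h' | h' | h'
    · apply hδ1.continuousAt.congr
      filter_upwards [Ioo_mem_nhds h h'] with y hy
      rw [if_pos ⟨hy.1, hy.2⟩]
    · exact hz t (h' ▸ z1')
    · apply (continuousAt_const (y := (0:ℝ))).congr
      filter_upwards [Ioi_mem_nhds h'] with y hy
      rw [if_neg (fun hh => absurd (hh.2.trans hy) (lt_irrefl _))]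

/-- periodisation of a function supported in `(x0, x1)` -/
noncomputable def per (a : ℝ) (d : ℝ → ℝ) (θ : ℝ) : ℝ := d (θ - ⌊(θ - a) / π⌋ * π)

theorem per_local {a x0 x1 : ℝ} {d : ℝ → ℝ} (h01 : x0 < x1) (ha : a < x0) (ha1 : x1 < a + π)
    (hd0 : ∀ y, y ≤ x0 → d y = 0) (hd1 : ∀ y, x1 ≤ y → d y = 0) (θ0 : ℝ) :
    ∀ᶠ θ in 𝓝 θ0, per a d θ = d (θ - ⌊(θ0 - a) / π⌋ * π) := by
  obtain ⟨n, hn⟩ : ∃ n : ℤ, n = ⌊(θ0 - a) / π⌋ := ⟨_, rfl⟩
  rw [← hn]
  have hπ := pi_pos
  have h1 : (n : ℝ) * π ≤ θ0 - a := by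
    have := Int.floor_le ((θ0 - a) / π)
    rw [← hn, le_div_iff₀ hπ] at this
    exact this
  have h2 : θ0 - a < (n + 1 : ℝ) * π := by
    have := Int.lt_floor_add_one ((θ0 - a) / π)
    rw [← hn, div_lt_iff₀ hπ] at this
    exact this
  have h3 : Ioo (n * π + (x1 - π)) (n * π + a + π) ∈ 𝓝 θ0 := Ioo_mem_nhds (by linarith) (by linarith)
  filter_upwards [h3] with θ hθ
  rw [per]
  rcases le_or_gt (n * π) (θ - a) with h | h
  · have : ⌊(θ - a) / π⌋ = n := by
      rw [Int.floor_eq_iff]
      refine ⟨?_, ?_⟩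
      · rw [le_div_iff₀ hπ]; exact h
      · rw [div_lt_iff₀ hπ]; linarith [hθ.2]
    rw [this]
  · have : ⌊(θ - a) / π⌋ = n - 1 := by
      rw [Int.floor_eq_iff]
      push_cast
      refine ⟨?_, ?_⟩
      · rw [le_div_iff₀ hπ]; linarith [hθ.1]
      · rw [div_lt_iff₀ hπ]; linarith
    rw [this, hd1, hd0]
    · linarith
    · push_cast; linarith [hθ.1]

/-- the trigonometrically convex minorant -/
theorem exists_phi (p : ℝ) (hp : 2 < p) : ∃ c : ℝ, IsGreatest (range (R p)) c ∧ 0 < c ∧
    ∃ φ φ1 : ℝ → ℝ, (∀ θ, HasDerivAt φ (φ1 θ) θ) ∧ Continuous φ1 ∧ (∀ θ, φ (θ + π) = φ θ) ∧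
    (∀ a b, a ≤ b → 0 ≤ φ1 b - φ1 a + p ^ 2 * ∫ t in a..b, φ t) ∧
    (∀ θ, φ θ ≤ c * |cos θ| ^ p - |cos θ - sin θ| ^ p) ∧ 0 ≤ φ1 0 ∧ φ1 (π / 2) ≤ 0 := by
  obtain ⟨c, x0, α, β, hc, hDc, hx0α, hα, hβ, hβx1, hαβ, hmuneg, hmupos, hs0, hs1⟩ :=
    exists_data p hp
  have hD := DD_pos p
  have hc0 : 0 < c := lt_of_lt_of_le hD hDc
  have hp0 : 0 < p := by linarith
  have hpne : p ≠ 0 := hp0.ne'
  have hP0 : 0 < π / p := by positivity
  have hP1 : π / p < π / 2 := by
    apply div_lt_div_of_pos_left pi_pos (by norm_num) hp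
  obtain ⟨x1, hx1⟩ : ∃ x1 : ℝ, x1 = x0 + π / p := ⟨_, rfl⟩
  rw [← hx1] at hβx1 hs0 hs1
  let h : ℝ → ℝ := fun θ => G p c x0 * cos (p * (θ - x0)) + G1 p c x0 / p * sin (p * (θ - x0))
  let h' : ℝ → ℝ := fun θ => -(p * G p c x0 * sin (p * (θ - x0))) + G1 p c x0 * cos (p * (θ - x0))
  have hh : ∀ θ, HasDerivAt h (h' θ) θ := by
    intro θ
    have e0 : HasDerivAt (fun t => p * (t - x0)) p θ := by
      simpa using ((hasDerivAt_id θ).sub_const x0).const_mul p
    have e1 := (e0.cos.const_mul (G p c x0)).add (e0.sin.const_mul (G1 p c x0 / p))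
    refine e1.congr_deriv ?_
    simp only [h']
    field_simp
  have hh' : ∀ θ, HasDerivAt h' (-(p ^ 2 * h θ)) θ := by
    intro θ
    have e0 : HasDerivAt (fun t => p * (t - x0)) p θ := by
      simpa using ((hasDerivAt_id θ).sub_const x0).const_mul p
    have e1 := ((e0.sin.const_mul (p * G p c x0)).neg).add (e0.cos.const_mul (G1 p c x0))
    refine e1.congr_deriv ?_
    simp only [h]
    field_simp
    ring
  let δ : ℝ → ℝ := fun θ => G p c θ - h θ
  let δ1 : ℝ → ℝ := fun θ => G1 p c θ - h' θ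
  have hδ : ∀ θ, HasDerivAt δ (δ1 θ) θ := fun θ => (hasDerivAt_G p c (by linarith) θ).sub (hh θ)
  have hδ1 : ∀ θ, HasDerivAt δ1 (mu p c θ - p ^ 2 * δ θ) θ := by
    intro θ
    refine ((hasDerivAt_G1 p c hp θ).sub (hh' θ)).congr_deriv ?_
    simp only [δ]
    ring
  have hpx1 : p * (x1 - x0) = π := by rw [hx1]; field_simp; ring
  have z0 : δ x0 = 0 := by simp [δ, h]
  have z0' : δ1 x0 = 0 := by simp [δ1, h']
  have z1 : δ x1 = 0 := by
    simp only [δ, h, hpx1, cos_pi, sin_pi]
    linarith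
  have z1' : δ1 x1 = 0 := by
    simp only [δ1, h', hpx1, cos_pi, sin_pi]
    linarith
  have hx01 : x0 < x1 := by rw [hx1]; linarith
  have hmupos' : ∀ θ ∈ Ioo (β - π) α, 0 < mu p c θ := by
    intro θ hθ
    rw [← mu_add_pi]
    exact hmupos _ ⟨by linarith [hθ.1], by linarith [hθ.2]⟩
  have hx0pos : 0 < x0 := by linarith
  have hx1pi : x1 < π := by linarith
  -- `δ ≥ 0` on `[x0, α]`
  have dA : ∀ θ, x0 ≤ θ → θ ≤ α → 0 ≤ δ θ := by
    intro θ h0 h1
    have w := wr_le (p := p) (A := -1) (τ := θ) h0 hδ hδ1 (by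
      intro t ht
      have a1 := sin_mul_neg hp0 (x := t - θ) (by linarith [ht.2]) (by linarith [ht.1])
      have a2 := hmupos' t ⟨by linarith [ht.1], by linarith [ht.2]⟩
      nlinarith [mul_pos (neg_pos.2 a1) a2])
    rw [z0, z0'] at w
    simp only [sub_self, mul_zero, sin_zero, cos_zero, zero_mul] at w
    have : 0 ≤ p * δ θ := by linarith
    exact nonneg_of_mul_nonneg_right this hp0
  have dB : ∀ θ, β ≤ θ → θ ≤ x1 → 0 ≤ δ θ := by
    intro θ h0 h1
    have w := wr_le (p := p) (A := 1) (τ := θ) h1 hδ hδ1 (by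
      intro t ht
      have a1 := sin_mul_pos hp0 (x := t - θ) (by linarith [ht.1]) (by linarith [ht.2])
      have a2 := hmupos t ⟨by linarith [ht.1], by linarith [ht.2]⟩
      nlinarith [mul_pos a1 a2])
    rw [z1, z1'] at w
    simp only [sub_self, mul_zero, sin_zero, cos_zero, zero_mul] at w
    have : 0 ≤ p * δ θ := by linarith
    exact nonneg_of_mul_nonneg_right this hp0
  have dC : ∀ θ, α < θ → θ < β → 0 ≤ δ θ := by
    intro θ h0 h1
    have w1 := wr_le (p := p) (A := -1) (τ := α) h0.le hδ hδ1 (by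
      intro t ht
      have a1 := sin_mul_pos hp0 (x := t - α) (by linarith [ht.1]) (by linarith [ht.2])
      have a2 := hmuneg t ⟨by linarith [ht.1], by linarith [ht.2]⟩
      nlinarith [mul_pos a1 (neg_pos.2 a2)])
    have w2 := wr_le (p := p) (A := 1) (τ := β) h1.le hδ hδ1 (by
      intro t ht
      have a1 := sin_mul_neg hp0 (x := t - β) (by linarith [ht.2]) (by linarith [ht.1])
      have a2 := hmuneg t ⟨by linarith [ht.1], by linarith [ht.2]⟩
      nlinarith [mul_pos (neg_pos.2 a1) (neg_pos.2 a2)])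
    simp only [sub_self, mul_zero, sin_zero, cos_zero, zero_mul] at w1 w2
    have dα := dA α hx0α.le le_rfl
    have dβ := dB β le_rfl hβx1.le
    have s1 := sin_mul_pos hp0 (x := θ - α) (by linarith) (by linarith)
    have s2 := sin_mul_neg hp0 (x := θ - β) (by linarith) (by linarith)
    have s3 := sin_mul_pos hp0 (x := β - α) (by linarith) (by linarith)
    have s4 : sin (p * (β - α)) = sin (p * (θ - α)) * cos (p * (θ - β)) -
        cos (p * (θ - α)) * sin (p * (θ - β)) := by
      rw [← sin_sub]; congr 1; ring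
    -- w1 : sin p(θ-α) δ1 - p cos p(θ-α) δ ≤ -p δ(α)
    have w1' : sin (p * (θ - α)) * δ1 θ - p * cos (p * (θ - α)) * δ θ ≤ 0 := by nlinarith
    have w2' : sin (p * (θ - β)) * δ1 θ - p * cos (p * (θ - β)) * δ θ ≤ 0 := by nlinarith
    have w3 := mul_nonneg_of_nonpos_of_nonpos w1' s2.le
    have w4 := mul_nonpos_of_nonpos_of_nonneg w2' s1.le
    have : 0 ≤ p * sin (p * (β - α)) * δ θ := by
      rw [s4]; linarith
    exact nonneg_of_mul_nonneg_right this (mul_pos hp0 s3)
  have dD : ∀ θ, x0 ≤ θ → θ ≤ x1 → 0 ≤ δ θ := by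
    intro θ h0 h1
    rcases le_or_gt θ α with h2 | h2
    · exact dA θ h0 h2
    · rcases le_or_gt β θ with h3 | h3
      · exact dB θ h3 h1
      · exact dC θ h2 h3
  have dE : ∀ θ, x1 ≤ θ → θ ≤ x1 + π / p → θ ≤ α + π → 0 ≤ δ θ := by
    intro θ h0 h1 h2
    have w := wr_le (p := p) (A := -1) (τ := θ) h0 hδ hδ1 (by
      intro t ht
      have a1 := sin_mul_neg hp0 (x := t - θ) (by linarith [ht.2]) (by linarith [ht.1])
      have a2 := hmupos t ⟨by linarith [ht.1], by linarith [ht.2]⟩
      nlinarith [mul_pos (neg_pos.2 a1) a2])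
    rw [z1, z1'] at w
    simp only [sub_self, mul_zero, sin_zero, cos_zero, zero_mul] at w
    have : 0 ≤ p * δ θ := by linarith
    exact nonneg_of_mul_nonneg_right this hp0
  -- `h' (π/2) ≤ 0`
  have hslope : h' (π / 2) ≤ 0 := by
    have e1 : 0 ≤ δ (π - x0) := by
      rcases le_or_gt (π - x0) x1 with h2 | h2
      · exact dD _ (by linarith) h2
      · exact dE _ h2.le (by linarith) (by linarith)
    have e2 : G p c (π - x0) ≤ G p c x0 := by
      rw [G_eq, G_eq, cos_pi_sub, sin_pi_sub, abs_neg]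
      have c1 : 0 ≤ cos x0 := cos_nonneg_of_mem_Icc ⟨by linarith, by linarith⟩
      have c2 : 0 ≤ sin x0 := sin_nonneg_of_mem_Icc ⟨by linarith, by linarith⟩
      have c3 : |cos x0 - sin x0| ≤ |-cos x0 - sin x0| := by
        rw [← sq_le_sq]
        nlinarith [mul_nonneg c1 c2]
      have := Real.rpow_le_rpow (abs_nonneg _) c3 hp0.le
      linarith
    have e3 : h (π - x0) ≤ h x0 := by
      have t1 : h (π - x0) ≤ G p c (π - x0) := by
        simp only [δ] at e1; linarith
      have t2 : h x0 = G p c x0 := by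
        simp only [δ] at z0; linarith
      linarith
    obtain ⟨s, hs⟩ : ∃ s : ℝ, s = π / 2 - x0 := ⟨_, rfl⟩
    have e4 : h (π - x0) - h x0 = 2 * (h' (π / 2) / p) * sin (p * s) := by
      have u1 : p * (π - x0 - x0) = p * s + p * s := by rw [hs]; ring
      have u2 : p * (π / 2 - x0) = p * s := by rw [hs]
      simp only [h, h', sub_self, mul_zero, cos_zero, sin_zero]
      rw [u1, u2, sin_add, cos_add]
      have := Real.sin_sq_add_cos_sq (p * s)
      field_simp
      linear_combination (p * G p c x0) * this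
    have e5 := sin_mul_pos hp0 (x := s) (by linarith) (by linarith)
    by_contra hcon
    push Not at hcon
    have : 0 < 2 * (h' (π / 2) / p) * sin (p * s) := by positivity
    linarith
  -- the glued function
  obtain ⟨a, ha⟩ : ∃ a : ℝ, a = (x0 + x1) / 2 - π / 2 := ⟨_, rfl⟩
  have ha0 : a < x0 := by linarith
  have ha1 : x1 < a + π := by linarith
  let d : ℝ → ℝ := fun y => if x0 < y ∧ y < x1 then δ y else 0
  let d1 : ℝ → ℝ := fun y => if x0 < y ∧ y < x1 then δ1 y else 0
  have hd : ∀ t, HasDerivAt d (d1 t) t := fun t => glue hδ z0 z0' z1 z1' t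
  have hδ1c : Continuous δ1 := continuous_iff_continuousAt.2 fun t => (hδ1 t).continuousAt
  have hd1c : ∀ t, ContinuousAt d1 t := fun t => glue_cont hδ1c z0' z1' t
  have hdl : ∀ y, y ≤ x0 → d y = 0 := fun y hy => if_neg (fun hh => absurd hh.1 (not_lt.2 hy))
  have hdr : ∀ y, x1 ≤ y → d y = 0 := fun y hy => if_neg (fun hh => absurd hh.2 (not_lt.2 hy))
  have hdl1 : ∀ y, y ≤ x0 → d1 y = 0 := fun y hy => if_neg (fun hh => absurd hh.1 (not_lt.2 hy))
  have hdr1 : ∀ y, x1 ≤ y → d1 y = 0 := fun y hy => if_neg (fun hh => absurd hh.2 (not_lt.2 hy))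
  have hd0 : ∀ y, 0 ≤ d y := by
    intro y
    simp only [d]
    split_ifs with hy
    · exact dD y hy.1.le hy.2.le
    · exact le_rfl
  let φ : ℝ → ℝ := fun θ => G p c θ - per a d θ
  let φ1 : ℝ → ℝ := fun θ => G1 p c θ - per a d1 θ
  have hφ : ∀ θ, HasDerivAt φ (φ1 θ) θ := by
    intro θ
    have e1 := per_local hx01 ha0 ha1 hdl hdr θ
    have e2 : per a d1 θ = d1 (θ - ⌊(θ - a) / π⌋ * π) := rfl
    have e3 := (hd (θ - ⌊(θ - a) / π⌋ * π)).comp_sub_const θ (⌊(θ - a) / π⌋ * π)
    exact (hasDerivAt_G p c (by linarith) θ).sub (e3.congr_of_eventuallyEq e1)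
  have hφ1c : Continuous φ1 := by
    rw [continuous_iff_continuousAt]
    intro θ
    have e1 := per_local hx01 ha0 ha1 hdl1 hdr1 θ
    have e3 : ContinuousAt (fun t => d1 (t - ⌊(θ - a) / π⌋ * π)) θ :=
      ContinuousAt.comp (f := fun t => t - ⌊(θ - a) / π⌋ * π) (hd1c _) (by fun_prop)
    exact (hasDerivAt_G1 p c hp θ).continuousAt.sub (e3.congr (e1.mono fun _ h => h.symm))
  have hφc : Continuous φ := continuous_iff_continuousAt.2 fun t => (hφ t).continuousAt
  have hwin : ∀ θ : ℝ, a ≤ θ - ⌊(θ - a) / π⌋ * π ∧ θ - ⌊(θ - a) / π⌋ * π < a + π := by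
    intro θ
    have t1 := Int.floor_le ((θ - a) / π)
    rw [le_div_iff₀ pi_pos] at t1
    have t2 := Int.lt_floor_add_one ((θ - a) / π)
    rw [div_lt_iff₀ pi_pos] at t2
    constructor <;> linarith
  have hmuint : ∀ (n : ℤ) (y : ℝ), mu p c (y - n * π) = mu p c y := fun n y =>
    (show Function.Periodic (mu p c) π from mu_add_pi p c).sub_int_mul_eq n
  have hGint : ∀ (n : ℤ) (y : ℝ), G p c (y - n * π) = G p c y := fun n y =>
    (show Function.Periodic (G p c) π from G_add_pi p c).sub_int_mul_eq n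
  -- right derivative of `φ1`
  have hright : ∀ θ, ∃ ν, 0 ≤ ν ∧ HasDerivWithinAt φ1 (ν - p ^ 2 * φ θ) (Ici θ) θ := by
    intro θ
    obtain ⟨y, hy⟩ : ∃ y : ℝ, y = θ - ⌊(θ - a) / π⌋ * π := ⟨_, rfl⟩
    obtain ⟨hw0, hw1⟩ := hwin θ
    rw [← hy] at hw0 hw1
    have hG1 := (hasDerivAt_G1 p c hp θ).hasDerivWithinAt (s := Ici θ)
    have e1 := (per_local hx01 ha0 ha1 hdl1 hdr1 θ).filter_mono (nhdsWithin_le_nhds (s := Ici θ))
    have e0 : per a d θ = d y := by rw [per, ← hy]
    have e01 : per a d1 θ = d1 y := by rw [per, ← hy]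
    have hm : mu p c y = mu p c θ := by rw [hy]; exact hmuint _ _
    have hg : G p c y = G p c θ := by rw [hy]; exact hGint _ _
    by_cases hcase : x0 ≤ y ∧ y < x1
    · refine ⟨0, le_rfl, ?_⟩
      have e3 := (hδ1 y)
      rw [hy] at e3
      have e4 := (e3.comp_sub_const θ (⌊(θ - a) / π⌋ * π)).hasDerivWithinAt (s := Ici θ)
      rw [← hy] at e4
      have hval : d y = δ y := by
        simp only [d]
        split_ifs with hh
        · rfl
        · have : y = x0 := by
            by_contra hne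
            exact hh ⟨lt_of_le_of_ne hcase.1 (Ne.symm hne), hcase.2⟩
          rw [this, z0]
      have hval1 : d1 y = δ1 y := by
        simp only [d1]
        split_ifs with hh
        · rfl
        · have : y = x0 := by
            by_contra hne
            exact hh ⟨lt_of_le_of_ne hcase.1 (Ne.symm hne), hcase.2⟩
          rw [this, z0']
      have e5 : HasDerivWithinAt (per a d1) (mu p c y - p ^ 2 * δ y) (Ici θ) θ := by
        refine e4.congr_of_eventuallyEq ?_ ?_
        · have hnear : ∀ᶠ t in 𝓝[Ici θ] θ, t - ⌊(θ - a) / π⌋ * π < x1 := by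
            apply Filter.Eventually.filter_mono nhdsWithin_le_nhds
            have : Iio (x1 + ⌊(θ - a) / π⌋ * π) ∈ 𝓝 θ := Iio_mem_nhds (by linarith [hcase.2])
            filter_upwards [this] with t ht
            have : t < x1 + ⌊(θ - a) / π⌋ * π := ht
            linarith
          filter_upwards [e1, hnear, self_mem_nhdsWithin] with t ht1 ht2 ht3
          rw [ht1]
          have ht3' : θ ≤ t := ht3
          simp only [d1]
          split_ifs with hh
          · rfl
          · have : t - ⌊(θ - a) / π⌋ * π = x0 := by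
              by_contra hne
              apply hh
              refine ⟨lt_of_le_of_ne ?_ (Ne.symm hne), ht2⟩
              linarith [hcase.1]
            rw [this, z0']
        · rw [e01, hval1, hy]
      refine (hG1.sub e5).congr_deriv ?_
      simp only [φ]
      rw [e0, hval, hm]
      ring
    · refine ⟨mu p c θ, ?_, ?_⟩
      · rw [← hm]
        rcases lt_or_ge y x0 with h5 | h5
        · exact (hmupos' y ⟨by linarith, by linarith⟩).le
        · have h6 : x1 ≤ y := by
            by_contra h7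
            exact hcase ⟨h5, not_le.1 h7⟩
          exact (hmupos y ⟨by linarith, by linarith⟩).le
      · have hzero : ∀ᶠ t in 𝓝[Ici θ] θ, per a d1 t = 0 := by
          rcases lt_or_ge y x0 with h5 | h5
          · have : Iio (x0 + ⌊(θ - a) / π⌋ * π) ∈ 𝓝 θ := Iio_mem_nhds (by linarith)
            filter_upwards [e1, nhdsWithin_le_nhds this] with t ht1 ht2
            have : t < x0 + ⌊(θ - a) / π⌋ * π := ht2
            rw [ht1, hdl1]
            linarith
          · have h6 : x1 ≤ y := by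
              by_contra h7
              exact hcase ⟨h5, not_le.1 h7⟩
            filter_upwards [e1, self_mem_nhdsWithin] with t ht1 ht2
            have : θ ≤ t := ht2
            rw [ht1, hdr1]
            linarith
        have hval : d y = 0 := by
          rcases lt_or_ge y x0 with h5 | h5
          · exact hdl y h5.le
          · have h6 : x1 ≤ y := by
              by_contra h7
              exact hcase ⟨h5, not_le.1 h7⟩
            exact hdr y h6
        have hval1 : d1 y = 0 := by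
          rcases lt_or_ge y x0 with h5 | h5
          · exact hdl1 y h5.le
          · have h6 : x1 ≤ y := by
              by_contra h7
              exact hcase ⟨h5, not_le.1 h7⟩
            exact hdr1 y h6
        have e5 : HasDerivWithinAt (per a d1) 0 (Ici θ) θ := by
          refine (hasDerivWithinAt_const θ (Ici θ) (0:ℝ)).congr_of_eventuallyEq hzero ?_
          rw [e01, hval1]
        refine (hG1.sub e5).congr_deriv ?_
        simp only [φ]
        rw [e0, hval]
        ring
  refine ⟨c, hc, hc0, φ, φ1, hφ, hφ1c, ?_, ?_, ?_, ?_, ?_⟩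
  · intro θ
    simp only [φ]
    rw [G_add_pi]
    have : per a d (θ + π) = per a d θ := by
      rw [per, per]
      have e1 : (θ + π - a) / π = (θ - a) / π + 1 := by
        field_simp
        ring
      rw [e1, Int.floor_add_one]
      push_cast
      congr 1
      ring
    rw [this]
  · intro u v huv
    have hint : ∀ x y : ℝ, IntervalIntegrable φ MeasureTheory.volume x y :=
      fun x y => hφc.intervalIntegrable x y
    let N : ℝ → ℝ := fun θ => φ1 θ + p ^ 2 * ∫ t in u..θ, φ t
    have hN : ∀ x, HasDerivAt (fun θ => p ^ 2 * ∫ t in u..θ, φ t) (p ^ 2 * φ x) x := fun x =>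
      (intervalIntegral.integral_hasDerivAt_right (hint u x)
        (hφc.stronglyMeasurableAtFilter _ _) hφc.continuousAt).const_mul _
    have hNc : Continuous N :=
      hφ1c.add (continuous_iff_continuousAt.2 fun x => (hN x).continuousAt)
    choose ν hν0 hν using hright
    have hNd : ∀ x, HasDerivWithinAt N (ν x) (Ici x) x := by
      intro x
      refine ((hν x).add (hN x).hasDerivWithinAt).congr_deriv ?_
      ring
    have := image_le_of_deriv_right_le_deriv_boundary (f := fun _ => N u) (f' := fun _ => 0)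
      (a := u) (b := v) continuousOn_const (fun x _ => hasDerivWithinAt_const _ _ _)
      (B := N) (B' := ν) le_rfl hNc.continuousOn (fun x _ => hNd x) (fun x _ => hν0 x)
      (right_mem_Icc.2 huv)
    simp only [N, intervalIntegral.integral_same, mul_zero, add_zero] at this
    linarith
  · intro θ
    rw [← G_eq]
    simp only [φ]
    have : 0 ≤ per a d θ := hd0 _
    linarith
  · simp only [φ1]
    have e1 : per a d1 0 = 0 := by
      rw [per]
      obtain ⟨n, hn⟩ : ∃ n : ℤ, n = ⌊((0:ℝ) - a) / π⌋ := ⟨_, rfl⟩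
      rw [← hn]
      simp only [d1]
      rw [if_neg]
      rintro ⟨t1, t2⟩
      have t3 : 0 < (0:ℝ) - n * π := by linarith
      have t4 : (0:ℝ) - n * π < π := by linarith
      have t5 : (n:ℝ) < 0 := by
        by_contra hcon
        push Not at hcon
        nlinarith [pi_pos, mul_nonneg hcon pi_pos.le]
      have t6 : (-1:ℝ) < n := by
        by_contra hcon
        push Not at hcon
        nlinarith [pi_pos]
      have t7 : n < 0 := by exact_mod_cast t5
      have t8 : -1 < n := by exact_mod_cast t6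
      omega
    rw [e1, sub_zero, G1, k1, k1, zero_add, cos_pi_div_four, sin_pi_div_four, sin_zero]
    have : 0 ≤ DD p * (p * (|√2 / 2| ^ (p - 2) * (√2 / 2)) * (√2 / 2)) := by positivity
    linarith
  · simp only [φ1]
    have e1 : per a d1 (π / 2) = δ1 (π / 2) := by
      rw [per]
      have : ⌊(π / 2 - a) / π⌋ = 0 := by
        rw [Int.floor_eq_zero_iff]
        refine ⟨div_nonneg (by linarith) pi_pos.le, ?_⟩
        rw [div_lt_one pi_pos]
        linarith
      rw [this]
      simp only [Int.cast_zero, zero_mul, sub_zero, d1]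
      rw [if_pos ⟨by linarith, by linarith⟩]
    rw [e1]
    simp only [δ1]
    linarith

end Pool.Agent.D0H32.RE
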