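import Pool.Agent.D0H32.RE.Trig

/-!
# The extremal constant and the touching data (project RE)
-/

set_option autoImplicit false

open Real Set Filter Topology

namespace Pool.Agent.D0H32.RE

/-- the Hollenbeck–Kalton–Verbitsky quotient -/
noncomputable def R (q x : ℝ) : ℝ :=
  (|cos x - sin x| ^ q + |cos (x + π / q) - sin (x + π / q)| ^ q) /
    (|cos x| ^ q + |cos (x + π / q)| ^ q)

/-- `2 ^ (q/2)` -/
noncomputable def DD (q : ℝ) : ℝ := (2 : ℝ) ^ (q / 2)

theorem DD_pos (q : ℝ) : 0 < DD q := Real.rpow_pos_of_pos (by norm_num) _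

theorem abs_sub_rpow (q θ : ℝ) : |cos θ - sin θ| ^ q = DD q * k q (θ + π / 4) := by
  have h1 : cos (θ + π / 4) = (cos θ - sin θ) * (√2 / 2) := by
    rw [cos_add, cos_pi_div_four, sin_pi_div_four]; ring
  have h2 : (0:ℝ) < √2 / 2 := by positivity
  rw [k, h1, abs_mul, abs_of_pos h2, Real.mul_rpow (abs_nonneg _) h2.le]
  have h3 : DD q * (√2 / 2) ^ q = 1 := by
    have h4 : DD q = √2 ^ q := by
      rw [DD, Real.sqrt_eq_rpow, ← Real.rpow_mul (by norm_num)]
      congr 1; ring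
    rw [h4, ← Real.mul_rpow (by positivity) h2.le]
    have h5 : √2 * (√2 / 2) = 1 := by
      have := Real.mul_self_sqrt (show (0:ℝ) ≤ 2 by norm_num)
      linarith
    rw [h5, Real.one_rpow]
  linear_combination (-|cos θ - sin θ| ^ q) * h3

theorem continuous_k (q : ℝ) (hq : 0 < q) : Continuous (k q) :=
  (continuous_abs.comp continuous_cos).rpow_const (fun _ => Or.inr hq.le)

theorem k_nonneg (q θ : ℝ) : 0 ≤ k q θ := Real.rpow_nonneg (abs_nonneg _) _

/-- `K x = k x + k (x + π / q)` -/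
noncomputable def K (q x : ℝ) : ℝ := k q x + k q (x + π / q)

theorem K_pos (q x : ℝ) (hq : 1 < q) : 0 < K q x := by
  have h1 := k_nonneg q x
  have h2 := k_nonneg q (x + π / q)
  rcases eq_or_ne (cos x) 0 with h | h
  · have h3 : cos (x + π / q) ≠ 0 := by
      rw [cos_add, h]
      have h4 : 0 < sin (π / q) := by
        apply sin_pos_of_pos_of_lt_pi (by positivity)
        rw [div_lt_iff₀ (by linarith)]
        nlinarith [pi_pos]
      have h5 : sin x ≠ 0 := by
        intro h5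
        have := Real.sin_sq_add_cos_sq x
        rw [h, h5] at this
        norm_num at this
      simp only [zero_mul, zero_sub, neg_ne_zero]
      exact mul_ne_zero h5 h4.ne'
    have : 0 < k q (x + π / q) := Real.rpow_pos_of_pos (abs_pos.2 h3) _
    unfold K; linarith
  · have : 0 < k q x := Real.rpow_pos_of_pos (abs_pos.2 h) _
    unfold K; linarith

theorem R_eq (q x : ℝ) : R q x = DD q * K q (x + π / 4) / K q x := by
  rw [R, abs_sub_rpow, abs_sub_rpow]
  have h1 : x + π / q + π / 4 = x + π / 4 + π / q := by ring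
  rw [h1, ← mul_add]
  rfl

theorem continuous_K (q : ℝ) (hq : 0 < q) : Continuous (K q) :=
  (continuous_k q hq).add ((continuous_k q hq).comp (continuous_add_const _))

theorem continuous_R (q : ℝ) (hq : 1 < q) : Continuous (R q) := by
  have h : R q = fun x => DD q * K q (x + π / 4) / K q x := funext (R_eq q)
  rw [h]
  exact (continuous_const.mul ((continuous_K q (by linarith)).comp (continuous_add_const _))).div
    (continuous_K q (by linarith)) (fun x => (K_pos q x hq).ne')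

theorem K_add_pi (q x : ℝ) : K q (x + π) = K q x := by
  have h1 : x + π + π / q = (x + π / q) + π := by ring
  rw [K, K, k_add_pi, h1, k_add_pi]

theorem R_add_pi (q x : ℝ) : R q (x + π) = R q x := by
  have h1 : x + π + π / 4 = (x + π / 4) + π := by ring
  rw [R_eq, R_eq, h1, K_add_pi, K_add_pi]

/-- existence of the maximum -/
theorem exists_max (q : ℝ) (hq : 1 < q) :
    ∃ x, ∀ y, R q y ≤ R q x := by
  obtain ⟨x, -, hx⟩ := isCompact_Icc.exists_isMaxOn (s := Icc 0 π) ⟨0, by simp [pi_pos.le]⟩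
    (continuous_R q hq).continuousOn
  refine ⟨x, fun y => ?_⟩
  have hper : Function.Periodic (R q) π := R_add_pi q
  obtain ⟨z, hz, hyz⟩ := hper.exists_mem_Ico₀ pi_pos y
  rw [hyz]
  exact hx ⟨hz.1, hz.2.le⟩

/-- the maximal value is at least `2 ^ (q/2)` -/
theorem DD_le_max (q c : ℝ) (hq : 1 < q) (hc : ∀ y, R q y ≤ c) : DD q ≤ c := by
  obtain ⟨x, -, hx⟩ := isCompact_Icc.exists_isMaxOn (s := Icc 0 π) ⟨0, by simp [pi_pos.le]⟩
    (continuous_K q (by linarith)).continuousOn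
  have hper : Function.Periodic (K q) π := K_add_pi q
  have hx' : ∀ y, K q y ≤ K q x := by
    intro y
    obtain ⟨z, hz, hyz⟩ := hper.exists_mem_Ico₀ pi_pos y
    rw [hyz]
    exact hx ⟨hz.1, hz.2.le⟩
  have h1 := hc (x - π / 4)
  rw [R_eq] at h1
  have h2 : x - π / 4 + π / 4 = x := by ring
  rw [h2] at h1
  refine le_trans ?_ h1
  rw [le_div_iff₀ (K_pos q _ hq)]
  exact mul_le_mul_of_nonneg_left (hx' _) (DD_pos q).le

/-- `G θ = c |cos θ|^p - |cos θ - sin θ|^p` -/
noncomputable def G (p c θ : ℝ) : ℝ := c * k p θ - DD p * k p (θ + π / 4)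

noncomputable def G1 (p c θ : ℝ) : ℝ := c * k1 p θ - DD p * k1 p (θ + π / 4)

noncomputable def mu (p c θ : ℝ) : ℝ :=
  p * (p - 1) * (c * |cos θ| ^ (p - 2) - DD p * |cos (θ + π / 4)| ^ (p - 2))

theorem G_eq (p c θ : ℝ) : G p c θ = c * |cos θ| ^ p - |cos θ - sin θ| ^ p := by
  rw [abs_sub_rpow]; rfl

theorem hasDerivAt_G (p c : ℝ) (hp : 1 < p) (θ : ℝ) : HasDerivAt (G p c) (G1 p c θ) θ := by
  have h1 := (hasDerivAt_k p hp θ).const_mul c
  have h2 := ((hasDerivAt_k p hp (θ + π / 4)).comp_add_const θ (π / 4)).const_mul (DD p)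
  exact h1.sub h2

theorem hasDerivAt_G1 (p c : ℝ) (hp : 2 < p) (θ : ℝ) :
    HasDerivAt (G1 p c) (mu p c θ - p ^ 2 * G p c θ) θ := by
  have h1 := (hasDerivAt_k1 p hp θ).const_mul c
  have h2 := ((hasDerivAt_k1 p hp (θ + π / 4)).comp_add_const θ (π / 4)).const_mul (DD p)
  refine (h1.sub h2).congr_deriv ?_
  simp only [mu, G]
  ring

theorem k1_add_pi (p θ : ℝ) : k1 p (θ + π) = k1 p θ := by
  simp only [k1, cos_add_pi, sin_add_pi, abs_neg]; ring

theorem G_add_pi (p c θ : ℝ) : G p c (θ + π) = G p c θ := by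
  have h1 : θ + π + π / 4 = (θ + π / 4) + π := by ring
  rw [G, G, k_add_pi, h1, k_add_pi]

theorem G1_add_pi (p c θ : ℝ) : G1 p c (θ + π) = G1 p c θ := by
  have h1 : θ + π + π / 4 = (θ + π / 4) + π := by ring
  rw [G1, G1, k1_add_pi, h1, k1_add_pi]

theorem mu_add_pi (p c θ : ℝ) : mu p c (θ + π) = mu p c θ := by
  have h1 : θ + π + π / 4 = (θ + π / 4) + π := by ring
  rw [mu, mu, h1, cos_add_pi, cos_add_pi, abs_neg, abs_neg]

/-- sign of `mu` -/
theorem mu_sign (p c : ℝ) (hp : 2 < p) (hc : DD p ≤ c) (θ : ℝ) :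
    (0 < (c / DD p) ^ (2 / (p - 2)) - 1 + (c / DD p) ^ (2 / (p - 2)) * cos (2 * θ) + sin (2 * θ) →
      0 < mu p c θ) ∧
    ((c / DD p) ^ (2 / (p - 2)) - 1 + (c / DD p) ^ (2 / (p - 2)) * cos (2 * θ) + sin (2 * θ) < 0 →
      mu p c θ < 0) := by
  have hD := DD_pos p
  have hc0 : 0 < c := lt_of_lt_of_le hD hc
  obtain ⟨e, he⟩ : ∃ e : ℝ, e = (c / DD p) ^ (2 / (p - 2)) := ⟨_, rfl⟩
  rw [← he]
  have he0 : 0 < e := by rw [he]; exact Real.rpow_pos_of_pos (div_pos hc0 hD) _
  have hc' : c = DD p * e ^ ((p - 2) / 2) := by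
    rw [he, ← Real.rpow_mul (div_pos hc0 hD).le]
    have : 2 / (p - 2) * ((p - 2) / 2) = 1 := by
      have : p - 2 ≠ 0 := by linarith
      field_simp
    rw [this, Real.rpow_one]
    field_simp
  have habs : ∀ y : ℝ, |y| ^ (p - 2) = (y ^ 2) ^ ((p - 2) / 2) := by
    intro y
    rw [← sq_abs, ← Real.rpow_natCast, ← Real.rpow_mul (abs_nonneg y)]
    congr 1
    push_cast
    ring
  have hid : e - 1 + e * cos (2 * θ) + sin (2 * θ) = 2 * (e * cos θ ^ 2 - cos (θ + π / 4) ^ 2) := by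
    rw [cos_two_mul, sin_two_mul, cos_add, cos_pi_div_four, sin_pi_div_four]
    have h2 := Real.sq_sqrt (show (0:ℝ) ≤ 2 by norm_num)
    have h3 := Real.sin_sq_add_cos_sq θ
    ring_nf
    ring_nf at h2
    rw [h2]
    linear_combination h3
  have hmu : mu p c θ = p * (p - 1) * DD p * ((e * cos θ ^ 2) ^ ((p - 2) / 2) -
      (cos (θ + π / 4) ^ 2) ^ ((p - 2) / 2)) := by
    rw [mu, habs, habs, Real.mul_rpow he0.le (sq_nonneg _)]
    nth_rewrite 1 [hc']
    ring
  have hpos : 0 < p * (p - 1) * DD p := by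
    apply mul_pos _ hD
    nlinarith
  rw [hid, hmu]
  constructor
  · intro h
    apply mul_pos hpos
    have := Real.rpow_lt_rpow (sq_nonneg _) (show cos (θ + π / 4) ^ 2 < e * cos θ ^ 2 by linarith)
      (show 0 < (p - 2) / 2 by linarith)
    linarith
  · intro h
    apply mul_neg_of_pos_of_neg hpos
    have := Real.rpow_lt_rpow (by positivity)
      (show e * cos θ ^ 2 < cos (θ + π / 4) ^ 2 by linarith)
      (show 0 < (p - 2) / 2 by linarith)
    linarith

end Pool.Agent.D0H32.RE
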