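import Pool.Agent.D0H32.RE.Asym

/-!
# The explicit near extremal functions: pointwise facts (project RE)
-/

set_option autoImplicit false

open Real Set Filter Topology MeasureTheory
open Complex (I)

namespace Pool.Agent.D0H32.RE

/-- `(1/r)^s` -/
noncomputable def pw (s : ℝ) (r : ℂ) : ℂ := (1 / r) ^ (s : ℂ)

theorem norm_pw (s : ℝ) (r : ℂ) : ‖pw s r‖ = (1 / ‖r‖) ^ s := by
  rw [pw, Complex.norm_cpow_real, norm_div, norm_one]

theorem norm_pw_le_one {s : ℝ} (hs : 0 ≤ s) {r : ℂ} (hr : 1 ≤ ‖r‖) : ‖pw s r‖ ≤ 1 := by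
  rw [norm_pw]
  apply Real.rpow_le_one (by positivity) _ hs
  rw [div_le_one (by linarith)]
  exact hr

theorem pw_eq {s : ℝ} {r : ℂ} (hr : 0 < r.re) : pw s r = r ^ (-(s:ℂ)) := by
  rw [pw, one_div, Complex.inv_cpow, Complex.cpow_neg]
  have : r ∈ Complex.slitPlane := Or.inl hr
  exact (Complex.mem_slitPlane_iff_arg.1 this).1

theorem abs_im_le_norm' (τ y : ℝ) : |y| ≤ ‖((τ : ℂ) - y * I)‖ := by
  have := Complex.abs_im_le_norm ((τ : ℂ) - y * I)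
  simpa using this

/-- the difference bound -/
theorem pw_diff {s ε y : ℝ} (hs0 : 0 < s) (hs1 : s ≤ 1) (hε : 0 < ε) (hε1 : ε < 1) (hy : y ≠ 0) :
    ‖pw s ((ε : ℂ) - y * I) - pw s ((1 : ℂ) - y * I)‖ ≤ (1 / |y|) ^ s * (1 / |y|) := by
  have hy0 : 0 < |y| := abs_pos.2 hy
  have hd : ∀ τ ∈ Icc ε 1, HasDerivWithinAt (fun τ : ℝ => ((τ : ℂ) - y * I) ^ (-(s:ℂ)))
      (-(s:ℂ) * ((τ : ℂ) - y * I) ^ (-(s:ℂ) - 1) * 1) (Icc ε 1) τ := by
    intro τ hτ
    have hτ0 : 0 < τ := lt_of_lt_of_le hε hτ.1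
    have h1 : HasDerivAt (fun τ : ℝ => ((τ : ℂ) - y * I)) 1 τ :=
      ((Complex.ofRealCLM.hasDerivAt (x := τ)).sub_const _).congr_deriv (by simp)
    have h2 : ((τ : ℂ) - y * I) ∈ Complex.slitPlane := Or.inl (by simpa using hτ0)
    have h3 : HasDerivAt (fun z : ℂ => z ^ (-(s:ℂ))) (-(s:ℂ) * ((τ : ℂ) - y * I) ^ (-(s:ℂ) - 1))
        ((τ : ℂ) - y * I) := by
      have := (hasDerivAt_id ((τ : ℂ) - y * I)).cpow_const (c := -(s:ℂ)) h2
      simpa using this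
    have h4 := h3.comp_of_eq τ h1 rfl
    exact h4.hasDerivWithinAt
  have hb : ∀ τ ∈ Icc ε 1, ‖(-(s:ℂ) * ((τ : ℂ) - y * I) ^ (-(s:ℂ) - 1) * 1)‖ ≤
      (1 / |y|) ^ s * (1 / |y|) := by
    intro τ hτ
    have h1 : (-(s:ℂ) - 1) = ((-s - 1 : ℝ) : ℂ) := by push_cast; ring
    rw [mul_one, norm_mul, h1, Complex.norm_cpow_real, norm_neg, Complex.norm_real,
      Real.norm_eq_abs, abs_of_pos hs0]
    have h2 := abs_im_le_norm' τ y
    have h3 : ‖((τ : ℂ) - y * I)‖ ^ (-s - 1) ≤ |y| ^ (-s - 1) :=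
      Real.rpow_le_rpow_of_nonpos hy0 h2 (by linarith)
    have h4 : |y| ^ (-s - 1) = (1 / |y|) ^ s * (1 / |y|) := by
      rw [Real.rpow_sub hy0, Real.rpow_one, Real.rpow_neg hy0.le, one_div, Real.inv_rpow hy0.le]
      rfl
    rw [← h4]
    have h5 : 0 ≤ ‖((τ : ℂ) - y * I)‖ ^ (-s - 1) := Real.rpow_nonneg (norm_nonneg _) _
    calc s * ‖((τ : ℂ) - y * I)‖ ^ (-s - 1) ≤ 1 * ‖((τ : ℂ) - y * I)‖ ^ (-s - 1) :=
          mul_le_mul_of_nonneg_right hs1 h5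
      _ ≤ _ := by rw [one_mul]; exact h3
  have h := (convex_Icc ε 1).norm_image_sub_le_of_norm_hasDerivWithin_le hd hb
    (right_mem_Icc.2 hε1.le) (left_mem_Icc.2 hε1.le)
  have e1 : pw s ((ε : ℂ) - y * I) = ((ε : ℂ) - y * I) ^ (-(s:ℂ)) := pw_eq (by simpa using hε)
  have e2 : pw s ((1 : ℂ) - y * I) = (((1:ℝ) : ℂ) - y * I) ^ (-(s:ℂ)) := by
    rw [Complex.ofReal_one]; exact pw_eq (by simp)
  rw [e1, e2]
  refine le_trans h ?_
  have h5 : ‖ε - 1‖ ≤ 1 := by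
    rw [Real.norm_eq_abs, abs_le]; constructor <;> linarith
  calc (1 / |y|) ^ s * (1 / |y|) * ‖ε - 1‖ ≤ (1 / |y|) ^ s * (1 / |y|) * 1 := by
        apply mul_le_mul_of_nonneg_left h5; positivity
    _ = _ := mul_one _

/-- the near extremal function -/
noncomputable def nf (s α ε x : ℝ) : ℂ :=
  Complex.exp (α * I) * (pw s ((ε : ℂ) - (x - 1 : ℝ) * I) - pw s ((1 : ℂ) - (x - 1 : ℝ) * I)) +
  Complex.exp (-(α * I)) * (pw s ((ε : ℂ) - (x + 1 : ℝ) * I) - pw s ((1 : ℂ) - (x + 1 : ℝ) * I))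

/-- the singular part -/
noncomputable def nh0 (s α ε y : ℝ) : ℂ := Complex.exp (α * I) * pw s ((ε : ℂ) - y * I)

open Classical in
noncomputable def nh (s α ε x : ℝ) : ℂ := if |x - 1| ≤ 1 / 2 then nh0 s α ε (x - 1) else 0

noncomputable def nk (s α ε x : ℝ) : ℂ := nf s α ε x - nh s α ε x

theorem norm_exp_I (α : ℝ) : ‖Complex.exp (α * I)‖ = 1 := Complex.norm_exp_ofReal_mul_I α

theorem norm_exp_I' (α : ℝ) : ‖Complex.exp (-(α * I))‖ = 1 := by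
  have := Complex.norm_exp_ofReal_mul_I (-α)
  rwa [Complex.ofReal_neg, neg_mul] at this

/-- uniform bound of the regular part -/
theorem norm_nk_le {s α ε x : ℝ} (hs0 : 0 < s) (hs1 : s ≤ 1) (hε : 0 < ε) (hε1 : ε < 1)
    (hx : 0 < x) : ‖nk s α ε x‖ ≤ 12 / (1 + x) := by
  have hxp : 0 < x + 1 := by linarith
  rw [nk, nf, nh]
  split_ifs with h
  · rw [abs_le] at h
    have e : Complex.exp (α * I) * (pw s ((ε : ℂ) - (x - 1 : ℝ) * I) -
        pw s ((1 : ℂ) - (x - 1 : ℝ) * I)) + Complex.exp (-(α * I)) *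
        (pw s ((ε : ℂ) - (x + 1 : ℝ) * I) - pw s ((1 : ℂ) - (x + 1 : ℝ) * I)) -
        nh0 s α ε (x - 1) = -(Complex.exp (α * I) * pw s ((1 : ℂ) - (x - 1 : ℝ) * I)) +
        Complex.exp (-(α * I)) * pw s ((ε : ℂ) - (x + 1 : ℝ) * I) -
        Complex.exp (-(α * I)) * pw s ((1 : ℂ) - (x + 1 : ℝ) * I) := by
      rw [nh0]; ring
    rw [e]
    have b1 : ‖pw s ((1 : ℂ) - (x - 1 : ℝ) * I)‖ ≤ 1 := by
      apply norm_pw_le_one hs0.le
      have := Complex.abs_re_le_norm ((1 : ℂ) - (x - 1 : ℝ) * I)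
      simpa using this
    have b2 : ‖pw s ((ε : ℂ) - (x + 1 : ℝ) * I)‖ ≤ 1 := by
      apply norm_pw_le_one hs0.le
      refine le_trans ?_ (abs_im_le_norm' ε (x + 1))
      rw [abs_of_pos hxp]; linarith
    have b3 : ‖pw s ((1 : ℂ) - (x + 1 : ℝ) * I)‖ ≤ 1 := by
      apply norm_pw_le_one hs0.le
      have := abs_im_le_norm' 1 (x + 1)
      rw [abs_of_pos hxp, Complex.ofReal_one] at this
      linarith
    refine le_trans (norm_sub_le _ _) ?_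
    refine le_trans (add_le_add (norm_add_le _ _) le_rfl) ?_
    rw [norm_neg, norm_mul, norm_mul, norm_mul, norm_exp_I, norm_exp_I', one_mul, one_mul, one_mul]
    have : 3 ≤ 12 / (1 + x) := by
      rw [le_div_iff₀ (by linarith)]; linarith [h.2]
    linarith
  · rw [not_le] at h
    have hy : x - 1 ≠ 0 := by
      intro h0; rw [h0, abs_zero] at h; linarith
    have hy0 : 0 < |x - 1| := abs_pos.2 hy
    rw [sub_zero]
    refine le_trans (norm_add_le _ _) ?_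
    rw [norm_mul, norm_mul, norm_exp_I, norm_exp_I', one_mul, one_mul]
    have d1 := pw_diff hs0 hs1 hε hε1 hy
    have d2 := pw_diff hs0 hs1 hε hε1 hxp.ne'
    have c1 : (1 / |x - 1|) ^ s ≤ 2 := by
      have h1 : 1 / |x - 1| ≤ 2 := by rw [div_le_iff₀ hy0]; linarith
      calc (1 / |x - 1|) ^ s ≤ 2 ^ s := Real.rpow_le_rpow (by positivity) h1 hs0.le
        _ ≤ 2 ^ (1:ℝ) := Real.rpow_le_rpow_of_exponent_le (by norm_num) hs1
        _ = 2 := Real.rpow_one 2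
    have c2 : (1 / |x + 1|) ^ s ≤ 1 := by
      apply Real.rpow_le_one (by positivity) _ hs0.le
      rw [abs_of_pos hxp, div_le_one hxp]; linarith
    have c3 : 1 / |x - 1| ≤ 5 / (1 + x) := by
      rw [div_le_div_iff₀ hy0 (by linarith)]
      rcases lt_abs.1 h with h2 | h2
      · rw [abs_of_pos (by linarith)]; linarith
      · rw [abs_of_neg (by linarith)]; linarith
    have c4 : 1 / |x + 1| ≤ 1 / (1 + x) := by
      rw [abs_of_pos hxp, add_comm]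
    have hq : 0 ≤ 5 / (1 + x) := by positivity
    have t1 : (1 / |x - 1|) ^ s * (1 / |x - 1|) ≤ 2 * (5 / (1 + x)) :=
      mul_le_mul c1 c3 (by positivity) (by norm_num)
    have t2 : (1 / |x + 1|) ^ s * (1 / |x + 1|) ≤ 1 * (1 / (1 + x)) :=
      mul_le_mul c2 c4 (by positivity) (by norm_num)
    have t3 : 2 * (5 / (1 + x)) + 1 * (1 / (1 + x)) ≤ 12 / (1 + x) := by
      rw [one_mul, ← mul_div_assoc, ← add_div]
      gcongr
      norm_num
    linarith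

theorem nh0_scaled {s α ε z : ℝ} (hε : 0 < ε) :
    nh0 s α ε (ε * z) = (((1 / (ε * ‖(1 + z * I : ℂ)‖)) ^ s : ℝ) : ℂ) *
      Complex.exp (((α + s * ang z : ℝ) : ℂ) * I) := by
  have hz := norm_pos' z
  have hz0 : (1 + z * I : ℂ) ≠ 0 := norm_pos_iff.1 hz
  have h1 : 1 / ((ε : ℂ) - ((ε * z : ℝ) : ℂ) * I) =
      ((1 / (ε * ‖(1 + z * I : ℂ)‖ ^ 2) : ℝ) : ℂ) * (1 + z * I) := by
    have h2 : ((‖(1 + z * I : ℂ)‖ ^ 2 : ℝ) : ℂ) = (1 + z * I) * (1 - z * I) := by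
      rw [← Complex.normSq_eq_norm_sq, ← Complex.mul_conj]
      congr 1
      simp [sub_eq_add_neg]
    have h3 : (1 - z * I : ℂ) ≠ 0 := by
      intro h0
      have := congrArg Complex.re h0
      simp at this
    have hεc : (ε : ℂ) ≠ 0 := by exact_mod_cast hε.ne'
    have h4 : ((1 / (ε * ‖(1 + z * I : ℂ)‖ ^ 2) : ℝ) : ℂ) =
        1 / ((ε : ℂ) * ((1 + z * I) * (1 - z * I))) := by
      rw [← h2]; push_cast; rfl
    rw [h4]
    have h5 : (ε : ℂ) - ((ε * z : ℝ) : ℂ) * I = ε * (1 - z * I) := by push_cast; ring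
    rw [h5]
    field_simp
  have hpos : 0 < 1 / (ε * ‖(1 + z * I : ℂ)‖ ^ 2) := by positivity
  have hne : ((1 / (ε * ‖(1 + z * I : ℂ)‖ ^ 2) : ℝ) : ℂ) * (1 + z * I) ≠ 0 :=
    mul_ne_zero (by exact_mod_cast hpos.ne') hz0
  rw [nh0, pw, h1, Complex.cpow_def_of_ne_zero hne, ← Complex.exp_add]
  have hlog : Complex.log (((1 / (ε * ‖(1 + z * I : ℂ)‖ ^ 2) : ℝ) : ℂ) * (1 + z * I)) =
      ((Real.log (1 / (ε * ‖(1 + z * I : ℂ)‖)) : ℝ) : ℂ) + (ang z : ℂ) * I := by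
    rw [Complex.log, norm_mul, Complex.norm_real, Real.norm_eq_abs, abs_of_pos hpos,
      Complex.arg_real_mul _ hpos]
    have : 1 / (ε * ‖(1 + z * I : ℂ)‖ ^ 2) * ‖(1 + z * I : ℂ)‖ = 1 / (ε * ‖(1 + z * I : ℂ)‖) := by
      field_simp
    rw [this]
    rfl
  rw [hlog, Real.rpow_def_of_pos (by positivity), Complex.ofReal_exp, ← Complex.exp_add]
  congr 1
  push_cast
  ring

end Pool.Agent.D0H32.RE
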