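import Pool.Agent.D0H32.RE.Cls

/-!
# The subharmonic inequality for the rational class (project RE)
-/

set_option autoImplicit false

open Real Set Filter Topology MeasureTheory
open Complex (I)

namespace Pool.Agent.D0H32.RE

/-- the angular function `p φ - i φ'` -/
noncomputable def Ps (p : ℝ) (φ φ1 : ℝ → ℝ) (θ : ℝ) : ℂ := (p * φ θ : ℝ) - I * (φ1 θ : ℝ)

/-- the transformed angular function in direction with logarithmic derivative `l` -/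
noncomputable def Pd (p : ℝ) (φ φ1 φ2 : ℝ → ℝ) (l : ℂ) (θ : ℝ) : ℂ :=
  Ps p φ φ1 θ * (((p * l.re : ℝ) : ℂ) - (1 : ℕ) * l) + Ps p φ1 φ2 θ * (l.im : ℂ)

section

variable {p B : ℝ} {φ φ1 φ2 : ℝ → ℝ} {s : Finset ℝ} {c : ℝ → ℝ}

theorem norm_Ps_le {p B : ℝ} {φ φ1 : ℝ → ℝ} (hp : 0 ≤ p) (h0 : ∀ θ, |φ θ| ≤ B)
    (h1 : ∀ θ, |φ1 θ| ≤ B) (θ : ℝ) : ‖Ps p φ φ1 θ‖ ≤ (p + 1) * B := by
  refine le_trans (norm_sub_le _ _) ?_
  rw [norm_mul, Complex.norm_I, Complex.norm_real, Complex.norm_real, Real.norm_eq_abs,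
    Real.norm_eq_abs, abs_mul, abs_of_nonneg hp]
  nlinarith [h0 θ, h1 θ]

/-- the field -/
noncomputable def VV (p : ℝ) (φ φ1 : ℝ → ℝ) (s : Finset ℝ) (c : ℝ → ℝ) (ω : ℂ) : ℂ :=
  Y p 1 (Ps p φ φ1) (F0 s c ω) * F1 s c ω * Complex.exp ω

/-- directional derivative of the field -/
noncomputable def VD (p : ℝ) (φ φ1 φ2 : ℝ → ℝ) (s : Finset ℝ) (c : ℝ → ℝ) (d ω : ℂ) : ℂ :=
  Y p 1 (Pd p φ φ1 φ2 (d * F1 s c ω / F0 s c ω)) (F0 s c ω) * F1 s c ω * Complex.exp ω +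
    Y p 1 (Ps p φ φ1) (F0 s c ω) * (d * F2 s c ω) * Complex.exp ω +
    Y p 1 (Ps p φ φ1) (F0 s c ω) * F1 s c ω * (Complex.exp ω * d)

theorem hasDerivAt_Ps (hφ : ∀ θ, HasDerivAt φ (φ1 θ) θ) (hφ1 : ∀ θ, HasDerivAt φ1 (φ2 θ) θ)
    (θ : ℝ) : HasDerivAt (Ps p φ φ1) (Ps p φ1 φ2 θ) θ := by
  have h1 := ((hφ θ).const_mul p).ofReal_comp
  have h2 := ((hφ1 θ).ofReal_comp).const_mul I
  exact h1.sub h2

theorem hasDerivAt_VV (hp : 2 < p) (hφ : ∀ θ, HasDerivAt φ (φ1 θ) θ)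
    (hφ1 : ∀ θ, HasDerivAt φ1 (φ2 θ) θ) (per0 : ∀ θ, φ (θ + π) = φ θ)
    (per1 : ∀ θ, φ1 (θ + π) = φ1 θ)
    (B0 : ∀ θ, |φ θ| ≤ B) (B1 : ∀ θ, |φ1 θ| ≤ B)
    (hs : ∀ b ∈ s, 0 < b) {ω : ℝ → ℂ} {d : ℂ} {u : ℝ}
    (hω : HasDerivAt ω d u) (hu : ω u ∈ strip) :
    HasDerivAt (fun v => VV p φ φ1 s c (ω v)) (VD p φ φ1 φ2 s c d (ω u)) u := by
  have hper : ∀ θ, Ps p φ φ1 (θ + 2 * π) = Ps p φ φ1 θ := by
    intro θ
    have e : θ + 2 * π = θ + π + π := by ring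
    rw [Ps, Ps, e, per0, per0, per1, per1]
  have h0 := hasDerivAt_F0 (c := c) hs hω hu
  have h1 := hasDerivAt_F1 (c := c) hs hω hu
  have h2 := hω.cexp
  have h3 := hasDerivAt_Y (p := p) (m := 1) (by push_cast; linarith) hper
    (hasDerivAt_Ps hφ hφ1) (norm_Ps_le (by linarith) B0 B1) h0
  have h3' : HasDerivAt (fun v => Y p 1 (Ps p φ φ1) (F0 s c (ω v)))
      (Y p 1 (Pd p φ φ1 φ2 (d * F1 s c (ω u) / F0 s c (ω u))) (F0 s c (ω u))) u := h3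
  refine ((h3'.mul h1).mul h2).congr_deriv ?_
  simp only [VD, Pi.mul_apply]
  ring

/-- bound of `Y` on the class -/
theorem norm_Y_cls {Φ : ℝ → ℂ} {B' : ℝ} (hp : 2 ≤ p) (hB : ∀ θ, ‖Φ θ‖ ≤ B')
    (hs : ∀ b ∈ s, 0 < b) {ω : ℂ} (hω : ω ∈ strip) :
    ‖Y p 1 Φ (F0 s c ω)‖ ≤ B' * (KK s c / (1 + Real.exp ω.re)) ^ (p - 1) := by
  have hB0 : 0 ≤ B' := le_trans (norm_nonneg _) (hB 0)
  have hK := KK_nonneg s c hs
  have h1 := norm_F0_le (c := c) hs hω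
  by_cases h0 : F0 s c ω = 0
  · rw [h0, Y_zero p (by linarith), norm_zero]
    positivity
  · refine le_trans (norm_Y_le p 1 Φ hB h0) ?_
    apply mul_le_mul_of_nonneg_left _ hB0
    push_cast
    exact Real.rpow_le_rpow (norm_nonneg _) h1 (by linarith)

theorem norm_VV_le (hp : 2 ≤ p) (B0 : ∀ θ, |φ θ| ≤ B) (B1 : ∀ θ, |φ1 θ| ≤ B)
    (hs : ∀ b ∈ s, 0 < b) {ω : ℂ} (hω : ω ∈ strip) :
    ‖VV p φ φ1 s c ω‖ ≤ (p + 1) * B * (KK s c / (1 + Real.exp ω.re)) ^ p * Real.exp ω.re := by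
  have hB0 : 0 ≤ B := le_trans (abs_nonneg _) (B0 0)
  have hK := KK_nonneg s c hs
  rw [VV, norm_mul, norm_mul, Complex.norm_exp]
  apply mul_le_mul_of_nonneg_right _ (Real.exp_pos _).le
  have h1 := norm_Y_cls (c := c) hp (norm_Ps_le (p := p) (by linarith) B0 B1) hs hω
  have h2 := norm_F1_le (c := c) hs hω
  refine le_trans (mul_le_mul h1 h2 (norm_nonneg _) (by positivity)) (le_of_eq ?_)
  have h3 : (KK s c / (1 + Real.exp ω.re)) ^ p =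
      (KK s c / (1 + Real.exp ω.re)) ^ (p - 1) * (KK s c / (1 + Real.exp ω.re)) := by
    rcases eq_or_lt_of_le (show 0 ≤ KK s c / (1 + Real.exp ω.re) by positivity) with h | h
    · rw [← h, Real.zero_rpow (by linarith), mul_zero]
    · rw [← Real.rpow_add_one h.ne']
      congr 1; ring
  rw [h3]; ring

theorem norm_VD_le (hp : 2 ≤ p) (B0 : ∀ θ, |φ θ| ≤ B) (B1 : ∀ θ, |φ1 θ| ≤ B)
    (B2 : ∀ θ, |φ2 θ| ≤ B)
    (hs : ∀ b ∈ s, 0 < b) {ω d : ℂ} (hω : ω ∈ strip) (hd : ‖d‖ ≤ 1) :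
    ‖VD p φ φ1 φ2 s c d ω‖ ≤
      (p + 5) * (p + 1) * B * (KK s c / (1 + Real.exp ω.re)) ^ p * Real.exp ω.re := by
  have hB0 : 0 ≤ B := le_trans (abs_nonneg _) (B0 0)
  have hK := KK_nonneg s c hs
  obtain ⟨q, hq⟩ : ∃ q : ℝ, q = KK s c / (1 + Real.exp ω.re) := ⟨_, rfl⟩
  have hq0 : 0 ≤ q := by rw [hq]; positivity
  have hF0 := norm_F0_le (c := c) hs hω
  have hF1 := norm_F1_le (c := c) hs hω
  have hF2 := norm_F2_le (c := c) hs hω
  rw [← hq] at hF0 hF1 hF2 ⊢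
  have hY := norm_Y_cls (c := c) hp (norm_Ps_le (p := p) (by linarith) B0 B1) hs hω
  rw [← hq] at hY
  have hqp : q ^ p = q ^ (p - 1) * q := by
    rcases eq_or_lt_of_le hq0 with h | h
    · rw [← h, Real.zero_rpow (by linarith), mul_zero]
    · rw [← Real.rpow_add_one h.ne']
      congr 1; ring
  have hqp1 : 0 ≤ q ^ (p - 1) := Real.rpow_nonneg hq0 _
  -- first term
  have hY1 : ‖Y p 1 (Pd p φ φ1 φ2 (d * F1 s c ω / F0 s c ω)) (F0 s c ω)‖ ≤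
      (p + 2) * ((p + 1) * B) * q ^ (p - 1) := by
    by_cases h0 : F0 s c ω = 0
    · rw [h0, Y_zero p (by linarith), norm_zero]
      positivity
    · obtain ⟨l, hl⟩ : ∃ l : ℂ, l = d * F1 s c ω / F0 s c ω := ⟨_, rfl⟩
      rw [← hl]
      have hPd : ∀ θ, ‖Pd p φ φ1 φ2 l θ‖ ≤ (p + 2) * ((p + 1) * B) * ‖l‖ := by
        intro θ
        have a1 := norm_Ps_le (p := p) (by linarith) B0 B1 θ
        have a2 := norm_Ps_le (p := p) (by linarith) B1 B2 θ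
        have a3 : ‖(((p * l.re : ℝ) : ℂ) - (1 : ℕ) * l)‖ ≤ (p + 1) * ‖l‖ := by
          refine le_trans (norm_sub_le _ _) ?_
          rw [Complex.norm_real, Real.norm_eq_abs, abs_mul, abs_of_nonneg (by linarith : 0 ≤ p)]
          have := Complex.abs_re_le_norm l
          push_cast
          rw [one_mul]
          nlinarith
        have a4 : ‖((l.im : ℝ) : ℂ)‖ ≤ ‖l‖ := by
          rw [Complex.norm_real]; exact Complex.abs_im_le_norm l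
        rw [Pd]
        refine le_trans (norm_add_le _ _) ?_
        rw [norm_mul, norm_mul]
        have a5 := mul_le_mul a1 a3 (norm_nonneg _) (by positivity)
        have a6 := mul_le_mul a2 a4 (norm_nonneg _) (by positivity)
        calc _ ≤ (p + 1) * B * ((p + 1) * ‖l‖) + (p + 1) * B * ‖l‖ := add_le_add a5 a6
          _ = _ := by ring
      refine le_trans (norm_Y_le p 1 _ hPd h0) ?_
      have hF0' : 0 < ‖F0 s c ω‖ := norm_pos_iff.2 h0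
      have hl' : ‖l‖ ≤ ‖F1 s c ω‖ / ‖F0 s c ω‖ := by
        rw [hl, norm_div, norm_mul]
        apply div_le_div_of_nonneg_right _ hF0'.le
        calc ‖d‖ * ‖F1 s c ω‖ ≤ 1 * ‖F1 s c ω‖ := mul_le_mul_of_nonneg_right hd (norm_nonneg _)
          _ = _ := one_mul _
      have e1 : ‖F0 s c ω‖ ^ (p - (1:ℕ)) = ‖F0 s c ω‖ ^ (p - 2) * ‖F0 s c ω‖ := by
        rw [← Real.rpow_add_one hF0'.ne']
        congr 1; push_cast; ring
      have e2 : ‖F0 s c ω‖ ^ (p - 2) ≤ q ^ (p - 2) :=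
        Real.rpow_le_rpow (norm_nonneg _) hF0 (by linarith)
      have hq' : 0 < q := lt_of_lt_of_le hF0' hF0
      have e3 : q ^ (p - 1) = q ^ (p - 2) * q := by
        rw [← Real.rpow_add_one hq'.ne']
        congr 1; ring
      calc (p + 2) * ((p + 1) * B) * ‖l‖ * ‖F0 s c ω‖ ^ (p - (1:ℕ))
          ≤ (p + 2) * ((p + 1) * B) * (‖F1 s c ω‖ / ‖F0 s c ω‖) * ‖F0 s c ω‖ ^ (p - (1:ℕ)) := by
            gcongr
        _ = (p + 2) * ((p + 1) * B) * (‖F0 s c ω‖ ^ (p - 2) * ‖F1 s c ω‖) := by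
            rw [e1]; field_simp
        _ ≤ (p + 2) * ((p + 1) * B) * (q ^ (p - 2) * q) := by
            gcongr
        _ = _ := by rw [e3]
  have hdF2 : ‖d * F2 s c ω‖ ≤ q := by
    rw [norm_mul]
    calc ‖d‖ * ‖F2 s c ω‖ ≤ 1 * q := mul_le_mul hd hF2 (norm_nonneg _) zero_le_one
      _ = q := one_mul _
  have he : 0 ≤ Real.exp ω.re := (Real.exp_pos _).le
  rw [VD]
  refine le_trans (norm_add₃_le) ?_
  have t1 : ‖Y p 1 (Pd p φ φ1 φ2 (d * F1 s c ω / F0 s c ω)) (F0 s c ω) * F1 s c ω *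
      Complex.exp ω‖ ≤ (p + 2) * ((p + 1) * B) * q ^ p * Real.exp ω.re := by
    rw [norm_mul, norm_mul, Complex.norm_exp, hqp]
    apply mul_le_mul_of_nonneg_right _ he
    calc _ ≤ (p + 2) * ((p + 1) * B) * q ^ (p - 1) * q :=
          mul_le_mul hY1 hF1 (norm_nonneg _) (by positivity)
      _ = _ := by ring
  have t2 : ‖Y p 1 (Ps p φ φ1) (F0 s c ω) * (d * F2 s c ω) * Complex.exp ω‖ ≤
      (p + 1) * B * q ^ p * Real.exp ω.re := by
    rw [norm_mul, norm_mul, Complex.norm_exp, hqp]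
    apply mul_le_mul_of_nonneg_right _ he
    calc _ ≤ (p + 1) * B * q ^ (p - 1) * q :=
          mul_le_mul hY hdF2 (norm_nonneg _) (by positivity)
      _ = _ := by ring
  have t3 : ‖Y p 1 (Ps p φ φ1) (F0 s c ω) * F1 s c ω * (Complex.exp ω * d)‖ ≤
      (p + 1) * B * q ^ p * Real.exp ω.re := by
    rw [norm_mul, norm_mul, norm_mul, Complex.norm_exp, hqp]
    have a1 : ‖Y p 1 (Ps p φ φ1) (F0 s c ω)‖ * ‖F1 s c ω‖ ≤ (p + 1) * B * q ^ (p - 1) * q :=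
      mul_le_mul hY hF1 (norm_nonneg _) (by positivity)
    have a2 : Real.exp ω.re * ‖d‖ ≤ Real.exp ω.re := by
      calc Real.exp ω.re * ‖d‖ ≤ Real.exp ω.re * 1 := mul_le_mul_of_nonneg_left hd he
        _ = _ := mul_one _
    calc _ ≤ (p + 1) * B * q ^ (p - 1) * q * Real.exp ω.re :=
          mul_le_mul a1 a2 (by positivity) (by positivity)
      _ = _ := by ring
  have hq2 : 0 ≤ B * q ^ p * Real.exp ω.re := by positivity
  nlinarith

theorem VD_pos (hpos : ∀ θ, 0 ≤ φ2 θ + p ^ 2 * φ θ) {ω : ℂ} (hω : ω ∈ strip) :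
    0 ≤ (VD p φ φ1 φ2 s c I ω - I * VD p φ φ1 φ2 s c 1 ω).re := by
  obtain ⟨w, hw⟩ : ∃ w : ℂ, w = F0 s c ω := ⟨_, rfl⟩
  obtain ⟨v, hv⟩ : ∃ v : ℂ, v = F1 s c ω := ⟨_, rfl⟩
  have hid : VD p φ φ1 φ2 s c I ω - I * VD p φ φ1 φ2 s c 1 ω =
      (((‖w‖ ^ p * (φ2 w.arg + p ^ 2 * φ w.arg) * ‖v / w‖ ^ 2 : ℝ)) : ℂ) *
        (-I * Complex.exp ω) := by
    simp only [VD]
    rw [← hw, ← hv]
    by_cases h0 : w = 0
    · simp [h0, Y, Real.rpow_def_of_nonneg]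
    · obtain ⟨l, hl⟩ : ∃ l : ℂ, l = v / w := ⟨_, rfl⟩
      have hv' : v = l * w := by rw [hl]; field_simp
      have e1 : I * v / w = I * l := by rw [hl]; ring
      have e2 : 1 * v / w = l := by rw [hl]; ring
      rw [e1, e2, ← hl]
      have hnorm : ((‖l‖ ^ 2 : ℝ) : ℂ) = l * (starRingEnd ℂ) l := by
        rw [Complex.mul_conj, Complex.normSq_eq_norm_sq]
      have hre : (l.re : ℂ) = (l + (starRingEnd ℂ) l) / 2 := Complex.re_eq_add_conj l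
      have him : (l.im : ℂ) = (l - (starRingEnd ℂ) l) / (2 * I) := Complex.im_eq_sub_conj l
      have e3 : (I * l).re = -l.im := by simp
      have e4 : (I * l).im = l.re := by simp
      simp only [Y, Pd, Ps, pow_one, e3, e4]
      push_cast at hnorm ⊢
      rw [hnorm, hre, him, hv']
      have hI : I ^ 2 = -1 := Complex.I_sq
      field_simp
      ring_nf
      simp only [hI, show I ^ 3 = -I by rw [pow_succ, hI]; ring]
      ring
  rw [hid, Complex.re_ofReal_mul]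
  have h1 : 0 ≤ (-I * Complex.exp ω).re := by
    simp only [neg_mul, Complex.neg_re, Complex.mul_re, Complex.I_re, Complex.I_im, zero_mul,
      one_mul, zero_sub, neg_neg, Complex.exp_im]
    exact mul_nonneg (Real.exp_pos _).le
      (Real.sin_nonneg_of_nonneg_of_le_pi hω.1 (by linarith [hω.2, pi_pos]))
  have h2 := hpos w.arg
  positivity

end

end Pool.Agent.D0H32.RE
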