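import Pool.Agent.D0H32.RE.Gen

/-!
# Density and totality of the two classes (project RE)
-/

set_option autoImplicit false

open Real Set Filter Topology MeasureTheory

namespace Pool.Agent.D0H32.RE

/-- the divided coefficients -/
noncomputable def dv (l : PP →₀ ℂ) : PP →₀ ℂ :=
  ⟨l.support, fun b => l b / (b.1 : ℂ), by
    intro b
    have hb : ((b.1 : ℝ) : ℂ) ≠ 0 := by exact_mod_cast b.2.ne'
    simp [hb]⟩

theorem dv_e1 (l : PP →₀ ℂ) (x : ℝ) : (dv l).sum (fun b a => a * e1 b x) =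
    l.sum (fun b a => a * ((1 / (x ^ 2 + b.1 ^ 2) : ℝ) : ℂ)) := by
  simp only [Finsupp.sum, dv]
  apply Finset.sum_congr rfl
  intro b _
  have hb : ((b.1 : ℝ) : ℂ) ≠ 0 := by exact_mod_cast b.2.ne'
  simp only [e1, Finsupp.coe_mk]
  push_cast
  field_simp

theorem sum_e2' (l : PP →₀ ℂ) (x : ℝ) : l.sum (fun b a => a * e2 b x) =
    x * l.sum (fun b a => a * ((1 / (x ^ 2 + b.1 ^ 2) : ℝ) : ℂ)) := by
  rw [Finsupp.sum, Finsupp.sum, Finset.mul_sum]
  apply Finset.sum_congr rfl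
  intro b _
  simp only [e2]
  push_cast
  ring

instance : (hl : Measure ℝ).Regular := inferInstance

theorem dense_E1 {p : ℝ} [Fact (1 ≤ ENNReal.ofReal p)] (hp : 1 < p) : DenseRange (E1 hp) := by
  intro g
  rw [Metric.mem_closure_iff]
  intro ε hε
  have hε2 : ENNReal.ofReal (ε / 2) ≠ 0 := by simp [hε]
  obtain ⟨ψ, hsupp, hψe, hψc, hψm⟩ := (Lp.memLp g).exists_hasCompactSupport_eLpNorm_sub_le
    ENNReal.ofReal_ne_top hε2
  obtain ⟨S, hS⟩ : ∃ S : ℝ, S = ‖(memLp_e1 hp ⟨1, one_pos⟩).toLp (e1 ⟨1, one_pos⟩)‖ := ⟨_, rfl⟩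
  have hS0 : 0 ≤ S := by rw [hS]; exact norm_nonneg _
  obtain ⟨l, hl'⟩ := approxWC hψc hsupp (show 0 < ε / (2 * (S + 1)) by positivity)
  refine ⟨E1 hp (dv l), ⟨dv l, rfl⟩, ?_⟩
  have h1 : dist g (hψm.toLp ψ) ≤ ε / 2 := by
    rw [Lp.dist_def]
    have h2 : eLpNorm (⇑g - ⇑(hψm.toLp ψ)) (ENNReal.ofReal p) hl ≤ ENNReal.ofReal (ε / 2) := by
      refine le_trans (le_of_eq ?_) hψe
      apply eLpNorm_congr_ae
      filter_upwards [hψm.coeFn_toLp] with x hx
      simp [hx]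
    exact ENNReal.toReal_le_of_le_ofReal (by positivity) h2
  have h3 : dist (hψm.toLp ψ) (E1 hp (dv l)) ≤ ε / (2 * (S + 1)) * S := by
    rw [dist_eq_norm]
    refine le_trans (Lp.norm_le_mul_norm_of_ae_le_mul (c := ε / (2 * (S + 1)))
      (g := (memLp_e1 hp ⟨1, one_pos⟩).toLp (e1 ⟨1, one_pos⟩)) ?_) (le_of_eq (by rw [← hS]))
    filter_upwards [Lp.coeFn_sub (hψm.toLp ψ) (E1 hp (dv l)), hψm.coeFn_toLp,
      lin_coe (memLp_e1 hp) (dv l), (memLp_e1 hp ⟨1, one_pos⟩).coeFn_toLp,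
      ae_restrict_mem measurableSet_Ioi] with x h1 h2 h3 h4 hx
    have hx0 : 0 < x := hx
    have h3' : (E1 hp (dv l)) x = l.sum (fun b a => a * ((1 / (x ^ 2 + b.1 ^ 2) : ℝ) : ℂ)) := by
      rw [← dv_e1]; exact h3
    rw [h1, Pi.sub_apply, h2, h3', h4]
    refine le_trans (hl' x hx0.le) (le_of_eq ?_)
    rw [e1, Complex.norm_real, Real.norm_eq_abs, abs_of_nonneg (by positivity)]
    simp only [one_pow]
    rw [add_comm 1 (x ^ 2)]
  have h4 : ε / (2 * (S + 1)) * S < ε / 2 := by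
    rw [div_mul_eq_mul_div, div_lt_div_iff₀ (by positivity) (by norm_num)]
    nlinarith
  calc dist g (E1 hp (dv l)) ≤ dist g (hψm.toLp ψ) + dist (hψm.toLp ψ) (E1 hp (dv l)) :=
        dist_triangle _ _ _
    _ < ε / 2 + ε / 2 := by linarith
    _ = ε := by ring

/-- `‖β² / (x² + β²)‖_p → 0` as `β → 0` -/
theorem small_e1 {p : ℝ} [Fact (1 ≤ ENNReal.ofReal p)] (hp : 1 < p) {ε : ℝ} (hε : 0 < ε) :
    ∃ b : PP, b.1 * ‖(memLp_e1 hp b).toLp (e1 b)‖ ≤ ε := by
  have hp0 : 0 < p := by linarith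
  let β : ℕ → PP := fun n => ⟨1 / ((n : ℝ) + 1), by positivity⟩
  have hβ1 : ∀ n, (β n).1 ≤ 1 := by
    intro n
    show 1 / ((n : ℝ) + 1) ≤ 1
    rw [div_le_one (by positivity)]
    have : (0:ℝ) ≤ n := Nat.cast_nonneg n
    linarith
  have hlim : Tendsto (fun n => (β n).1) atTop (𝓝 0) := tendsto_one_div_add_atTop_nhds_zero_nat
  have h1 : Tendsto (fun n => ∫ x in Ioi (0:ℝ), ((β n).1 ^ 2 / (x ^ 2 + (β n).1 ^ 2)) ^ p) atTop
      (𝓝 (∫ x in Ioi (0:ℝ), (0:ℝ))) := by
    apply tendsto_integral_of_dominated_convergence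
      (fun x => ‖e1 ⟨1, one_pos⟩ x‖ ^ p)
    · intro n
      apply Measurable.aestronglyMeasurable
      fun_prop
    · have := (memLp_e1 hp ⟨1, one_pos⟩).integrable_norm_rpow (by simp [hp0]) ENNReal.ofReal_ne_top
      rwa [ENNReal.toReal_ofReal hp0.le] at this
    · intro n
      refine Filter.Eventually.of_forall fun x => ?_
      have hb := (β n).2
      have hd := den_pos' (β n) x
      rw [Real.norm_eq_abs, abs_of_nonneg (by positivity), e1, Complex.norm_real, Real.norm_eq_abs,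
        abs_of_nonneg (by positivity)]
      apply Real.rpow_le_rpow (by positivity) _ hp0.le
      simp only [one_pow]
      rw [div_le_div_iff₀ hd (by positivity)]
      have h2 : (β n).1 ^ 2 ≤ 1 := by
        have := hβ1 n
        nlinarith
      nlinarith [sq_nonneg x]
    · filter_upwards [ae_restrict_mem measurableSet_Ioi] with x hx
      have hx0 : 0 < x := hx
      have h2 : Tendsto (fun n => (β n).1 ^ 2 / (x ^ 2 + (β n).1 ^ 2)) atTop
          (𝓝 (0 ^ 2 / (x ^ 2 + 0 ^ 2))) :=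
        (hlim.pow 2).div (tendsto_const_nhds.add (hlim.pow 2)) (by positivity)
      have h3 := h2.rpow_const (p := p) (Or.inr hp0.le)
      simpa [Real.zero_rpow hp0.ne'] using h3
  rw [integral_zero] at h1
  have h2 : ∀ᶠ n in atTop, ∫ x in Ioi (0:ℝ), ((β n).1 ^ 2 / (x ^ 2 + (β n).1 ^ 2)) ^ p < ε ^ p :=
    h1.eventually_lt_const (by positivity)
  obtain ⟨n, hn⟩ := h2.exists
  refine ⟨β n, ?_⟩
  have h3 : ((β n).1 * ‖(memLp_e1 hp (β n)).toLp (e1 (β n))‖) ^ p < ε ^ p := by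
    rw [Real.mul_rpow (β n).2.le (norm_nonneg _),
      lp_norm_rpow' hp0 _ (memLp_e1 hp (β n)).coeFn_toLp, ← integral_const_mul]
    refine lt_of_le_of_lt (le_of_eq ?_) hn
    congr 1
    funext x
    have hb := (β n).2
    have hd := den_pos' (β n) x
    rw [e1, Complex.norm_real, Real.norm_eq_abs, abs_of_nonneg (by positivity),
      ← Real.mul_rpow hb.le (by positivity)]
    congr 1
    ring
  exact (Real.rpow_lt_rpow_iff (by have := (β n).2; positivity) hε.le hp0).1 h3 |>.le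

theorem dense_E2 {p : ℝ} [Fact (1 ≤ ENNReal.ofReal p)] (hp : 1 < p) : DenseRange (E2 hp) := by
  intro g
  rw [Metric.mem_closure_iff]
  intro ε hε
  have hε2 : ENNReal.ofReal (ε / 3) ≠ 0 := by simp [hε]
  obtain ⟨ψ, hsupp, hψe, hψc, hψm⟩ := (Lp.memLp g).exists_hasCompactSupport_eLpNorm_sub_le
    ENNReal.ofReal_ne_top hε2
  obtain ⟨B, hB⟩ := hsupp.exists_bound_of_continuous hψc
  have hB0 : 0 ≤ B := le_trans (norm_nonneg _) (hB 0)
  obtain ⟨β, hβ⟩ := small_e1 hp (show 0 < ε / (3 * (B + 1)) by positivity)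
  obtain ⟨S, hS⟩ : ∃ S : ℝ, S = ‖(memLp_e2 hp ⟨1, one_pos⟩).toLp (e2 ⟨1, one_pos⟩)‖ := ⟨_, rfl⟩
  have hS0 : 0 ≤ S := by rw [hS]; exact norm_nonneg _
  let χ : ℝ → ℂ := fun x => ψ x * e2 β x
  have hχc : Continuous χ := hψc.mul (continuous_e2 β)
  have hχs : HasCompactSupport χ := hsupp.mul_right
  obtain ⟨l, hl'⟩ := approxWC hχc hχs (show 0 < ε / (3 * (S + 1)) by positivity)
  refine ⟨E2 hp l, ⟨l, rfl⟩, ?_⟩
  have h1 : dist g (hψm.toLp ψ) ≤ ε / 3 := by
    rw [Lp.dist_def]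
    have h2 : eLpNorm (⇑g - ⇑(hψm.toLp ψ)) (ENNReal.ofReal p) hl ≤ ENNReal.ofReal (ε / 3) := by
      refine le_trans (le_of_eq ?_) hψe
      apply eLpNorm_congr_ae
      filter_upwards [hψm.coeFn_toLp] with x hx
      simp [hx]
    exact ENNReal.toReal_le_of_le_ofReal (by positivity) h2
  -- `ψ - x χ`
  have hxc : Continuous fun x : ℝ => (x:ℂ) * χ x := Complex.continuous_ofReal.mul hχc
  have hmem : MemLp (fun x : ℝ => (x:ℂ) * χ x) (ENNReal.ofReal p) hl :=
    hxc.memLp_of_hasCompactSupport hχs.mul_left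
  have h2 : dist (hψm.toLp ψ) (hmem.toLp _) ≤ ε / 3 := by
    rw [dist_eq_norm]
    have h3 : ‖hψm.toLp ψ - hmem.toLp _‖ ≤
        (B * β.1) * ‖(memLp_e1 hp β).toLp (e1 β)‖ := by
      apply Lp.norm_le_mul_norm_of_ae_le_mul
      filter_upwards [Lp.coeFn_sub (hψm.toLp ψ) (hmem.toLp _), hψm.coeFn_toLp, hmem.coeFn_toLp,
        (memLp_e1 hp β).coeFn_toLp] with x h1 h2 h3 h4
      rw [h1, Pi.sub_apply, h2, h3, h4]
      have hd := den_pos' β x
      have hdc : ((x:ℂ) ^ 2 + (β.1:ℂ) ^ 2) ≠ 0 := by exact_mod_cast hd.ne'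
      have e : ψ x - (x:ℂ) * χ x = ψ x * ((β.1 : ℂ) * e1 β x) := by
        simp only [χ, e1, e2]
        push_cast
        field_simp
        ring
      rw [e, norm_mul, norm_mul, Complex.norm_real, Real.norm_eq_abs, abs_of_pos β.2, ← mul_assoc]
      apply mul_le_mul_of_nonneg_right _ (norm_nonneg _)
      exact mul_le_mul_of_nonneg_right (hB x) β.2.le
    refine le_trans h3 ?_
    rw [mul_assoc]
    refine le_trans (mul_le_mul_of_nonneg_left hβ hB0) ?_
    rw [← mul_div_assoc, div_le_div_iff₀ (by positivity) (by norm_num)]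
    nlinarith
  have h3 : dist (hmem.toLp _) (E2 hp l) ≤ ε / (3 * (S + 1)) * S := by
    rw [dist_eq_norm]
    refine le_trans (Lp.norm_le_mul_norm_of_ae_le_mul (c := ε / (3 * (S + 1)))
      (g := (memLp_e2 hp ⟨1, one_pos⟩).toLp (e2 ⟨1, one_pos⟩)) ?_) (le_of_eq (by rw [← hS]))
    filter_upwards [Lp.coeFn_sub (hmem.toLp _) (E2 hp l), hmem.coeFn_toLp,
      lin_coe (memLp_e2 hp) l, (memLp_e2 hp ⟨1, one_pos⟩).coeFn_toLp,
      ae_restrict_mem measurableSet_Ioi] with x h1 h2 h3 h4 hx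
    have hx0 : 0 < x := hx
    have h3' : (E2 hp l) x = x * l.sum (fun b a => a * ((1 / (x ^ 2 + b.1 ^ 2) : ℝ) : ℂ)) := by
      rw [← sum_e2']; exact h3
    rw [h1, Pi.sub_apply, h2, h3', h4, ← mul_sub, norm_mul, Complex.norm_real, Real.norm_eq_abs,
      abs_of_pos hx0]
    refine le_trans (mul_le_mul_of_nonneg_left (hl' x hx0.le) hx0.le) (le_of_eq ?_)
    rw [e2, Complex.norm_real, Real.norm_eq_abs, abs_of_nonneg (by positivity)]
    simp only [one_pow]
    rw [add_comm 1 (x ^ 2)]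
    ring
  have h4 : ε / (3 * (S + 1)) * S < ε / 3 := by
    rw [div_mul_eq_mul_div, div_lt_div_iff₀ (by positivity) (by norm_num)]
    nlinarith
  calc dist g (E2 hp l) ≤ dist g (hψm.toLp ψ) + dist (hψm.toLp ψ) (E2 hp l) :=
        dist_triangle _ _ _
    _ ≤ dist g (hψm.toLp ψ) + (dist (hψm.toLp ψ) (hmem.toLp _) + dist (hmem.toLp _) (E2 hp l)) := by
        gcongr
        exact dist_triangle _ _ _
    _ < ε / 3 + (ε / 3 + ε / 3) := by linarith
    _ = ε := by ring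

/-- totality of class 2 -/
theorem total2 {G : ℝ → ℂ} (hG : Integrable (fun x => G x * e2 ⟨1, one_pos⟩ x) hl)
    (h : ∀ b : PP, ∫ x, G x * e2 b x ∂hl = 0) : ∀ᵐ x ∂hl, G x = 0 := by
  -- integrability against every `e2 b`
  have hxs : Integrable (fun x : ℝ => G x * x * ((1 / (1 + x ^ 2) : ℝ) : ℂ)) hl := by
    refine hG.congr (Filter.Eventually.of_forall fun x => ?_)
    simp only [e2, one_pow]
    push_cast
    rw [add_comm (1:ℂ)]
    ring
  have hint : ∀ b : PP, Integrable (fun x => G x * e2 b x) hl := by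
    intro b
    have hb := b.2
    have h1 := hxs.bdd_mul (c := 1 + 1 / b.1 ^ 2)
      (f := fun x : ℝ => (((1 + x ^ 2) / (x ^ 2 + b.1 ^ 2) : ℝ) : ℂ)) ?_ ?_
    · refine h1.congr (Filter.Eventually.of_forall fun x => ?_)
      have hd := den_pos' b x
      have hdc : ((x:ℂ) ^ 2 + (b.1:ℂ) ^ 2) ≠ 0 := by exact_mod_cast hd.ne'
      have hdc' : (1 + (x:ℂ) ^ 2) ≠ 0 := by
        exact_mod_cast (by positivity : (1 + x ^ 2 : ℝ) ≠ 0)
      simp only [e2]
      push_cast
      field_simp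
    · apply Continuous.aestronglyMeasurable
      exact Complex.continuous_ofReal.comp ((by fun_prop : Continuous fun x : ℝ => 1 + x ^ 2).div
        (by fun_prop) (fun x => (den_pos' b x).ne'))
    · refine Filter.Eventually.of_forall fun x => ?_
      have hd := den_pos' b x
      rw [Complex.norm_real, Real.norm_eq_abs, abs_of_nonneg (by positivity), div_le_iff₀ hd]
      have : (1 + 1 / b.1 ^ 2) * (x ^ 2 + b.1 ^ 2) = x ^ 2 + b.1 ^ 2 + x ^ 2 / b.1 ^ 2 + 1 := by
        field_simp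
        ring
      rw [this]
      have : 0 ≤ x ^ 2 / b.1 ^ 2 := by positivity
      have : 0 ≤ b.1 ^ 2 := by positivity
      linarith
  have hzero : ∀ l : PP →₀ ℂ, ∫ x, G x * l.sum (fun b a => a * e2 b x) ∂hl = 0 := by
    intro l
    have h1 : ∀ x, G x * l.sum (fun b a => a * e2 b x) = ∑ b ∈ l.support, l b * (G x * e2 b x) := by
      intro x
      rw [Finsupp.sum, Finset.mul_sum]
      apply Finset.sum_congr rfl
      intro b _
      ring
    simp only [h1]
    rw [integral_finsetSum]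
    · apply Finset.sum_eq_zero
      intro b _
      rw [integral_const_mul, h b, mul_zero]
    · intro b _
      exact (hint b).const_mul _
  have hloc : LocallyIntegrable (fun x : ℝ => G x * x) hl := by
    rw [locallyIntegrable_iff]
    intro K hK
    have h1 : IntegrableOn (fun x : ℝ => G x * x * ((1 / (1 + x ^ 2) : ℝ) : ℂ)) K hl :=
      hxs.integrableOn
    have h2 := h1.continuousOn_mul (g := fun x : ℝ => ((1 + x ^ 2 : ℝ) : ℂ))
      (Complex.continuous_ofReal.comp (by fun_prop)).continuousOn hK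
    refine h2.congr_fun_ae (Filter.Eventually.of_forall fun x => ?_)
    have hdc' : (1 + (x:ℂ) ^ 2) ≠ 0 := by
      exact_mod_cast (by positivity : (1 + x ^ 2 : ℝ) ≠ 0)
    simp only
    push_cast
    field_simp
  have hmain : ∀ᵐ x ∂hl, G x * x = 0 := by
    apply ae_eq_zero_of_integral_contDiff_smul_eq_zero hloc
    intro ψ hψ hψs
    have hψi : Integrable (fun x : ℝ => ψ x • (G x * x)) hl := by
      exact hloc.integrable_smul_left_of_hasCompactSupport hψ.continuous hψs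
    by_contra hne
    obtain ⟨N, hN⟩ : ∃ N : ℝ, N = ∫ x, ‖G x * x * ((1 / (1 + x ^ 2) : ℝ) : ℂ)‖ ∂hl := ⟨_, rfl⟩
    have hN0 : 0 ≤ N := by rw [hN]; exact integral_nonneg fun x => norm_nonneg _
    obtain ⟨ε, hε⟩ : ∃ ε : ℝ, ε = ‖∫ x, ψ x • (G x * x) ∂hl‖ / (2 * (N + 1)) := ⟨_, rfl⟩
    have hε0 : 0 < ε := by
      rw [hε]
      have := norm_pos_iff.2 hne
      positivity
    obtain ⟨l, hl'⟩ := approxWC (ψ := fun x => (ψ x : ℂ))
      (Complex.continuous_ofReal.comp hψ.continuous)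
      (hψs.comp_left (g := fun x : ℝ => (x:ℂ)) rfl) hε0
    have hli : Integrable (fun x => G x * l.sum (fun b a => a * e2 b x)) hl := by
      have h1 : ∀ x, G x * l.sum (fun b a => a * e2 b x) =
          ∑ b ∈ l.support, l b * (G x * e2 b x) := by
        intro x
        rw [Finsupp.sum, Finset.mul_sum]
        apply Finset.sum_congr rfl
        intro b _
        ring
      simp only [h1]
      exact integrable_finsetSum _ fun b _ => (hint b).const_mul _
    have h1 : ∫ x, ψ x • (G x * x) ∂hl =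
        ∫ x, (ψ x • (G x * x) - G x * l.sum (fun b a => a * e2 b x)) ∂hl := by
      rw [integral_sub hψi hli, hzero, sub_zero]
    have h2 : ‖∫ x, ψ x • (G x * x) ∂hl‖ ≤ ε * N := by
      rw [h1, hN, ← integral_const_mul]
      apply norm_integral_le_of_norm_le (hxs.norm.const_mul ε)
      filter_upwards [ae_restrict_mem measurableSet_Ioi] with x hx
      have hx0 : 0 < x := hx
      rw [sum_e2']
      have e : ψ x • (G x * x) - G x * (x * l.sum (fun b a => a * ((1 / (x ^ 2 + b.1 ^ 2) : ℝ) : ℂ)))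
          = (G x * x) * ((ψ x : ℂ) - l.sum (fun b a => a * ((1 / (x ^ 2 + b.1 ^ 2) : ℝ) : ℂ))) := by
        rw [Complex.real_smul]; ring
      rw [e, norm_mul, norm_mul (G x * x)]
      have h3 := hl' x hx0.le
      have h4 : ‖((1 / (1 + x ^ 2) : ℝ) : ℂ)‖ = 1 / (1 + x ^ 2) := by
        rw [Complex.norm_real, Real.norm_eq_abs, abs_of_nonneg (by positivity)]
      rw [h4]
      calc ‖G x * x‖ * ‖(ψ x : ℂ) - l.sum (fun b a => a * ((1 / (x ^ 2 + b.1 ^ 2) : ℝ) : ℂ))‖
          ≤ ‖G x * x‖ * (ε * (1 / (1 + x ^ 2))) := mul_le_mul_of_nonneg_left h3 (norm_nonneg _)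
        _ = _ := by ring
    have h3 : ‖∫ x, ψ x • (G x * x) ∂hl‖ = ε * (2 * (N + 1)) := by
      rw [hε]; field_simp
    rw [h3] at h2
    nlinarith
  filter_upwards [hmain, ae_restrict_mem measurableSet_Ioi] with x h1 hx
  have hx0 : (x:ℂ) ≠ 0 := by
    have : 0 < x := hx
    exact_mod_cast this.ne'
  exact (mul_eq_zero.1 h1).resolve_right hx0

end Pool.Agent.D0H32.RE
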