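import Pool.Agent.D0H32.RE.Tot
import Pool.Agent.D0H32.RE.Gram

/-!
# The bounded operators on `L^p` (project RE)
-/

set_option autoImplicit false

open Real Set Filter Topology MeasureTheory

namespace Pool.Agent.D0H32.RE

/-- the generator `b / (x² + b²)` in `L^p` -/
noncomputable def gen1 {p : ℝ} (hp : 1 < p) (b : PP) : Lp ℂ (ENNReal.ofReal p) hl :=
  (memLp_e1 hp b).toLp (e1 b)

/-- the generator `x / (x² + b²)` in `L^p` -/
noncomputable def gen2 {p : ℝ} (hp : 1 < p) (b : PP) : Lp ℂ (ENNReal.ofReal p) hl :=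
  (memLp_e2 hp b).toLp (e2 b)

theorem E1_apply {p : ℝ} (hp : 1 < p) (l : PP →₀ ℂ) :
    E1 hp l = l.sum fun b a => a • gen1 hp b := Finsupp.linearCombination_apply _ _

theorem E2_apply {p : ℝ} (hp : 1 < p) (l : PP →₀ ℂ) :
    E2 hp l = l.sum fun b a => a • gen2 hp b := Finsupp.linearCombination_apply _ _

theorem E1_single {p : ℝ} (hp : 1 < p) (b : PP) : E1 hp (Finsupp.single b 1) = gen1 hp b := by
  rw [E1_apply, Finsupp.sum_single_index (by simp), one_smul]

theorem E2_single {p : ℝ} (hp : 1 < p) (b : PP) : E2 hp (Finsupp.single b 1) = gen2 hp b := by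
  rw [E2_apply, Finsupp.sum_single_index (by simp), one_smul]

section

variable {p q : ℝ} [Fact (1 ≤ ENNReal.ofReal p)] [Fact (1 ≤ ENNReal.ofReal q)]

theorem pairL_symm {μ : Measure ℝ} (hpq : p.HolderConjugate q) (f : Lp ℂ (ENNReal.ofReal p) μ)
    (g : Lp ℂ (ENNReal.ofReal q) μ) : pairL hpq g f = pairL hpq.symm f g := by
  rw [pairL_apply, pairL_apply]
  congr 1
  funext x
  ring

theorem pair_gen1 (hpq : p.HolderConjugate q) (a b : PP) :
    pairL hpq (gen1 hpq.symm.lt b) (gen1 hpq.lt a) = ((π / (2 * (a.1 + b.1)) : ℝ) : ℂ) := by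
  rw [pairL_apply, ← gram1]
  apply integral_congr_ae
  filter_upwards [(memLp_e1 hpq.lt a).coeFn_toLp, (memLp_e1 hpq.symm.lt b).coeFn_toLp] with x h1 h2
  rw [gen1, gen1, h1, h2]

theorem pair_gen2 (hpq : p.HolderConjugate q) (a b : PP) :
    pairL hpq (gen2 hpq.symm.lt b) (gen2 hpq.lt a) = ((π / (2 * (a.1 + b.1)) : ℝ) : ℂ) := by
  rw [pairL_apply, ← gram2]
  apply integral_congr_ae
  filter_upwards [(memLp_e2 hpq.lt a).coeFn_toLp, (memLp_e2 hpq.symm.lt b).coeFn_toLp] with x h1 h2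
  rw [gen2, gen2, h1, h2]

theorem pairEE (hpq : p.HolderConjugate q) (l m : PP →₀ ℂ) :
    pairL hpq (E2 hpq.symm.lt m) (E2 hpq.lt l) = pairL hpq (E1 hpq.symm.lt m) (E1 hpq.lt l) := by
  have key : ∀ a, pairL hpq (E2 hpq.symm.lt m) (gen2 hpq.lt a) =
      pairL hpq (E1 hpq.symm.lt m) (gen1 hpq.lt a) := by
    intro a
    rw [pairL_symm, pairL_symm hpq (gen1 hpq.lt a), E1_apply, E2_apply, map_finsuppSum,
      map_finsuppSum]
    apply Finsupp.sum_congr
    intro b _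
    rw [map_smul, map_smul]
    congr 1
    rw [← pairL_symm hpq, ← pairL_symm hpq, pair_gen1, pair_gen2]
  rw [E1_apply hpq.lt l, E2_apply hpq.lt l, map_finsuppSum, map_finsuppSum]
  apply Finsupp.sum_congr
  intro b _
  rw [map_smul, map_smul, key]

end

/-- the class inequality for all `p ∈ (1, ∞)` -/
theorem cls_all {p C : ℝ} [Fact (1 ≤ ENNReal.ofReal p)] (hp : 1 < p)
    (hC : IsGreatest (range (R (max p (p / (p - 1))))) C) (hC0 : 0 ≤ C) (l : PP →₀ ℂ) :
    ‖E1 hp l - E2 hp l‖ ≤ C ^ (1 / max p (p / (p - 1))) * ‖E1 hp l‖ := by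
  have hp1 : 0 < p - 1 := by linarith
  rcases le_or_gt 2 p with h2 | h2
  · have hmax : max p (p / (p - 1)) = p := by
      apply max_eq_left
      rw [div_le_iff₀ hp1]
      nlinarith
    rw [hmax] at hC ⊢
    exact (cls_Lp hp h2 hC hC0 l).1
  · obtain ⟨q, hq⟩ : ∃ q : ℝ, q = p / (p - 1) := ⟨_, rfl⟩
    have hpq : p.HolderConjugate q := by
      rw [hq]; exact Real.HolderConjugate.conjExponent hp
    have hq2 : 2 ≤ q := by
      rw [hq, le_div_iff₀ hp1]; linarith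
    have hmax : max p (p / (p - 1)) = q := by
      rw [← hq]
      apply max_eq_right
      linarith
    rw [hmax] at hC ⊢
    have : Fact (1 ≤ ENNReal.ofReal q) := ⟨by
      rw [ENNReal.one_le_ofReal]; linarith⟩
    refine norming hpq.symm (E1 hp l - E2 hp l) (by positivity) (dense_E2 hpq.symm.lt) (fun m => ?_)
    have e1' : pairL hpq.symm (E1 hp l - E2 hp l) (E2 hpq.symm.lt m) =
        pairL hpq.symm (E1 hp l) (E2 hpq.symm.lt m - E1 hpq.symm.lt m) := by
      rw [← pairL_symm hpq, map_sub, pairEE hpq l m, map_sub, ← pairL_symm hpq, ← pairL_symm hpq]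
    rw [e1', pairL_apply]
    refine le_trans (pair_bound hpq.symm _ _) ?_
    have h3 := (cls_Lp hpq.symm.lt hq2 hC hC0 m).2
    rw [norm_sub_rev] at h3
    calc ‖E2 hpq.symm.lt m - E1 hpq.symm.lt m‖ * ‖E1 hp l‖
        ≤ (C ^ (1 / q) * ‖E2 hpq.symm.lt m‖) * ‖E1 hp l‖ :=
          mul_le_mul_of_nonneg_right h3 (norm_nonneg _)
      _ = _ := by ring

theorem exists_const (p : ℝ) (hp : 1 < p) :
    ∃ C : ℝ, IsGreatest (range (R (max p (p / (p - 1))))) C ∧ 0 < C := by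
  have hq : 1 < max p (p / (p - 1)) := lt_of_lt_of_le hp (le_max_left _ _)
  obtain ⟨x, hx⟩ := exists_max _ hq
  refine ⟨R (max p (p / (p - 1))) x, ⟨⟨x, rfl⟩, ?_⟩, ?_⟩
  · rintro _ ⟨y, rfl⟩
    exact hx y
  · exact lt_of_lt_of_le (DD_pos _) (DD_le_max _ _ hq hx)

/-- the bounded operator on `L^p` -/
noncomputable def T {p : ℝ} [Fact (1 ≤ ENNReal.ofReal p)] (hp : 1 < p) :
    Lp ℂ (ENNReal.ofReal p) hl →L[ℂ] Lp ℂ (ENNReal.ofReal p) hl :=
  (E2 hp).extendOfNorm (E1 hp)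

theorem T_bound {p : ℝ} [Fact (1 ≤ ENNReal.ofReal p)] (hp : 1 < p) :
    ∃ A, ∀ l, ‖E2 hp l‖ ≤ A * ‖E1 hp l‖ := by
  obtain ⟨C, hC, hC0⟩ := exists_const p hp
  refine ⟨1 + C ^ (1 / max p (p / (p - 1))), fun l => ?_⟩
  have h1 := cls_all hp hC hC0.le l
  have h2 : E2 hp l = E1 hp l - (E1 hp l - E2 hp l) := by abel
  rw [h2]
  refine le_trans (norm_sub_le _ _) ?_
  rw [← h2] at *
  linarith

theorem T_E1 {p : ℝ} [Fact (1 ≤ ENNReal.ofReal p)] (hp : 1 < p) (l : PP →₀ ℂ) :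
    T hp (E1 hp l) = E2 hp l :=
  LinearMap.extendOfNorm_eq (dense_E1 hp) (T_bound hp) l

theorem T_norm {p C : ℝ} [Fact (1 ≤ ENNReal.ofReal p)] (hp : 1 < p)
    (hC : IsGreatest (range (R (max p (p / (p - 1))))) C) (hC0 : 0 ≤ C)
    (f : Lp ℂ (ENNReal.ofReal p) hl) :
    ‖f - T hp f‖ ≤ C ^ (1 / max p (p / (p - 1))) * ‖f‖ := by
  refine (dense_E1 hp).induction_on f (isClosed_le (by fun_prop) (by fun_prop)) (fun l => ?_)
  rw [T_E1]
  exact cls_all hp hC hC0 l

/-- the pairing identity -/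
theorem T_pair {p q : ℝ} [Fact (1 ≤ ENNReal.ofReal p)] [Fact (1 ≤ ENNReal.ofReal q)]
    (hpq : p.HolderConjugate q) (f : Lp ℂ (ENNReal.ofReal p) hl) (b : PP) :
    pairL hpq (gen2 hpq.symm.lt b) (T hpq.lt f) = pairL hpq (gen1 hpq.symm.lt b) f := by
  refine (dense_E1 hpq.lt).induction_on f (isClosed_eq (by fun_prop) (by fun_prop)) (fun l => ?_)
  rw [T_E1]
  have := pairEE hpq l (Finsupp.single b 1)
  rwa [E1_single, E2_single] at this

theorem T_pair' {p : ℝ} [Fact (1 ≤ ENNReal.ofReal p)]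
    (hp : 1 < p) (f : Lp ℂ (ENNReal.ofReal p) hl) (b : PP) :
    ∫ x, T hp f x * e2 b x ∂hl = ∫ x, f x * e1 b x ∂hl := by
  have hpq := Real.HolderConjugate.conjExponent hp
  have : Fact (1 ≤ ENNReal.ofReal (Real.conjExponent p)) := ⟨by
    rw [ENNReal.one_le_ofReal]; exact hpq.symm.lt.le⟩
  have h := T_pair hpq f b
  rw [pairL_apply, pairL_apply] at h
  have h1 : ∫ x, T hp f x * e2 b x ∂hl = ∫ x, T hp f x * gen2 hpq.symm.lt b x ∂hl := by
    apply integral_congr_ae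
    filter_upwards [(memLp_e2 hpq.symm.lt b).coeFn_toLp] with x hx
    rw [gen2, hx]
  have h2 : ∫ x, f x * e1 b x ∂hl = ∫ x, f x * gen1 hpq.symm.lt b x ∂hl := by
    apply integral_congr_ae
    filter_upwards [(memLp_e1 hpq.symm.lt b).coeFn_toLp] with x hx
    rw [gen1, hx]
  rw [h1, h2]
  exact h

theorem pair_e2_integrable {p : ℝ} [Fact (1 ≤ ENNReal.ofReal p)]
    (hp : 1 < p) (f : Lp ℂ (ENNReal.ofReal p) hl) (b : PP) :
    Integrable (fun x => f x * e2 b x) hl := by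
  have hpq := Real.HolderConjugate.conjExponent hp
  exact pair_integrable hpq (Lp.memLp f) (memLp_e2 hpq.symm.lt b)

/-- consistency of the operators for different exponents -/
theorem T_agree {p r : ℝ} [Fact (1 ≤ ENNReal.ofReal p)] [Fact (1 ≤ ENNReal.ofReal r)]
    (hp : 1 < p) (hr : 1 < r) (f : Lp ℂ (ENNReal.ofReal p) hl) (g : Lp ℂ (ENNReal.ofReal r) hl)
    (h : f =ᵐ[hl] g) : T hp f =ᵐ[hl] T hr g := by
  have h1 : ∀ᵐ x ∂hl, T hp f x - T hr g x = 0 := by
    apply total2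
    · have := (pair_e2_integrable hp (T hp f) ⟨1, one_pos⟩).sub
        (pair_e2_integrable hr (T hr g) ⟨1, one_pos⟩)
      refine this.congr (Filter.Eventually.of_forall fun x => ?_)
      simp only [Pi.sub_apply]
      ring
    · intro b
      have h2 : ∫ x, (T hp f x - T hr g x) * e2 b x ∂hl =
          ∫ x, T hp f x * e2 b x ∂hl - ∫ x, T hr g x * e2 b x ∂hl := by
        rw [← integral_sub (pair_e2_integrable hp (T hp f) b) (pair_e2_integrable hr (T hr g) b)]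
        congr 1
        funext x
        ring
      rw [h2, T_pair', T_pair', sub_eq_zero]
      apply integral_congr_ae
      filter_upwards [h] with x hx
      rw [hx]
  filter_upwards [h1] with x hx
  exact sub_eq_zero.1 hx

end Pool.Agent.D0H32.RE
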