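import Mathlib

/-!
# Trigonometric convexity tools (project RE)

`k p θ = |cos θ| ^ p`, its first two derivatives, and Wronskian inequalities.
-/

set_option autoImplicit false

open Real Set Filter Topology

namespace Pool.Agent.D0H32.RE

/-- derivative of `x ↦ |x| ^ (p-2) * x` for `p > 2` -/
theorem hasDerivAt_abs_rpow_mul (p : ℝ) (hp : 2 < p) (x : ℝ) :
    HasDerivAt (fun y : ℝ => |y| ^ (p - 2) * y) ((p - 1) * |x| ^ (p - 2)) x := by
  rcases eq_or_ne x 0 with rfl | hx
  · rw [hasDerivAt_iff_tendsto_slope_zero]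
    simp only [abs_zero, mul_zero, sub_zero, zero_add]
    rw [Real.zero_rpow (by linarith), mul_zero]
    have h1 : Tendsto (fun t : ℝ => |t| ^ (p - 2)) (𝓝[≠] 0) (𝓝 0) := by
      have h2 : Tendsto (fun t : ℝ => |t| ^ (p - 2)) (𝓝 0) (𝓝 (|(0:ℝ)| ^ (p - 2))) := by
        have : Continuous (fun t : ℝ => |t| ^ (p - 2)) :=
          continuous_abs.rpow_const (fun _ => Or.inr (by linarith))
        exact this.tendsto 0
      rw [abs_zero, Real.zero_rpow (by linarith)] at h2
      exact h2.mono_left nhdsWithin_le_nhds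
    refine h1.congr' ?_
    filter_upwards [self_mem_nhdsWithin] with t ht
    have : t ≠ 0 := ht
    rw [smul_eq_mul]
    field_simp
  · have h1 : HasDerivAt (fun y : ℝ => |y| ^ (p - 2))
        ((p - 2) * |x| ^ (p - 2 - 1) * (SignType.sign x : ℝ)) x := by
      have h2 := (hasDerivAt_abs hx).rpow_const (p := p - 2) (Or.inl (abs_ne_zero.2 hx))
      exact h2.congr_deriv (by ring)
    have h3 := h1.mul (hasDerivAt_id x)
    refine h3.congr_deriv ?_
    have h4 : |x| ^ (p - 2) = |x| ^ (p - 2 - 1) * |x| := by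
      rw [← Real.rpow_add_one (abs_ne_zero.2 hx)]
      ring_nf
    have h5 : (SignType.sign x : ℝ) * x = |x| := by
      rw [mul_comm]; exact self_mul_sign x
    simp only [id]
    rw [h4]
    linear_combination ((p-2) * |x| ^ (p - 2 - 1)) * h5

/-- `k p θ = |cos θ| ^ p` -/
noncomputable def k (p θ : ℝ) : ℝ := |cos θ| ^ p

/-- its derivative -/
noncomputable def k1 (p θ : ℝ) : ℝ := -(p * (|cos θ| ^ (p - 2) * cos θ) * sin θ)

theorem hasDerivAt_k (p : ℝ) (hp : 1 < p) (θ : ℝ) : HasDerivAt (k p) (k1 p θ) θ := by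
  have h1 := (hasDerivAt_abs_rpow (cos θ) hp).comp θ (Real.hasDerivAt_cos θ)
  have h2 : k p = (fun x : ℝ => |x| ^ p) ∘ cos := rfl
  rw [h2]
  refine h1.congr_deriv ?_
  simp only [k1]
  ring

theorem hasDerivAt_k1 (p : ℝ) (hp : 2 < p) (θ : ℝ) :
    HasDerivAt (k1 p) (p * (p - 1) * |cos θ| ^ (p - 2) - p ^ 2 * k p θ) θ := by
  have h1 := (hasDerivAt_abs_rpow_mul p hp (cos θ)).comp θ (Real.hasDerivAt_cos θ)
  have h2 := ((h1.const_mul p).mul (Real.hasDerivAt_sin θ)).neg
  have h0 : k1 p = -fun y => p * ((fun y : ℝ => |y| ^ (p - 2) * y) ∘ cos) y * sin y := rfl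
  rw [h0]
  refine h2.congr_deriv ?_
  have h3 : |cos θ| ^ p = |cos θ| ^ (p - 2) * cos θ ^ 2 := by
    rcases eq_or_ne (cos θ) 0 with h | h
    · rw [h, abs_zero, Real.zero_rpow (by linarith)]
      simp
    · rw [← sq_abs, ← Real.rpow_natCast, ← Real.rpow_add (abs_pos.2 h)]
      congr 1
      norm_num
  simp only [k, Function.comp]
  rw [h3]
  have h4 := Real.sin_sq θ
  linear_combination (p * (p - 1) * |cos θ| ^ (p - 2)) * h4

theorem k_add_pi (p θ : ℝ) : k p (θ + π) = k p θ := by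
  simp [k, Real.cos_add_pi]

/-- Wronskian inequality -/
theorem wr_le {p A τ a b : ℝ} {δ δ1 μ : ℝ → ℝ} (hab : a ≤ b)
    (hδ : ∀ t, HasDerivAt δ (δ1 t) t) (hδ1 : ∀ t, HasDerivAt δ1 (μ t - p ^ 2 * δ t) t)
    (hs : ∀ t ∈ Ioo a b, 0 ≤ A * sin (p * (t - τ)) * μ t) :
    A * (sin (p * (a - τ)) * δ1 a - p * cos (p * (a - τ)) * δ a)
      ≤ A * (sin (p * (b - τ)) * δ1 b - p * cos (p * (b - τ)) * δ b) := by
  have hd : ∀ t, HasDerivAt
      (fun t => A * (sin (p * (t - τ)) * δ1 t - p * cos (p * (t - τ)) * δ t))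
      (A * sin (p * (t - τ)) * μ t) t := by
    intro t
    have h0 : HasDerivAt (fun t => p * (t - τ)) p t := by
      simpa using ((hasDerivAt_id t).sub_const τ).const_mul p
    have h1 := h0.sin
    have h2 := h0.cos
    have h3 := ((h1.mul (hδ1 t)).sub ((h2.const_mul p).mul (hδ t))).const_mul A
    exact h3.congr_deriv (by ring)
  have hm : MonotoneOn (fun t => A * (sin (p * (t - τ)) * δ1 t - p * cos (p * (t - τ)) * δ t))
      (Icc a b) := by
    apply monotoneOn_of_deriv_nonneg (convex_Icc a b)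
    · exact fun t _ => (hd t).continuousAt.continuousWithinAt
    · exact fun t _ => (hd t).differentiableAt.differentiableWithinAt
    · intro t ht
      rw [interior_Icc] at ht
      rw [(hd t).deriv]
      exact hs t ht
  exact hm (left_mem_Icc.2 hab) (right_mem_Icc.2 hab) hab

/-- strict Wronskian inequality -/
theorem wr_lt {p A τ a b : ℝ} {δ δ1 μ : ℝ → ℝ} (hab : a < b)
    (hδ : ∀ t, HasDerivAt δ (δ1 t) t) (hδ1 : ∀ t, HasDerivAt δ1 (μ t - p ^ 2 * δ t) t)
    (hs : ∀ t ∈ Ioo a b, 0 < A * sin (p * (t - τ)) * μ t) :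
    A * (sin (p * (a - τ)) * δ1 a - p * cos (p * (a - τ)) * δ a)
      < A * (sin (p * (b - τ)) * δ1 b - p * cos (p * (b - τ)) * δ b) := by
  have hd : ∀ t, HasDerivAt
      (fun t => A * (sin (p * (t - τ)) * δ1 t - p * cos (p * (t - τ)) * δ t))
      (A * sin (p * (t - τ)) * μ t) t := by
    intro t
    have h0 : HasDerivAt (fun t => p * (t - τ)) p t := by
      simpa using ((hasDerivAt_id t).sub_const τ).const_mul p
    have h1 := h0.sin
    have h2 := h0.cos
    have h3 := ((h1.mul (hδ1 t)).sub ((h2.const_mul p).mul (hδ t))).const_mul A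
    exact h3.congr_deriv (by ring)
  have hm : StrictMonoOn (fun t => A * (sin (p * (t - τ)) * δ1 t - p * cos (p * (t - τ)) * δ t))
      (Icc a b) := by
    apply strictMonoOn_of_deriv_pos (convex_Icc a b)
    · exact fun t _ => (hd t).continuousAt.continuousWithinAt
    · intro t ht
      rw [interior_Icc] at ht
      rw [(hd t).deriv]
      exact hs t ht
  exact hm (left_mem_Icc.2 hab.le) (right_mem_Icc.2 hab.le) hab

/-- the arcs of the sign of `e - 1 + e cos 2θ + sin 2θ` -/
theorem arcs (e : ℝ) (he : 1 ≤ e) : ∃ α β : ℝ, α < π / 2 ∧ π / 2 < β ∧ β - α ≤ π / 2 ∧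
    (∀ θ ∈ Ioo α β, e - 1 + e * cos (2 * θ) + sin (2 * θ) < 0) ∧
    (∀ θ ∈ Ioo β (α + π), 0 < e - 1 + e * cos (2 * θ) + sin (2 * θ)) := by
  obtain ⟨R, hR⟩ : ∃ R : ℝ, R = Real.sqrt (e ^ 2 + 1) := ⟨_, rfl⟩
  have hR2 : R ^ 2 = e ^ 2 + 1 := by rw [hR]; exact Real.sq_sqrt (by positivity)
  have hR0 : 0 < R := by rw [hR]; positivity
  have hRe : e < R := by nlinarith
  obtain ⟨T, hT⟩ : ∃ T : ℝ, T = arccos (e / R) := ⟨_, rfl⟩
  have hcT : cos T = e / R := by
    rw [hT, cos_arccos]
    · have : 0 < e / R := by positivity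
      linarith
    · rw [div_le_one hR0]; exact hRe.le
  have hsT : sin T = 1 / R := by
    rw [hT, sin_arccos]
    have h1 : 1 - (e / R) ^ 2 = (1 / R) ^ 2 := by
      field_simp
      linarith
    rw [h1, Real.sqrt_sq (by positivity)]
  have hT0 : 0 < T := by rw [hT, arccos_pos, div_lt_one hR0]; exact hRe
  have hT1 : T < π / 2 := by rw [hT, arccos_lt_pi_div_two]; positivity
  have hform : ∀ θ : ℝ, e - 1 + e * cos (2 * θ) + sin (2 * θ) = R * (cos (2 * θ - T) + (e - 1) / R) := by
    intro θ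
    rw [cos_sub, hcT, hsT]
    field_simp
    ring
  obtain ⟨w, hw⟩ : ∃ w : ℝ, w = arccos (-((e - 1) / R)) := ⟨_, rfl⟩
  have hq0 : 0 ≤ (e - 1) / R := div_nonneg (by linarith) hR0.le
  have hq1 : (e - 1) / R < 1 := by rw [div_lt_one hR0]; linarith
  have hcw : cos w = -((e - 1) / R) := by
    rw [hw, cos_arccos] <;> linarith
  have hw0 : π / 2 ≤ w := by
    rw [hw]
    have : arccos 0 ≤ arccos (-((e - 1) / R)) := by
      apply antitone_arccos
      linarith
    rwa [arccos_zero] at this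
  have hw1 : w < π := by
    rcases lt_or_eq_of_le (arccos_le_pi (-((e - 1) / R))) with h | h
    · rw [hw]; exact h
    · rw [arccos_eq_pi] at h
      linarith
  have hneg : ∀ x : ℝ, w < x → x < 2 * π - w → cos x + (e - 1) / R < 0 := by
    intro x h1 h2
    rcases le_total x π with h3 | h3
    · have := cos_lt_cos_of_nonneg_of_le_pi (by linarith [pi_pos]) h3 h1
      linarith
    · have h4 : cos x = cos (2 * π - x) := by rw [cos_two_pi_sub]
      have := cos_lt_cos_of_nonneg_of_le_pi (x := w) (y := 2 * π - x) (by linarith [pi_pos])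
        (by linarith) (by linarith)
      linarith
  have hpos : ∀ x : ℝ, -w < x → x < w → 0 < cos x + (e - 1) / R := by
    intro x h1 h2
    have h3 : cos x = cos |x| := (cos_abs x).symm
    have h4 : |x| < w := abs_lt.2 ⟨h1, h2⟩
    have := cos_lt_cos_of_nonneg_of_le_pi (abs_nonneg x) hw1.le h4
    linarith
  have hhalf : cos (2 * (π / 2) - T) + (e - 1) / R < 0 := by
    have h1 := hform (π / 2)
    have h2 : e - 1 + e * cos (2 * (π / 2)) + sin (2 * (π / 2)) = -1 := by
      have : 2 * (π / 2) = π := by ring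
      rw [this, cos_pi, sin_pi]; ring
    rw [h2] at h1
    by_contra hcon
    push Not at hcon
    nlinarith
  have hwT : w < π - T := by
    by_contra hcon
    push Not at hcon
    rcases lt_or_eq_of_le hcon with h | h
    · have := hpos (π - T) (by linarith [pi_pos]) h
      have h3 : 2 * (π / 2) - T = π - T := by ring
      rw [h3] at hhalf
      linarith
    · have h3 : 2 * (π / 2) - T = π - T := by ring
      rw [h3, h, hcw] at hhalf
      linarith
  refine ⟨(T + w) / 2, (T - w) / 2 + π, by linarith, by linarith, by linarith, ?_, ?_⟩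
  · rintro θ ⟨h1, h2⟩
    rw [hform]
    exact mul_neg_of_pos_of_neg hR0 (hneg _ (by linarith) (by linarith))
  · rintro θ ⟨h1, h2⟩
    rw [hform]
    have h3 : cos (2 * θ - T) = cos (2 * θ - T - 2 * π) := by rw [cos_sub_two_pi]
    rw [h3]
    exact mul_pos hR0 (hpos _ (by linarith) (by linarith))

end Pool.Agent.D0H32.RE
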